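import Pool.Agent.SubTyp.RpEig

/-!
# Typical ranks of pencils with respect to `Sub_{1,a,b}`
-/

open Module Submodule Set Polynomial
open scoped Topology

namespace Pool.Agent.SubTyp

theorem blk_one_min {p q a b : ℕ} {X : RPen p q} :
    Blk 1 a b X ↔ Blk 1 (min a b) (min a b) X := by
  rw [blk_one_iff, blk_one_iff, min_self]

theorem bp_one_min {p q a b s : ℕ} {T : RPen p q} :
    BP 1 a b s T ↔ BP 1 (min a b) (min a b) s T := by
  constructor
  · rintro ⟨X, h1, h2⟩
    exact ⟨X, fun j => blk_one_min.1 (h1 j), h2⟩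
  · rintro ⟨X, h1, h2⟩
    exact ⟨X, fun j => blk_one_min.2 (h1 j), h2⟩

theorem od_one_min {p q a b s : ℕ} : OD 1 a b s p q ↔ OD 1 (min a b) (min a b) s p q := by
  unfold OD
  simp only [bp_one_min (a := a) (b := b)]

theorem nb_one_min {p q a b s : ℕ} : NB 1 a b s p q ↔ NB 1 (min a b) (min a b) s p q := by
  unfold NB
  simp only [bp_one_min (a := a) (b := b)]

/-- **Rank of a combination.** -/
theorem rank_comb {p q r s : ℕ} (u : Fin s → Fin 2 → ℝ)
    (M : Fin s → ((Fin q → ℝ) →ₗ[ℝ] (Fin p → ℝ)))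
    (hM : ∀ j, finrank ℝ (LinearMap.range (M j)) ≤ r) {T : RPen p q}
    (hT : T = ∑ j, fun k => u j k • M j) (α β : ℝ) (S : Finset (Fin s))
    (hS : ∀ j, j ∉ S → α * u j 0 + β * u j 1 = 0) :
    finrank ℝ (LinearMap.range (α • T 0 + β • T 1)) ≤ S.card * r := by
  classical
  have h1 : α • T 0 + β • T 1 = ∑ j, (α * u j 0 + β * u j 1) • M j := by
    rw [hT, Finset.sum_apply, Finset.sum_apply, Finset.smul_sum, Finset.smul_sum,
      ← Finset.sum_add_distrib]
    refine Finset.sum_congr rfl fun j _ => ?_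
    rw [smul_smul, smul_smul, add_smul]
  have h2 : ∑ j, (α * u j 0 + β * u j 1) • M j = ∑ j ∈ S, (α * u j 0 + β * u j 1) • M j := by
    symm
    refine Finset.sum_subset (Finset.subset_univ S) fun j _ hj => ?_
    rw [hS j hj, zero_smul]
  have h3 : ∀ S' : Finset (Fin s), finrank ℝ (LinearMap.range
      (∑ j ∈ S', (α * u j 0 + β * u j 1) • M j)) ≤ S'.card * r := by
    intro S'
    induction S' using Finset.induction_on with
    | empty =>
      rw [Finset.sum_empty, LinearMap.range_zero, finrank_bot]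
      exact Nat.zero_le _
    | insert i S' hi ih =>
      rw [Finset.sum_insert hi, Finset.card_insert_of_notMem hi]
      have h4 : LinearMap.range ((α * u i 0 + β * u i 1) • M i +
          ∑ j ∈ S', (α * u j 0 + β * u j 1) • M j) ≤
          LinearMap.range (M i) ⊔ LinearMap.range (∑ j ∈ S', (α * u j 0 + β * u j 1) • M j) := by
        rintro _ ⟨x, rfl⟩
        exact Submodule.add_mem_sup (Submodule.smul_mem _ _ ⟨x, rfl⟩) ⟨x, rfl⟩
      have h5 := Submodule.finrank_mono h4
      have h6 := Submodule.finrank_add_le_finrank_add_finrank (LinearMap.range (M i))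
        (LinearMap.range (∑ j ∈ S', (α * u j 0 + β * u j 1) • M j))
      have h7 := hM i
      rw [Nat.add_mul, Nat.one_mul]
      omega
  rw [h1, h2]
  exact h3 S

/-- the data of a decomposition -/
theorem BP.one_data {p q r s : ℕ} {T : RPen p q} (h : BP 1 r r s T) :
    ∃ (u : Fin s → Fin 2 → ℝ) (M : Fin s → ((Fin q → ℝ) →ₗ[ℝ] (Fin p → ℝ))),
      (∀ j, finrank ℝ (LinearMap.range (M j)) ≤ r) ∧ T = ∑ j, fun k => u j k • M j := by
  obtain ⟨X, h1, rfl⟩ := h
  have h2 : ∀ j, ∃ (u : Fin 2 → ℝ) (M : (Fin q → ℝ) →ₗ[ℝ] (Fin p → ℝ)),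
      finrank ℝ (LinearMap.range M) ≤ r ∧ X j = fun k => u k • M := by
    intro j
    have h3 := blk_one_iff.1 (h1 j)
    rwa [min_self] at h3
  choose u M hM hX using h2
  exact ⟨u, M, hM, by
    refine Finset.sum_congr rfl fun j _ => ?_
    exact hX j⟩

theorem exists_dir (u : Fin 2 → ℝ) : ∃ α β : ℝ, (α ≠ 0 ∨ β ≠ 0) ∧ α * u 0 + β * u 1 = 0 := by
  by_cases h : u 0 = 0
  · by_cases h' : u 1 = 0
    · exact ⟨1, 0, Or.inl one_ne_zero, by rw [h, h']; ring⟩
    · exact ⟨u 1, -u 0, Or.inl h', by ring⟩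
  · exact ⟨u 1, -u 0, Or.inr (neg_ne_zero.2 h), by ring⟩

/-- Some combination has small rank. -/
theorem BP.one_dir {p q r s : ℕ} {T : RPen p q} (h : BP 1 r r (s + 1) T) :
    ∃ α β : ℝ, (α ≠ 0 ∨ β ≠ 0) ∧ finrank ℝ (LinearMap.range (α • T 0 + β • T 1)) ≤ s * r := by
  obtain ⟨u, M, hM, hT⟩ := h.one_data
  obtain ⟨α, β, h1, h2⟩ := exists_dir (u 0)
  refine ⟨α, β, h1, ?_⟩
  have h3 := rank_comb u M hM hT α β (Finset.univ.erase 0) (by
    intro j hj
    have : j = 0 := by
      by_contra hne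
      exact hj (Finset.mem_erase.2 ⟨hne, Finset.mem_univ j⟩)
    rw [this]
    exact h2)
  rwa [Finset.card_erase_of_mem (Finset.mem_univ _), Finset.card_univ, Fintype.card_fin,
    Nat.add_sub_cancel] at h3

/-! ### The non-square case -/

theorem nb_one {r s p g : ℕ} (hg : 0 < g) (h : s * r < p) : NB 1 r r (s + 1) p (p + g) := by
  obtain ⟨h', rfl⟩ : ∃ h', g = h' + 1 := ⟨g - 1, by omega⟩
  refine ⟨{T | PsiK T ≠ 0}, isOpen_ne.preimage continuous_PsiK, dense_PsiK, fun T hT hcon => ?_⟩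
  obtain ⟨α, β, hab, hrk⟩ := hcon.one_dir
  have h1 := (kron_of_psiK hT).surjective (Nat.succ_pos h') hab
  rw [LinearMap.range_eq_top.2 h1, finrank_top, finrank_pi, Fintype.card_fin] at hrk
  omega

theorem od_one_lt {r s p q : ℕ} (hr : 0 < r) (hp : p ≤ s * r) (hq : q ≤ s * r + r) :
    OD 1 r r (s + 1) p q :=
  (od_ones hr s).res hp hq

/-- **The typical ranks of real pencils with respect to `Sub_{1,a,b}`, wide case.** -/
theorem typical_one_lt {p q a b : ℕ} (ha : 1 ≤ a) (ha' : a ≤ p) (hb : 1 ≤ b) (hb' : b ≤ q)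
    (hpq : p < q) (d : ℕ) : IsTypicalRank (SubVar ![2, p, q] ![1, a, b]) d ↔
      d = max ((p + min a b - 1) / min a b + 1) ((min q (2 * p) + min a b - 1) / min a b) := by
  set r := min a b with hr
  have hr1 : 1 ≤ r := by omega
  have hceil : ∀ n, ∀ t, (n + r - 1) / r ≤ t ↔ n ≤ r * t := by
    intro n t
    rw [Nat.div_le_iff_le_mul_add_pred hr1]
    omega
  set c := max ((p + r - 1) / r + 1) ((min q (2 * p) + r - 1) / r) with hc
  have hct : ∀ t, c ≤ t + 1 ↔ p ≤ r * t ∧ min q (2 * p) ≤ r * (t + 1) := by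
    intro t
    rw [hc, max_le_iff, Nat.add_le_add_iff_right, hceil, hceil]
  have hc0 : 2 ≤ c := by
    have h1 : 1 ≤ (p + r - 1) / r := by
      by_contra hcon
      have := (hceil p 0).1 (by omega)
      omega
    have h2 : (p + r - 1) / r + 1 ≤ c := le_max_left _ _
    omega
  obtain ⟨s, hs⟩ : ∃ s, c = s + 2 := ⟨c - 2, by omega⟩
  rw [hs] at hct ⊢
  obtain ⟨h1, h2⟩ := (hct (s + 1)).1 le_rfl
  have hod : OD 1 r r (s + 2) p q := by
    by_cases h3 : 2 * p ≤ q
    · rw [min_eq_right h3] at h2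
      refine OD.of_all ((od_one_lt hr1 ?_ ?_ : OD 1 r r (s + 1 + 1) p (2 * p)).wide q)
      · rw [Nat.mul_comm]
        exact h1
      · rw [Nat.mul_comm (s + 1) r]
        exact h2
    · rw [min_eq_left (by omega)] at h2
      refine (od_one_lt hr1 ?_ ?_ : OD 1 r r (s + 1 + 1) p q)
      · rw [Nat.mul_comm]
        exact h1
      · rw [Nat.mul_comm (s + 1) r]
        exact h2
  refine typical_unique one_le_two ha' hb' le_rfl ha hb (s := s + 1) (od_one_min.2 hod) ?_ d
  by_cases h3 : p ≤ r * s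
  · refine nb_one_min.2 (nb_right one_le_two ?_)
    by_contra hcon
    have h4 : min q (2 * p) ≤ (s + 1) * r := not_lt.1 hcon
    have h5 := (hct s).2 ⟨h3, by rw [Nat.mul_comm r]; exact h4⟩
    omega
  · obtain ⟨g, rfl⟩ : ∃ g, q = p + g := Nat.exists_eq_add_of_le hpq.le
    refine nb_one_min.2 (nb_one (by omega) ?_)
    rw [Nat.mul_comm]
    exact not_le.1 h3

/-! ### The square case -/

theorem square_rank {n : ℕ} {T : Ten ![2, n + 1, n + 1]} (hT : Psi T ≠ 0) {α β : ℝ}
    (hab : α ≠ 0 ∨ β ≠ 0) : n ≤ finrank ℝ (LinearMap.range (α • rpen T 0 + β • rpen T 1)) := by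
  rw [rpen_eq_pen]
  obtain ⟨hinj, M, v, hM, hpen⟩ := generic hT
  have h1 : pen T 1 = pen T 0 ∘ₗ M := congrFun hpen 1
  set q : ℝ[X] := C α + C β * X with hq
  have hq0 : q ≠ 0 := by
    intro h
    rcases hab with h' | h'
    · have := congrArg (fun p : ℝ[X] => p.coeff 0) h
      simp [hq] at this
      exact h' this
    · have := congrArg (fun p : ℝ[X] => p.coeff 1) h
      simp [hq, coeff_C] at this
      exact h' this
  have hqd : q.natDegree ≤ 1 := by
    rw [hq]
    refine (natDegree_add_le _ _).trans ?_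
    rw [natDegree_C, max_le_iff]
    exact ⟨Nat.zero_le 1, (natDegree_C_mul_le _ _).trans natDegree_X_le⟩
  have h2 : α • pen T 0 + β • pen T 1 = pen T 0 ∘ₗ aeval M q := by
    rw [h1]
    refine LinearMap.ext fun x => ?_
    rw [hq, map_add, map_mul, aeval_C, aeval_C, aeval_X]
    change α • pen T 0 x + β • pen T 0 (M x) = pen T 0 (α • x + β • M x)
    rw [map_add, map_smul, map_smul]
  rw [h2]
  have h3 := hM.finrank_ker_le hq0
  have h4 : LinearMap.ker (pen T 0 ∘ₗ aeval M q) = LinearMap.ker (aeval M q) :=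
    LinearMap.ker_comp_of_ker_eq_bot _ (LinearMap.ker_eq_bot.2 hinj)
  have h5 := LinearMap.finrank_range_add_finrank_ker (pen T 0 ∘ₗ aeval M q)
  rw [h4, finrank_pi, Fintype.card_fin] at h5
  omega

theorem nb_square {n r s : ℕ} (h : s * r < n) : NB 1 r r (s + 1) (n + 1) (n + 1) := by
  refine ⟨{T | Psi T ≠ 0}, isOpen_ne.preimage continuous_Psi, dense_Psi, fun T hT hcon => ?_⟩
  obtain ⟨α, β, hab, hrk⟩ := hcon.one_dir
  have h1 := square_rank hT hab
  omega

theorem EigB.bp' {m k r : ℕ} (hm : m = r * k + 1) (hr : 1 ≤ r) {T : RPen m m} (h : EigB T) :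
    BP 1 r r (k + 1) T := by
  obtain ⟨ρ, rfl⟩ : ∃ ρ, r = ρ + 1 := ⟨r - 1, by omega⟩
  have hm' : m = k + 1 + ρ * k := by
    rw [hm]
    ring
  subst hm'
  exact h.bp

theorem not_bp_skw {n k r : ℕ} (hk : 1 ≤ k) (hr : 1 ≤ r) (hn : n = k * r)
    {T : Ten ![2, n + 1, n + 1]} (hT : Psi T ≠ 0) (hcl : Close (1 / 20) (pen T)) :
    ¬ BP 1 r r (k + 1) (rpen T) := by
  intro hcon
  obtain ⟨u, M, hM, hdec⟩ := hcon.one_data
  have hinj : Function.Injective (pen T 0) := hcl.injective (by norm_num)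
  have key : ∀ j : Fin (k + 1), ∃ (c : ℝ) (z : Fin (n + 1) → ℝ), z ≠ 0 ∧
      pen T 1 z = c • pen T 0 z ∧ -c * u j 0 + 1 * u j 1 = 0 := by
    intro j
    obtain ⟨α, β, hab, h2⟩ := exists_dir (u j)
    have h3 := rank_comb u M hM hdec α β (Finset.univ.erase j) (by
      intro i hi
      have : i = j := by
        by_contra hne
        exact hi (Finset.mem_erase.2 ⟨hne, Finset.mem_univ i⟩)
      rw [this]
      exact h2)
    rw [Finset.card_erase_of_mem (Finset.mem_univ _), Finset.card_univ, Fintype.card_fin,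
      Nat.add_sub_cancel, ← hn] at h3
    have h4 := LinearMap.finrank_range_add_finrank_ker (α • rpen T 0 + β • rpen T 1)
    rw [finrank_pi, Fintype.card_fin] at h4
    have h5 : LinearMap.ker (α • rpen T 0 + β • rpen T 1) ≠ ⊥ := by
      intro h
      rw [h, finrank_bot] at h4
      omega
    obtain ⟨z, hz, hz0⟩ := Submodule.exists_mem_ne_zero_of_ne_bot h5
    rw [LinearMap.mem_ker, rpen_eq_pen, LinearMap.add_apply, LinearMap.smul_apply,
      LinearMap.smul_apply] at hz
    have hβ : β ≠ 0 := by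
      intro h
      rw [h, zero_smul, add_zero, smul_eq_zero] at hz
      rcases hz with hz | hz
      · rcases hab with h' | h'
        · exact h' hz
        · exact h' h
      · exact hz0 (hinj (by rw [hz, map_zero]))
    refine ⟨-(α / β), z, hz0, ?_, ?_⟩
    · have e1 : β • pen T 1 z = β • (-(α / β)) • pen T 0 z := by
        rw [smul_smul]
        have e2 : β * -(α / β) = -α := by field_simp
        rw [e2, neg_smul]
        exact eq_neg_of_add_eq_zero_right hz
      exact smul_right_injective _ hβ e1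
    · have e2 : β * (- -(α / β) * u j 0 + 1 * u j 1) = α * u j 0 + β * u j 1 := by
        field_simp
      rw [h2] at e2
      exact (mul_eq_zero.1 e2).resolve_left hβ
  choose c z hz0 hz hu using key
  set i0 : Fin (k + 1) := ⟨0, by omega⟩ with hi0
  set i1 : Fin (k + 1) := ⟨1, by omega⟩ with hi1
  obtain ⟨a, b, ha, hab⟩ := hcl.proportional (hz0 i0) (hz0 i1) (hz i0) (hz i1)
  have hc : c i0 = c i1 := by
    have h1 : pen T 1 (a • z i0) = c i0 • pen T 0 (a • z i0) := by
      rw [map_smul, map_smul, hz, smul_comm]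
    have h2 : pen T 1 (a • z i0) = c i1 • pen T 0 (a • z i0) := by
      rw [hab, map_smul, map_smul, hz, smul_comm]
    rw [h1, ← sub_eq_zero, ← sub_smul, smul_eq_zero] at h2
    rcases h2 with h2 | h2
    · exact sub_eq_zero.1 h2
    · exfalso
      have h3 : a • z i0 = 0 := hinj (by rw [h2, map_zero])
      rw [smul_eq_zero] at h3
      rcases h3 with h3 | h3
      · exact ha h3
      · exact hz0 i0 h3
  have h3 := rank_comb u M hM hdec (-(c i0)) 1 ((Finset.univ.erase i0).erase i1) (by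
    intro i hi
    by_cases h0 : i = i0
    · rw [h0]
      exact hu i0
    · have h1 : i = i1 := by
        by_contra hne
        exact hi (Finset.mem_erase.2 ⟨hne, Finset.mem_erase.2 ⟨h0, Finset.mem_univ i⟩⟩)
      rw [h1, hc]
      exact hu i1)
  have hne : i1 ≠ i0 := by
    intro h
    have := congrArg Fin.val h
    simp [hi0, hi1] at this
  rw [Finset.card_erase_of_mem (Finset.mem_erase.2 ⟨hne, Finset.mem_univ _⟩),
    Finset.card_erase_of_mem (Finset.mem_univ _), Finset.card_univ, Fintype.card_fin,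
    Nat.add_sub_cancel] at h3
  have h4 := square_rank hT (α := -(c i0)) (β := 1) (Or.inr one_ne_zero)
  have h5 : (k - 1) * r < k * r := Nat.mul_lt_mul_of_pos_right (by omega) hr
  omega

/-- The case `m = 1`. -/
theorem typical_one_m1 (d : ℕ) :
    IsTypicalRank (SubVar ![2, 1, 1] ![1, 1, 1]) d ↔ d = 1 := by
  refine typical_unique (s := 0) one_le_two le_rfl le_rfl le_rfl le_rfl le_rfl
    (OD.of_all fun T => BP.single ?_) (nb_right one_le_two (by norm_num)) d
  rw [blk_one_iff]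
  refine ⟨fun k => T k (fun _ => 1) 0, LinearMap.id, ?_, ?_⟩
  · rw [LinearMap.range_id, finrank_top, finrank_pi, Fintype.card_fin, min_self]
  · funext k
    refine LinearMap.ext fun x => ?_
    funext i
    have hi : i = 0 := Subsingleton.elim _ _
    subst hi
    have hx : x = x 0 • fun _ => (1 : ℝ) := by
      funext j
      have hj : j = 0 := Subsingleton.elim _ _
      subst hj
      rw [Pi.smul_apply, smul_eq_mul, mul_one]
    change T k x 0 = T k (fun _ => 1) 0 * x 0
    conv_lhs => rw [hx, map_smul]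
    rw [Pi.smul_apply, smul_eq_mul, mul_comm]

theorem aux_div {n r : ℕ} (hr : 1 ≤ r) (h : ¬ r ∣ n) : n / r * r < n ∧ n + 1 ≤ (n / r + 1) * r := by
  have h1 := Nat.div_mul_le_self n r
  have h2 := Nat.lt_div_mul_add (a := n) (b := r) (by omega)
  have h3 : n / r * r ≠ n := fun h' => h ⟨n / r, by rw [Nat.mul_comm]; exact h'.symm⟩
  rw [Nat.add_mul, Nat.one_mul]
  omega

/-- The case in which `min a b` does not divide `m - 1`. -/
theorem typical_one_ndvd {n a b : ℕ} (ha : 1 ≤ a) (ha' : a ≤ n + 1) (hb : 1 ≤ b) (hb' : b ≤ n + 1)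
    (h : ¬ min a b ∣ n) (d : ℕ) : IsTypicalRank (SubVar ![2, n + 1, n + 1] ![1, a, b]) d ↔
      d = n / min a b + 2 := by
  set r := min a b with hr
  have hr1 : 1 ≤ r := by omega
  obtain ⟨h1, h2⟩ := aux_div hr1 h
  refine typical_unique (s := n / r + 1) one_le_two ha' hb' le_rfl ha hb (od_one_min.2 ?_)
    (nb_one_min.2 (nb_square h1)) d
  exact (od_one_lt hr1 h2 (h2.trans (Nat.le_add_right _ _)) :
    OD 1 r r (n / r + 1 + 1) (n + 1) (n + 1))

/-- The case in which `min a b` divides `m - 1`, `m ≥ 2`. -/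
theorem typical_one_dvd {n a b : ℕ} (ha : 1 ≤ a) (ha' : a ≤ n + 1) (hb : 1 ≤ b) (hb' : b ≤ n + 1)
    (hn : 1 ≤ n) (h : min a b ∣ n) (d : ℕ) :
    IsTypicalRank (SubVar ![2, n + 1, n + 1] ![1, a, b]) d ↔
      d = n / min a b + 1 ∨ d = n / min a b + 2 := by
  set r := min a b with hr
  have hr1 : 1 ≤ r := by omega
  obtain ⟨k, hk⟩ := h
  have hk1 : 1 ≤ k := by
    rcases Nat.eq_zero_or_pos k with h | h
    · rw [h, Nat.mul_zero] at hk
      omega
    · exact h
  have hdiv : n / r = k := by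
    rw [hk]
    exact Nat.mul_div_cancel_left k hr1
  rw [hdiv, rtypical_iff one_le_two ha' hb' le_rfl ha hb]
  simp only [bp_one_min (a := a) (b := b), ← hr]
  have hkr : k * r = n := by rw [hk, Nat.mul_comm]
  have hod : OD 1 r r (k + 2) (n + 1) (n + 1) := by
    refine (od_one_lt hr1 ?_ ?_ : OD 1 r r (k + 1 + 1) (n + 1) (n + 1))
    · rw [Nat.add_mul, Nat.one_mul]
      omega
    · rw [Nat.add_mul, Nat.one_mul]
      omega
  have hnb : NB 1 r r k (n + 1) (n + 1) := by
    obtain ⟨k', rfl⟩ : ∃ k', k = k' + 1 := ⟨k - 1, by omega⟩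
    refine nb_square ?_
    rw [Nat.add_mul, Nat.one_mul] at hkr
    omega
  obtain ⟨O₁, o1, d1, h1⟩ := hod
  obtain ⟨O₂, o2, d2, h2⟩ := hnb
  have hzero : ∀ T ∈ O₂, T ≠ 0 := by
    rintro T hT rfl
    apply h2 0 hT
    rw [map_zero]
    exact BP.zero_pen
  constructor
  · rintro ⟨O, hO, hne, hT⟩
    have hlow : k + 1 ≤ d := by
      obtain ⟨T, hTO, hT2⟩ := dense_iff_inter_open.1 d2 O hO hne
      by_contra hcon
      exact h2 T hT2 ((hT T hTO).2.1.le (by omega))
    have hup : d ≤ k + 2 := by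
      obtain ⟨T, hTO, hT1⟩ := dense_iff_inter_open.1 d1 O hO hne
      by_contra hcon
      exact (hT T hTO).2.2 (k + 2) (not_le.1 hcon) (h1 T hT1)
    omega
  · rintro (rfl | rfl)
    · obtain ⟨O, hO, hne, hT⟩ := exists_open_eigB (n + 1)
      refine ⟨O ∩ O₂, hO.inter o2, dense_iff_inter_open.1 d2 O hO hne, ?_⟩
      rintro T ⟨hTO, hT2⟩
      refine ⟨hzero T hT2, (hT T hTO).bp' (by rw [hk]) hr1, fun s hs hcon => ?_⟩
      exact h2 T hT2 (hcon.le (by omega))
    · obtain ⟨O, hO, hne, hT⟩ := exists_open_skw (n := n)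
      have hP : IsOpen {T : Ten ![2, n + 1, n + 1] | Psi T ≠ 0} := isOpen_ne.preimage continuous_Psi
      have hd12 : Dense (O₁ ∩ (O₂ ∩ {T | Psi T ≠ 0})) :=
        d1.inter_of_isOpen_left (d2.inter_of_isOpen_left dense_Psi o2) o1
      refine ⟨O ∩ (O₁ ∩ (O₂ ∩ {T | Psi T ≠ 0})), hO.inter (o1.inter (o2.inter hP)),
        dense_iff_inter_open.1 hd12 O hO hne, ?_⟩
      rintro T ⟨hTO, hT1, hT2, hTP⟩
      refine ⟨hzero T hT2, h1 T hT1, fun s hs hcon => ?_⟩
      exact not_bp_skw hk1 hr1 hkr.symm hTP (hT T hTO) (hcon.le (by omega))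

end Pool.Agent.SubTyp
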