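import Pool.Agent.SubTyp.Typical

/-! The typical ranks form an interval (argument of Bernardi, Blekherman and Ottaviani). -/

set_option autoImplicit false

open Module Set
open scoped LinearAlgebra.Projectivization Topology

namespace Pool.Agent.SubTyp

variable {W : Type*} [AddCommGroup W] [Module ℝ W] {ι : Type*}

theorem mem_rankLE_succ (K : ι → Submodule ℝ W) (s : ℕ) (v : W) :
    v ∈ RankLE K (s + 1) ↔ ∃ v' ∈ RankLE K s, ∃ i, ∃ v'' ∈ K i, v' + v'' = v := by
  constructor
  · rintro ⟨i, hi⟩
    have h1 : (⨆ j, K (i j)) = (⨆ j : Fin s, K (i j.castSucc)) ⊔ K (i (Fin.last s)) := by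
      apply le_antisymm
      · refine iSup_le fun j => ?_
        refine Fin.lastCases ?_ (fun j => ?_) j
        · exact le_sup_right
        · exact le_sup_of_le_left (le_iSup (fun j : Fin s => K (i j.castSucc)) j)
      · refine sup_le (iSup_le fun j => ?_) ?_
        · exact le_iSup (fun j => K (i j)) j.castSucc
        · exact le_iSup (fun j => K (i j)) (Fin.last s)
    rw [h1, Submodule.mem_sup] at hi
    obtain ⟨v', hv', v'', hv'', h⟩ := hi
    exact ⟨v', ⟨_, hv'⟩, _, v'', hv'', h⟩
  · rintro ⟨v', ⟨i, hi⟩, i₀, v'', hv'', rfl⟩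
    refine ⟨Fin.snoc (α := fun _ => ι) i i₀, ?_⟩
    refine Submodule.add_mem _ ?_ ?_
    · refine (iSup_le fun j => ?_ : (⨆ j, K (i j)) ≤ _) hi
      refine le_iSup_of_le j.castSucc ?_
      rw [Fin.snoc_castSucc]
    · refine Submodule.mem_iSup_of_mem (Fin.last s) ?_
      rw [Fin.snoc_last]
      exact hv''

variable [TopologicalSpace W] [ContinuousSMul ℝ W] [ContinuousAdd W]

/-- If the points of rank at most `s + 1` are limits of points of rank at most `s`, all points are. -/
theorem rankLE_subset_closure (K : ι → Submodule ℝ W) {s : ℕ}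
    (h : RankLE K (s + 1) ⊆ closure (RankLE K s)) (j : ℕ) :
    RankLE K (s + 1 + j) ⊆ closure (RankLE K s) := by
  induction j with
  | zero => exact h
  | succ j ih =>
    intro v hv
    rw [← Nat.add_assoc, mem_rankLE_succ] at hv
    obtain ⟨v', hv', i, v'', hv'', rfl⟩ := hv
    have h1 : v' + v'' ∈ (fun u => u + v'') '' closure (RankLE K s) := ⟨v', ih hv', rfl⟩
    have h2 : (fun u => u + v'') '' closure (RankLE K s) ⊆
        closure ((fun u => u + v'') '' RankLE K s) :=
      image_closure_subset_closure_image (continuous_id.add continuous_const)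
    have h3 : (fun u => u + v'') '' RankLE K s ⊆ RankLE K (s + 1) := by
      rintro _ ⟨u, hu, rfl⟩
      exact (mem_rankLE_succ K s _).2 ⟨u, hu, i, v'', hv'', rfl⟩
    have h4 := closure_mono (h3.trans h) (h2 h1)
    rwa [closure_closure] at h4

/-- **All ranks between the generic one and the largest typical one are typical.** -/
theorem typical_succ [T1Space W] [Nonempty ι] (K : ι → Submodule ℝ W) (hK : ∃ i, K i ≠ ⊥)
    {s b : ℕ} (hH : RankLE K (s + 1) ⊆ closure (interior (RankLE K (s + 1))))
    (hs : ¬ Dense (RankLE K s)) (hb : Dense (RankLE K b)) :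
    IsTypicalRank (famSet K) (s + 1) := by
  by_cases hO : (interior (RankLE K (s + 1)) \ closure (RankLE K s)).Nonempty
  · refine typical_of_open K hK (isOpen_interior.sdiff isClosed_closure) hO ?_ ?_
    · exact fun v hv => interior_subset hv.1
    · exact fun v hv hcon => hv.2 (subset_closure hcon)
  · exfalso
    apply hs
    rw [Set.not_nonempty_iff_eq_empty, Set.diff_eq_empty] at hO
    have h1 : RankLE K (s + 1) ⊆ closure (RankLE K s) := by
      have h2 := closure_mono hO
      rw [closure_closure] at h2
      exact hH.trans h2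
    have h3 : RankLE K b ⊆ closure (RankLE K s) := by
      rcases Nat.le_total b s with h | h
      · exact (rankLE_mono K h).trans subset_closure
      · rcases Nat.eq_or_lt_of_le h with rfl | h'
        · exact subset_closure
        · have h4 := rankLE_subset_closure K h1 (b - (s + 1))
          rwa [show s + 1 + (b - (s + 1)) = b by omega] at h4
    have h5 := hb.closure_eq
    have h6 := closure_mono h3
    rw [closure_closure, h5] at h6
    exact dense_iff_closure_eq.2 (Set.univ_subset_iff.1 h6)

end Pool.Agent.SubTyp
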