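import Pool.Agent.SubTyp.Defs

open Module Set
open scoped LinearAlgebra.Projectivization Topology

namespace Pool.Agent.SubTyp

variable {W : Type*} [AddCommGroup W] [Module ℝ W] {ι : Type*}

/-- the vectors in the sum of `s` members of the family `K`. -/
def RankLE (K : ι → Submodule ℝ W) (s : ℕ) : Set W := {v | ∃ i : Fin s → ι, v ∈ ⨆ j, K (i j)}

/-- the points of the projective space lying in a member of the family. -/
def famSet (K : ι → Submodule ℝ W) : Set (ℙ ℝ W) := {p | ∃ i, p.submodule ≤ K i}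

theorem inSpanOf_iff (K : ι → Submodule ℝ W) (hK : ∃ i, K i ≠ ⊥) (v : W) (hv : v ≠ 0) (s : ℕ) :
    InSpanOf (famSet K) (Projectivization.mk ℝ v hv) s ↔ v ∈ RankLE K s := by
  constructor
  · rintro ⟨y, hy, hp⟩
    choose i hi using hy
    refine ⟨i, ?_⟩
    have h1 : v ∈ (Projectivization.mk ℝ v hv).submodule := by
      rw [Projectivization.submodule_mk]; exact Submodule.mem_span_singleton_self v
    have h2 := hp h1
    exact (iSup_mono hi) h2
  · rintro ⟨i, hi⟩
    rw [Submodule.mem_iSup_iff_exists_finsupp] at hi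
    obtain ⟨f, hf, hsum⟩ := hi
    obtain ⟨i₀, hi₀⟩ := hK
    obtain ⟨w, hw, hw0⟩ := Submodule.exists_mem_ne_zero_of_ne_bot hi₀
    classical
    refine ⟨fun j => if h : f j = 0 then Projectivization.mk ℝ w hw0
      else Projectivization.mk ℝ (f j) h, ?_, ?_⟩
    · intro j
      by_cases h : f j = 0
      · simp only [h, dite_true]
        exact ⟨i₀, by rw [Projectivization.submodule_mk, Submodule.span_singleton_le_iff_mem]; exact hw⟩
      · simp only [h, dite_false]
        exact ⟨i j, by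
          rw [Projectivization.submodule_mk, Submodule.span_singleton_le_iff_mem]; exact hf j⟩
    · rw [Projectivization.submodule_mk, Submodule.span_singleton_le_iff_mem]
      rw [← hsum, Finsupp.sum]
      refine Submodule.sum_mem _ fun j _ => ?_
      by_cases h : f j = 0
      · rw [h]; exact Submodule.zero_mem _
      · refine Submodule.mem_iSup_of_mem j ?_
        simp only [h, dite_false]
        rw [Projectivization.submodule_mk]
        exact Submodule.mem_span_singleton_self _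

theorem rankLE_mono [Nonempty ι] (K : ι → Submodule ℝ W) {s t : ℕ} (hst : s ≤ t) :
    RankLE K s ⊆ RankLE K t := by
  rintro v ⟨i, hi⟩
  obtain ⟨i₀⟩ := ‹Nonempty ι›
  refine ⟨fun j => if h : j.1 < s then i ⟨j.1, h⟩ else i₀, ?_⟩
  refine (iSup_le fun j => ?_ : (⨆ j, K (i j)) ≤ _) hi
  refine le_iSup_of_le (Fin.castLE hst j) ?_
  simp

theorem zero_mem_rankLE [Nonempty ι] (K : ι → Submodule ℝ W) (s : ℕ) : (0 : W) ∈ RankLE K s := by
  obtain ⟨i₀⟩ := ‹Nonempty ι›
  exact ⟨fun _ => i₀, Submodule.zero_mem _⟩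

theorem smul_mem_rankLE (K : ι → Submodule ℝ W) {s : ℕ} (c : ℝ) {v : W} (hv : v ∈ RankLE K s) :
    c • v ∈ RankLE K s := by
  obtain ⟨i, hi⟩ := hv
  exact ⟨i, Submodule.smul_mem _ _ hi⟩

theorem hasRank_iff (K : ι → Submodule ℝ W) (hK : ∃ i, K i ≠ ⊥) (v : W) (hv : v ≠ 0) (d : ℕ) :
    HasRank (famSet K) (Projectivization.mk ℝ v hv) d ↔
      v ∈ RankLE K d ∧ ∀ s, s < d → v ∉ RankLE K s := by
  unfold HasRank
  constructor
  · rintro ⟨h1, h2⟩
    refine ⟨(inSpanOf_iff K hK v hv d).1 h1, fun s hs hcon => ?_⟩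
    exact absurd (h2 ((inSpanOf_iff K hK v hv s).2 hcon)) (by omega)
  · rintro ⟨h1, h2⟩
    refine ⟨(inSpanOf_iff K hK v hv d).2 h1, fun s hs => ?_⟩
    by_contra hcon
    push Not at hcon
    exact h2 s hcon ((inSpanOf_iff K hK v hv s).1 hs)

variable [TopologicalSpace W] [ContinuousSMul ℝ W]

/-- Criterion in the vector space `W` itself. -/
theorem isTypicalRank_iff [T1Space W] (K : ι → Submodule ℝ W) (hK : ∃ i, K i ≠ ⊥) (d : ℕ) :
    IsTypicalRank (famSet K) d ↔
      ∃ O : Set W, IsOpen O ∧ O.Nonempty ∧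
        ∀ v ∈ O, v ≠ 0 ∧ v ∈ RankLE K d ∧ ∀ s, s < d → v ∉ RankLE K s := by
  constructor
  · rintro ⟨U, hU, ⟨p, hp⟩, hrank⟩
    have hop : IsOpen ({v : W | v ≠ 0}) := isOpen_ne
    refine ⟨Subtype.val '' {v : {v : W // v ≠ 0} | Projectivization.mk' ℝ v ∈ U},
      hop.isOpenMap_subtype_val _ hU, ?_, ?_⟩
    · induction p using Projectivization.ind with
      | h v hv => exact ⟨v, ⟨v, hv⟩, hp, rfl⟩
    · rintro _ ⟨⟨v, hv⟩, hvU, rfl⟩
      exact ⟨hv, (hasRank_iff K hK v hv d).1 (hrank _ hvU)⟩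
  · rintro ⟨O, hO, ⟨w, hw⟩, hrank⟩
    refine ⟨{p | ∃ v, ∃ h : v ≠ 0, v ∈ O ∧ p = Projectivization.mk ℝ v h}, ?_, ?_, ?_⟩
    · have : {v : {v : W // v ≠ 0} | Projectivization.mk' ℝ v ∈
          {p | ∃ v, ∃ h : v ≠ 0, v ∈ O ∧ p = Projectivization.mk ℝ v h}} =
          Subtype.val ⁻¹' (⋃ c : {c : ℝ // c ≠ 0}, (fun v : W => c.1 • v) ⁻¹' O) := by
        ext ⟨v, hv⟩
        simp only [mem_ofPred_eq, Projectivization.mk'_eq_mk, mem_preimage, mem_iUnion,
          Subtype.exists, exists_prop]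
        constructor
        · rintro ⟨u, hu, huO, heq⟩
          rw [Projectivization.mk_eq_mk_iff'] at heq
          obtain ⟨a, ha⟩ := heq
          have ha0 : a ≠ 0 := by rintro rfl; rw [zero_smul] at ha; exact hv ha.symm
          refine ⟨a⁻¹, inv_ne_zero ha0, ?_⟩
          rw [← ha, smul_smul, inv_mul_cancel₀ ha0, one_smul]
          exact huO
        · rintro ⟨c, hc, hcO⟩
          refine ⟨c • v, smul_ne_zero hc hv, hcO, ?_⟩
          rw [Projectivization.mk_eq_mk_iff']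
          exact ⟨c⁻¹, by rw [smul_smul, inv_mul_cancel₀ hc, one_smul]⟩
      unfold IsOpenProj
      rw [this]
      refine IsOpen.preimage continuous_subtype_val ?_
      exact isOpen_iUnion fun c => hO.preimage (continuous_const_smul c.1)
    · exact ⟨_, w, (hrank w hw).1, hw, rfl⟩
    · rintro _ ⟨v, hv, hvO, rfl⟩
      exact (hasRank_iff K hK v hv d).2 (hrank v hvO).2

theorem typical_le [T1Space W] [Nonempty ι] (K : ι → Submodule ℝ W) (hK : ∃ i, K i ≠ ⊥) {s d : ℕ}
    (hs : Dense (RankLE K s)) (hd : IsTypicalRank (famSet K) d) : d ≤ s := by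
  rw [isTypicalRank_iff K hK] at hd
  obtain ⟨O, hO, hne, h⟩ := hd
  obtain ⟨v, hvO, hvs⟩ := hs.exists_mem_open hO hne
  by_contra hcon
  push Not at hcon
  exact (h v hvs).2.2 s hcon hvO

theorem lt_typical [T1Space W] [Nonempty ι] (K : ι → Submodule ℝ W) (hK : ∃ i, K i ≠ ⊥) {s d : ℕ}
    (hs : Dense (RankLE K s)ᶜ) (hd : IsTypicalRank (famSet K) d) : s < d := by
  rw [isTypicalRank_iff K hK] at hd
  obtain ⟨O, hO, hne, h⟩ := hd
  obtain ⟨v, hvO, hvs⟩ := hs.exists_mem_open hO hne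
  by_contra hcon
  push Not at hcon
  exact hvO (rankLE_mono K hcon (h v hvs).2.1)

theorem typical_of_open [T1Space W] [Nonempty ι] (K : ι → Submodule ℝ W) (hK : ∃ i, K i ≠ ⊥)
    {s : ℕ} {O : Set W} (hO : IsOpen O) (hne : O.Nonempty)
    (h1 : ∀ v ∈ O, v ∈ RankLE K (s + 1)) (h2 : ∀ v ∈ O, v ∉ RankLE K s) :
    IsTypicalRank (famSet K) (s + 1) := by
  rw [isTypicalRank_iff K hK]
  refine ⟨O, hO, hne, fun v hv => ⟨?_, h1 v hv, fun t ht hcon => ?_⟩⟩
  · rintro rfl
    exact h2 0 hv (zero_mem_rankLE K s)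
  · exact h2 v hv (rankLE_mono K (by omega) hcon)

end Pool.Agent.SubTyp
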