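import Pool.Agent.SubTyp.Small
import Pool.Agent.SubTyp.Typical

/-! The codimension one case `r = m - 1`: rank with respect to `Sub_{m-1}(SⁿV)` and products of real
linear differential operators. -/

open MvPolynomial Module Set
open scoped ENNReal Topology LinearAlgebra.Projectivization

namespace Pool.Agent.SubTyp

/-- `r`-dimensional subspaces of `ℝ^m`. -/
abbrev Gr (m r : ℕ) : Type := {A : Submodule ℝ (Fin m → ℝ) // finrank ℝ A = r}

/-- the subspaces `SⁿA`. -/
def symK (n m r : ℕ) (A : Gr m r) : Submodule ℝ (SymT n m) :=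
  (boxT fun _ : Fin n => A.1).comap (SymT n m).subtype

theorem mem_symK {n m r : ℕ} {A : Gr m r} {T : SymT n m} :
    T ∈ symK n m r A ↔ (T : Ten fun _ : Fin n => m) ∈ boxT fun _ : Fin n => A.1 := Iff.rfl

theorem symSubVar_eq (n m r : ℕ) : SymSubVar n m r = famSet (symK n m r) := by
  ext p
  constructor
  · rintro ⟨A, hA, hp⟩; exact ⟨⟨A, hA⟩, hp⟩
  · rintro ⟨A, hp⟩; exact ⟨A.1, A.2, hp⟩

theorem exists_gr {m r : ℕ} (h : r ≤ m) : Nonempty (Gr m r) := by
  classical
  have hli : LinearIndependent ℝ (fun j : Fin r => (Pi.basisFun ℝ (Fin m)) (Fin.castLE h j)) :=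
    (Pi.basisFun ℝ (Fin m)).linearIndependent.comp _ (Fin.castLE_injective h)
  exact ⟨⟨Submodule.span ℝ (Set.range fun j : Fin r => (Pi.basisFun ℝ (Fin m)) (Fin.castLE h j)),
    by rw [finrank_span_eq_card hli]; simp⟩⟩

theorem exists_symK_ne_bot {n m r : ℕ} (h : r ≤ m) (hr : 0 < r) : ∃ A, symK n m r A ≠ ⊥ := by
  obtain ⟨A⟩ := exists_gr h
  refine ⟨A, ?_⟩
  have hA : A.1 ≠ ⊥ := by
    intro h0
    have := A.2
    rw [h0, finrank_bot] at this
    omega
  obtain ⟨v, hv, hv0⟩ := Submodule.exists_mem_ne_zero_of_ne_bot hA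
  obtain ⟨i, hi⟩ := Function.ne_iff.1 hv0
  rw [Submodule.ne_bot_iff]
  refine ⟨⟨pureT (m := fun _ : Fin n => m) fun _ => v, ?_⟩, ?_, ?_⟩
  · intro σ t
    simp only [pureT, Function.comp_apply]
    exact Equiv.prod_comp σ (fun k => v (t k))
  · exact Submodule.subset_span ⟨_, fun _ => hv, rfl⟩
  · intro h0
    have h1 := congrArg (fun T : SymT n m => (T : Ten fun _ : Fin n => m) fun _ => i) h0
    simp only [pureT, Finset.prod_const] at h1
    exact absurd h1 (pow_ne_zero _ hi)

/-- a proper subspace is annihilated by some `L ≠ 0`. -/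
theorem exists_ann {m : ℕ} {A : Submodule ℝ (Fin m → ℝ)} (hA : finrank ℝ A < m) :
    ∃ L : Fin m → ℝ, L ≠ 0 ∧ ∀ v ∈ A, L ⬝ᵥ v = 0 := by
  have hlt : A < ⊤ := by
    rw [lt_top_iff_ne_top]
    rintro rfl
    rw [finrank_top] at hA
    simp at hA
  obtain ⟨f, hf, hAf⟩ := Submodule.exists_le_ker_of_lt_top A hlt
  have hdot : ∀ v, f v = (fun i => f (Pi.single i 1)) ⬝ᵥ v := by
    intro v
    have h3 : v = ∑ i, v i • (Pi.single i 1 : Fin m → ℝ) := by
      have := (Pi.basisFun ℝ (Fin m)).sum_repr v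
      simp only [Pi.basisFun_repr, Pi.basisFun_apply] at this
      exact this.symm
    conv_lhs => rw [h3, map_sum]
    unfold dotProduct
    refine Finset.sum_congr rfl fun i _ => ?_
    rw [map_smul, smul_eq_mul, mul_comm]
  refine ⟨fun i => f (Pi.single i 1), ?_, ?_⟩
  · intro h
    apply hf
    ext v
    rw [LinearMap.comp_apply, hdot, h, zero_dotProduct]
    simp
  · intro v hv
    rw [← hdot]
    exact hAf hv

theorem finrank_hyp {m : ℕ} {L : Fin (m + 1) → ℝ} (hL : L ≠ 0) : finrank ℝ (hyp L) = m := by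
  let f : Module.Dual ℝ (Fin (m + 1) → ℝ) :=
    { toFun := fun v => L ⬝ᵥ v
      map_add' := fun a b => dotProduct_add _ _ _
      map_smul' := fun c a => by simp }
  have hf : f ≠ 0 := by
    intro h
    have h1 : L ⬝ᵥ L = 0 := by
      have := congrArg (fun g : Module.Dual ℝ (Fin (m + 1) → ℝ) => g L) h
      exact this
    exact hL (dotProduct_self_eq_zero.1 h1)
  have h1 := Module.Dual.finrank_ker_add_one_of_ne_zero hf
  have h2 : LinearMap.ker f = hyp L := by
    ext v; rfl
  rw [h2] at h1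
  simp at h1
  exact h1

/-- rank at most `s` implies that a product of `s` directions kills the tensor. -/
theorem exists_kill_of_rankLE {n m s : ℕ} {T : SymT n (m + 1)}
    (hT : T ∈ RankLE (symK n (m + 1) m) s) :
    ∃ L : Fin s → Fin (m + 1) → ℝ, (∀ j, L j ≠ 0) ∧
      dl (List.ofFn L) (toPoly (T : Ten fun _ : Fin n => m + 1)) = 0 := by
  obtain ⟨A, hA⟩ := hT
  choose L hL hLA using fun j => exists_ann (A := (A j).1) (by rw [(A j).2]; omega)
  refine ⟨L, hL, ?_⟩
  have : (⨆ j, symK n (m + 1) m (A j)) ≤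
      LinearMap.ker (dl (List.ofFn L) ∘ₗ toPoly ∘ₗ (SymT n (m + 1)).subtype) := by
    refine iSup_le fun j T' hT' => ?_
    change dl (List.ofFn L) (toPoly (T' : Ten fun _ : Fin n => m + 1)) = 0
    refine dl_eq_zero_of_mem (L := L j) (List.mem_ofFn.2 ⟨j, rfl⟩) ?_
    exact dir_toPoly_of_mem_box (hLA j) hT'
  exact this hA

/-- a product of pairwise non-proportional directions killing `T` gives a decomposition of `T`. -/
theorem rankLE_of_kill {n m s : ℕ} {T : SymT n (m + 1)} (L : Fin s → Fin (m + 1) → ℝ)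
    (hL : ∀ j, L j ≠ 0) (hpair : (List.ofFn L).Pairwise fun L M => ∀ c : ℝ, L ≠ c • M)
    (hT : dl (List.ofFn L) (toPoly (T : Ten fun _ : Fin n => m + 1)) = 0) :
    T ∈ RankLE (symK n (m + 1) m) s := by
  let A : Fin s → Gr (m + 1) m := fun j => ⟨hyp (L j), finrank_hyp (hL j)⟩
  refine ⟨A, ?_⟩
  let P : SymT n (m + 1) →ₗ[ℝ] MvPolynomial (Fin (m + 1)) ℝ := toPoly ∘ₗ (SymT n (m + 1)).subtype
  have hPinj : ∀ T, P T = 0 → T = 0 := fun T h => Subtype.ext (toPoly_injOn T.2 h)
  have h1 : toPoly (T : Ten fun _ : Fin n => m + 1) ∈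
      (⨆ j, symK n (m + 1) m (A j)).map P := by
    refine mem_of_dl_eq_zero (List.ofFn L) hpair n _ ?_ ?_ _ (toPoly_homog _) hT
    · rintro _ ⟨T', _, rfl⟩
      exact toPoly_homog _
    · intro M hM g hg hMg
      obtain ⟨j, rfl⟩ := List.mem_ofFn.1 hM
      obtain ⟨T', hT', hT'g⟩ := exists_toPoly_eq hg
      refine ⟨⟨T', hT'⟩, ?_, hT'g⟩
      refine Submodule.mem_iSup_of_mem j ?_
      rw [mem_symK]
      refine mem_box_of_dir hT' fun L' hL' => ?_
      have : ∃ c : ℝ, L' = c • L j := by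
        by_contra hcon
        push Not at hcon
        obtain ⟨v, hv1, hv2⟩ := exists_sep hcon
        have := hL' v hv2
        rw [hv1] at this
        exact one_ne_zero this
      obtain ⟨c, rfl⟩ := this
      rw [dir_smul, hT'g, hMg, smul_zero]
  obtain ⟨T', hT', hTT'⟩ := h1
  have h2 : P (T' - T) = 0 := by
    rw [map_sub, hTT']; exact sub_self _
  have h3 : T' = T := sub_eq_zero.1 (hPinj _ h2)
  rw [← h3]
  exact hT'

theorem dl_ofFn_smul {m s : ℕ} (a : Fin s → ℝ) (L : Fin s → Fin m → ℝ)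
    (p : MvPolynomial (Fin m) ℝ) :
    dl (List.ofFn fun j => a j • L j) p = (∏ j, a j) • dl (List.ofFn L) p := by
  induction s with
  | zero => simp
  | succ s ih =>
    rw [List.ofFn_succ, List.ofFn_succ, dl_cons, dl_cons, ih, dir_smul, Derivation.map_smul,
      smul_smul, Fin.prod_univ_succ]

/-- the set of tensors killed by a product of `s` non-zero directions. -/
def killSet (n m s : ℕ) : Set (SymT n m) :=
  {T | ∃ L : Fin s → Fin m → ℝ, (∀ j, L j ≠ 0) ∧
    dl (List.ofFn L) (toPoly (T : Ten fun _ : Fin n => m)) = 0}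


/-- chart -/
def chart {m s : ℕ} (c : Fin s → Fin (m + 1)) (x : Fin s → Fin m → ℝ) :
    Fin s → Fin (m + 1) → ℝ := fun j => (c j).insertNth (α := fun _ => ℝ) 1 (x j)

theorem contDiff_chart {m s : ℕ} (c : Fin s → Fin (m + 1)) : ContDiff ℝ 1 (chart c) := by
  refine contDiff_pi.2 fun j => contDiff_pi.2 fun i => ?_
  refine Fin.succAboveCases (c j) ?_ (fun i' => ?_) i
  · have : (fun x : Fin s → Fin m → ℝ => chart c x j (c j)) = fun _ => 1 := by
      funext x; simp [chart]
    rw [this]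
    exact contDiff_const
  · have : (fun x : Fin s → Fin m → ℝ => chart c x j ((c j).succAbove i')) = fun x => x j i' := by
      funext x; simp [chart]
    rw [this]
    exact (contDiff_apply ℝ ℝ i').comp (contDiff_apply ℝ (Fin m → ℝ) j)

/-- chart piece of the kill set -/
def killChart (n m s : ℕ) (c : Fin s → Fin (m + 1)) : Set (SymT n (m + 1)) :=
  {T : SymT n (m + 1) | ∃ x, (∀ j, chart c x j ≠ 0) ∧
      dl (List.ofFn (chart c x)) (toPoly (T : Ten fun _ : Fin n => m + 1)) = 0}

theorem small_killChart {n k s m : ℕ} (hn : n = k + s)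
    (hdim : m * s < Fintype.card (Sym (Fin (m + 1)) k)) (c : Fin s → Fin (m + 1)) :
    Small (killChart n m s c) := by
  refine small_family hn (Nat.succ_pos m) (contDiff_chart c) ?_
  have : finrank ℝ (Fin s → Fin m → ℝ) = m * s := by
    rw [Module.finrank_pi_fintype]
    simp [mul_comm]
  rw [this]
  exact hdim

theorem killSet_subset {n s m : ℕ} : killSet n (m + 1) s ⊆ ⋃ c, killChart n m s c := by
  rintro T ⟨L, hL, hT⟩
  choose c hc using fun j => Function.ne_iff.1 (hL j)
  simp only [Pi.zero_apply] at hc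
  refine mem_iUnion.2 ⟨c, fun j => (c j).removeNth ((L j (c j))⁻¹ • L j), ?_⟩
  have h1 : chart c (fun j => (c j).removeNth ((L j (c j))⁻¹ • L j))
      = fun j => (L j (c j))⁻¹ • L j := by
    funext j
    have h2 := Fin.insertNth_self_removeNth (α := fun _ => ℝ) (c j) ((L j (c j))⁻¹ • L j)
    rw [Pi.smul_apply, smul_eq_mul, inv_mul_cancel₀ (hc j)] at h2
    exact h2
  rw [h1]
  refine ⟨fun j => smul_ne_zero (inv_ne_zero (hc j)) (hL j), ?_⟩
  rw [dl_ofFn_smul, hT, smul_zero]

/-- **Dimension count**: if `(m-1) s < dim S^{n-s}V`, the tensors killed by a product of `s`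
directions form a small set. -/
theorem small_killSet {n k s m : ℕ} (hn : n = k + s)
    (hdim : m * s < Fintype.card (Sym (Fin (m + 1)) k)) : Small (killSet n (m + 1) s) :=
  (Small.iUnion (small_killChart hn hdim)).mono killSet_subset

theorem continuous_coeff_dir {X : Type*} [TopologicalSpace X] {m : ℕ} {L : X → Fin m → ℝ}
    (hL : Continuous L) {g : X → MvPolynomial (Fin m) ℝ}
    (hg : ∀ d, Continuous fun x => coeff d (g x)) (d : Fin m →₀ ℕ) :
    Continuous fun x => coeff d (dir (L x) (g x)) := by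
  have : (fun x => coeff d (dir (L x) (g x))) = fun x =>
      ∑ i, L x i * (coeff (d + Finsupp.single i 1) (g x) * (d i + 1)) := by
    funext x
    rw [dir_eq_sum, coeff_sum]
    refine Finset.sum_congr rfl fun i _ => ?_
    rw [coeff_C_mul, coeff_pderiv]
  rw [this]
  refine continuous_finsetSum _ fun i _ => ?_
  exact ((continuous_apply i).comp hL).mul ((hg _).mul continuous_const)

theorem continuous_coeff_dl {X : Type*} [TopologicalSpace X] {m s : ℕ} {Λ : X → Fin s → Fin m → ℝ}
    (hΛ : Continuous Λ) {g : X → MvPolynomial (Fin m) ℝ}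
    (hg : ∀ d, Continuous fun x => coeff d (g x)) (d : Fin m →₀ ℕ) :
    Continuous fun x => coeff d (dl (List.ofFn (Λ x)) (g x)) := by
  induction s generalizing d with
  | zero => simpa using hg d
  | succ s ih =>
    simp only [List.ofFn_succ, dl_cons]
    refine continuous_coeff_dir ?_ (fun d => ?_) d
    · exact (continuous_apply (0 : Fin (s + 1))).comp hΛ
    · have h2 : Continuous fun x => fun j : Fin s => Λ x j.succ :=
        continuous_pi fun j => (continuous_apply j.succ).comp hΛ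
      exact ih h2 d

theorem continuous_coeff_toPoly {n m : ℕ} (d : Fin m →₀ ℕ) :
    Continuous fun T : SymT n m => coeff d (toPoly (T : Ten fun _ : Fin n => m)) := by
  let f : SymT n m →ₗ[ℝ] ℝ := (lcoeff ℝ d) ∘ₗ toPoly ∘ₗ (SymT n m).subtype
  exact f.continuous_of_finiteDimensional

/-- closedness of the set of tensors killed by a compact family of products. -/
theorem isClosed_family {X : Type*} [TopologicalSpace X] [CompactSpace X] {n m s : ℕ}
    {Λ : X → Fin s → Fin m → ℝ} (hΛ : Continuous Λ) :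
    IsClosed {T : SymT n m | ∃ x, dl (List.ofFn (Λ x))
      (toPoly (T : Ten fun _ : Fin n => m)) = 0} := by
  have h1 : IsClosed {p : X × SymT n m | dl (List.ofFn (Λ p.1))
      (toPoly (p.2 : Ten fun _ : Fin n => m)) = 0} := by
    have : {p : X × SymT n m | dl (List.ofFn (Λ p.1))
      (toPoly (p.2 : Ten fun _ : Fin n => m)) = 0} = ⋂ d : Fin m →₀ ℕ,
        {p | coeff d (dl (List.ofFn (Λ p.1)) (toPoly (p.2 : Ten fun _ : Fin n => m))) = 0} := by
      ext p
      simp only [mem_ofPred_eq, mem_iInter]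
      constructor
      · intro h d; rw [h, coeff_zero]
      · intro h; ext d; rw [h d, coeff_zero]
    rw [this]
    refine isClosed_iInter fun d => isClosed_eq ?_ continuous_const
    exact continuous_coeff_dl (hΛ.comp continuous_fst)
      (fun d => (continuous_coeff_toPoly d).comp continuous_snd) d
  have h2 := isClosedMap_snd_of_compactSpace _ h1
  convert h2 using 1
  ext T
  constructor
  · rintro ⟨x, hx⟩; exact ⟨(x, T), hx, rfl⟩
  · rintro ⟨⟨x, T'⟩, hx, rfl⟩; exact ⟨x, hx⟩

theorem ne_zero_of_mem_sphere {m : ℕ} (x : Metric.sphere (0 : Fin m → ℝ) 1) :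
    (x : Fin m → ℝ) ≠ 0 := by
  intro h
  have := x.2
  rw [mem_sphere_iff_norm, h] at this
  simp at this

theorem normalize_mem_sphere {m : ℕ} {L : Fin m → ℝ} (hL : L ≠ 0) :
    ‖L‖⁻¹ • L ∈ Metric.sphere (0 : Fin m → ℝ) 1 := by
  rw [mem_sphere_iff_norm, sub_zero, norm_smul, norm_inv, norm_norm,
    inv_mul_cancel₀ (norm_ne_zero_iff.2 hL)]

theorem isClosed_killSet (n m s : ℕ) : IsClosed (killSet n m s) := by
  have h := isClosed_family (X := Fin s → Metric.sphere (0 : Fin m → ℝ) 1) (n := n) (m := m)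
    (s := s) (Λ := fun x j => (x j : Fin m → ℝ))
    (continuous_pi fun j => continuous_subtype_val.comp (continuous_apply j))
  convert h using 1
  ext T
  constructor
  · rintro ⟨L, hL, hT⟩
    refine ⟨fun j => ⟨‖L j‖⁻¹ • L j, normalize_mem_sphere (hL j)⟩, ?_⟩
    simp only
    rw [dl_ofFn_smul, hT, smul_zero]
  · rintro ⟨x, hx⟩
    exact ⟨fun j => x j, fun j => ne_zero_of_mem_sphere (x j), hx⟩

end Pool.Agent.SubTyp
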