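import Pool.Agent.SubTyp.BStar
import Pool.Agent.SubTyp.Codim1

/-! The codimension one case: upper bound from the Borsuk-Ulam theorem. -/

open MvPolynomial Module Set
open scoped ENNReal Topology LinearAlgebra.Projectivization

namespace Pool.Agent.SubTyp

theorem small_of_family {X P Z : Type*} [NormedAddCommGroup X] [NormedSpace ℝ X]
    [FiniteDimensional ℝ X] [NormedAddCommGroup P] [NormedSpace ℝ P] [FiniteDimensional ℝ P]
    [NormedAddCommGroup Z] [NormedSpace ℝ Z] [FiniteDimensional ℝ Z]
    (F : X → P →L[ℝ] Z) (hF : ContDiff ℝ 1 F) (hZP : finrank ℝ Z ≤ finrank ℝ P)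
    (hdim : finrank ℝ X < finrank ℝ Z) :
    Small {w : P | ∃ x, Function.Surjective (F x) ∧ F x w = 0} := by
  refine lt_of_le_of_lt (dimH_incidence_le F hF) ?_
  exact_mod_cast (by omega : finrank ℝ X + (finrank ℝ P - finrank ℝ Z) < finrank ℝ P)

theorem small_empty {P : Type*} [NormedAddCommGroup P] [NormedSpace ℝ P] [FiniteDimensional ℝ P]
    (hP : 0 < finrank ℝ P) : Small (∅ : Set P) := by
  unfold Small
  rw [dimH_empty]
  exact_mod_cast hP

theorem Small.iUnion' {P : Type*} [NormedAddCommGroup P] [NormedSpace ℝ P] [FiniteDimensional ℝ P]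
    (hP : 0 < finrank ℝ P) {κ : Type*} [Finite κ] {S : κ → Set P}
    (hS : ∀ i, Small (S i)) : Small (⋃ i, S i) := by
  cases isEmpty_or_nonempty κ with
  | inl h => rw [iUnion_of_empty]; exact small_empty hP
  | inr h => exact Small.iUnion hS

/-- the inclusion `ℝ³ → ℝ^(m+3)` -/
def inc (m : ℕ) : (Fin 3 → ℝ) →ₗ[ℝ] (Fin (m + 3) → ℝ) where
  toFun v := fun i => if h : i.1 < 3 then v ⟨i.1, h⟩ else 0
  map_add' v w := by
    funext i
    by_cases h : i.1 < 3 <;> simp [h]
  map_smul' c v := by
    funext i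
    by_cases h : i.1 < 3 <;> simp [h]

theorem inc_injective (m : ℕ) : Function.Injective (inc m) := by
  intro v w h
  funext i
  have := congrFun h ⟨i.1, by omega⟩
  simpa [inc] using this

section Pair

variable (m n k s E : ℕ)

/-- tensors together with auxiliary forms of degree `s`. -/
abbrev PairSp : Type := SymT n (m + 3) × (Fin E → SymT s (m + 3))

/-- values -/
abbrev PairVal : Type := (Sym (Fin (m + 3)) k → ℝ) × (Fin E → Sym (Fin (m + 3)) 0 → ℝ)

variable {m s}

/-- the simultaneous operator -/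
noncomputable def pairF (Ls : List (Fin (m + 3) → ℝ)) : PairSp m n s E →L[ℝ] PairVal m k E :=
  ((opF n k Ls).comp (ContinuousLinearMap.fst ℝ _ _)).prod
    (ContinuousLinearMap.pi fun j => (opF s 0 Ls).comp
      ((ContinuousLinearMap.proj j).comp (ContinuousLinearMap.snd ℝ _ _)))

variable {n k E}

theorem pairF_apply (Ls : List (Fin (m + 3) → ℝ)) (w : PairSp m n s E) :
    pairF n k E Ls w = (opF n k Ls w.1, fun j => opF s 0 Ls (w.2 j)) := rfl

theorem pairF_surj {Ls : List (Fin (m + 3) → ℝ)} (hs : Ls.length = s) (hn : n = k + s)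
    (hL : ∀ L ∈ Ls, L ≠ 0) : Function.Surjective (pairF (s := s) n k E Ls) := by
  rintro ⟨z1, z2⟩
  obtain ⟨T, hT⟩ := opF_surj (n := n) (k := k) (by rw [hs]; exact hn) hL z1
  choose ψ hψ using fun j => opF_surj (n := s) (k := 0) (by rw [hs, zero_add]) hL (z2 j)
  exact ⟨(T, ψ), by rw [pairF_apply, hT]; simp only [hψ]⟩

theorem contDiff_pairF {X : Type*} [NormedAddCommGroup X] [NormedSpace ℝ X]
    {Λ : X → Fin s → Fin (m + 3) → ℝ} (hΛ : ContDiff ℝ 1 Λ) [FiniteDimensional ℝ X] :
    ContDiff ℝ 1 fun x => pairF (s := s) n k E (List.ofFn (Λ x)) := by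
  rw [contDiff_clm_apply_iff]
  intro w
  simp only [pairF_apply]
  refine ContDiff.prodMk ?_ ?_
  · exact (contDiff_opF n k hΛ).clm_apply contDiff_const
  · refine contDiff_pi.2 fun j => ?_
    exact (contDiff_opF s 0 hΛ).clm_apply contDiff_const

theorem opF_ofFn_smul {m n k s : ℕ} (a : Fin s → ℝ) (L : Fin s → Fin m → ℝ) (T : SymT n m) :
    opF n k (List.ofFn fun j => a j • L j) T = (∏ j, a j) • opF n k (List.ofFn L) T := by
  rw [opF_apply, opF_apply, dl_ofFn_smul, map_smul]

theorem pairF_ofFn_smul (a : Fin s → ℝ) (L : Fin s → Fin (m + 3) → ℝ) (w : PairSp m n s E) :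
    pairF n k E (List.ofFn fun j => a j • L j) w = (∏ j, a j) • pairF n k E (List.ofFn L) w := by
  rw [pairF_apply, pairF_apply]
  refine Prod.ext ?_ ?_
  · simp only [Prod.smul_fst]; exact opF_ofFn_smul a L w.1
  · funext j
    simp only [Prod.smul_snd, Pi.smul_apply]
    exact opF_ofFn_smul a L (w.2 j)

theorem finrank_pairVal : finrank ℝ (PairVal m k E) = Fintype.card (Sym (Fin (m + 3)) k) + E := by
  rw [Module.finrank_prod, Module.finrank_fintype_fun_eq_card, Module.finrank_pi_fintype]
  simp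

theorem finrank_pair_le (hn : n = k + s) :
    finrank ℝ (PairVal m k E) ≤ finrank ℝ (PairSp m n s E) := by
  have hsurj := pairF_surj (m := m) (n := n) (k := k) (E := E) (s := s)
    (Ls := List.replicate s fun _ => (1 : ℝ))
    (by rw [List.length_replicate]) hn (fun L hL => by
      rw [List.eq_of_mem_replicate hL]
      intro h
      have := congrFun h 0
      simp at this)
  exact LinearMap.finrank_le_finrank_of_surjective (R := ℝ)
    (f := (pairF (s := s) n k E (List.replicate s fun _ => (1 : ℝ))).toLinearMap) hsurj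

/-- coincidence set: solutions with `x i = x j`. -/
def coinc (n k E : ℕ) (i j : Fin s) : Set (PairSp m n s E) :=
  {w | ∃ x : Fin s → Fin 3 → ℝ, (∀ l, x l ≠ 0) ∧ x i = x j ∧
    pairF n k E (List.ofFn fun l => inc m (x l)) w = 0}

theorem small_coinc (hn : n = k + s) (hdim : Fintype.card (Sym (Fin (m + 3)) k) + E = 2 * s)
    {i j : Fin s} (hij : i ≠ j) : Small (coinc (m := m) n k E i j) := by
  classical
  let r : Fin s → {l : Fin s // l ≠ i} := fun l => if h : l = i then ⟨j, hij.symm⟩ else ⟨l, h⟩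
  let Λ : ({l : Fin s // l ≠ i} → Fin 3) → ({l : Fin s // l ≠ i} → Fin 2 → ℝ) →
      Fin s → Fin (m + 3) → ℝ :=
    fun c y l => inc m ((c (r l)).insertNth (α := fun _ => ℝ) 1 (y (r l)))
  have hΛ : ∀ c, ContDiff ℝ 1 (Λ c) := by
    intro c
    refine contDiff_pi.2 fun l => ?_
    have h1 : ContDiff ℝ 1 fun v : Fin 3 → ℝ => inc m v :=
      (LinearMap.toContinuousLinearMap (inc m)).contDiff
    refine h1.comp ?_
    refine contDiff_pi.2 fun q => ?_
    refine Fin.succAboveCases (c (r l)) ?_ (fun q' => ?_) q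
    · have : (fun x : {l : Fin s // l ≠ i} → Fin 2 → ℝ =>
          ((c (r l)).insertNth (α := fun _ => ℝ) 1 (x (r l)) : Fin 3 → ℝ) (c (r l)))
          = fun _ => 1 := by funext x; simp
      rw [this]; exact contDiff_const
    · have : (fun x : {l : Fin s // l ≠ i} → Fin 2 → ℝ =>
          ((c (r l)).insertNth (α := fun _ => ℝ) 1 (x (r l)) : Fin 3 → ℝ)
            ((c (r l)).succAbove q')) = fun x => x (r l) q' := by funext x; simp
      rw [this]
      exact (contDiff_apply ℝ ℝ q').comp (contDiff_apply ℝ (Fin 2 → ℝ) (r l))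
  have hs : 0 < s := lt_of_le_of_lt (Nat.zero_le _) i.2
  have hX : finrank ℝ ({l : Fin s // l ≠ i} → Fin 2 → ℝ) = 2 * (s - 1) := by
    rw [Module.finrank_pi_fintype]
    simp [mul_comm]
  have hsm : ∀ c, Small {w : PairSp m n s E | ∃ y,
      Function.Surjective (pairF (s := s) n k E (List.ofFn (Λ c y))) ∧
        pairF n k E (List.ofFn (Λ c y)) w = 0} := fun c =>
    small_of_family _ (contDiff_pairF (hΛ c)) (finrank_pair_le hn) (by
      rw [hX, finrank_pairVal, hdim]; omega)
  refine (Small.iUnion' (S := fun c => {w : PairSp m n s E | ∃ y,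
      Function.Surjective (pairF (s := s) n k E (List.ofFn (Λ c y))) ∧
        pairF n k E (List.ofFn (Λ c y)) w = 0}) ?_ hsm).mono ?_
  · refine lt_of_lt_of_le ?_ (finrank_pair_le (m := m) (E := E) hn)
    rw [finrank_pairVal, hdim]; omega
  · rintro w ⟨x, hx0, hxij, hw⟩
    have hxr : ∀ l, x (r l) = x l := by
      intro l
      by_cases h : l = i
      · simp only [r, h, dite_true]; exact hxij.symm
      · simp only [r, h, dite_false]
    choose c hc using fun l => Function.ne_iff.1 (hx0 l)
    simp only [Pi.zero_apply] at hc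
    let y : {l : Fin s // l ≠ i} → Fin 2 → ℝ := fun l =>
      (c l).removeNth ((x l (c l))⁻¹ • x l)
    have hy : ∀ l : {l : Fin s // l ≠ i},
        ((c l).insertNth (α := fun _ => ℝ) 1 (y l) : Fin 3 → ℝ) = (x l (c l))⁻¹ • x l := by
      intro l
      have h2 := Fin.insertNth_self_removeNth (α := fun _ => ℝ) (c l) ((x l (c l))⁻¹ • x l)
      rw [Pi.smul_apply, smul_eq_mul, inv_mul_cancel₀ (hc l)] at h2
      exact h2
    let a : Fin s → ℝ := fun l => (x (r l) (c (r l)))⁻¹
    have hΛy : Λ (fun l => c l) y = fun l => a l • inc m (x l) := by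
      funext l
      simp only [Λ]
      rw [hy (r l), map_smul, hxr l]
      simp only [a]
      rw [hxr l]
    refine mem_iUnion.2 ⟨fun l => c l, y, ?_, ?_⟩
    · refine pairF_surj (by rw [List.length_ofFn]) hn ?_
      intro L hL
      obtain ⟨l, rfl⟩ := List.mem_ofFn.1 hL
      rw [hΛy]
      refine smul_ne_zero (inv_ne_zero (hc _)) ?_
      intro h0
      exact hx0 l (inc_injective m (by rw [h0, map_zero]))
    · rw [hΛy, pairF_ofFn_smul, hw, smul_zero]

theorem isClosed_coinc (i j : Fin s) : IsClosed (coinc (m := m) n k E i j) := by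
  let X : Set (Fin s → Metric.sphere (0 : Fin 3 → ℝ) 1) := {x | x i = x j}
  have hX : IsClosed X := isClosed_eq (continuous_apply i) (continuous_apply j)
  have hXc : CompactSpace X := isCompact_iff_compactSpace.1 hX.isCompact
  have hc0 : Continuous fun x : Fin s → Fin 3 → ℝ =>
      pairF (m := m) (s := s) n k E (List.ofFn fun l => inc m (x l)) := by
    refine (contDiff_pairF (Λ := fun (x : Fin s → Fin 3 → ℝ) l => inc m (x l)) ?_).continuous
    refine contDiff_pi.2 fun l => ?_
    have h1 : ContDiff ℝ 1 fun v : Fin 3 → ℝ => inc m v :=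
      (LinearMap.toContinuousLinearMap (inc m)).contDiff
    exact h1.comp (contDiff_apply ℝ (Fin 3 → ℝ) l)
  have h1 : IsClosed {p : X × PairSp m n s E |
      pairF n k E (List.ofFn fun l => inc m ((p.1.1 l : Fin 3 → ℝ))) p.2 = 0} := by
    refine isClosed_eq ?_ continuous_const
    refine Continuous.clm_apply ?_ continuous_snd
    have h2 : Continuous fun p : X × PairSp m n s E => fun l => (p.1.1 l : Fin 3 → ℝ) :=
      continuous_pi fun l => continuous_subtype_val.comp
        ((continuous_apply l).comp (continuous_subtype_val.comp continuous_fst))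
    exact hc0.comp h2
  have h2 := isClosedMap_snd_of_compactSpace _ h1
  convert h2 using 1
  ext w
  constructor
  · rintro ⟨x, hx0, hxij, hw⟩
    refine ⟨(⟨fun l => ⟨‖x l‖⁻¹ • x l, normalize_mem_sphere (hx0 l)⟩, ?_⟩, w), ?_, rfl⟩
    · apply Subtype.ext
      simp only
      rw [hxij]
    · change pairF n k E (List.ofFn fun l => inc m (‖x l‖⁻¹ • x l)) w = 0
      simp only [map_smul]
      rw [pairF_ofFn_smul, hw, smul_zero]
  · rintro ⟨⟨⟨x, hx⟩, w'⟩, hw, rfl⟩
    exact ⟨fun l => x l, fun l => ne_zero_of_mem_sphere (x l), congrArg Subtype.val hx, hw⟩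

theorem pairF_perm {Ls Ms : List (Fin (m + 3) → ℝ)} (h : Ls.Perm Ms) (w : PairSp m n s E) :
    pairF n k E Ls w = pairF n k E Ms w := by
  rw [pairF_apply, pairF_apply]
  simp only [opF_apply, dl_perm h]

theorem pairF_cons_smul (a : ℝ) (L : Fin (m + 3) → ℝ) (Ls : List (Fin (m + 3) → ℝ))
    (w : PairSp m n s E) : pairF n k E ((a • L) :: Ls) w = a • pairF n k E (L :: Ls) w := by
  rw [pairF_apply, pairF_apply]
  refine Prod.ext ?_ ?_
  · simp only [Prod.smul_fst, opF_apply, dl_cons, dir_smul, map_smul]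
  · funext j
    simp only [Prod.smul_snd, Pi.smul_apply, opF_apply, dl_cons, dir_smul, map_smul]

/-- **Existence of a zero**, from the Borsuk-Ulam theorem. -/
theorem exists_pair_zero (hdim : Fintype.card (Sym (Fin (m + 3)) k) + E ≤ 2 * s)
    (w : PairSp m n s E) : ∃ x : Fin s → Fin 3 → ℝ, (∀ l, x l ≠ 0) ∧
      pairF n k E (List.ofFn fun l => inc m (x l)) w = 0 := by
  let Ψ : Multiset (Fin 3 → ℝ) → PairVal m k E := fun u => pairF n k E (u.toList.map (inc m)) w
  have hΨ : ∀ (a : ℝ) v u, Ψ ((a • v) ::ₘ u) = a • Ψ (v ::ₘ u) := by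
    intro a v u
    simp only [Ψ]
    have h1 : ∀ v : Fin 3 → ℝ, ((v ::ₘ u).toList.map (inc m)).Perm
        (inc m v :: u.toList.map (inc m)) := by
      intro v
      rw [← List.map_cons]
      refine List.Perm.map _ ?_
      rw [← Multiset.coe_eq_coe, ← Multiset.cons_coe, Multiset.coe_toList, Multiset.coe_toList]
    rw [pairF_perm (h1 _), pairF_perm (h1 _), map_smul, pairF_cons_smul]
  have hΨx : ∀ x : Fin s → Fin 3 → ℝ, Ψ (Finset.univ.val.map x) =
      pairF n k E (List.ofFn fun l => inc m (x l)) w := by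
    intro x
    refine pairF_perm ?_ w
    have h2 : List.ofFn (fun l => inc m (x l)) = (List.ofFn x).map (inc m) := by
      rw [List.map_ofFn]; rfl
    rw [h2]
    refine List.Perm.map _ ?_
    rw [← Multiset.coe_eq_coe, Multiset.coe_toList, Fin.univ_val_map]
  obtain ⟨x, hx, hz⟩ := exists_zero_symm (k := s) (W := PairVal m k E)
    (by rw [finrank_pairVal]; exact hdim) Ψ hΨ (by
      simp only [hΨx]
      have hc0 : Continuous fun x : Fin s → Fin 3 → ℝ =>
          pairF (m := m) (s := s) n k E (List.ofFn fun l => inc m (x l)) := by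
        refine (contDiff_pairF (Λ := fun (x : Fin s → Fin 3 → ℝ) l => inc m (x l)) ?_).continuous
        refine contDiff_pi.2 fun l => ?_
        have h1 : ContDiff ℝ 1 fun v : Fin 3 → ℝ => inc m v :=
          (LinearMap.toContinuousLinearMap (inc m)).contDiff
        exact h1.comp (contDiff_apply ℝ (Fin 3 → ℝ) l)
      exact hc0.clm_apply continuous_const)
  exact ⟨x, hx, by rw [← hΨx]; exact hz⟩

/-- the bad pairs -/
def badPair (m n k s E : ℕ) : Set (PairSp m n s E) :=
  ⋃ ij : {ab : Fin s × Fin s // ab.1 ≠ ab.2}, coinc n k E ij.1.1 ij.1.2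

theorem small_badPair (hs : 0 < s) (hn : n = k + s)
    (hdim : Fintype.card (Sym (Fin (m + 3)) k) + E = 2 * s) : Small (badPair m n k s E) := by
  refine Small.iUnion' ?_ fun ij => small_coinc hn hdim ij.2
  refine lt_of_lt_of_le ?_ (finrank_pair_le (m := m) (E := E) hn)
  rw [finrank_pairVal, hdim]; omega

theorem isClosed_badPair : IsClosed (badPair m n k s E) :=
  isClosed_iUnion_of_finite fun ij => isClosed_coinc _ _

theorem rankLE_of_not_badPair (hn : n = k + s)
    (hdim : Fintype.card (Sym (Fin (m + 3)) k) + E ≤ 2 * s) {w : PairSp m n s E}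
    (hw : w ∉ badPair m n k s E) : w.1 ∈ RankLE (symK n (m + 3) (m + 2)) s := by
  classical
  obtain ⟨x, hx0, hz⟩ := exists_pair_zero hdim w
  have hL : ∀ l, inc m (x l) ≠ 0 := fun l h0 =>
    hx0 l (inc_injective m (by rw [h0, map_zero]))
  refine rankLE_of_kill (m := m + 2) (fun l => inc m (x l)) hL ?_ ?_
  · rw [List.pairwise_ofFn]
    intro i j hij c hc
    have hij' : i ≠ j := ne_of_lt hij
    have hxij : x i = c • x j := inc_injective m (by rw [map_smul]; exact hc)
    have hc0 : c ≠ 0 := by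
      rintro rfl
      rw [zero_smul] at hxij
      exact hx0 i hxij
    apply hw
    refine mem_iUnion.2 ⟨⟨(i, j), hij'⟩, Function.update x i (x j), ?_, ?_, ?_⟩
    · intro l
      by_cases h : l = i
      · rw [h, Function.update_self]; exact hx0 j
      · rw [Function.update_of_ne h]; exact hx0 l
    · simp only
      rw [Function.update_self, Function.update_of_ne hij'.symm]
    · have h1 : (fun l => inc m (x l)) = fun l =>
          (if l = i then c else 1 : ℝ) • inc m (Function.update x i (x j) l) := by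
        funext l
        by_cases h : l = i
        · rw [h, Function.update_self, if_pos rfl, ← map_smul, ← hxij]
        · rw [Function.update_of_ne h, if_neg h, one_smul]
      rw [h1, pairF_ofFn_smul] at hz
      refine (smul_eq_zero.1 hz).resolve_left ?_
      rw [Finset.prod_ite_eq' Finset.univ i]
      simpa using hc0
  · have h1 := congrArg Prod.fst hz
    rw [pairF_apply] at h1
    exact (opF_eq_zero_iff (by rw [List.length_ofFn]; exact hn) w.1).1 h1

end Pair

/-- rank at most `s` is a dense condition. -/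
theorem dense_rankLE {m n k s : ℕ} (hn : n = k + s) (hs : 0 < s)
    (hdim : Fintype.card (Sym (Fin (m + 3)) k) ≤ 2 * s) :
    Dense (RankLE (symK n (m + 3) (m + 2)) s) := by
  obtain ⟨E, hE⟩ : ∃ E, Fintype.card (Sym (Fin (m + 3)) k) + E = 2 * s :=
    ⟨2 * s - Fintype.card (Sym (Fin (m + 3)) k), by omega⟩
  have hd := (small_badPair (m := m) hs hn hE).dense_compl
  rw [dense_iff_inter_open]
  intro O hO hne
  obtain ⟨T, hT⟩ := hne
  obtain ⟨w, hw, hwb⟩ := hd.inter_open_nonempty (Prod.fst ⁻¹' O) (hO.preimage continuous_fst)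
    ⟨(T, 0), hT⟩
  exact ⟨w.1, hw, rankLE_of_not_badPair hn hE.le hwb⟩

theorem typical_of_dims {m n k s : ℕ} (hn : n = k + s) (hs : 0 < s)
    (hdim : Fintype.card (Sym (Fin (m + 3)) k) ≤ 2 * s)
    (hlow : (m + 2) * (s - 1) < Fintype.card (Sym (Fin (m + 3)) (k + 1))) :
    IsTypicalRank (SymSubVar n (m + 3) (m + 2)) s := by
  obtain ⟨s, rfl⟩ : ∃ t, s = t + 1 := ⟨s - 1, by omega⟩
  obtain ⟨E, hE⟩ : ∃ E, Fintype.card (Sym (Fin (m + 3)) k) + E = 2 * (s + 1) :=
    ⟨2 * (s + 1) - Fintype.card (Sym (Fin (m + 3)) k), by omega⟩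
  rw [symSubVar_eq]
  have hne : Nonempty (Gr (m + 3) (m + 2)) := exists_gr (by omega)
  have hK := exists_symK_ne_bot (n := n) (m := m + 3) (r := m + 2) (by omega) (by omega)
  have hsmall : Small (killSet n (m + 3) s) := by
    refine small_killSet (k := k + 1) (m := m + 2) (by omega) ?_
    simpa using hlow
  have hbad := small_badPair (m := m) hs hn hE
  have hopen : IsOpen (Prod.fst '' (badPair m n k (s + 1) E)ᶜ : Set (SymT n (m + 3))) :=
    isOpenMap_fst _ (isClosed_badPair).isOpen_compl
  have hne2 : (Prod.fst '' (badPair m n k (s + 1) E)ᶜ : Set (SymT n (m + 3))).Nonempty :=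
    hbad.dense_compl.nonempty.image _
  refine typical_of_open _ hK
    (O := (Prod.fst '' (badPair m n k (s + 1) E)ᶜ) ∩ (killSet n (m + 3) s)ᶜ) ?_ ?_ ?_ ?_
  · exact hopen.inter (isClosed_killSet _ _ _).isOpen_compl
  · exact hsmall.dense_compl.inter_open_nonempty _ hopen hne2
  · rintro T ⟨⟨w, hw, rfl⟩, _⟩
    exact rankLE_of_not_badPair hn hE.le hw
  · rintro T ⟨_, hT⟩ hcon
    exact hT (exists_kill_of_rankLE hcon)

theorem typical_upper {m n k s d : ℕ} (hn : n = k + s) (hs : 0 < s)
    (hdim : Fintype.card (Sym (Fin (m + 3)) k) ≤ 2 * s)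
    (hd : IsTypicalRank (SymSubVar n (m + 3) (m + 2)) d) : d ≤ s := by
  rw [symSubVar_eq] at hd
  have hne : Nonempty (Gr (m + 3) (m + 2)) := exists_gr (by omega)
  have hK := exists_symK_ne_bot (n := n) (m := m + 3) (r := m + 2) (by omega) (by omega)
  exact typical_le _ hK (dense_rankLE hn hs hdim) hd

theorem typical_lower {m n k s d : ℕ} (hn : n = k + s)
    (hlow : (m + 2) * s < Fintype.card (Sym (Fin (m + 3)) k))
    (hd : IsTypicalRank (SymSubVar n (m + 3) (m + 2)) d) : s < d := by
  rw [symSubVar_eq] at hd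
  have hne : Nonempty (Gr (m + 3) (m + 2)) := exists_gr (by omega)
  have hK := exists_symK_ne_bot (n := n) (m := m + 3) (r := m + 2) (by omega) (by omega)
  have hsmall : Small (killSet n (m + 3) s) := small_killSet (m := m + 2) hn hlow
  exact lt_typical _ hK
    (hsmall.dense_compl.mono fun T (hT : T ∉ killSet _ _ _) hcon =>
      hT (exists_kill_of_rankLE hcon)) hd

theorem card_sym_three (k : ℕ) : 2 * Fintype.card (Sym (Fin 3) k) = (k + 1) * (k + 2) := by
  rw [Sym.card_sym_eq_choose, Fintype.card_fin, show 3 + k - 1 = k + 2 by omega,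
    Nat.choose_symm_of_eq_add (show k + 2 = k + 2 by rfl), Nat.choose_two_right,
    show k + 2 - 1 = k + 1 by omega, mul_comm (k + 1) (k + 2)]
  have h : 2 ∣ (k + 2) * (k + 1) := by
    have := Nat.even_mul_succ_self (k + 1)
    rw [mul_comm] at this
    exact this.two_dvd
  omega

/-- **The ternary case**: the typical rank is unique. -/
theorem typical_ternary {n : ℕ} (hn : 1 ≤ n) (d : ℕ) :
    IsTypicalRank (SymSubVar n 3 2) d ↔
      IsLeast {s : ℕ | (n - s + 1) * (n - s + 2) ≤ 4 * s} d := by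
  have hne : {s : ℕ | (n - s + 1) * (n - s + 2) ≤ 4 * s}.Nonempty :=
    ⟨n, by simp only [mem_ofPred_eq, Nat.sub_self]; omega⟩
  classical
  obtain ⟨g, hg⟩ : ∃ g, IsLeast {s : ℕ | (n - s + 1) * (n - s + 2) ≤ 4 * s} g :=
    ⟨sInf _, Nat.sInf_mem hne, fun _ h => Nat.sInf_le h⟩
  have hgn : g ≤ n := hg.2 (by simp only [mem_ofPred_eq, Nat.sub_self]; omega)
  have hg0 : 0 < g := by
    rcases Nat.eq_zero_or_pos g with h | h
    · exfalso
      have h1 := hg.1
      rw [h] at h1
      simp only [mem_ofPred_eq] at h1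
      have : 0 < (n - 0 + 1) * (n - 0 + 2) := by positivity
      omega
    · exact h
  have hup : Fintype.card (Sym (Fin (0 + 3)) (n - g)) ≤ 2 * g := by
    have h1 := card_sym_three (n - g)
    have h2 : (n - g + 1) * (n - g + 2) ≤ 4 * g := hg.1
    change Fintype.card (Sym (Fin 3) (n - g)) ≤ 2 * g
    omega
  have hlow : (0 + 2) * (g - 1) < Fintype.card (Sym (Fin (0 + 3)) (n - g + 1)) := by
    have h1 := card_sym_three (n - g + 1)
    have h2 : ¬ (n - (g - 1) + 1) * (n - (g - 1) + 2) ≤ 4 * (g - 1) := by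
      intro h
      have := hg.2 h
      omega
    rw [show n - (g - 1) = n - g + 1 by omega] at h2
    change 2 * (g - 1) < Fintype.card (Sym (Fin 3) (n - g + 1))
    omega
  have hiff : ∀ d, IsTypicalRank (SymSubVar n 3 2) d ↔ d = g := by
    intro d
    constructor
    · intro hd
      have h1 : d ≤ g := typical_upper (m := 0) (k := n - g) (by omega) hg0 hup hd
      have h2 : g - 1 < d := typical_lower (m := 0) (k := n - g + 1) (by omega) (by
        exact hlow) hd
      omega
    · rintro rfl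
      exact typical_of_dims (m := 0) (k := n - d) (by omega) hg0 hup hlow
  rw [hiff]
  constructor
  · rintro rfl; exact hg
  · intro hd; exact hd.unique hg

end Pool.Agent.SubTyp
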