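import Pool.Agent.SubTyp.CodGen
import Pool.Agent.SubTyp.CodInt
import Pool.Agent.SubTyp.Ternary

/-! The typical ranks of `Sub_{m-1}(SⁿV)` form an interval. -/

set_option autoImplicit false

open Module Set Filter
open scoped Topology LinearAlgebra.Projectivization

namespace Pool.Agent.SubTyp

/-- the dimension of the space of forms of degree `e` in `m` variables -/
def cN (m e : ℕ) : ℕ := Fintype.card (Sym (Fin m) e)

theorem cN_mono (m : ℕ) : Monotone (cN (m + 1)) := by
  refine monotone_nat_of_le_succ fun e => ?_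
  refine Fintype.card_le_of_injective (fun x : Sym (Fin (m + 1)) e => Sym.cons (0 : Fin (m + 1)) x)
    fun x y h => ?_
  exact Sym.cons_inj_right _ _ _ |>.1 h

theorem cN_zero (m : ℕ) : cN m 0 = 1 := by
  unfold cN
  simp

theorem cN_pos (m e : ℕ) : 0 < cN (m + 1) e := by
  have h := cN_mono m (Nat.zero_le e)
  rw [cN_zero] at h
  exact h

theorem rankLE_subset_closure_interior {n m s e : ℕ} (hm : 0 < m) (hn : n = e + (s + 1))
    (hcard : cN (m + 1) e ≤ m * (s + 1)) :
    RankLE (symK n (m + 1) m) (s + 1) ⊆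
      closure (interior (RankLE (symK n (m + 1) m) (s + 1))) := by
  obtain ⟨B, x, hx0, hpair, hx, hx', hspan, hpow⟩ := exists_generic hm hcard
  rw [rankLE_eq_range]
  exact range_subset_closure_interior analytic_PhiS
    (fderiv_surj hn B x hx0 hpair hx hx' hspan hpow)

/-- **The typical ranks form an interval**, whose left end is the dimension bound. -/
theorem typical_interval (m : ℕ) {n g G : ℕ} (hn : 1 ≤ n)
    (hg : IsLeast {s : ℕ | cN (m + 3) (n - s) ≤ (m + 2) * s} g)
    (hG : IsLeast {s : ℕ | Dense (RankLE (symK n (m + 3) (m + 2)) s)} G) (d : ℕ) :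
    IsTypicalRank (SymSubVar n (m + 3) (m + 2)) d ↔ g ≤ d ∧ d ≤ G := by
  have hne : Nonempty (Gr (m + 3) (m + 2)) := exists_gr (by omega)
  have hK := exists_symK_ne_bot (n := n) (m := m + 3) (r := m + 2) (by omega) (by omega)
  have hgn : g ≤ n := hg.2 (by
    change cN (m + 3) (n - n) ≤ (m + 2) * n
    rw [Nat.sub_self, cN_zero]
    nlinarith)
  have hGn : G ≤ n := by
    refine hG.2 (dense_rankLE (k := 0) (by omega) (by omega) ?_)
    have h := cN_zero (m + 3)
    unfold cN at h
    omega
  constructor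
  · intro hd
    constructor
    · by_contra hcon
      have h1 : d ∉ {s : ℕ | cN (m + 3) (n - s) ≤ (m + 2) * s} := fun h => hcon (hg.2 h)
      have h2 : (m + 2) * d < cN (m + 3) (n - d) := not_le.1 h1
      exact lt_irrefl _ (typical_lower (n := n) (k := n - d) (s := d) (by omega) h2 hd)
    · rw [symSubVar_eq] at hd
      exact typical_le _ hK hG.1 hd
  · rintro ⟨h1, h2⟩
    have hg0 : g ≠ 0 := by
      rintro rfl
      have h3 : cN (m + 3) (n - 0) ≤ (m + 2) * 0 := hg.1
      have h4 : 0 < cN (m + 3) (n - 0) := cN_pos (m + 2) (n - 0)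
      omega
    obtain ⟨s, rfl⟩ : ∃ s, d = s + 1 := ⟨d - 1, by omega⟩
    rw [symSubVar_eq]
    have hs : ¬ Dense (RankLE (symK n (m + 3) (m + 2)) s) := fun h => by
      have := hG.2 h
      omega
    refine typical_succ _ hK ?_ hs hG.1
    refine rankLE_subset_closure_interior (m := m + 2) (e := n - (s + 1)) (by omega) (by omega) ?_
    have h3 : cN (m + 3) (n - g) ≤ (m + 2) * g := hg.1
    have h4 : cN (m + 3) (n - (s + 1)) ≤ cN (m + 3) (n - g) := cN_mono (m + 2) (by omega)
    exact h4.trans (h3.trans (Nat.mul_le_mul_left _ h1))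

end Pool.Agent.SubTyp
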