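import Pool.Agent.SubTyp.Codim1Upper

/-! The codimension one case in small degree: the typical rank is `n - 1`. -/

open MvPolynomial Module Set
open scoped ENNReal Topology LinearAlgebra.Projectivization

namespace Pool.Agent.SubTyp

section Pattern

variable {n m s : ℕ}

/-- tensors killed by the pattern `Φ L` for some direction `L ≠ 0`. -/
def patSet (n m s : ℕ) (Φ : (Fin m → ℝ) → Fin s → Fin m → ℝ) : Set (SymT n m) :=
  {T | ∃ L : Fin m → ℝ, L ≠ 0 ∧ dl (List.ofFn (Φ L)) (toPoly (T : Ten fun _ : Fin n => m)) = 0}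

theorem small_patSet {k : ℕ} (hn : n = k + s) {Φ : (Fin (m + 1) → ℝ) → Fin s → Fin (m + 1) → ℝ}
    (hΦ : ContDiff ℝ 1 Φ) (hne : ∀ L, L ≠ 0 → ∀ j, Φ L j ≠ 0)
    (hsc : ∀ (a : ℝ), a ≠ 0 → ∀ L p, dl (List.ofFn (Φ L)) p = 0 → dl (List.ofFn (Φ (a • L))) p = 0)
    (hdim : m < Fintype.card (Sym (Fin (m + 1)) k)) : Small (patSet n (m + 1) s Φ) := by
  classical
  have hchart : ∀ c : Fin (m + 1), ContDiff ℝ 1
      (fun x : Fin m → ℝ => (c.insertNth (α := fun _ => ℝ) 1 x : Fin (m + 1) → ℝ)) := by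
    intro c
    refine contDiff_pi.2 fun i => ?_
    refine Fin.succAboveCases c ?_ (fun i' => ?_) i
    · have : (fun x : Fin m → ℝ => (c.insertNth (α := fun _ => ℝ) 1 x : Fin (m + 1) → ℝ) c)
          = fun _ => 1 := by funext x; simp
      rw [this]; exact contDiff_const
    · have : (fun x : Fin m → ℝ =>
          (c.insertNth (α := fun _ => ℝ) 1 x : Fin (m + 1) → ℝ) (c.succAbove i'))
          = fun x => x i' := by funext x; simp
      rw [this]; exact contDiff_apply ℝ ℝ i'
  let S : Fin (m + 1) → Set (SymT n (m + 1)) := fun c =>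
    {T | ∃ x : Fin m → ℝ, (∀ j, Φ (c.insertNth (α := fun _ => ℝ) 1 x) j ≠ 0) ∧
      dl (List.ofFn (Φ (c.insertNth (α := fun _ => ℝ) 1 x)))
        (toPoly (T : Ten fun _ : Fin n => m + 1)) = 0}
  have hS : ∀ c, Small (S c) := fun c =>
    small_family (X := Fin m → ℝ) hn (Nat.succ_pos m) (hΦ.comp (hchart c)) (by simpa using hdim)
  refine (Small.iUnion hS).mono ?_
  rintro T ⟨L, hL, hT⟩
  obtain ⟨c, hc⟩ := Function.ne_iff.1 hL
  simp only [Pi.zero_apply] at hc
  have h2 := Fin.insertNth_self_removeNth (α := fun _ => ℝ) c ((L c)⁻¹ • L)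
  rw [Pi.smul_apply, smul_eq_mul, inv_mul_cancel₀ hc] at h2
  refine mem_iUnion.2 ⟨c, c.removeNth ((L c)⁻¹ • L), ?_, ?_⟩
  · intro j
    rw [h2]
    exact hne _ (smul_ne_zero (inv_ne_zero hc) hL) j
  · rw [h2]
    exact hsc _ (inv_ne_zero hc) L _ hT

theorem isClosed_patSet {Φ : (Fin m → ℝ) → Fin s → Fin m → ℝ} (hΦ : Continuous Φ)
    (hsc : ∀ (a : ℝ), a ≠ 0 → ∀ L p, dl (List.ofFn (Φ L)) p = 0 →
      dl (List.ofFn (Φ (a • L))) p = 0) : IsClosed (patSet n m s Φ) := by
  have h := isClosed_family (X := Metric.sphere (0 : Fin m → ℝ) 1) (n := n) (m := m)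
    (s := s) (Λ := fun x => Φ (x : Fin m → ℝ)) (hΦ.comp continuous_subtype_val)
  convert h using 1
  ext T
  constructor
  · rintro ⟨L, hL, hT⟩
    exact ⟨⟨‖L‖⁻¹ • L, normalize_mem_sphere hL⟩,
      hsc _ (inv_ne_zero (norm_ne_zero_iff.2 hL)) L _ hT⟩
  · rintro ⟨x, hx⟩
    exact ⟨x, ne_zero_of_mem_sphere x, hx⟩

end Pattern

/-- auxiliary pairwise non-proportional directions. -/
def auxDir (m : ℕ) (j : ℕ) : Fin (m + 2) → ℝ := Fin.cons 1 (Fin.cons (j : ℝ) fun _ => 0)

theorem auxDir_ne_zero (m j : ℕ) : auxDir m j ≠ 0 := by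
  intro h
  have := congrFun h 0
  simp [auxDir] at this

theorem auxDir_pairwise (m : ℕ) {i j : ℕ} (hij : i ≠ j) (c : ℝ) : auxDir m i ≠ c • auxDir m j := by
  intro h
  have h0 := congrFun h 0
  have h1 := congrFun h 1
  have e1 : ∀ j : ℕ, auxDir m j 1 = j := fun j => by
    unfold auxDir
    exact (Fin.cons_succ (α := fun _ => ℝ) 1 (Fin.cons (j : ℝ) fun _ => 0) 0).trans
      (Fin.cons_zero _ _)
  rw [Pi.smul_apply, smul_eq_mul] at h0 h1
  rw [e1, e1] at h1
  have e0 : ∀ j : ℕ, auxDir m j 0 = 1 := fun j => Fin.cons_zero _ _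
  rw [e0, e0, mul_one] at h0
  rw [← h0, one_mul] at h1
  exact hij (by exact_mod_cast h1)

/-- the pattern `L, M, aux₀, …, aux_{N-1}` with `M = L` or `M = aux_j`. -/
def pat (m N : ℕ) (o : Option (Fin N)) (L : Fin (m + 2) → ℝ) : Fin (N + 2) → Fin (m + 2) → ℝ :=
  Fin.cons L (Fin.cons (o.elim L fun j => auxDir m j) fun j => auxDir m j)

theorem pat_ofFn (m N : ℕ) (o : Option (Fin N)) (L : Fin (m + 2) → ℝ) :
    List.ofFn (pat m N o L) = L :: (o.elim L fun j => auxDir m j) ::
      List.ofFn fun j : Fin N => auxDir m j := by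
  unfold pat
  rw [List.ofFn_succ, List.ofFn_succ]
  simp

theorem pat_contDiff (m N : ℕ) (o : Option (Fin N)) : ContDiff ℝ 1 (pat m N o) := by
  refine contDiff_pi.2 fun i => ?_
  refine Fin.cases ?_ (fun i => ?_) i
  · have : (fun L => pat m N o L 0) = fun L => L := by funext L; simp [pat]
    rw [this]; exact contDiff_id
  · refine Fin.cases ?_ (fun i => ?_) i
    · have : (fun L => pat m N o L (Fin.succ 0)) = fun L => (o.elim L fun j => auxDir m j) := by
        funext L; simp [pat]
      rw [this]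
      cases o with
      | none => exact contDiff_id
      | some j => exact contDiff_const
    · have : (fun L => pat m N o L i.succ.succ) = fun _ => auxDir m i := by
        funext L; simp [pat]
      rw [this]; exact contDiff_const

theorem pat_ne_zero (m N : ℕ) (o : Option (Fin N)) (L : Fin (m + 2) → ℝ) (hL : L ≠ 0)
    (i : Fin (N + 2)) : pat m N o L i ≠ 0 := by
  refine Fin.cases ?_ (fun i => ?_) i
  · simpa [pat] using hL
  · refine Fin.cases ?_ (fun i => ?_) i
    · cases o with
      | none => simpa [pat] using hL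
      | some j => simpa [pat] using auxDir_ne_zero m j
    · simpa [pat] using auxDir_ne_zero m i

theorem pat_scale (m N : ℕ) (o : Option (Fin N)) (a : ℝ) (_ : a ≠ 0) (L : Fin (m + 2) → ℝ)
    (p : MvPolynomial (Fin (m + 2)) ℝ) (h : dl (List.ofFn (pat m N o L)) p = 0) :
    dl (List.ofFn (pat m N o (a • L))) p = 0 := by
  rw [pat_ofFn] at h ⊢
  cases o with
  | none =>
    simp only [Option.elim_none, dl_cons] at h ⊢
    rw [dir_smul, dir_smul, Derivation.map_smul, h, smul_zero, smul_zero]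
  | some j =>
    simp only [Option.elim_some, dl_cons] at h ⊢
    rw [dir_smul, h, smul_zero]

/-- the bad tensors. -/
def badSet (n m N : ℕ) : Set (SymT n (m + 2)) :=
  ⋃ o : Option (Fin N), patSet n (m + 2) (N + 2) (pat m N o)

theorem small_badSet (m N : ℕ) : Small (badSet (N + 3) m N) := by
  refine Small.iUnion fun o => ?_
  refine small_patSet (k := 1) (by omega) (pat_contDiff m N o) (pat_ne_zero m N o)
    (pat_scale m N o) ?_
  rw [Sym.card_sym_eq_choose]
  simp

theorem isClosed_badSet (n m N : ℕ) : IsClosed (badSet n m N) :=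
  isClosed_iUnion_of_finite fun o => isClosed_patSet (pat_contDiff m N o).continuous
    (pat_scale m N o)

/-- outside the bad set the rank is at most `n - 1` (`n = N + 3`, `m + 2 ≥ 3` variables). -/
theorem rankLE_of_not_bad {m N : ℕ} (hm : 1 ≤ m) {T : SymT (N + 3) (m + 2)}
    (hT : T ∉ badSet (N + 3) m N) : T ∈ RankLE (symK (N + 3) (m + 2) (m + 1)) (N + 2) := by
  set q := toPoly (T : Ten fun _ : Fin (N + 3) => m + 2) with hq
  have hbad : ∀ (o : Option (Fin N)) (L : Fin (m + 2) → ℝ), L ≠ 0 →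
      dl (L :: (o.elim L fun j => auxDir m j) :: List.ofFn fun j : Fin N => auxDir m j) q ≠ 0 := by
    intro o L hL h0
    apply hT
    refine mem_iUnion.2 ⟨o, L, hL, ?_⟩
    rw [pat_ofFn]
    exact h0
  have hhom : (dl (List.ofFn fun j : Fin N => auxDir m j) q).IsHomogeneous 3 := by
    have := dl_homog (List.ofFn fun j : Fin N => auxDir m j)
      (toPoly_homog (T : Ten fun _ : Fin (N + 3) => m + 2))
    rwa [List.length_ofFn, show N + 3 - N = 3 by omega] at this
  obtain ⟨x, y, hx, hy, hxy⟩ := exists_two_kill (by omega) hhom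
  have hxy0 : ∀ c : ℝ, x ≠ c • y := by
    rintro c rfl
    have hc : c ≠ 0 := by rintro rfl; simp at hx
    rw [dir_smul] at hxy
    have h1 := (smul_eq_zero.1 hxy).resolve_left hc
    exact hbad none y hy (by simpa using h1)
  have hxa : ∀ (j : Fin N) (c : ℝ), x ≠ c • auxDir m j := by
    rintro j c rfl
    have hc : c ≠ 0 := by rintro rfl; simp at hx
    rw [dir_smul] at hxy
    have h1 := (smul_eq_zero.1 hxy).resolve_left hc
    refine hbad (some j) y hy ?_
    simp only [Option.elim_some, dl_cons]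
    rw [dir_comm]
    exact h1
  have hya : ∀ (j : Fin N) (c : ℝ), y ≠ c • auxDir m j := by
    rintro j c rfl
    have hc : c ≠ 0 := by rintro rfl; simp at hy
    rw [dir_smul, Derivation.map_smul] at hxy
    have h1 := (smul_eq_zero.1 hxy).resolve_left hc
    exact hbad (some j) x hx (by simpa using h1)
  let L : Fin (N + 2) → Fin (m + 2) → ℝ := Fin.cons x (Fin.cons y fun j => auxDir m j)
  have hL : List.ofFn L = x :: y :: List.ofFn fun j : Fin N => auxDir m j := by
    simp only [L]
    rw [List.ofFn_succ, List.ofFn_succ]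
    simp
  refine rankLE_of_kill L ?_ ?_ ?_
  · intro i
    refine Fin.cases ?_ (fun i => ?_) i
    · simpa [L] using hx
    · refine Fin.cases ?_ (fun i => ?_) i
      · simpa [L] using hy
      · simpa [L] using auxDir_ne_zero m i
  · rw [hL, List.pairwise_cons, List.pairwise_cons]
    refine ⟨?_, ?_, ?_⟩
    · intro M hM c
      rcases List.mem_cons.1 hM with rfl | hM
      · exact hxy0 c
      · obtain ⟨j, rfl⟩ := List.mem_ofFn.1 hM
        exact hxa j c
    · intro M hM c
      obtain ⟨j, rfl⟩ := List.mem_ofFn.1 hM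
      exact hya j c
    · rw [List.pairwise_ofFn]
      intro i j hij c
      exact auxDir_pairwise m (by
        intro h
        exact (Fin.ne_of_lt hij) (Fin.ext h)) c
  · rw [hL, dl_cons, dl_cons]
    exact hxy

/-- every typical rank is at most `n - 1`. -/
theorem typical_le_pred {n m : ℕ} (hn : 3 ≤ n) (hm : 3 ≤ m) {d : ℕ}
    (hd : IsTypicalRank (SymSubVar n m (m - 1)) d) : d ≤ n - 1 := by
  obtain ⟨N, rfl⟩ : ∃ N, n = N + 3 := ⟨n - 3, by omega⟩
  obtain ⟨m, rfl⟩ : ∃ m', m = m' + 2 := ⟨m - 2, by omega⟩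
  rw [show m + 2 - 1 = m + 1 by omega, symSubVar_eq] at hd
  have : Nonempty (Gr (m + 2) (m + 1)) := exists_gr (by omega)
  refine typical_le _ (exists_symK_ne_bot (by omega) (by omega)) ?_ hd
  rw [show N + 3 - 1 = N + 2 by omega]
  exact (small_badSet m N).dense_compl.mono fun T hT => rankLE_of_not_bad (by omega) hT

/-- **Codimension one, small degree.** -/
theorem typical_codim_one {n m : ℕ} (hn : 3 ≤ n) (hm : 3 ≤ m)
    (h : 2 * (m - 1) * (n - 2) < m * (m + 1)) (d : ℕ) :
    IsTypicalRank (SymSubVar n m (m - 1)) d ↔ d = n - 1 := by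
  obtain ⟨N, rfl⟩ : ∃ N, n = N + 3 := ⟨n - 3, by omega⟩
  obtain ⟨m, rfl⟩ : ∃ m', m = m' + 2 := ⟨m - 2, by omega⟩
  rw [show m + 2 - 1 = m + 1 by omega, show N + 3 - 1 = N + 2 by omega, symSubVar_eq]
  have hne : Nonempty (Gr (m + 2) (m + 1)) := exists_gr (by omega)
  have hK := exists_symK_ne_bot (n := N + 3) (m := m + 2) (r := m + 1) (by omega) (by omega)
  have hcard : (m + 1) * (N + 1) < Fintype.card (Sym (Fin (m + 1 + 1)) 2) := by
    rw [Sym.card_sym_eq_choose, Fintype.card_fin, Nat.choose_two_right]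
    have h1 : m + 2 - 1 = m + 1 := by omega
    have h2 : N + 3 - 2 = N + 1 := by omega
    rw [h1, h2] at h
    obtain ⟨r, hr⟩ := Nat.even_mul_succ_self (m + 2)
    have h3 : (m + 1 + 1 + 2 - 1) * (m + 1 + 1 + 2 - 1 - 1) = r + r := by
      rw [← hr, mul_comm]
      congr 1
    rw [h3]
    have h4 : (r + r) / 2 = r := by omega
    rw [h4]
    have h5 : 2 * ((m + 1) * (N + 1)) < r + r := by
      rw [← mul_assoc, ← hr]; exact h
    omega
  have hsmall : Small (killSet (N + 3) (m + 2) (N + 1)) :=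
    small_killSet (k := 2) (by omega) hcard
  have hlow : ∀ T ∈ RankLE (symK (N + 3) (m + 2) (m + 1)) (N + 1),
      T ∈ killSet (N + 3) (m + 2) (N + 1) := fun T hT => exists_kill_of_rankLE hT
  constructor
  · intro hd
    have h1 : d ≤ N + 2 := typical_le _ hK
      ((small_badSet m N).dense_compl.mono fun T hT => rankLE_of_not_bad (by
        by_contra hcon
        have : m = 0 := by omega
        omega) hT) hd
    have h2 : N + 1 < d := lt_typical _ hK
      (hsmall.dense_compl.mono fun T (hT : T ∉ killSet _ _ _) hcon => hT (hlow T hcon)) hd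
    omega
  · rintro rfl
    refine typical_of_open _ hK
      (O := (killSet (N + 3) (m + 2) (N + 1) ∪ badSet (N + 3) m N)ᶜ) ?_ ?_ ?_ ?_
    · exact ((isClosed_killSet _ _ _).union (isClosed_badSet _ _ _)).isOpen_compl
    · exact (hsmall.union (small_badSet m N)).dense_compl.nonempty
    · intro T hT
      exact rankLE_of_not_bad (by omega) (fun hcon => hT (Or.inr hcon))
    · intro T hT hcon
      exact hT (Or.inl (hlow T hcon))

end Pool.Agent.SubTyp
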