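import Pool.Agent.SubTyp.CodNon
import Pool.Agent.SubTyp.CodDef
import Pool.Agent.SubTyp.Codim1Main

/-! The typical ranks of `Sub_{m-1}(SⁿV)`: the interval and the bounds for its ends. -/

set_option autoImplicit false

open Module Set Filter

namespace Pool.Agent.SubTyp

theorem cN_eq_choose (m e : ℕ) : cN (m + 1) e = (e + m).choose m := by
  unfold cN
  rw [Sym.card_sym_eq_choose, Fintype.card_fin, show m + 1 + e - 1 = e + m by omega]
  exact Nat.choose_symm_of_eq_add rfl

theorem exists_isLeast_nat {S : Set ℕ} (h : S.Nonempty) : ∃ g, IsLeast S g :=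
  ⟨sInf S, Nat.sInf_mem h, fun _ h' => Nat.sInf_le h'⟩

/-- **The typical ranks of `Sub_{m-1}(SⁿV)`**. -/
theorem codim_interval {n m : ℕ} (hn : 1 ≤ n) (hm : 3 ≤ m) :
    ∃ g G : ℕ, g ≤ G ∧ (∀ d, IsTypicalRank (SymSubVar n m (m - 1)) d ↔ g ≤ d ∧ d ≤ G) ∧
      IsLeast {s : ℕ | (n - s + (m - 1)).choose (m - 1) ≤ (m - 1) * s} g ∧
      (∀ s, (n - s + (m - 1)).choose (m - 1) ≤ 2 * s → G ≤ s) ∧ (3 ≤ n → G ≤ n - 1) ∧
      (Even m → ∀ s, (m - 2) * s + 2 ≤ (n - s + (m - 1)).choose (m - 1) → s + 1 ≤ G) := by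
  obtain ⟨m, rfl⟩ : ∃ m', m = m' + 3 := ⟨m - 3, by omega⟩
  have hch : ∀ e, (e + (m + 3 - 1)).choose (m + 3 - 1) = cN (m + 3) e := fun e => by
    rw [cN_eq_choose (m + 2)]
    rfl
  simp only [hch]
  rw [show m + 3 - 1 = m + 2 by omega, show m + 3 - 2 = m + 1 by omega]
  obtain ⟨g, hg⟩ := exists_isLeast_nat (S := {s : ℕ | cN (m + 3) (n - s) ≤ (m + 2) * s}) ⟨n, by
    change cN (m + 3) (n - n) ≤ (m + 2) * n
    rw [Nat.sub_self, cN_zero]
    nlinarith⟩
  have hdense : ∀ s, cN (m + 3) (n - s) ≤ 2 * s →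
      Dense (RankLE (symK n (m + 3) (m + 2)) s) := by
    intro s hs
    have hne : Nonempty (Gr (m + 3) (m + 2)) := exists_gr (by omega)
    have hs0 : 0 < s := by
      have h1 : 0 < cN (m + 3) (n - s) := cN_pos (m + 2) (n - s)
      omega
    rcases le_total s n with h | h
    · exact dense_rankLE (k := n - s) (by omega) hs0 hs
    · have h1 : Dense (RankLE (symK n (m + 3) (m + 2)) n) := by
        refine dense_rankLE (k := 0) (by omega) (by omega) ?_
        have h := cN_zero (m + 3)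
        unfold cN at h
        omega
      exact h1.mono (rankLE_mono _ h)
  obtain ⟨G, hG⟩ := exists_isLeast_nat
    (S := {s : ℕ | Dense (RankLE (symK n (m + 3) (m + 2)) s)}) ⟨n, by
      refine hdense n ?_
      rw [Nat.sub_self, cN_zero]
      omega⟩
  have hmain := typical_interval m hn hg hG
  have hne : Nonempty (Gr (m + 3) (m + 2)) := exists_gr (by omega)
  have hK := exists_symK_ne_bot (n := n) (m := m + 3) (r := m + 2) (by omega) (by omega)
  have hG0 : G ≠ 0 := by
    intro h0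
    have h1 : Dense (RankLE (symK n (m + 3) (m + 2)) 0) := h0 ▸ hG.1
    have h2 : ∀ v ∈ RankLE (symK n (m + 3) (m + 2)) 0, v = 0 := by
      rintro v ⟨i, hv⟩
      rw [iSup_of_empty] at hv
      exact (Submodule.mem_bot ℝ).1 hv
    obtain ⟨i, hi⟩ := hK
    obtain ⟨w, hw, hw0⟩ := Submodule.exists_mem_ne_zero_of_ne_bot hi
    obtain ⟨v, hv, hv'⟩ := h1.exists_mem_open (isOpen_compl_singleton (x := (0 : SymT n (m + 3))))
      ⟨w, hw0⟩
    exact hv' (h2 v hv)
  have hgG : g ≤ G := by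
    by_contra hcon
    push Not at hcon
    obtain ⟨s, hs⟩ : ∃ s, G = s + 1 := ⟨G - 1, by omega⟩
    have h1 : G ∉ {s : ℕ | cN (m + 3) (n - s) ≤ (m + 2) * s} := fun h => by
      have := hg.2 h
      omega
    have h2 : (m + 2) * G < cN (m + 3) (n - G) := not_le.1 h1
    have hGn : G ≤ n := hG.2 (by
      refine hdense n ?_
      rw [Nat.sub_self, cN_zero]
      omega)
    have hsmall : Small (killSet n (m + 3) G) :=
      small_killSet (k := n - G) (m := m + 2) (by omega) h2
    obtain ⟨v, hv, hv'⟩ := hG.1.exists_mem_open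
      (isClosed_killSet n (m + 3) G).isOpen_compl hsmall.dense_compl.nonempty
    exact hv' (exists_kill_of_rankLE hv)
  refine ⟨g, G, hgG, hmain, hg, fun s hs => hG.2 (hdense s hs), ?_, ?_⟩
  · intro h3
    have h1 : IsTypicalRank (SymSubVar n (m + 3) (m + 3 - 1)) G := (hmain G).2 ⟨hgG, le_refl _⟩
    exact typical_le_pred h3 (by omega) h1
  · intro heven s hs
    obtain ⟨h, hh⟩ := heven
    have hsn : s ≤ n := by
      by_contra hcon
      rw [show n - s = 0 by omega, cN_zero] at hs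
      omega
    have hnd := not_dense_rankLE (m := m + 2) (h := h) (s := s) (e := n - s) (n := n) (by omega)
      (by omega) (by omega) (by
        have : m + 2 - 1 = m + 1 := by omega
        rw [this]
        exact hs)
    by_contra hcon
    push Not at hcon
    exact hnd (hG.1.mono (rankLE_mono _ (by omega)))

/-- the arithmetic of the case of four variables -/
theorem quaternary_arith {n g G : ℕ} (hn : 1 ≤ n) (hgG : g ≤ G)
    (hg : IsLeast {s : ℕ | (n - s + 3).choose 3 ≤ 3 * s} g)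
    (hup : ∀ s, (n - s + 3).choose 3 ≤ 2 * s → G ≤ s)
    (hlow : ∀ s, 2 * s + 2 ≤ (n - s + 3).choose 3 → s + 1 ≤ G) {G₀ : ℕ}
    (h0 : IsLeast {s : ℕ | (n - s + 3).choose 3 ≤ 2 * s} G₀) :
    G = G₀ ∨ (G + 1 = G₀ ∧ (n - G + 3).choose 3 = 2 * G + 1) := by
  have hG := hup G₀ h0.1
  have hpos : ∀ k : ℕ, 1 ≤ (k + 3).choose 3 := fun k => Nat.choose_pos (by omega)
  have hg1 : 1 ≤ g := by
    rcases Nat.eq_zero_or_pos g with h | h
    · have h1 : (n - g + 3).choose 3 ≤ 3 * g := hg.1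
      rw [h] at h1
      have := hpos (n - 0)
      omega
    · exact h
  obtain ⟨s, rfl⟩ : ∃ s, G₀ = s + 1 := ⟨G₀ - 1, by omega⟩
  have h1 : ¬ (n - s + 3).choose 3 ≤ 2 * s := fun h => by
    have := h0.2 h
    omega
  by_cases h2 : 2 * s + 2 ≤ (n - s + 3).choose 3
  · left
    have := hlow s h2
    omega
  · have h3 : (n - s + 3).choose 3 = 2 * s + 1 := by omega
    rcases Nat.eq_zero_or_pos s with hs | hs
    · left
      omega
    · obtain ⟨t, rfl⟩ : ∃ t, s = t + 1 := ⟨s - 1, by omega⟩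
      have h4 : (n - (t + 1) + 3).choose 3 ≤ (n - t + 3).choose 3 :=
        Nat.choose_le_choose 3 (by omega)
      have h5 := hlow t (by omega)
      rcases Nat.eq_or_lt_of_le h5 with h6 | h6
      · right
        exact ⟨by omega, by rw [← h6]; exact h3⟩
      · left
        omega

end Pool.Agent.SubTyp
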