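import Pool.Agent.SubTyp.Binary
import Pool.Agent.Lib.BorsukUlam.Main

/-! A symmetric map of `k` vectors of `ℝ³`, homogeneous in each of them, with values in a space of
dimension at most `2k`, vanishes on some `k` non-zero vectors. -/

open Polynomial Complex ComplexConjugate Module

namespace Pool.Agent.SubTyp

/-- parameter space of the symmetric binary forms -/
abbrev VB (k : ℕ) : Type := (Fin k → ℂ) × ℝ

/-- the symmetric binary form with given coefficients -/
noncomputable def phi (k : ℕ) (v : VB k) : ℂ[X] :=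
  (∑ j : Fin k, (C (v.1 j) * X ^ (j : ℕ) +
    C ((-1) ^ (k + (j : ℕ)) * conj (v.1 j)) * X ^ (2 * k - (j : ℕ)))) + C (v.2 : ℂ) * X ^ k

/-- the first coefficients -/
noncomputable def cf (k : ℕ) (p : ℂ[X]) : VB k := (fun j => p.coeff j, (p.coeff k).re)

theorem cf_add (k : ℕ) (p q : ℂ[X]) : cf k (p + q) = cf k p + cf k q := by
  unfold cf
  refine Prod.ext ?_ ?_
  · funext j; simp
  · simp

theorem cf_C_mul (k : ℕ) (r : ℝ) (p : ℂ[X]) : cf k (C (r : ℂ) * p) = r • cf k p := by
  unfold cf
  refine Prod.ext ?_ ?_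
  · funext j; simp
  · simp

theorem isB_phi (k : ℕ) (v : VB k) : IsB k (phi k v) := by
  refine (IsB.sum _ fun j _ => ?_).add (isB_mid k v.2)
  exact isB_pair (by have := j.2; omega) _

theorem cf_phi (k : ℕ) (v : VB k) : cf k (phi k v) = v := by
  have hco : ∀ i ≤ k, (phi k v).coeff i = (∑ j : Fin k, if i = (j : ℕ) then v.1 j else 0) +
      if i = k then (v.2 : ℂ) else 0 := by
    intro i hi
    unfold phi
    rw [coeff_add, finsetSum_coeff, coeff_C_mul_X_pow]
    congr 1
    refine Finset.sum_congr rfl fun j _ => ?_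
    rw [coeff_add, coeff_C_mul_X_pow, coeff_C_mul_X_pow, if_neg (c := i = 2 * k - (j : ℕ)), add_zero]
    have := j.2
    omega
  unfold cf
  refine Prod.ext ?_ ?_
  · funext i
    simp only
    rw [hco _ i.2.le, if_neg (by have := i.2; omega), add_zero, Finset.sum_eq_single i]
    · simp
    · intro j _ hj
      rw [if_neg]
      intro h
      exact hj (Fin.ext h.symm)
    · intro h; exact absurd (Finset.mem_univ _) h
  · simp only
    rw [hco _ le_rfl, if_pos rfl, Finset.sum_eq_zero]
    · simp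
    · intro j _
      rw [if_neg]
      have := j.2
      omega

theorem eq_zero_of_cf {k : ℕ} {p : ℂ[X]} (hp : IsB k p) (h : cf k p = 0) : p = 0 := by
  have h1 : ∀ j, j < k → p.coeff j = 0 := by
    intro j hj
    exact congrFun (congrArg Prod.fst h) ⟨j, hj⟩
  have h2 : (p.coeff k).re = 0 := congrArg Prod.snd h
  have h3 : p.coeff k = 0 := by
    have := hp.coeff_eq (j := k) (by omega)
    rw [show 2 * k - k = k by omega, ← two_mul, pow_mul] at this
    simp only [even_two, Even.neg_pow, one_pow, one_mul] at this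
    have h4 : ((p.coeff k).re : ℂ) = p.coeff k := (Complex.conj_eq_iff_re).1 this.symm
    rw [← h4, h2, Complex.ofReal_zero]
  ext j
  rw [coeff_zero]
  rcases lt_trichotomy j k with hj | hj | hj
  · exact h1 j hj
  · rw [hj]; exact h3
  · by_cases hj2 : j ≤ 2 * k
    · rw [hp.coeff_eq hj2, h1 _ (by omega), map_zero, mul_zero]
    · exact coeff_eq_zero_of_natDegree_lt (by have := hp.1; omega)

theorem eq_of_cf {k : ℕ} {p q : ℂ[X]} (hp : IsB k p) (hq : IsB k q) (h : cf k p = cf k q) :
    p = q := by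
  have h1 : p + -q = 0 := by
    refine eq_zero_of_cf (hp.add hq.neg) ?_
    rw [cf_add, h]
    have h2 : cf k (-q) = - cf k q := by
      have := cf_C_mul k (-1) q
      simpa using this
    rw [h2, add_neg_cancel]
  rw [← sub_eq_add_neg] at h1
  exact sub_eq_zero.1 h1

theorem continuous_coeff_prod {T : Type*} [TopologicalSpace T] {ι : Type*} (s : Finset ι)
    (P : T → ι → ℂ[X]) (hP : ∀ i j, Continuous fun x => (P x i).coeff j) (j : ℕ) :
    Continuous fun x => (∏ i ∈ s, P x i).coeff j := by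
  classical
  induction s using Finset.induction_on generalizing j with
  | empty => simpa using continuous_const
  | insert a s ha ih =>
    simp only [Finset.prod_insert ha, coeff_mul]
    exact continuous_finsetSum _ fun q _ => (hP a q.1).mul (ih q.2)

theorem continuous_coeff_qf (j : ℕ) : Continuous fun v : Fin 3 → ℝ => (qf v).coeff j := by
  have h : (fun v : Fin 3 → ℝ => (qf v).coeff j) = fun v =>
      (if j = 2 then ((v 0 : ℂ) + v 1 * I) else 0) + (2 * (v 2 : ℂ)) * (if 1 = j then 1 else 0) -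
        (if j = 0 then ((v 0 : ℂ) - v 1 * I) else 0) := by
    funext v
    unfold qf
    rw [coeff_sub, coeff_add, coeff_C_mul_X_pow, coeff_C_mul, coeff_X, coeff_C]
  rw [h]
  have h0 : Continuous fun v : Fin 3 → ℝ => (v 0 : ℂ) :=
    Complex.continuous_ofReal.comp (continuous_apply 0)
  have h1 : Continuous fun v : Fin 3 → ℝ => (v 1 : ℂ) :=
    Complex.continuous_ofReal.comp (continuous_apply 1)
  have h2 : Continuous fun v : Fin 3 → ℝ => (v 2 : ℂ) :=
    Complex.continuous_ofReal.comp (continuous_apply 2)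
  refine Continuous.sub (Continuous.add ?_ ?_) ?_
  · split_ifs
    · exact h0.add (h1.mul continuous_const)
    · exact continuous_const
  · exact (continuous_const.mul h2).mul continuous_const
  · split_ifs
    · exact h0.sub (h1.mul continuous_const)
    · exact continuous_const

section Main

variable {k : ℕ}

/-- the coefficients of `c ∏ qf (x i)`. -/
noncomputable def muB (c : ℝ) (x : Fin k → Fin 3 → ℝ) : VB k := cf k (C (c : ℂ) * ∏ i, qf (x i))

theorem muB_eq_smul (c : ℝ) (x : Fin k → Fin 3 → ℝ) : muB c x = c • muB 1 x := by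
  unfold muB
  rw [cf_C_mul, cf_C_mul, one_smul]

theorem prod_eq (x : Fin k → Fin 3 → ℝ) :
    ((Finset.univ.val.map x).map qf).prod = ∏ i, qf (x i) := by
  rw [Multiset.map_map]
  rfl

theorem isB_finprod (c : ℝ) (x : Fin k → Fin 3 → ℝ) : IsB k (C (c : ℂ) * ∏ i, qf (x i)) := by
  have h := isB_prod (Finset.univ.val.map x)
  rw [prod_eq, Multiset.card_map, Finset.card_val, Finset.card_univ, Fintype.card_fin] at h
  exact h.cmul c

theorem exists_fin_of_card {s : Multiset (Fin 3 → ℝ)} (hs : s.card = k) :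
    ∃ x : Fin k → Fin 3 → ℝ, s = Finset.univ.val.map x := by
  induction s using Quotient.inductionOn with
  | h l =>
    simp only [Multiset.quot_mk_to_coe, Multiset.coe_card] at hs
    subst hs
    refine ⟨fun i => l.get i, ?_⟩
    rw [Fin.univ_val_map]
    simp

theorem continuous_muB : Continuous fun p : ℝ × (Fin k → Fin 3 → ℝ) => muB p.1 p.2 := by
  have h1 : ∀ j, Continuous fun p : ℝ × (Fin k → Fin 3 → ℝ) =>
      (C (p.1 : ℂ) * ∏ i, qf (p.2 i)).coeff j := by
    intro j
    simp only [coeff_C_mul]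
    have h3 : ∀ (i : Fin k) (j : ℕ), Continuous fun p : ℝ × (Fin k → Fin 3 → ℝ) =>
        (qf (p.2 i)).coeff j := by
      intro i j
      have h4 : Continuous fun p : ℝ × (Fin k → Fin 3 → ℝ) => p.2 i :=
        (continuous_apply i).comp continuous_snd
      exact Continuous.comp (g := fun v : Fin 3 → ℝ => (qf v).coeff j) (continuous_coeff_qf j) h4
    have h5 : Continuous fun p : ℝ × (Fin k → Fin 3 → ℝ) => (∏ i, qf (p.2 i)).coeff j :=
      continuous_coeff_prod (T := ℝ × (Fin k → Fin 3 → ℝ)) Finset.univ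
        (fun p i => qf (p.2 i)) h3 j
    exact (Complex.continuous_ofReal.comp continuous_fst).mul h5
  unfold muB cf
  refine Continuous.prodMk ?_ ?_
  · exact continuous_pi fun j : Fin k => h1 (j : ℕ)
  · exact Complex.continuous_re.comp (h1 k)

/-- every parameter is attained, with unit vectors. -/
theorem exists_muB (v : VB k) : ∃ (c : ℝ) (x : Fin k → Fin 3 → ℝ),
    (∀ i, x i ∈ Metric.sphere (0 : Fin 3 → ℝ) 1) ∧ muB c x = v := by
  obtain ⟨s, hs, hs0, c, hc⟩ := exists_factor k (phi k v) (isB_phi k v)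
  obtain ⟨x, rfl⟩ := exists_fin_of_card hs
  have hx : ∀ i, x i ≠ 0 := fun i => hs0 _ (Multiset.mem_map_of_mem _ (Finset.mem_univ_val i))
  refine ⟨c * ∏ i, ‖x i‖, fun i => ‖x i‖⁻¹ • x i, fun i => ?_, ?_⟩
  · rw [mem_sphere_iff_norm, sub_zero, norm_smul, norm_inv, norm_norm,
      inv_mul_cancel₀ (norm_ne_zero_iff.2 (hx i))]
  · unfold muB
    have h1 : C ((c * ∏ i, ‖x i‖ : ℝ) : ℂ) * ∏ i, qf (‖x i‖⁻¹ • x i) = phi k v := by
      rw [hc, prod_eq]
      have h2 : ∏ i, qf (‖x i‖⁻¹ • x i) = C ((∏ i, ‖x i‖⁻¹ : ℝ) : ℂ) * ∏ i, qf (x i) := by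
        simp_rw [qf_smul]
        rw [Finset.prod_mul_distrib]
        congr 1
        rw [ofReal_prod, map_prod]
      rw [h2, ← mul_assoc, ← C_mul, ← ofReal_mul, mul_assoc, ← Finset.prod_mul_distrib,
        Finset.prod_eq_one, mul_one]
      intro i _
      exact mul_inv_cancel₀ (norm_ne_zero_iff.2 (hx i))
    rw [h1, cf_phi]

variable {W : Type*} [NormedAddCommGroup W] [NormedSpace ℝ W]

/-- **Main topological lemma.** -/
theorem exists_zero_symm [FiniteDimensional ℝ W] (hW : finrank ℝ W ≤ 2 * k)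
    (Ψ : Multiset (Fin 3 → ℝ) → W) (hΨ : ∀ (a : ℝ) v u, Ψ ((a • v) ::ₘ u) = a • Ψ (v ::ₘ u))
    (hcont : Continuous fun x : Fin k → Fin 3 → ℝ => Ψ (Finset.univ.val.map x)) :
    ∃ x : Fin k → Fin 3 → ℝ, (∀ i, x i ≠ 0) ∧ Ψ (Finset.univ.val.map x) = 0 := by
  classical
  have hsph : ∀ x : Fin 3 → ℝ, x ∈ Metric.sphere (0 : Fin 3 → ℝ) 1 → x ≠ 0 := by
    rintro x hx rfl
    simp at hx
  choose c x hx hv using exists_muB (k := k)
  let F : VB k → W := fun v => c v • Ψ (Finset.univ.val.map (x v))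
  have hF : ∀ (c' : ℝ) (x' : Fin k → Fin 3 → ℝ), (∀ i, x' i ≠ 0) →
      F (muB c' x') = c' • Ψ (Finset.univ.val.map x') := by
    intro c' x' hx'
    refine factor_unique k _ _ Ψ hΨ _ _ (by simp) (by simp) ?_ ?_ ?_
    · intro v hv
      obtain ⟨i, _, rfl⟩ := Multiset.mem_map.1 hv
      exact hsph _ (hx _ i)
    · intro v hv
      obtain ⟨i, _, rfl⟩ := Multiset.mem_map.1 hv
      exact hx' i
    · rw [prod_eq, prod_eq]
      exact eq_of_cf (isB_finprod _ _) (isB_finprod _ _) (hv (muB c' x'))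
  -- lower bound
  obtain ⟨δ, hδ, hlow⟩ : ∃ δ > 0, ∀ x : Fin k → Fin 3 → ℝ,
      (∀ i, x i ∈ Metric.sphere (0 : Fin 3 → ℝ) 1) → δ ≤ ‖muB 1 x‖ := by
    have hcomp : IsCompact (Set.univ.pi fun _ : Fin k => Metric.sphere (0 : Fin 3 → ℝ) 1) :=
      isCompact_univ_pi fun _ => isCompact_sphere _ _
    have hne : (Set.univ.pi fun _ : Fin k => Metric.sphere (0 : Fin 3 → ℝ) 1).Nonempty := by
      rw [Set.univ_pi_nonempty_iff]
      intro _
      exact NormedSpace.sphere_nonempty.2 zero_le_one
    obtain ⟨x₀, hx₀, hmin⟩ := hcomp.exists_isMinOn hne (f := fun x => ‖muB 1 x‖)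
      (by
        have h1 : Continuous fun x : Fin k → Fin 3 → ℝ => muB 1 x :=
          Continuous.comp (g := fun p : ℝ × (Fin k → Fin 3 → ℝ) => muB p.1 p.2)
            (f := fun x : Fin k → Fin 3 → ℝ => ((1 : ℝ), x)) continuous_muB
            (continuous_const.prodMk continuous_id)
        exact h1.norm.continuousOn)
    refine ⟨‖muB 1 x₀‖, ?_, fun x hx => hmin (fun i _ => hx i)⟩
    rw [gt_iff_lt, norm_pos_iff]
    intro h0
    have h1 := eq_zero_of_cf (isB_finprod 1 x₀) h0
    have h2 : (∏ i, qf (x₀ i)) = 0 := by simpa using h1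
    obtain ⟨i, _, hi⟩ := Finset.prod_eq_zero_iff.1 h2
    exact qf_ne_zero (hsph _ (hx₀ i (Set.mem_univ i))) hi
  -- continuity
  have hFcont : Continuous F := by
    have key : ∀ R : ℝ, ContinuousOn F (Metric.closedBall 0 R) := by
      intro R
      rw [continuousOn_iff_isClosed]
      intro t ht
      let K : Set (ℝ × (Fin k → Fin 3 → ℝ)) :=
        (Set.Icc (-(R / δ)) (R / δ)) ×ˢ (Set.univ.pi fun _ => Metric.sphere (0 : Fin 3 → ℝ) 1)
      have hK : IsCompact K := isCompact_Icc.prod (isCompact_univ_pi fun _ => isCompact_sphere _ _)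
      let G : ℝ × (Fin k → Fin 3 → ℝ) → W := fun p => p.1 • Ψ (Finset.univ.val.map p.2)
      have hG : Continuous G := continuous_fst.smul (hcont.comp continuous_snd)
      refine ⟨(fun p : ℝ × (Fin k → Fin 3 → ℝ) => muB p.1 p.2) '' (K ∩ G ⁻¹' t),
        ((hK.inter_right (ht.preimage hG)).image continuous_muB).isClosed, ?_⟩
      ext v
      constructor
      · rintro ⟨hvt, hvR⟩
        refine ⟨⟨(c v, x v), ⟨⟨?_, fun i _ => hx v i⟩, ?_⟩, hv v⟩, hvR⟩
        · rw [Set.mem_Icc, ← abs_le]
          rw [mem_closedBall_zero_iff, ← hv v, muB_eq_smul, norm_smul, Real.norm_eq_abs] at hvR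
          rw [le_div_iff₀ hδ]
          have := hlow (x v) (hx v)
          have h2 := abs_nonneg (c v)
          nlinarith
        · exact hvt
      · rintro ⟨⟨⟨c', x'⟩, ⟨hK', hG'⟩, rfl⟩, hvR⟩
        refine ⟨?_, hvR⟩
        change F (muB c' x') ∈ t
        rw [hF c' x' (fun i => hsph _ (hK'.2 i (Set.mem_univ i)))]
        exact hG'
    rw [continuous_iff_continuousAt]
    intro v
    refine (key (‖v‖ + 1)).continuousAt ?_
    exact Metric.closedBall_mem_nhds_of_mem (by simp)
  have hodd : ∀ v, v ≠ 0 → F (-v) = - F v := by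
    intro v _
    have h1 : -v = muB (-(c v)) (x v) := by
      rw [muB_eq_smul, neg_smul, ← muB_eq_smul, hv v]
    rw [h1, hF _ _ (fun i => hsph _ (hx v i)), neg_smul]
  have hdim : finrank ℝ W < finrank ℝ (VB k) := by
    have : finrank ℝ (VB k) = 2 * k + 1 := by
      rw [Module.finrank_prod, Module.finrank_pi_fintype, Module.finrank_self]
      simp [Complex.finrank_real_complex, mul_comm]
    omega
  obtain ⟨v, hv0, hFv⟩ := Pool.Agent.Lib.BorsukUlam.exists_zero_of_odd hdim F
    hFcont.continuousOn hodd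
  refine ⟨x v, fun i => hsph _ (hx v i), ?_⟩
  refine (smul_eq_zero.1 hFv).resolve_left ?_
  intro hc0
  apply hv0
  rw [← hv v, muB_eq_smul, hc0, zero_smul]

end Main

end Pool.Agent.SubTyp
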