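import Mathlib

/-! Totally real split ternary forms as antipodally symmetric binary forms.

A vector `v ∈ ℝ³` is encoded by the quadratic polynomial `qf v = w X² + 2c X - w̄`, `w = v₀ + i v₁`,
`c = v₂`. The polynomials of degree `≤ 2k` invariant under `z ↦ -1/z̄` form a real vector space of
dimension `2k + 1`, and each of them is a product of `k` polynomials `qf v`, uniquely. -/

open Polynomial Complex ComplexConjugate

namespace Pool.Agent.SubTyp

/-- the quadratic attached to a vector. -/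
noncomputable def qf (v : Fin 3 → ℝ) : ℂ[X] :=
  C ((v 0 : ℂ) + v 1 * I) * X ^ 2 + C (2 * (v 2 : ℂ)) * X - C ((v 0 : ℂ) - v 1 * I)

/-- the vector attached to a root. -/
noncomputable def nv (z : ℂ) : Fin 3 → ℝ := ![z.re, -z.im, (1 - z.re ^ 2 - z.im ^ 2) / 2]

theorem qf_smul (a : ℝ) (v : Fin 3 → ℝ) : qf (a • v) = C (a : ℂ) * qf v := by
  unfold qf
  simp only [Pi.smul_apply, smul_eq_mul, ofReal_mul, mul_sub, mul_add]
  simp only [C_mul, C_add, C_sub]
  ring

theorem qf_nv (z : ℂ) : qf (nv z) = (C (conj z) * X + 1) * (X - C z) := by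
  have h1 : ((nv z 0 : ℂ) + nv z 1 * I) = conj z := by
    apply Complex.ext <;> simp [nv]
  have h2 : ((nv z 0 : ℂ) - nv z 1 * I) = z := by
    apply Complex.ext <;> simp [nv]
  have h3 : (2 * (nv z 2 : ℂ)) = 1 - conj z * z := by
    rw [← Complex.normSq_eq_conj_mul_self, Complex.normSq_apply]
    simp only [nv, Matrix.cons_val]
    push_cast
    ring
  unfold qf
  rw [h1, h2, h3]
  simp only [C_mul, C_sub, C_1]
  ring

theorem nv_ne_zero (z : ℂ) : nv z ≠ 0 := by
  intro h
  have h0 := congrFun h 0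
  have h1 := congrFun h 1
  have h2 := congrFun h 2
  simp only [nv, Matrix.cons_val_zero, Matrix.cons_val_one, Matrix.cons_val_two, Matrix.tail_cons,
    Matrix.head_cons, Pi.zero_apply] at h0 h1 h2
  have h1' : z.im = 0 := by linarith
  rw [h0, h1'] at h2
  norm_num at h2

/-- if `z` is a root of `qf v` then `v` is a multiple of `nv z`. -/
theorem eq_smul_nv {v : Fin 3 → ℝ} {z : ℂ} (h : (qf v).eval z = 0) : ∃ a : ℝ, v = a • nv z := by
  have hE : (v 0 + v 1 * I) * z ^ 2 + 2 * v 2 * z - (v 0 - v 1 * I) = 0 := by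
    have := h
    unfold qf at this
    simpa using this
  set x := z.re with hx
  set y := z.im with hy
  have hz : z = x + y * I := by apply Complex.ext <;> simp [hx, hy]
  have hre : v 0 * (x ^ 2 - y ^ 2) - 2 * v 1 * x * y + 2 * v 2 * x - v 0 = 0 := by
    have := congrArg Complex.re hE
    rw [hz] at this
    simp [pow_two] at this
    linarith
  have him : v 1 * (x ^ 2 - y ^ 2) + 2 * v 0 * x * y + 2 * v 2 * y + v 1 = 0 := by
    have := congrArg Complex.im hE
    rw [hz] at this
    simp [pow_two] at this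
    linarith
  by_cases hz0 : x ^ 2 + y ^ 2 = 0
  · have hx0 : x = 0 := by nlinarith [sq_nonneg x, sq_nonneg y]
    have hy0 : y = 0 := by nlinarith [sq_nonneg x, sq_nonneg y]
    rw [hx0, hy0] at hre him
    refine ⟨2 * v 2, ?_⟩
    funext i
    fin_cases i
    · simp [nv, ← hx, hx0]; linarith
    · simp [nv, ← hy, hy0]; linarith
    · simp [nv, ← hx, ← hy, hx0, hy0]
      ring
  · have hpos : 0 < x ^ 2 + y ^ 2 := lt_of_le_of_ne (by positivity) (Ne.symm hz0)
    have h1 : (1 + x ^ 2 + y ^ 2) * (v 1 * x + v 0 * y) = 0 := by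
      linear_combination x * him - y * hre
    have h2 : v 1 * x + v 0 * y = 0 := by
      rcases mul_eq_zero.1 h1 with h | h
      · nlinarith
      · exact h
    have h3 : 2 * v 2 * (x ^ 2 + y ^ 2) = (v 0 * x - v 1 * y) * (1 - x ^ 2 - y ^ 2) := by
      linear_combination x * hre + y * him
    refine ⟨(v 0 * x - v 1 * y) / (x ^ 2 + y ^ 2), ?_⟩
    funext i
    fin_cases i
    · simp only [nv, Pi.smul_apply, smul_eq_mul, ← hx]
      simp
      field_simp
      linear_combination y * h2
    · simp only [nv, Pi.smul_apply, smul_eq_mul, ← hy]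
      simp
      field_simp
      linear_combination x * h2
    · simp only [nv, Pi.smul_apply, smul_eq_mul, ← hy, ← hx]
      simp
      field_simp
      linear_combination h3

theorem coeff_qf_two (v : Fin 3 → ℝ) : (qf v).coeff 2 = v 0 + v 1 * I := by
  unfold qf
  simp only [coeff_sub, coeff_add, coeff_C_mul, coeff_X_pow, coeff_X, coeff_C]
  norm_num

theorem coeff_qf_one (v : Fin 3 → ℝ) : (qf v).coeff 1 = 2 * v 2 := by
  unfold qf
  simp only [coeff_sub, coeff_add, coeff_C_mul, coeff_X_pow, coeff_X, coeff_C]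
  norm_num

theorem coeff_qf_zero (v : Fin 3 → ℝ) : (qf v).coeff 0 = -(v 0 - v 1 * I) := by
  unfold qf; simp

theorem natDegree_qf_le (v : Fin 3 → ℝ) : (qf v).natDegree ≤ 2 := by
  unfold qf
  compute_degree

theorem natDegree_qf_pos {v : Fin 3 → ℝ} (hv : v ≠ 0) : 0 < (qf v).natDegree := by
  by_contra hcon
  push Not at hcon
  have h2 : (qf v).coeff 2 = 0 := coeff_eq_zero_of_natDegree_lt (by omega)
  have h1 : (qf v).coeff 1 = 0 := coeff_eq_zero_of_natDegree_lt (by omega)
  rw [coeff_qf_two] at h2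
  rw [coeff_qf_one] at h1
  apply hv
  funext i
  fin_cases i
  · simpa using congrArg Complex.re h2
  · simpa using congrArg Complex.im h2
  · simpa using h1

theorem qf_ne_zero {v : Fin 3 → ℝ} (hv : v ≠ 0) : qf v ≠ 0 := by
  intro h
  have := natDegree_qf_pos hv
  rw [h] at this
  simp at this

theorem exists_root_qf {v : Fin 3 → ℝ} (hv : v ≠ 0) : ∃ z : ℂ, (qf v).eval z = 0 := by
  have h1 : (qf v).degree ≠ 0 := by
    intro h
    have := natDegree_qf_pos hv
    rw [natDegree_eq_of_degree_eq_some h] at this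
    exact lt_irrefl _ this
  obtain ⟨z, hz⟩ := IsAlgClosed.exists_root (qf v) h1
  exact ⟨z, hz⟩

theorem prod_qf_ne_zero {s : Multiset (Fin 3 → ℝ)} (hs : ∀ v ∈ s, v ≠ 0) :
    (s.map qf).prod ≠ 0 := by
  rw [Ne, Multiset.prod_eq_zero_iff, Multiset.mem_map]
  rintro ⟨v, hv, hv0⟩
  exact qf_ne_zero (hs v hv) hv0

/-- **Uniqueness of the factorisation.** -/
theorem factor_unique {W : Type*} [AddCommGroup W] [Module ℝ W] (k : ℕ) :
    ∀ (s t : Multiset (Fin 3 → ℝ)) (Ψ : Multiset (Fin 3 → ℝ) → W)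
      (_ : ∀ (a : ℝ) v u, Ψ ((a • v) ::ₘ u) = a • Ψ (v ::ₘ u)) (c d : ℝ),
      s.card = k → t.card = k → (∀ v ∈ s, v ≠ 0) → (∀ v ∈ t, v ≠ 0) →
      C (c : ℂ) * (s.map qf).prod = C (d : ℂ) * (t.map qf).prod → c • Ψ s = d • Ψ t := by
  induction k with
  | zero =>
    intro s t Ψ hΨ c d hs ht _ _ h
    rw [Multiset.card_eq_zero] at hs ht
    subst hs; subst ht
    simp at h
    rw [h]
  | succ k ih =>
    intro s t Ψ hΨ c d hs ht hs0 ht0 h
    by_cases hc : c = 0
    · subst hc
      have hd : d = 0 := by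
        by_contra hd
        simp only [ofReal_zero, C_0, zero_mul] at h
        have := mul_ne_zero (C_ne_zero.2 (ofReal_ne_zero.2 hd)) (prod_qf_ne_zero ht0)
        exact this h.symm
      subst hd
      simp
    · obtain ⟨v, s', rfl, hs'⟩ : ∃ v s', s = v ::ₘ s' ∧ s'.card = k := by
        obtain ⟨v, hv⟩ := Multiset.card_pos_iff_exists_mem.1 (by omega : 0 < s.card)
        obtain ⟨s', rfl⟩ := Multiset.exists_cons_of_mem hv
        exact ⟨v, s', rfl, by rw [Multiset.card_cons] at hs; omega⟩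
      have hv0 : v ≠ 0 := hs0 v (Multiset.mem_cons_self _ _)
      obtain ⟨z, hz⟩ := exists_root_qf hv0
      have hd : d ≠ 0 := by
        intro hd
        subst hd
        simp only [ofReal_zero, C_0, zero_mul] at h
        exact (mul_ne_zero (C_ne_zero.2 (ofReal_ne_zero.2 hc)) (prod_qf_ne_zero hs0)) h
      have h1 : ((t.map qf).prod).eval z = 0 := by
        have h2 := congrArg (Polynomial.eval z) h
        rw [Multiset.map_cons, Multiset.prod_cons, eval_mul, eval_mul, eval_mul, hz, zero_mul,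
          mul_zero, eval_C] at h2
        exact (mul_eq_zero.1 h2.symm).resolve_left (ofReal_ne_zero.2 hd)
      rw [eval_multiset_prod, Multiset.prod_eq_zero_iff, Multiset.map_map, Multiset.mem_map] at h1
      obtain ⟨w, hwt, hw⟩ := h1
      have hw0 := ht0 w hwt
      obtain ⟨a, ha⟩ := eq_smul_nv hz
      obtain ⟨b, hb⟩ := eq_smul_nv (v := w) (z := z) hw
      have hb0 : b ≠ 0 := by rintro rfl; rw [zero_smul] at hb; exact hw0 hb
      have hvw : v = (a / b) • w := by
        rw [hb, smul_smul, div_mul_cancel₀ _ hb0, ← ha]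
      obtain ⟨t', rfl⟩ := Multiset.exists_cons_of_mem hwt
      rw [Multiset.card_cons] at ht
      have h3 : C ((c * (a / b) : ℝ) : ℂ) * (s'.map qf).prod = C (d : ℂ) * (t'.map qf).prod := by
        rw [Multiset.map_cons, Multiset.prod_cons, Multiset.map_cons, Multiset.prod_cons, hvw,
          qf_smul] at h
        have h4 : qf w * (C ((c * (a / b) : ℝ) : ℂ) * (s'.map qf).prod) =
            qf w * (C (d : ℂ) * (t'.map qf).prod) := by
          rw [ofReal_mul, C_mul]
          linear_combination h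
        exact mul_left_cancel₀ (qf_ne_zero hw0) h4
      have h5 := ih s' t' (fun u => Ψ (w ::ₘ u))
        (fun a v u => by
          rw [Multiset.cons_swap, hΨ, Multiset.cons_swap]) (c * (a / b)) d hs' (by omega)
        (fun v hv => hs0 v (Multiset.mem_cons_of_mem hv))
        (fun v hv => ht0 v (Multiset.mem_cons_of_mem hv)) h3
      rw [← h5]
      conv_lhs => rw [hvw, hΨ, smul_smul]

/-- the conjugate polynomial evaluated at `-X`. -/
noncomputable def tw (p : ℂ[X]) : ℂ[X] := (p.map (starRingEnd ℂ)).comp (C (-1) * X)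

theorem coeff_tw (p : ℂ[X]) (j : ℕ) : (tw p).coeff j = conj (p.coeff j) * (-1) ^ j := by
  unfold tw; rw [comp_C_mul_X_coeff, coeff_map]

theorem tw_mul (p q : ℂ[X]) : tw (p * q) = tw p * tw q := by
  unfold tw; rw [Polynomial.map_mul, mul_comp]

theorem tw_add (p q : ℂ[X]) : tw (p + q) = tw p + tw q := by
  unfold tw; rw [Polynomial.map_add, add_comp]

theorem natDegree_tw_le (p : ℂ[X]) : (tw p).natDegree ≤ p.natDegree := by
  rw [natDegree_le_iff_coeff_eq_zero]
  intro j hj
  rw [coeff_tw, coeff_eq_zero_of_natDegree_lt hj]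
  simp

theorem eval_tw (p : ℂ[X]) (z : ℂ) : (tw p).eval (-conj z) = conj (p.eval z) := by
  unfold tw
  rw [eval_comp, eval_mul, eval_C, eval_X, neg_one_mul, neg_neg, eval_map, eval₂_at_apply]

/-- polynomials of degree `≤ 2k` invariant under `z ↦ -1/z̄`. -/
def IsB (k : ℕ) (p : ℂ[X]) : Prop := p.natDegree ≤ 2 * k ∧ reflect (2 * k) (tw p) = C ((-1) ^ k) * p

theorem IsB.coeff_eq {k : ℕ} {p : ℂ[X]} (hp : IsB k p) {j : ℕ} (hj : j ≤ 2 * k) :
    p.coeff j = (-1) ^ (k + j) * conj (p.coeff (2 * k - j)) := by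
  have h := congrArg (fun q => coeff q j) hp.2
  simp only [coeff_reflect, coeff_tw, coeff_C_mul, revAt_le hj] at h
  have h1 : ((-1 : ℂ) ^ k) * (-1) ^ k = 1 := by rw [← mul_pow]; simp
  have h2 : (-1 : ℂ) ^ (2 * k - j) = (-1) ^ j := by
    have h3 : (-1 : ℂ) ^ (2 * k - j) * (-1) ^ j = 1 := by
      rw [← pow_add, Nat.sub_add_cancel hj, pow_mul]; simp
    have h4 : ((-1 : ℂ) ^ j) * (-1) ^ j = 1 := by rw [← mul_pow]; simp
    calc (-1 : ℂ) ^ (2 * k - j) = (-1 : ℂ) ^ (2 * k - j) * ((-1) ^ j * (-1) ^ j) := by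
          rw [h4, mul_one]
      _ = (-1) ^ j := by rw [← mul_assoc, h3, one_mul]
  rw [h2] at h
  rw [pow_add]
  linear_combination (-1 : ℂ) * p.coeff j * h1 - (-1) ^ k * h

theorem IsB.add {k : ℕ} {p q : ℂ[X]} (hp : IsB k p) (hq : IsB k q) : IsB k (p + q) := by
  refine ⟨(natDegree_add_le _ _).trans (max_le hp.1 hq.1), ?_⟩
  rw [tw_add, reflect_add, hp.2, hq.2, mul_add]

theorem isB_zero (k : ℕ) : IsB k 0 := by
  refine ⟨by simp, ?_⟩
  have : tw 0 = 0 := by unfold tw; simp
  rw [this]; simp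

theorem IsB.sum {k : ℕ} {ι : Type*} (s : Finset ι) {p : ι → ℂ[X]} (hp : ∀ i ∈ s, IsB k (p i)) :
    IsB k (∑ i ∈ s, p i) := by
  classical
  induction s using Finset.induction_on with
  | empty => simpa using isB_zero k
  | insert a s ha ih =>
    rw [Finset.sum_insert ha]
    exact (hp a (Finset.mem_insert_self _ _)).add
      (ih fun i hi => hp i (Finset.mem_insert_of_mem hi))

theorem tw_C_mul_X_pow (a : ℂ) (j : ℕ) : tw (C a * X ^ j) = C (conj a * (-1) ^ j) * X ^ j := by
  ext i
  rw [coeff_tw, coeff_C_mul_X_pow, coeff_C_mul_X_pow]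
  split_ifs with h
  · rw [h]
  · simp

theorem tw_C_mul (a : ℂ) (p : ℂ[X]) : tw (C a * p) = C (conj a) * tw p := by
  ext i
  rw [coeff_tw, coeff_C_mul, coeff_C_mul, coeff_tw, map_mul, mul_assoc]

theorem IsB.cmul {k : ℕ} {p : ℂ[X]} (hp : IsB k p) (r : ℝ) : IsB k (C (r : ℂ) * p) := by
  refine ⟨(natDegree_C_mul_le _ _).trans hp.1, ?_⟩
  rw [tw_C_mul, reflect_C_mul, hp.2, Complex.conj_ofReal]
  ring

theorem IsB.neg {k : ℕ} {p : ℂ[X]} (hp : IsB k p) : IsB k (-p) := by
  have := hp.cmul (-1)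
  simpa using this

theorem isB_pair {k j : ℕ} (hj : j ≤ 2 * k) (a : ℂ) :
    IsB k (C a * X ^ j + C ((-1) ^ (k + j) * conj a) * X ^ (2 * k - j)) := by
  have h1 : ((-1 : ℂ) ^ k) * (-1) ^ k = 1 := by rw [← mul_pow]; simp
  have h4 : ((-1 : ℂ) ^ j) * (-1) ^ j = 1 := by rw [← mul_pow]; simp
  have h2 : (-1 : ℂ) ^ (2 * k - j) = (-1) ^ j := by
    have h3 : (-1 : ℂ) ^ (2 * k - j) * (-1) ^ j = 1 := by
      rw [← pow_add, Nat.sub_add_cancel hj, pow_mul]; simp
    calc (-1 : ℂ) ^ (2 * k - j) = (-1 : ℂ) ^ (2 * k - j) * ((-1) ^ j * (-1) ^ j) := by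
          rw [h4, mul_one]
      _ = (-1) ^ j := by rw [← mul_assoc, h3, one_mul]
  refine ⟨?_, ?_⟩
  · refine (natDegree_add_le _ _).trans (max_le ?_ ?_)
    · exact (natDegree_C_mul_X_pow_le _ _).trans hj
    · exact (natDegree_C_mul_X_pow_le _ _).trans (Nat.sub_le _ _)
  · rw [tw_add, tw_C_mul_X_pow, tw_C_mul_X_pow, reflect_add, reflect_C_mul_X_pow,
      reflect_C_mul_X_pow, revAt_le hj, revAt_le (Nat.sub_le _ _), Nat.sub_sub_self hj, h2]
    have e0 : conj ((-1 : ℂ) ^ (k + j) * conj a) = (-1) ^ (k + j) * a := by simp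
    have e1 : ((-1 : ℂ) ^ (k + j) * a) * (-1) ^ j = (-1) ^ k * a := by
      rw [pow_add]
      linear_combination (-1 : ℂ) ^ k * a * h4
    have e2 : conj a * (-1 : ℂ) ^ j = (-1) ^ k * ((-1) ^ (k + j) * conj a) := by
      rw [pow_add]
      linear_combination -(conj a) * (-1 : ℂ) ^ j * h1
    rw [e0, e1, e2, Polynomial.C_mul, Polynomial.C_mul (a := (-1 : ℂ) ^ k) (b := a)]
    ring

theorem isB_mid (k : ℕ) (r : ℝ) : IsB k (C (r : ℂ) * X ^ k) := by
  have h := isB_pair (k := k) (j := k) (by omega) (r / 2 : ℝ)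
  have h1 : (-1 : ℂ) ^ (k + k) = 1 := by rw [← two_mul, pow_mul]; simp
  rw [h1, one_mul, Complex.conj_ofReal, show 2 * k - k = k by omega, ← add_mul, ← C_add] at h
  convert h using 3
  push_cast
  ring

theorem IsB.mul {k l : ℕ} {p q : ℂ[X]} (hp : IsB k p) (hq : IsB l q) : IsB (k + l) (p * q) := by
  refine ⟨(natDegree_mul_le).trans (by have := hp.1; have := hq.1; omega), ?_⟩
  rw [tw_mul, mul_add 2 k l, reflect_mul _ _ ((natDegree_tw_le p).trans hp.1)
    ((natDegree_tw_le q).trans hq.1), hp.2, hq.2, pow_add, Polynomial.C_mul]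
  ring

theorem isB_qf (v : Fin 3 → ℝ) : IsB 1 (qf v) := by
  have h1 := isB_pair (k := 1) (j := 2) (by norm_num) ((v 0 : ℂ) + v 1 * I)
  have h2 := isB_mid 1 (2 * v 2)
  have h3 := h1.add h2
  have : qf v = C ((v 0 : ℂ) + v 1 * I) * X ^ 2 + C ((-1) ^ (1 + 2) *
      conj ((v 0 : ℂ) + v 1 * I)) * X ^ (2 * 1 - 2) + C ((2 * v 2 : ℝ) : ℂ) * X ^ 1 := by
    unfold qf
    have e1 : (-1 : ℂ) ^ (1 + 2) * conj ((v 0 : ℂ) + v 1 * I) = -((v 0 : ℂ) - v 1 * I) := by
      simp only [map_add, map_mul, Complex.conj_ofReal, Complex.conj_I]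
      ring
    rw [e1, C_neg]
    push_cast
    ring
  rw [this]
  exact h3

theorem isB_one : IsB 0 1 := by
  have := isB_mid 0 1
  simpa using this

theorem isB_prod (s : Multiset (Fin 3 → ℝ)) : IsB s.card (s.map qf).prod := by
  induction s using Multiset.induction_on with
  | empty => simpa using isB_one
  | cons v s ih =>
    rw [Multiset.map_cons, Multiset.prod_cons, Multiset.card_cons, add_comm]
    exact (isB_qf v).mul ih

theorem IsB.of_mul {k : ℕ} {q h : ℂ[X]} (hq : IsB 1 q) (hq0 : q ≠ 0) (hp : IsB (k + 1) (q * h))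
    (hdeg : h.natDegree ≤ 2 * k) : IsB k h := by
  refine ⟨hdeg, ?_⟩
  have h1 := hp.2
  rw [tw_mul, show 2 * (k + 1) = 2 * 1 + 2 * k by ring,
    reflect_mul _ _ ((natDegree_tw_le q).trans hq.1) ((natDegree_tw_le h).trans hdeg), hq.2] at h1
  have h2 : q * reflect (2 * k) (tw h) = q * (C ((-1) ^ k) * h) := by
    rw [pow_one, pow_succ, Polynomial.C_mul, C_neg, C_1] at h1
    linear_combination -h1
  exact mul_left_cancel₀ hq0 h2

theorem IsB.eval_antipode {k : ℕ} {p : ℂ[X]} (hp : IsB k p) {z : ℂ} (hz : z ≠ 0)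
    (h : p.eval z = 0) : p.eval (-(conj z)⁻¹) = 0 := by
  have hz' : -conj z ≠ 0 := by simpa using hz
  let _ : Invertible (-conj z) := invertibleOfNonzero hz'
  have h1 := eval₂_reflect_mul_pow (RingHom.id ℂ) (-conj z) (2 * k) (tw p)
    ((natDegree_tw_le p).trans hp.1)
  rw [hp.2] at h1
  have h2 : eval₂ (RingHom.id ℂ) (-conj z) (tw p) = 0 := by
    change (tw p).eval (-conj z) = 0
    rw [eval_tw, h, map_zero]
  rw [h2] at h1
  have h3 := (mul_eq_zero.1 h1).resolve_right (pow_ne_zero _ hz')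
  change (C ((-1) ^ k) * p).eval (⅟(-conj z)) = 0 at h3
  rw [eval_mul, eval_C] at h3
  have h4 := (mul_eq_zero.1 h3).resolve_left (pow_ne_zero _ (by norm_num))
  rw [invOf_eq_inv] at h4
  rwa [inv_neg] at h4

/-- **Existence of the factorisation.** -/
theorem exists_factor (k : ℕ) : ∀ p : ℂ[X], IsB k p → ∃ s : Multiset (Fin 3 → ℝ), s.card = k ∧
    (∀ v ∈ s, v ≠ 0) ∧ ∃ c : ℝ, p = C (c : ℂ) * (s.map qf).prod := by
  induction k with
  | zero =>
    intro p hp
    refine ⟨0, rfl, by simp, (p.coeff 0).re, ?_⟩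
    have h1 := hp.coeff_eq (j := 0) (by norm_num)
    have h2 : p = C (p.coeff 0) := eq_C_of_natDegree_le_zero hp.1
    simp only [add_zero, pow_zero, one_mul, mul_zero, le_refl, tsub_eq_zero_of_le] at h1
    have h3 : ((p.coeff 0).re : ℂ) = p.coeff 0 := (Complex.conj_eq_iff_re).1 h1.symm
    rw [h3]
    simpa using h2
  | succ k ih =>
    intro p hp
    by_cases hp0 : p = 0
    · refine ⟨Multiset.replicate (k + 1) (nv 0), by simp, ?_, 0, by simp [hp0]⟩
      intro v hv
      rw [Multiset.eq_of_mem_replicate hv]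
      exact nv_ne_zero 0
    · have hdeg : p.degree ≠ 0 := by
        intro h
        have h1 := natDegree_eq_of_degree_eq_some h
        have h2 : p.coeff (2 * (k + 1)) = 0 := coeff_eq_zero_of_natDegree_lt (by
          rw [show p.natDegree = 0 from h1]; omega)
        have h3 := hp.coeff_eq (j := 0) (by omega)
        rw [Nat.sub_zero, h2, map_zero, mul_zero] at h3
        apply hp0
        rw [eq_C_of_natDegree_eq_zero h1, h3, C_0]
      obtain ⟨z, hz⟩ := IsAlgClosed.exists_root p hdeg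
      have hz' : p.eval z = 0 := hz
      have hdvd : qf (nv z) ∣ p := by
        rw [qf_nv]
        obtain ⟨p1, hp1⟩ := dvd_iff_isRoot.2 hz
        by_cases hz0 : z = 0
        · subst hz0
          rw [hp1]
          simp
        · have h1 := hp.eval_antipode hz0 hz'
          have hcz : conj z ≠ 0 := by simpa using hz0
          have h2 : p1.eval (-(conj z)⁻¹) = 0 := by
            rw [hp1, eval_mul, eval_sub, eval_X, eval_C] at h1
            refine (mul_eq_zero.1 h1).resolve_left ?_
            intro h3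
            have h4 : (1 : ℂ) + conj z * z = 0 := by
              field_simp at h3
              linear_combination -h3
            rw [← Complex.normSq_eq_conj_mul_self] at h4
            have h5 := congrArg Complex.re h4
            simp at h5
            have := Complex.normSq_nonneg z
            linarith
          obtain ⟨p2, hp2⟩ := dvd_iff_isRoot.2 (show IsRoot p1 (-(conj z)⁻¹) from h2)
          refine ⟨C ((conj z)⁻¹) * p2, ?_⟩
          rw [hp1, hp2]
          have h6 : (C (conj z) : ℂ[X]) * C ((conj z)⁻¹) = 1 := by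
            rw [← C_mul, mul_inv_cancel₀ hcz, C_1]
          rw [C_neg]
          linear_combination (X - C z) * p2 * (-X) * h6
      obtain ⟨h, hh⟩ := hdvd
      have hh0 : h ≠ 0 := by rintro rfl; rw [mul_zero] at hh; exact hp0 hh
      have hq0 := qf_ne_zero (nv_ne_zero z)
      have hnat : p.natDegree = (qf (nv z)).natDegree + h.natDegree := by
        rw [hh, natDegree_mul hq0 hh0]
      have hhdeg : h.natDegree ≤ 2 * k := by
        have h1 := hp.1
        by_cases hz0 : z = 0
        · have h2 : p.coeff 0 = 0 := by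
            rw [coeff_zero_eq_eval_zero]
            rw [hz0] at hz'
            exact hz'
          have h3 := hp.coeff_eq (j := 2 * (k + 1)) le_rfl
          rw [Nat.sub_self, h2, map_zero, mul_zero] at h3
          have h4 : p.natDegree < 2 * (k + 1) := by
            refine lt_of_le_of_ne h1 ?_
            intro h5
            rw [← h5] at h3
            exact hp0 (leadingCoeff_eq_zero.1 h3)
          have h5 := natDegree_qf_pos (nv_ne_zero z)
          omega
        · have h2 : 2 ≤ (qf (nv z)).natDegree := by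
            refine le_natDegree_of_ne_zero ?_
            rw [coeff_qf_two]
            have h1 : ((nv z 0 : ℂ) + nv z 1 * I) = conj z := by
              apply Complex.ext <;> simp [nv]
            rw [h1]
            simpa using hz0
          omega
      rw [hh] at hp
      obtain ⟨s, hs, hs0, c, hc⟩ := ih h ((isB_qf _).of_mul hq0 hp hhdeg)
      refine ⟨nv z ::ₘ s, by rw [Multiset.card_cons, hs], ?_, c, ?_⟩
      · intro v hv
        rcases Multiset.mem_cons.1 hv with rfl | hv
        · exact nv_ne_zero z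
        · exact hs0 v hv
      · rw [Multiset.map_cons, Multiset.prod_cons, hh, hc]
        ring

end Pool.Agent.SubTyp
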