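import Pool.Agent.SubTyp.CodAna
import Pool.Agent.SubTyp.Codim1

/-! The action of matrices on symmetric tensors and the parametrisation of the tensors of rank at
most `s`. -/

set_option autoImplicit false

open MvPolynomial Module Set Filter
open scoped Topology LinearAlgebra.Projectivization

namespace Pool.Agent.SubTyp

variable {n r m s : ℕ}

/-- substitution of vectors -/
noncomputable def act (B : Fin r → Fin m → ℝ) :
    Ten (fun _ : Fin n => r) →ₗ[ℝ] Ten (fun _ : Fin n => m) where
  toFun T := ∑ t : Fin n → Fin r, T t • pureT (m := fun _ : Fin n => m) (fun k => B (t k))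
  map_add' T T' := by simp [add_smul, Finset.sum_add_distrib]
  map_smul' c T := by simp [Finset.smul_sum, mul_smul]

theorem act_apply (B : Fin r → Fin m → ℝ) (T : Ten (fun _ : Fin n => r)) :
    act B T = ∑ t : Fin n → Fin r, T t • pureT (m := fun _ : Fin n => m) (fun k => B (t k)) := rfl

theorem act_apply_apply (B : Fin r → Fin m → ℝ) (T : Ten (fun _ : Fin n => r))
    (u : Fin n → Fin m) : act B T u = ∑ t : Fin n → Fin r, T t * ∏ k, B (t k) (u k) := by
  rw [act_apply, Finset.sum_apply]
  rfl

theorem act_sym (B : Fin r → Fin m → ℝ) {T : Ten (fun _ : Fin n => r)} (hT : T ∈ SymT n r) :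
    act B T ∈ SymT n m := by
  intro σ u
  rw [act_apply_apply, act_apply_apply]
  have h1 : ∑ t : Fin n → Fin r, T t * ∏ k, B (t k) ((u ∘ σ) k)
      = ∑ t : Fin n → Fin r, T (t ∘ σ) * ∏ k, B ((t ∘ σ) k) ((u ∘ σ) k) :=
    (Equiv.sum_comp (Equiv.arrowCongr σ (Equiv.refl (Fin r))).symm
      (fun t : Fin n → Fin r => T t * ∏ k, B (t k) ((u ∘ σ) k))).symm
  rw [h1]
  refine Finset.sum_congr rfl fun t _ => ?_
  rw [hT σ t]
  congr 1
  exact Equiv.prod_comp σ (fun k => B (t k) (u k))

/-- the vector with the given coefficients -/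
def comb (B : Fin r → Fin m → ℝ) : (Fin r → ℝ) →ₗ[ℝ] (Fin m → ℝ) where
  toFun a := ∑ i, a i • B i
  map_add' a b := by simp [add_smul, Finset.sum_add_distrib]
  map_smul' c a := by simp [Finset.smul_sum, mul_smul]

theorem comb_apply (B : Fin r → Fin m → ℝ) (a : Fin r → ℝ) : comb B a = ∑ i, a i • B i := rfl

theorem comb_single (B : Fin r → Fin m → ℝ) (i : Fin r) : comb B (Pi.single i 1) = B i := by
  rw [comb_apply, Finset.sum_eq_single i]
  · simp
  · intro j _ hj; simp [hj]
  · intro h; exact absurd (Finset.mem_univ i) h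

theorem act_pure (B : Fin r → Fin m → ℝ) (v : Fin n → Fin r → ℝ) :
    act B (pureT (m := fun _ : Fin n => r) v) =
      pureT (m := fun _ : Fin n => m) (fun k => comb B (v k)) := by
  funext u
  rw [act_apply_apply]
  unfold pureT
  simp only [comb_apply, Finset.sum_apply, Pi.smul_apply, smul_eq_mul]
  rw [Finset.prod_univ_sum, Fintype.piFinset_univ]
  refine Finset.sum_congr rfl fun t _ => ?_
  rw [← Finset.prod_mul_distrib]

theorem act_mem_box {B : Fin r → Fin m → ℝ} {A : Submodule ℝ (Fin m → ℝ)} (hB : ∀ i, B i ∈ A)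
    (T : Ten (fun _ : Fin n => r)) : act B T ∈ boxT (fun _ : Fin n => A) := by
  rw [act_apply]
  refine Submodule.sum_mem _ fun t _ => Submodule.smul_mem _ _ ?_
  exact Submodule.subset_span ⟨_, fun k => hB _, rfl⟩

/-- every symmetric tensor of `SⁿA` is obtained from vectors spanning `A` -/
theorem exists_act_eq {B : Fin r → Fin m → ℝ} {A : Submodule ℝ (Fin m → ℝ)}
    (hA : A ≤ LinearMap.range (comb B)) {T : Ten (fun _ : Fin n => m)} (hT : T ∈ SymT n m)
    (hTA : T ∈ boxT (fun _ : Fin n => A)) : ∃ U ∈ SymT n r, act B U = T := by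
  obtain ⟨g, hg⟩ := (comb B).rangeRestrict.exists_rightInverse_of_surjective
    (LinearMap.range_rangeRestrict _)
  obtain ⟨q, hq⟩ := (LinearMap.range (comb B)).subtype.exists_leftInverse_of_injective
    (Submodule.ker_subtype _)
  let Q : (Fin m → ℝ) →ₗ[ℝ] (Fin r → ℝ) := g ∘ₗ q
  have hQ : ∀ v ∈ A, comb B (Q v) = v := by
    intro v hv
    have h1 := LinearMap.congr_fun hq ⟨v, hA hv⟩
    simp only [LinearMap.comp_apply, Submodule.subtype_apply, LinearMap.id_apply] at h1
    have h2 := LinearMap.congr_fun hg (q v)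
    simp only [LinearMap.comp_apply, LinearMap.id_apply] at h2
    have h3 : comb B (g (q v)) = (q v : Fin m → ℝ) := congrArg Subtype.val h2
    change comb B (g (q v)) = v
    rw [h3, h1]
  let B' : Fin m → Fin r → ℝ := fun i => Q (Pi.single i 1)
  have hB' : ∀ v, comb B' v = Q v := by
    intro v
    have h3 : v = ∑ i, v i • (Pi.single i 1 : Fin m → ℝ) := by
      have := (Pi.basisFun ℝ (Fin m)).sum_repr v
      simp only [Pi.basisFun_repr, Pi.basisFun_apply] at this
      exact this.symm
    conv_rhs => rw [h3, map_sum]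
    rw [comb_apply]
    refine Finset.sum_congr rfl fun i _ => ?_
    rw [map_smul]
  refine ⟨act B' T, act_sym B' hT, ?_⟩
  have h4 : boxT (fun _ : Fin n => A) ≤ LinearMap.eqLocus (act B ∘ₗ act B') LinearMap.id := by
    unfold boxT
    rw [Submodule.span_le]
    rintro _ ⟨v, hv, rfl⟩
    change act B (act B' (pureT v)) = pureT v
    rw [act_pure, act_pure]
    congr 1
    funext k
    rw [hB', hQ _ (hv k)]
  exact h4 hTA

/-- parameters: vectors spanning the subspaces and the coordinates of the tensors -/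
abbrev Par (n r m s : ℕ) : Type := Fin s → (Fin r → Fin m → ℝ) × SymT n r

/-- a projection to the symmetric tensors -/
noncomputable def symProj (n m : ℕ) : Ten (fun _ : Fin n => m) →L[ℝ] SymT n m :=
  LinearMap.toContinuousLinearMap
    ((SymT n m).subtype.exists_leftInverse_of_injective (Submodule.ker_subtype _)).choose

theorem symProj_apply (T : SymT n m) : symProj n m (T : Ten fun _ : Fin n => m) = T := by
  have h := ((SymT n m).subtype.exists_leftInverse_of_injective
    (Submodule.ker_subtype (SymT n m))).choose_spec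
  exact LinearMap.congr_fun h T

/-- the sum of the tensors -/
noncomputable def PhiT (p : Par n r m s) : Ten (fun _ : Fin n => m) :=
  ∑ j, act (p j).1 ((p j).2 : Ten fun _ : Fin n => r)

theorem PhiT_mem (p : Par n r m s) : PhiT p ∈ SymT n m :=
  Submodule.sum_mem _ fun j _ => act_sym _ (p j).2.2

/-- the sum of the tensors, as a symmetric tensor -/
noncomputable def PhiS (p : Par n r m s) : SymT n m := symProj n m (PhiT p)

theorem coe_PhiS (p : Par n r m s) : (PhiS p : Ten fun _ : Fin n => m) = PhiT p := by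
  have h := symProj_apply ⟨PhiT p, PhiT_mem p⟩
  unfold PhiS
  rw [h]

theorem analytic_PhiT : AnalyticOnNhd ℝ (PhiT (n := n) (r := r) (m := m) (s := s)) univ := by
  intro p _
  have h1 : (PhiT (n := n) (r := r) (m := m) (s := s)) = fun p => fun u =>
      ∑ j, ∑ t : Fin n → Fin r, ((p j).2 : Ten fun _ : Fin n => r) t *
        ∏ k, (p j).1 (t k) (u k) := by
    funext p u
    unfold PhiT
    rw [Finset.sum_apply]
    refine Finset.sum_congr rfl fun j _ => ?_
    rw [act_apply_apply]
  rw [h1]
  refine AnalyticAt.pi fun u => ?_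
  refine Finset.analyticAt_fun_sum _ fun j _ => Finset.analyticAt_fun_sum _ fun t _ => ?_
  refine AnalyticAt.mul ?_ (Finset.analyticAt_fun_prod _ fun k _ => ?_)
  · let L : Par n r m s →L[ℝ] ℝ := (ContinuousLinearMap.proj t).comp
      ((LinearMap.toContinuousLinearMap (SymT n r).subtype).comp
        ((ContinuousLinearMap.snd ℝ _ _).comp (ContinuousLinearMap.proj j)))
    exact L.analyticAt p
  · let L : Par n r m s →L[ℝ] ℝ :=
      (ContinuousLinearMap.proj (R := ℝ) (φ := fun _ : Fin m => ℝ) (u k)).comp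
      ((ContinuousLinearMap.proj (R := ℝ) (φ := fun _ : Fin r => Fin m → ℝ) (t k)).comp
        ((ContinuousLinearMap.fst ℝ (Fin r → Fin m → ℝ) (SymT n r)).comp
          (ContinuousLinearMap.proj (R := ℝ)
            (φ := fun _ : Fin s => (Fin r → Fin m → ℝ) × SymT n r) j)))
    exact L.analyticAt p

theorem analytic_PhiS : AnalyticOnNhd ℝ (PhiS (n := n) (r := r) (m := m) (s := s)) univ :=
  fun p hp => ((symProj n m).analyticAt _).comp (analytic_PhiT p hp)

theorem act_mem_symK (B : Fin m → Fin (m + 1) → ℝ) (U : SymT n m) :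
    ∃ A : Gr (m + 1) m, act B (U : Ten fun _ : Fin n => m) ∈ boxT fun _ : Fin n => A.1 := by
  have h1 : finrank ℝ (Submodule.span ℝ (Set.range B)) < m + 1 :=
    lt_of_le_of_lt (finrank_range_le_card B) (by simp)
  obtain ⟨L, hL, hLB⟩ := exists_ann h1
  refine ⟨⟨hyp L, finrank_hyp hL⟩, ?_⟩
  exact act_mem_box (A := hyp L) (fun i => hLB _ (Submodule.subset_span ⟨i, rfl⟩)) _

theorem exists_comb_range {A : Submodule ℝ (Fin m → ℝ)} (hA : finrank ℝ A = r) :
    ∃ B : Fin r → Fin m → ℝ, A ≤ LinearMap.range (comb B) := by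
  let b := finBasisOfFinrankEq ℝ A hA
  refine ⟨fun i => (b i : Fin m → ℝ), fun v hv => ⟨b.repr ⟨v, hv⟩, ?_⟩⟩
  rw [comb_apply]
  have h := congrArg Subtype.val (b.sum_repr ⟨v, hv⟩)
  rw [Submodule.coe_sum] at h
  exact h

/-- the tensors of rank at most `s` are the values of the parametrisation -/
theorem rankLE_eq_range :
    RankLE (symK n (m + 1) m) s = range (PhiS (n := n) (r := m) (m := m + 1) (s := s)) := by
  classical
  ext T
  constructor
  · rintro ⟨A, hA⟩
    rw [Submodule.mem_iSup_iff_exists_finsupp] at hA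
    obtain ⟨f, hf, hsum⟩ := hA
    choose B hB using fun j => exists_comb_range (A j).2
    choose U hU hUf using fun j => exists_act_eq (hB j) (f j).2 (hf j)
    refine ⟨fun j => (B j, ⟨U j, hU j⟩), ?_⟩
    apply Subtype.ext
    rw [coe_PhiS, ← hsum]
    unfold PhiT
    simp only [hUf]
    rw [Finsupp.sum_fintype _ _ (fun _ => rfl), Submodule.coe_sum]
  · rintro ⟨p, rfl⟩
    choose A hA using fun j => act_mem_symK (p j).1 (p j).2
    refine ⟨A, ?_⟩
    have h1 : PhiS p = ∑ j, (⟨act (p j).1 ((p j).2 : Ten fun _ : Fin n => m),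
        act_sym _ (p j).2.2⟩ : SymT n (m + 1)) := by
      apply Subtype.ext
      rw [coe_PhiS, Submodule.coe_sum]
      rfl
    rw [h1]
    exact Submodule.sum_mem _ fun j _ => Submodule.mem_iSup_of_mem j (hA j)

end Pool.Agent.SubTyp
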