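import Pool.Agent.SubTyp.Small

/-! Generic surjectivity of the derivative of an analytic map, and generic non-vanishing. -/

set_option autoImplicit false

open Module Set Filter
open scoped Topology

namespace Pool.Agent.SubTyp

section General

variable {P V : Type*} [NormedAddCommGroup P] [NormedSpace ℝ P]
  [NormedAddCommGroup V] [NormedSpace ℝ V]

/-- An analytic function which is not zero somewhere is not zero on a dense set. -/
theorem dense_ne_zero {f : P → ℝ} (hf : AnalyticOnNhd ℝ f univ) {p₀ : P} (h : f p₀ ≠ 0) :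
    Dense {q | f q ≠ 0} := by
  rw [dense_iff_inter_open]
  intro O hO ⟨p, hp⟩
  by_contra hcon
  rw [not_nonempty_iff_eq_empty] at hcon
  have h1 : f =ᶠ[𝓝 p] 0 := by
    filter_upwards [hO.mem_nhds hp] with q hq
    by_contra h0
    have h2 : q ∈ O ∩ {q | f q ≠ 0} := ⟨hq, h0⟩
    rw [hcon] at h2
    exact h2
  have h2 := hf.eqOn_zero_of_preconnected_of_eventuallyEq_zero isPreconnected_univ (mem_univ p) h1
  exact h (h2 (mem_univ p₀))

theorem isOpen_ne_zero {f : P → ℝ} (hf : AnalyticOnNhd ℝ f univ) : IsOpen {q | f q ≠ 0} := by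
  have h : Continuous f := continuous_iff_continuousAt.2 fun p => (hf p (mem_univ p)).continuousAt
  exact isOpen_ne.preimage h

/-- determinants of analytic matrices -/
theorem analytic_det {κ : Type*} [Fintype κ] [DecidableEq κ] {M : P → Matrix κ κ ℝ}
    (hM : ∀ i j, AnalyticOnNhd ℝ (fun p => M p i j) univ) :
    AnalyticOnNhd ℝ (fun p => (M p).det) univ := by
  intro p _
  simp only [Matrix.det_apply']
  refine Finset.analyticAt_fun_sum _ fun σ _ => ?_
  refine analyticAt_const.mul ?_
  exact Finset.analyticAt_fun_prod _ fun i _ => hM _ _ p (mem_univ p)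

theorem analytic_clm {f : P → V} (L : P →L[ℝ] V) (h : ∀ p, f p = L p) :
    AnalyticOnNhd ℝ f univ := by
  have : f = L := funext h
  rw [this]
  exact L.analyticOnNhd univ

variable [FiniteDimensional ℝ P] [FiniteDimensional ℝ V]

/-- If the derivative of an analytic map is surjective at one point, all values are limits of
interior points of the image. -/
theorem range_subset_closure_interior {Φ : P → V} (hΦ : AnalyticOnNhd ℝ Φ univ) {p₀ : P}
    (h₀ : Function.Surjective (fderiv ℝ Φ p₀)) :
    range Φ ⊆ closure (interior (range Φ)) := by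
  have hcP : CompleteSpace P := FiniteDimensional.complete ℝ P
  have hcV : CompleteSpace V := FiniteDimensional.complete ℝ V
  obtain ⟨r, hr⟩ := LinearMap.exists_rightInverse_of_surjective
    (fderiv ℝ Φ p₀ : P →L[ℝ] V).toLinearMap (LinearMap.range_eq_top.2 h₀)
  let b := finBasis ℝ V
  let M : P → Matrix (Fin (finrank ℝ V)) (Fin (finrank ℝ V)) ℝ := fun q =>
    LinearMap.toMatrix b b ((fderiv ℝ Φ q).toLinearMap ∘ₗ r)
  have hM : ∀ i j, AnalyticOnNhd ℝ (fun p => M p i j) univ := by
    intro i j
    let L : (P →L[ℝ] V) →L[ℝ] ℝ :=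
      (LinearMap.toContinuousLinearMap (b.coord i)).comp (ContinuousLinearMap.apply ℝ V (r (b j)))
    have h1 : (fun p => M p i j) = fun p => L (fderiv ℝ Φ p) := by
      funext p
      simp only [M, LinearMap.toMatrix_apply, L]
      rfl
    rw [h1]
    intro p hp
    exact (L.analyticAt _).comp (hΦ.fderiv p hp)
  have hdet := analytic_det hM
  have hp₀ : (M p₀).det ≠ 0 := by
    simp only [M]
    rw [hr, LinearMap.toMatrix_id, Matrix.det_one]
    exact one_ne_zero
  have hd := dense_ne_zero hdet hp₀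
  rintro _ ⟨p, rfl⟩
  rw [mem_closure_iff]
  intro O hO hpO
  have hcont : Continuous Φ :=
    continuous_iff_continuousAt.2 fun p => (hΦ p (mem_univ p)).continuousAt
  obtain ⟨q, hqO, hq⟩ := hd.inter_open_nonempty _ (hO.preimage hcont) ⟨p, hpO⟩
  refine ⟨Φ q, hqO, ?_⟩
  have hsurj : Function.Surjective (fderiv ℝ Φ q) := by
    have h1 : IsUnit ((fderiv ℝ Φ q).toLinearMap ∘ₗ r) := by
      rw [LinearMap.isUnit_iff_isUnit_det, ← LinearMap.det_toMatrix b]
      exact isUnit_iff_ne_zero.2 hq
    have h2 := (LinearMap.isUnit_iff_range_eq_top _).1 h1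
    intro v
    obtain ⟨w, hw⟩ := LinearMap.range_eq_top.1 h2 v
    exact ⟨r w, hw⟩
  have h3 := (hΦ q (mem_univ q)).hasStrictFDerivAt.map_nhds_eq_of_surj
    (LinearMap.range_eq_top.2 hsurj)
  rw [mem_interior_iff_mem_nhds, ← h3, mem_map]
  exact univ_mem' fun x => ⟨x, rfl⟩

/-- the value of the derivative from a curve -/
theorem fderiv_eq_of_line {Φ : P → V} {p₀ w : P} {v : V} (hΦ : DifferentiableAt ℝ Φ p₀)
    (h : HasDerivAt (fun t : ℝ => Φ (p₀ + t • w)) v 0) : fderiv ℝ Φ p₀ w = v := by
  have h1 : HasLineDerivAt ℝ Φ v p₀ w := h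
  rw [← hΦ.lineDeriv_eq_fderiv]
  exact h1.lineDeriv

end General

end Pool.Agent.SubTyp
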