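import Pool.Agent.SubTyp.CodAct

/-! Surjectivity of the derivative of the parametrisation at a sum of powers. -/

set_option autoImplicit false

open MvPolynomial Module Set Filter
open scoped Topology LinearAlgebra.Projectivization

namespace Pool.Agent.SubTyp

variable {n m s e : ℕ}

/-- a product of pairwise non-proportional directions killing `T` -/
theorem mem_iSup_of_kill {T : SymT n (m + 1)} (L : Fin s → Fin (m + 1) → ℝ)
    (hL : ∀ j, L j ≠ 0) (hpair : (List.ofFn L).Pairwise fun L M => ∀ c : ℝ, L ≠ c • M)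
    (hT : dl (List.ofFn L) (toPoly (T : Ten fun _ : Fin n => m + 1)) = 0) :
    T ∈ ⨆ j, symK n (m + 1) m ⟨hyp (L j), finrank_hyp (hL j)⟩ := by
  let A : Fin s → Gr (m + 1) m := fun j => ⟨hyp (L j), finrank_hyp (hL j)⟩
  let P : SymT n (m + 1) →ₗ[ℝ] MvPolynomial (Fin (m + 1)) ℝ := toPoly ∘ₗ (SymT n (m + 1)).subtype
  have hPinj : ∀ T, P T = 0 → T = 0 := fun T h => Subtype.ext (toPoly_injOn T.2 h)
  have h1 : toPoly (T : Ten fun _ : Fin n => m + 1) ∈
      (⨆ j, symK n (m + 1) m (A j)).map P := by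
    refine mem_of_dl_eq_zero (List.ofFn L) hpair n _ ?_ ?_ _ (toPoly_homog _) hT
    · rintro _ ⟨T', _, rfl⟩
      exact toPoly_homog _
    · intro M hM g hg hMg
      obtain ⟨j, rfl⟩ := List.mem_ofFn.1 hM
      obtain ⟨T', hT', hT'g⟩ := exists_toPoly_eq hg
      refine ⟨⟨T', hT'⟩, ?_, hT'g⟩
      refine Submodule.mem_iSup_of_mem j ?_
      rw [mem_symK]
      refine mem_box_of_dir hT' fun L' hL' => ?_
      have : ∃ c : ℝ, L' = c • L j := by
        by_contra hcon
        push Not at hcon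
        obtain ⟨v, hv1, hv2⟩ := exists_sep hcon
        have := hL' v hv2
        rw [hv1] at this
        exact one_ne_zero this
      obtain ⟨c, rfl⟩ := this
      rw [dir_smul, hT'g, hMg, smul_zero]
  obtain ⟨T', hT', hTT'⟩ := h1
  have h2 : P (T' - T) = 0 := by
    rw [map_sub, hTT']; exact sub_self _
  have h3 : T' = T := sub_eq_zero.1 (hPinj _ h2)
  rw [← h3]
  exact hT'

theorem dir_lin_pow (L v : Fin m → ℝ) (N : ℕ) :
    dir L (lin v ^ N) = C ((N : ℝ) * (L ⬝ᵥ v)) * lin v ^ (N - 1) := by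
  rw [Derivation.leibniz_pow, dir_lin, smul_eq_mul, nsmul_eq_mul, C_mul]
  have : (C ((N : ℕ) : ℝ) : MvPolynomial (Fin m) ℝ) = ((N : ℕ) : MvPolynomial (Fin m) ℝ) := by
    simp
  rw [this]
  ring

theorem dl_C_mul (Ls : List (Fin m → ℝ)) (a : ℝ) (p : MvPolynomial (Fin m) ℝ) :
    dl Ls (C a * p) = C a * dl Ls p := by
  rw [← smul_eq_C_mul, map_smul, smul_eq_C_mul]

theorem dl_lin_pow (Ls : List (Fin m → ℝ)) (v : Fin m → ℝ) (N : ℕ) :
    dl Ls (lin v ^ N) = C ((N.descFactorial Ls.length : ℝ) * (Ls.map fun L => L ⬝ᵥ v).prod) *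
      lin v ^ (N - Ls.length) := by
  induction Ls with
  | nil => simp
  | cons L Ls ih =>
    rw [dl_cons, ih, ← smul_eq_C_mul, Derivation.map_smul, dir_lin_pow, smul_eq_C_mul,
      ← mul_assoc, ← C_mul, List.length_cons, List.map_cons, List.prod_cons,
      Nat.descFactorial_succ, Nat.sub_sub]
    congr 2
    by_cases h : Ls.length ≤ N
    · rw [Nat.cast_mul, Nat.cast_sub h]
      ring
    · rw [Nat.sub_eq_zero_of_le (by omega)]
      simp

theorem ofFn_perm {α : Type*} (x : Fin (s + 1) → α) (j : Fin (s + 1)) :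
    (List.ofFn x).Perm (x j :: List.ofFn fun i => x (j.succAbove i)) := by
  classical
  rw [← Multiset.coe_eq_coe, ← Multiset.cons_coe, ← Fin.univ_val_map, ← Fin.univ_val_map]
  rw [Fin.univ_succAbove s j]
  simp
  exact List.Perm.refl _

theorem dl_key {x : Fin (s + 1) → Fin m → ℝ} {j : Fin (s + 1)} {v : Fin m → ℝ}
    (hv : x j ⬝ᵥ v = 0) (N : ℕ) :
    dl (List.ofFn x) (lin (x j) * lin v ^ N) =
      C ((x j ⬝ᵥ x j) * ((N.descFactorial s : ℝ) * ∏ i, x (j.succAbove i) ⬝ᵥ v)) *
        lin v ^ (N - s) := by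
  rw [dl_perm (ofFn_perm x j), dl_cons, ← dl_dir, Derivation.leibniz, dir_lin_pow, dir_lin, hv,
    mul_zero, C_0, zero_mul, smul_zero, zero_add, smul_eq_mul, mul_comm, dl_C_mul, dl_lin_pow,
    List.length_ofFn, ← mul_assoc, ← C_mul, List.map_ofFn, List.prod_ofFn]
  rfl

/-- the derivative of the power of a vector -/
def dpow (n : ℕ) (v y : Fin m → ℝ) : Ten (fun _ : Fin n => m) :=
  ∑ i : Fin n, pureT (m := fun _ : Fin n => m) (Function.update (fun _ => v) i y)

theorem toPoly_dpow (v y : Fin m → ℝ) :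
    toPoly (dpow n v y) = C (n : ℝ) * (lin y * lin v ^ (n - 1)) := by
  classical
  unfold dpow
  rw [map_sum]
  have h1 : ∀ i : Fin n, toPoly (pureT (m := fun _ : Fin n => m)
      (Function.update (fun _ => v) i y)) = lin y * lin v ^ (n - 1) := by
    intro i
    rw [toPoly_pure, ← Finset.mul_prod_erase Finset.univ _ (Finset.mem_univ i)]
    rw [Function.update_self]
    congr 1
    rw [Finset.prod_congr rfl (g := fun _ => lin v)]
    · rw [Finset.prod_const, Finset.card_erase_of_mem (Finset.mem_univ i), Finset.card_univ,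
        Fintype.card_fin]
    · intro k hk
      rw [Function.update_of_ne (Finset.ne_of_mem_erase hk)]
  rw [Finset.sum_congr rfl fun i _ => h1 i, Finset.sum_const, Finset.card_univ,
    Fintype.card_fin, nsmul_eq_mul]
  simp

theorem hasDerivAt_pure (v y : Fin m → ℝ) :
    HasDerivAt (fun t : ℝ => pureT (m := fun _ : Fin n => m) (fun _ => v + t • y))
      (dpow n v y) 0 := by
  classical
  rw [hasDerivAt_pi]
  intro u
  have h1 : ∀ i ∈ (Finset.univ : Finset (Fin n)),
      HasDerivAt (fun t : ℝ => (v + t • y) (u i)) (y (u i)) 0 := by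
    intro i _
    have h2 : HasDerivAt (fun t : ℝ => v (u i) + t * y (u i)) (1 * y (u i)) 0 :=
      ((hasDerivAt_id (0 : ℝ)).mul_const _).const_add _
    rw [one_mul] at h2
    exact h2
  have h3 := HasDerivAt.fun_finsetProd h1
  have h4 : dpow n v y u = ∑ i : Fin n, (∏ j ∈ Finset.univ.erase i, (v + (0 : ℝ) • y) (u j)) •
      y (u i) := by
    unfold dpow
    rw [Finset.sum_apply]
    refine Finset.sum_congr rfl fun i _ => ?_
    unfold pureT
    rw [← Finset.mul_prod_erase Finset.univ _ (Finset.mem_univ i), Function.update_self,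
      smul_eq_mul, mul_comm]
    congr 1
    refine Finset.prod_congr rfl fun k hk => ?_
    rw [Function.update_of_ne (Finset.ne_of_mem_erase hk)]
    simp
  rw [h4]
  exact h3

/-- the sum of the powers of the basis vectors -/
def baseU (n m : ℕ) : SymT n m :=
  ∑ k : Fin m, ⟨pureT (m := fun _ : Fin n => m) (fun _ => Pi.single k 1), by
    intro σ t
    simp only [pureT, Function.comp_apply]
    exact Equiv.prod_comp σ (fun i => (Pi.single k 1 : Fin m → ℝ) (t i))⟩

theorem act_baseU {r : ℕ} (B : Fin r → Fin m → ℝ) :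
    act B (baseU n r : Ten fun _ : Fin n => r) =
      ∑ k, pureT (m := fun _ : Fin n => m) (fun _ => B k) := by
  unfold baseU
  rw [Submodule.coe_sum, map_sum]
  refine Finset.sum_congr rfl fun k _ => ?_
  rw [act_pure]
  simp only [comb_single]

section Main

variable (B : Fin s → Fin m → Fin (m + 1) → ℝ)

/-- the base point -/
def baseP (n : ℕ) (B : Fin s → Fin m → Fin (m + 1) → ℝ) : Par n m (m + 1) s :=
  fun j => (B j, baseU n m)

theorem PhiT_line (p w : Par n m (m + 1) s) (j : Fin s) (hw : ∀ i, i ≠ j → w i = 0) (t : ℝ) :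
    PhiT (p + t • w) = PhiT p + (act ((p j).1 + t • (w j).1)
      (((p j).2 + t • (w j).2 : SymT n m) : Ten fun _ : Fin n => m) -
      act (p j).1 ((p j).2 : Ten fun _ : Fin n => m)) := by
  classical
  unfold PhiT
  rw [← Finset.add_sum_erase Finset.univ _ (Finset.mem_univ j),
    ← Finset.add_sum_erase Finset.univ (fun j => act (p j).1 ((p j).2 : Ten fun _ : Fin n => m))
      (Finset.mem_univ j)]
  have h1 : ∑ i ∈ Finset.univ.erase j, act ((p + t • w) i).1
      (((p + t • w) i).2 : Ten fun _ : Fin n => m) =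
      ∑ i ∈ Finset.univ.erase j, act (p i).1 ((p i).2 : Ten fun _ : Fin n => m) := by
    refine Finset.sum_congr rfl fun i hi => ?_
    rw [Pi.add_apply, Pi.smul_apply, hw i (Finset.ne_of_mem_erase hi), smul_zero, add_zero]
  rw [h1]
  simp only [Pi.add_apply, Pi.smul_apply, Prod.fst_add, Prod.smul_fst, Prod.snd_add,
    Prod.smul_snd]
  abel

theorem hasDeriv_PhiS {p w : Par n m (m + 1) s} {D : Ten fun _ : Fin n => m + 1}
    (h : HasDerivAt (fun t : ℝ => PhiT (p + t • w)) D 0) :
    ((fderiv ℝ (PhiS (n := n) (r := m) (m := m + 1) (s := s)) p w : SymT n (m + 1)) :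
      Ten fun _ : Fin n => m + 1) = D := by
  have h1 : HasDerivAt (fun t : ℝ => PhiS (p + t • w)) (symProj n (m + 1) D) 0 :=
    (symProj n (m + 1)).hasFDerivAt.comp_hasDerivAt (0 : ℝ) h
  have h2 := fderiv_eq_of_line ((analytic_PhiS p (mem_univ p)).differentiableAt) h1
  rw [h2]
  let ι : SymT n (m + 1) →L[ℝ] Ten (fun _ : Fin n => m + 1) :=
    LinearMap.toContinuousLinearMap (SymT n (m + 1)).subtype
  have h3 : HasDerivAt (fun t : ℝ => ι (PhiS (p + t • w))) (ι (symProj n (m + 1) D)) 0 :=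
    ι.hasFDerivAt.comp_hasDerivAt (0 : ℝ) h1
  have h4 : (fun t : ℝ => ι (PhiS (p + t • w))) = fun t : ℝ => PhiT (p + t • w) := by
    funext t
    exact coe_PhiS _
  rw [h4] at h3
  exact h3.unique h

theorem fderiv_act (j : Fin s) (U : SymT n m) :
    ((fderiv ℝ (PhiS (n := n) (r := m) (m := m + 1) (s := s)) (baseP n B)
      (Pi.single j (0, U)) : SymT n (m + 1)) : Ten fun _ : Fin n => m + 1) =
      act (B j) (U : Ten fun _ : Fin n => m) := by
  apply hasDeriv_PhiS
  have h1 : (fun t : ℝ => PhiT (baseP n B + t • (Pi.single j ((0, U) :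
      (Fin m → Fin (m + 1) → ℝ) × SymT n m) : Par n m (m + 1) s))) =
      fun t : ℝ => PhiT (baseP n B) +
      t • act (B j) (U : Ten fun _ : Fin n => m) := by
    funext t
    rw [PhiT_line _ _ j (fun i hi => Pi.single_eq_of_ne hi _)]
    rw [Pi.single_eq_same]
    simp only [smul_zero, add_zero, Submodule.coe_add, Submodule.coe_smul, map_add, map_smul]
    change PhiT (baseP n B) + (act (B j) _ + t • act (B j) _ - act (B j) _) = _
    abel
  rw [h1]
  have h2 : HasDerivAt (fun t : ℝ => PhiT (baseP n B) + t • act (B j)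
      (U : Ten fun _ : Fin n => m)) ((1 : ℝ) • act (B j) (U : Ten fun _ : Fin n => m)) 0 :=
    ((hasDerivAt_id (0 : ℝ)).smul_const _).const_add _
  rwa [one_smul] at h2

theorem fderiv_pow (j : Fin s) (k : Fin m) (y : Fin (m + 1) → ℝ) :
    ((fderiv ℝ (PhiS (n := n) (r := m) (m := m + 1) (s := s)) (baseP n B)
      (Pi.single j (Pi.single k y, 0)) : SymT n (m + 1)) : Ten fun _ : Fin n => m + 1) =
      dpow n (B j k) y := by
  classical
  apply hasDeriv_PhiS
  have h1 : (fun t : ℝ => PhiT (baseP n B + t • (Pi.single j ((Pi.single k y, 0) :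
      (Fin m → Fin (m + 1) → ℝ) × SymT n m) : Par n m (m + 1) s))) =
      fun t : ℝ => (PhiT (baseP n B) -
      pureT (m := fun _ : Fin n => m + 1) (fun _ => B j k)) +
      pureT (m := fun _ : Fin n => m + 1) (fun _ => B j k + t • y) := by
    funext t
    rw [PhiT_line _ _ j (fun i hi => Pi.single_eq_of_ne hi _)]
    rw [Pi.single_eq_same]
    simp only [smul_zero, add_zero]
    change PhiT (baseP n B) + (act (B j + t • (Pi.single k y : Fin m → Fin (m + 1) → ℝ))
      (baseU n m : Ten fun _ : Fin n => m) - act (B j) (baseU n m : Ten fun _ : Fin n => m)) = _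
    rw [act_baseU, act_baseU, ← Finset.add_sum_erase Finset.univ _ (Finset.mem_univ k),
      ← Finset.add_sum_erase Finset.univ (fun k' => pureT (m := fun _ : Fin n => m + 1)
        (fun _ => B j k')) (Finset.mem_univ k)]
    have h2 : ∑ k' ∈ Finset.univ.erase k, pureT (m := fun _ : Fin n => m + 1)
        (fun _ => (B j + t • (Pi.single k y : Fin m → Fin (m + 1) → ℝ)) k') =
        ∑ k' ∈ Finset.univ.erase k, pureT (m := fun _ : Fin n => m + 1) (fun _ => B j k') := by
      refine Finset.sum_congr rfl fun i hi => ?_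
      rw [Pi.add_apply, Pi.smul_apply, Pi.single_eq_of_ne (Finset.ne_of_mem_erase hi), smul_zero,
        add_zero]
    rw [h2]
    simp only [Pi.add_apply, Pi.smul_apply, Pi.single_eq_same]
    abel
  rw [h1]
  exact (hasDerivAt_pure _ _).const_add _

end Main

/-- **Surjectivity of the derivative.** -/
theorem fderiv_surj (hn : n = e + (s + 1)) (B : Fin (s + 1) → Fin m → Fin (m + 1) → ℝ)
    (x : Fin (s + 1) → Fin (m + 1) → ℝ) (hx0 : ∀ j, x j ≠ 0)
    (hpair : (List.ofFn x).Pairwise fun L M => ∀ c : ℝ, L ≠ c • M)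
    (hx : ∀ j k, x j ⬝ᵥ B j k = 0) (hx' : ∀ i j k, i ≠ j → x i ⬝ᵥ B j k ≠ 0)
    (hspan : ∀ j, hyp (x j) ≤ LinearMap.range (comb (B j)))
    (hpow : ∀ p : MvPolynomial (Fin (m + 1)) ℝ, p.IsHomogeneous e →
      ∃ c : Fin (s + 1) → Fin m → ℝ, p = ∑ j, ∑ k, C (c j k) * lin (B j k) ^ e) :
    Function.Surjective (fderiv ℝ (PhiS (n := n) (r := m) (m := m + 1) (s := s + 1))
      (baseP n B)) := by
  intro T
  let R := LinearMap.range (fderiv ℝ (PhiS (n := n) (r := m) (m := m + 1) (s := s + 1))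
      (baseP n B)).toLinearMap
  have hR : ∀ T, T ∈ R → ∃ w, fderiv ℝ (PhiS (n := n) (r := m) (m := m + 1) (s := s + 1))
      (baseP n B) w = T := fun T h => h
  apply hR
  -- the constants
  let κ : Fin (s + 1) → Fin m → ℝ := fun j k => (n : ℝ) * ((x j ⬝ᵥ x j) *
    (((n - 1).descFactorial s : ℝ) * ∏ i, x (j.succAbove i) ⬝ᵥ B j k))
  have hκ : ∀ j k, κ j k ≠ 0 := by
    intro j k
    refine mul_ne_zero (by exact_mod_cast (by omega : n ≠ 0)) (mul_ne_zero ?_ (mul_ne_zero ?_ ?_))
    · exact fun h => hx0 j (dotProduct_self_eq_zero.1 h)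
    · have : 0 < (n - 1).descFactorial s := Nat.descFactorial_pos.2 (by omega)
      exact_mod_cast this.ne'
    · exact Finset.prod_ne_zero_iff.2 fun i _ => hx' _ _ _ (Fin.succAbove_ne j i)
  -- the tensors
  let E : Fin (s + 1) → Fin m → SymT n (m + 1) := fun j k =>
    fderiv ℝ (PhiS (n := n) (r := m) (m := m + 1) (s := s + 1)) (baseP n B)
      (Pi.single j (Pi.single k (x j), 0))
  have hER : ∀ j k, E j k ∈ R := fun j k => ⟨_, rfl⟩
  have hE : ∀ j k, dl (List.ofFn x) (toPoly (E j k : Ten fun _ : Fin n => m + 1)) =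
      C (κ j k) * lin (B j k) ^ e := by
    intro j k
    simp only [E]
    rw [fderiv_pow, toPoly_dpow, dl_C_mul, dl_key (hx j k), ← mul_assoc, ← C_mul,
      show n - 1 - s = e by omega]
  have hhom : (dl (List.ofFn x) (toPoly (T : Ten fun _ : Fin n => m + 1))).IsHomogeneous e := by
    have := dl_homog (List.ofFn x) (toPoly_homog (T : Ten fun _ : Fin n => m + 1))
    rwa [List.length_ofFn, show n - (s + 1) = e by omega] at this
  obtain ⟨c, hc⟩ := hpow _ hhom
  let W : SymT n (m + 1) := T - ∑ j, ∑ k, (c j k / κ j k) • E j k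
  have hW : dl (List.ofFn x) (toPoly (W : Ten fun _ : Fin n => m + 1)) = 0 := by
    simp only [W]
    rw [Submodule.coe_sub, Submodule.coe_sum, map_sub, map_sub, hc, map_sum, map_sum, sub_eq_zero]
    refine Finset.sum_congr rfl fun j _ => ?_
    rw [Submodule.coe_sum, map_sum, map_sum]
    refine Finset.sum_congr rfl fun k _ => ?_
    rw [Submodule.coe_smul, map_smul, map_smul, hE, smul_eq_C_mul, ← mul_assoc, ← C_mul,
      div_mul_cancel₀ _ (hκ j k)]
  have hWR : W ∈ R := by
    refine (iSup_le fun j => ?_ : (⨆ j, symK n (m + 1) m ⟨hyp (x j), finrank_hyp (hx0 j)⟩) ≤ R)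
      (mem_iSup_of_kill x hx0 hpair hW)
    intro T' hT'
    obtain ⟨U, hU, hUT⟩ := exists_act_eq (hspan j) T'.2 hT'
    refine ⟨Pi.single j (0, ⟨U, hU⟩), Subtype.ext ?_⟩
    rw [← hUT]
    exact fderiv_act B j ⟨U, hU⟩
  have hfin : T = W + ∑ j, ∑ k, (c j k / κ j k) • E j k := by
    simp only [W]; abel
  rw [hfin]
  refine R.add_mem hWR (R.sum_mem fun j _ => R.sum_mem fun k _ => R.smul_mem _ (hER j k))

end Pool.Agent.SubTyp
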