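import Pool.Agent.SubTyp.CodGen
import Pool.Agent.SubTyp.CodReg

/-! Powers of complex linear forms: real and imaginary parts. -/

set_option autoImplicit false

open MvPolynomial Module Set Filter
open scoped Topology

namespace Pool.Agent.SubTyp

variable {m e n r : ℕ}

/-- real and imaginary part of the power of `lin a + i lin b` -/
noncomputable def PQ (a b : Fin m → ℝ) :
    ℕ → MvPolynomial (Fin m) ℝ × MvPolynomial (Fin m) ℝ
  | 0 => (1, 0)
  | e + 1 => (lin a * (PQ a b e).1 - lin b * (PQ a b e).2,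
      lin a * (PQ a b e).2 + lin b * (PQ a b e).1)

theorem PQ_zero (a b : Fin m → ℝ) : PQ a b 0 = (1, 0) := rfl

theorem PQ_succ1 (a b : Fin m → ℝ) (e : ℕ) :
    (PQ a b (e + 1)).1 = lin a * (PQ a b e).1 - lin b * (PQ a b e).2 := rfl

theorem PQ_succ2 (a b : Fin m → ℝ) (e : ℕ) :
    (PQ a b (e + 1)).2 = lin a * (PQ a b e).2 + lin b * (PQ a b e).1 := rfl

theorem PQ_homog (a b : Fin m → ℝ) (e : ℕ) :
    (PQ a b e).1.IsHomogeneous e ∧ (PQ a b e).2.IsHomogeneous e := by
  induction e with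
  | zero => exact ⟨isHomogeneous_one _ _, isHomogeneous_zero _ _ _⟩
  | succ e ih =>
    have h1 := (lin_homog a).mul ih.1
    have h2 := (lin_homog b).mul ih.2
    have h3 := (lin_homog a).mul ih.2
    have h4 := (lin_homog b).mul ih.1
    rw [add_comm] at h1 h2 h3 h4
    exact ⟨h1.sub h2, h3.add h4⟩

theorem dir_PQ (L a b : Fin m → ℝ) (e : ℕ) :
    dir L (PQ a b (e + 1)).1 = ((e + 1 : ℕ) : MvPolynomial (Fin m) ℝ) *
      (C (L ⬝ᵥ a) * (PQ a b e).1 - C (L ⬝ᵥ b) * (PQ a b e).2) ∧
    dir L (PQ a b (e + 1)).2 = ((e + 1 : ℕ) : MvPolynomial (Fin m) ℝ) *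
      (C (L ⬝ᵥ a) * (PQ a b e).2 + C (L ⬝ᵥ b) * (PQ a b e).1) := by
  induction e with
  | zero =>
    rw [PQ_succ1, PQ_succ2, PQ_zero]
    simp only [mul_one, mul_zero, sub_zero, zero_add, dir_lin, Nat.cast_one, one_mul]
    exact ⟨trivial, trivial⟩
  | succ e ih =>
    obtain ⟨ih1, ih2⟩ := ih
    rw [PQ_succ1 a b (e + 1), PQ_succ2 a b (e + 1), map_sub, map_add]
    simp only [Derivation.leibniz, smul_eq_mul, dir_lin, ih1, ih2]
    rw [PQ_succ1 a b e, PQ_succ2 a b e]
    push_cast
    constructor <;> ring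

/-- the real part of `c (lin a + i lin b)^e` -/
noncomputable def reP (a b : Fin m → ℝ) (c : ℂ) (e : ℕ) : MvPolynomial (Fin m) ℝ :=
  C c.re * (PQ a b e).1 - C c.im * (PQ a b e).2

theorem reP_homog (a b : Fin m → ℝ) (c : ℂ) (e : ℕ) : (reP a b c e).IsHomogeneous e := by
  have h1 := (isHomogeneous_C (Fin m) c.re).mul (PQ_homog a b e).1
  have h2 := (isHomogeneous_C (Fin m) c.im).mul (PQ_homog a b e).2
  rw [zero_add] at h1 h2
  exact h1.sub h2

/-- the value of the direction `L` on `lin a + i lin b` -/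
def cdot (L a b : Fin m → ℝ) : ℂ := ⟨L ⬝ᵥ a, L ⬝ᵥ b⟩

theorem dir_reP (L a b : Fin m → ℝ) (c : ℂ) (e : ℕ) :
    dir L (reP a b c (e + 1)) = C ((e + 1 : ℕ) : ℝ) * reP a b (c * cdot L a b) e := by
  unfold reP cdot
  rw [map_sub, Derivation.leibniz, Derivation.leibniz, MvPolynomial.derivation_C,
    MvPolynomial.derivation_C, smul_zero, smul_zero, add_zero, add_zero, smul_eq_mul,
    smul_eq_mul, (dir_PQ L a b e).1, (dir_PQ L a b e).2, Complex.mul_re, Complex.mul_im,
    C_sub, C_add, C_mul, C_mul, C_mul, C_mul, map_natCast]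
  ring

theorem dl_reP (Ls : List (Fin m → ℝ)) (a b : Fin m → ℝ) (c : ℂ) (e : ℕ) :
    dl Ls (reP a b c (e + Ls.length)) = C (((e + Ls.length).descFactorial Ls.length : ℕ) : ℝ) *
      reP a b (c * (Ls.map fun L => cdot L a b).prod) e := by
  induction Ls generalizing e with
  | nil => simp
  | cons L Ls ih =>
    have h1 := ih (e + 1)
    have h2 : e + 1 + Ls.length = e + (L :: Ls).length := by
      rw [List.length_cons]
      omega
    rw [h2] at h1
    rw [dl_cons, h1, ← smul_eq_C_mul, Derivation.map_smul, dir_reP, smul_eq_C_mul, ← mul_assoc, ← C_mul,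
      List.map_cons, List.prod_cons]
    congr 2
    · rw [List.length_cons, Nat.descFactorial_succ]
      push_cast
      rw [show e + (Ls.length + 1) - Ls.length = e + 1 by omega]
      push_cast
      ring
    · ring

/-! ### Coefficients -/

/-- the coefficients of the power of a linear form -/
noncomputable def vero {R : Type*} [CommSemiring R] (z : Fin m → R) (y : Sym (Fin m) e) : R :=
  ((Multiset.toFinsupp (y : Multiset (Fin m))).multinomial : R) *
    (Multiset.toFinsupp (y : Multiset (Fin m))).prod (fun r k => z r ^ k)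

theorem map_vero {R S : Type*} [CommSemiring R] [CommSemiring S] (f : R →+* S) (z : Fin m → R)
    (y : Sym (Fin m) e) : f (vero z y) = vero (fun i => f (z i)) y := by
  unfold vero Finsupp.prod
  rw [map_mul, map_natCast, map_prod]
  simp only [map_pow]

theorem coeff_pow_vero {R : Type*} [CommSemiring R] (z : Fin m → R) (y : Sym (Fin m) e) :
    coeff (Multiset.toFinsupp (y : Multiset (Fin m)))
      ((∑ i, C (z i) * (X i : MvPolynomial (Fin m) R)) ^ e) = vero z y := by
  have h0 : (∑ i, C (z i) * (X i : MvPolynomial (Fin m) R)) =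
      ∑ i, z i • (X i : MvPolynomial (Fin m) R) :=
    Finset.sum_congr rfl fun i _ => (smul_eq_C_mul _ _).symm
  rw [h0, coeff_linearCombination_X_pow_of_fintype, if_pos]
  · rfl
  · have h := degree_toFinsupp y
    rw [Finsupp.degree_eq_sum] at h
    rw [Finsupp.sum_fintype _ _ (by simp)]
    exact h

theorem coefMap_pow_vero (z : Fin m → ℝ) (y : Sym (Fin m) e) :
    coefMap m e (lin z ^ e) y = vero z y := coeff_pow_vero z y

theorem map_PQ (a b : Fin m → ℝ) (e : ℕ) :
    MvPolynomial.map Complex.ofRealHom (PQ a b e).1 +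
      C Complex.I * MvPolynomial.map Complex.ofRealHom (PQ a b e).2 =
    (∑ i, C ((a i : ℂ) + Complex.I * (b i : ℂ)) * (X i : MvPolynomial (Fin m) ℂ)) ^ e := by
  have hlin : MvPolynomial.map Complex.ofRealHom (lin a) +
      C Complex.I * MvPolynomial.map Complex.ofRealHom (lin b) =
      ∑ i, C ((a i : ℂ) + Complex.I * (b i : ℂ)) * (X i : MvPolynomial (Fin m) ℂ) := by
    unfold lin
    rw [map_sum, map_sum, Finset.mul_sum, ← Finset.sum_add_distrib]
    refine Finset.sum_congr rfl fun i _ => ?_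
    rw [map_mul, map_mul, map_C, map_C, map_X, C_add, C_mul]
    simp only [Complex.ofRealHom_eq_coe]
    ring
  have hI : (C Complex.I : MvPolynomial (Fin m) ℂ) * C Complex.I = -1 := by
    rw [← C_mul, Complex.I_mul_I, C_neg, C_1]
  induction e with
  | zero =>
    rw [PQ_zero]
    simp
  | succ e ih =>
    rw [pow_succ, ← ih, ← hlin, PQ_succ1, PQ_succ2, map_sub, map_add, map_mul, map_mul, map_mul,
      map_mul]
    linear_combination (-(MvPolynomial.map Complex.ofRealHom (lin b) *
      MvPolynomial.map Complex.ofRealHom (PQ a b e).2)) * hI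

theorem coef_PQ (a b : Fin m → ℝ) (y : Sym (Fin m) e) :
    ((coefMap m e (PQ a b e).1 y : ℝ) : ℂ) + Complex.I * ((coefMap m e (PQ a b e).2 y : ℝ) : ℂ) =
      vero (fun i => (a i : ℂ) + Complex.I * (b i : ℂ)) y := by
  rw [← coeff_pow_vero, ← map_PQ, coeff_add, coeff_C_mul, coeff_map, coeff_map]
  rfl

theorem coef_PQ1 (a b : Fin m → ℝ) (y : Sym (Fin m) e) :
    coefMap m e (PQ a b e).1 y = (vero (fun i => (a i : ℂ) + Complex.I * (b i : ℂ)) y).re := by
  rw [← coef_PQ]
  simp

theorem coef_PQ2 (a b : Fin m → ℝ) (y : Sym (Fin m) e) :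
    coefMap m e (PQ a b e).2 y = (vero (fun i => (a i : ℂ) + Complex.I * (b i : ℂ)) y).im := by
  rw [← coef_PQ]
  simp

end Pool.Agent.SubTyp
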