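import Pool.Agent.SubTyp.CodReg

/-! Generic vectors. -/

set_option autoImplicit false

open MvPolynomial Module Set Filter
open scoped Topology LinearAlgebra.Projectivization

namespace Pool.Agent.SubTyp

variable {m s e : ℕ}

/-- the determinant with first row `z` and the other rows `w` -/
def DD (z : Fin (m + 1) → ℝ) (w : Fin m → Fin (m + 1) → ℝ) : ℝ :=
  (Matrix.of (Fin.cons z w : Fin (m + 1) → Fin (m + 1) → ℝ)).det

/-- the generalised vector product -/
def ortho (w : Fin m → Fin (m + 1) → ℝ) : Fin (m + 1) → ℝ := fun j =>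
  (-1) ^ (j : ℕ) * (Matrix.of fun i k => w i (j.succAbove k)).det

theorem ortho_dot (w : Fin m → Fin (m + 1) → ℝ) (z : Fin (m + 1) → ℝ) :
    ortho w ⬝ᵥ z = DD z w := by
  unfold DD
  rw [Matrix.det_succ_row_zero]
  unfold ortho dotProduct
  refine Finset.sum_congr rfl fun j _ => ?_
  have h1 : (Matrix.of (Fin.cons z w : Fin (m + 1) → Fin (m + 1) → ℝ)) 0 j = z j := rfl
  have h2 : (Matrix.of (Fin.cons z w : Fin (m + 1) → Fin (m + 1) → ℝ)).submatrix Fin.succ
      j.succAbove = Matrix.of fun i k => w i (j.succAbove k) := by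
    ext i k
    rfl
  rw [h1, h2]
  ring

theorem ortho_dot_row (w : Fin m → Fin (m + 1) → ℝ) (k : Fin m) : ortho w ⬝ᵥ w k = 0 := by
  rw [ortho_dot]
  unfold DD
  exact Matrix.det_zero_of_row_eq (i := 0) (j := k.succ) (Fin.succ_ne_zero k).symm rfl

theorem DD_std : DD (Pi.single 0 1) (fun l : Fin m => (Pi.single l.succ 1 : Fin (m + 1) → ℝ))
    = 1 := by
  unfold DD
  have h : (Matrix.of (Fin.cons (Pi.single 0 1) (fun l : Fin m =>
      (Pi.single l.succ 1 : Fin (m + 1) → ℝ)) : Fin (m + 1) → Fin (m + 1) → ℝ)) = 1 := by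
    ext i j
    refine Fin.cases ?_ (fun i => ?_) i
    · simp [Matrix.one_apply, Pi.single_apply, eq_comm]
    · simp [Matrix.one_apply, Pi.single_apply, eq_comm]
  rw [h, Matrix.det_one]

theorem hyp_le_range {w : Fin m → Fin (m + 1) → ℝ} {u : Fin (m + 1) → ℝ} (h : DD u w ≠ 0) :
    hyp (ortho w) ≤ LinearMap.range (comb w) := by
  intro v hv
  rw [mem_hyp] at hv
  have hli : LinearIndependent ℝ (Fin.cons u w : Fin (m + 1) → Fin (m + 1) → ℝ) :=
    Matrix.linearIndependent_rows_of_det_ne_zero (A := Matrix.of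
      (Fin.cons u w : Fin (m + 1) → Fin (m + 1) → ℝ)) h
  have hspan := hli.span_eq_top_of_card_eq_finrank (by simp)
  have hv2 : v ∈ Submodule.span ℝ (range (Fin.cons u w : Fin (m + 1) → Fin (m + 1) → ℝ)) := by
    rw [hspan]; exact Submodule.mem_top
  rw [Submodule.mem_span_range_iff_exists_fun] at hv2
  obtain ⟨c, hc⟩ := hv2
  rw [Fin.sum_univ_succ] at hc
  simp only [Fin.cons_zero, Fin.cons_succ] at hc
  have h0 : c 0 = 0 := by
    rw [← hc, dotProduct_add, dotProduct_smul, dotProduct_sum, ortho_dot] at hv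
    have h1 : ∑ i : Fin m, ortho w ⬝ᵥ c i.succ • w i = 0 := by
      refine Finset.sum_eq_zero fun i _ => ?_
      rw [dotProduct_smul, ortho_dot_row, smul_zero]
    rw [h1, add_zero, smul_eq_mul] at hv
    exact (mul_eq_zero.1 hv).resolve_right h
  refine ⟨fun i => c i.succ, ?_⟩
  rw [comb_apply, ← hc, h0, zero_smul, zero_add]

/-! ### Powers of linear forms -/

theorem lin_eq_smul (w : Fin m → ℝ) : lin w = ∑ i, w i • (X i : MvPolynomial (Fin m) ℝ) := by
  unfold lin
  refine Finset.sum_congr rfl fun i _ => ?_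
  rw [smul_eq_C_mul]

theorem coefMap_lin_pow (w : Fin m → ℝ) (b : Sym (Fin m) e) :
    coefMap m e (lin w ^ e) b =
      ((Multiset.toFinsupp (b : Multiset (Fin m))).multinomial : ℝ) *
        (Multiset.toFinsupp (b : Multiset (Fin m))).prod (fun r k => w r ^ k) := by
  change coeff (Multiset.toFinsupp (b : Multiset (Fin m))) (lin w ^ e) = _
  rw [lin_eq_smul, coeff_linearCombination_X_pow_of_fintype, if_pos]
  have h := degree_toFinsupp b
  rw [Finsupp.degree_eq_sum] at h
  rw [Finsupp.sum_fintype _ _ (by simp)]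
  exact h

theorem span_powers (m e : ℕ) :
    Submodule.span ℝ (range fun w : Fin m → ℝ => coefMap m e (lin w ^ e)) = ⊤ := by
  classical
  by_contra hne
  obtain ⟨f, hf, hle⟩ := Submodule.exists_le_ker_of_lt_top _ (lt_top_iff_ne_top.2 hne)
  have hfs : ∀ z : Sym (Fin m) e → ℝ, f z = ∑ b, z b * f (Pi.single b 1) := by
    intro z
    have h3 : z = ∑ b, z b • (Pi.single b 1 : Sym (Fin m) e → ℝ) := by
      have := (Pi.basisFun ℝ (Sym (Fin m) e)).sum_repr z
      simp only [Pi.basisFun_repr, Pi.basisFun_apply] at this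
      exact this.symm
    conv_lhs => rw [h3, map_sum]
    refine Finset.sum_congr rfl fun b _ => ?_
    rw [map_smul, smul_eq_mul]
  let Q : MvPolynomial (Fin m) ℝ := ∑ b : Sym (Fin m) e,
    monomial (Multiset.toFinsupp (b : Multiset (Fin m)))
      (((Multiset.toFinsupp (b : Multiset (Fin m))).multinomial : ℝ) * f (Pi.single b 1))
  have hQ : Q = 0 := by
    apply MvPolynomial.funext
    intro w
    have h1 : f (coefMap m e (lin w ^ e)) = 0 :=
      hle (Submodule.subset_span ⟨w, rfl⟩)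
    rw [hfs] at h1
    rw [map_zero, ← h1]
    simp only [Q]
    rw [map_sum]
    refine Finset.sum_congr rfl fun b _ => ?_
    rw [eval_monomial, coefMap_lin_pow]
    ring
  have hfb : ∀ b, f (Pi.single b 1) = 0 := by
    intro b
    have h1 := congrArg (coeff (Multiset.toFinsupp (b : Multiset (Fin m)))) hQ
    simp only [Q] at h1
    rw [coeff_zero, coeff_sum, Finset.sum_eq_single b] at h1
    · rw [coeff_monomial, if_pos rfl] at h1
      refine (mul_eq_zero.1 h1).resolve_left ?_
      have : 0 < (Multiset.toFinsupp (b : Multiset (Fin m))).multinomial :=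
        Nat.multinomial_pos _ _
      exact_mod_cast this.ne'
    · intro b' _ hb'
      rw [coeff_monomial, if_neg]
      intro h
      exact hb' (Subtype.ext (Multiset.toFinsupp.injective h))
    · intro h; exact absurd (Finset.mem_univ _) h
  apply hf
  ext z
  have h2 := hfs (LinearMap.single ℝ (fun _ : Sym (Fin m) e => ℝ) z 1)
  rw [LinearMap.comp_apply, h2]
  simp [hfb]

/-- the matrix of the powers -/
noncomputable def powMat (m e : ℕ) (w : Sym (Fin m) e → Fin m → ℝ) :
    Matrix (Sym (Fin m) e) (Sym (Fin m) e) ℝ :=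
  Matrix.of fun a b => coefMap m e (lin (w a) ^ e) b

theorem exists_basis_powers (m e : ℕ) :
    ∃ w : Sym (Fin m) e → Fin m → ℝ, (powMat m e w).det ≠ 0 := by
  classical
  obtain ⟨b, hb, hspan, hli⟩ := exists_linearIndependent ℝ
    (range fun w : Fin m → ℝ => coefMap m e (lin w ^ e))
  rw [span_powers] at hspan
  let B : Basis b ℝ (Sym (Fin m) e → ℝ) := Basis.mk hli (by
    rw [Subtype.range_coe_subtype]
    exact hspan.ge)
  have hfin : Finite b := Module.Finite.finite_basis B
  have hft := Fintype.ofFinite b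
  have hcard : Fintype.card (Sym (Fin m) e) = Fintype.card b := by
    rw [← Module.finrank_eq_card_basis B, Module.finrank_fintype_fun_eq_card]
  let ε : Sym (Fin m) e ≃ b := Fintype.equivOfCardEq hcard
  choose w hw using fun a : Sym (Fin m) e => hb (ε a).2
  refine ⟨w, ?_⟩
  have h1 : powMat m e w = Matrix.of fun a => ((ε a : b) : Sym (Fin m) e → ℝ) := by
    ext a c
    exact congrFun (hw a) c
  rw [h1]
  have h2 : LinearIndependent ℝ (Matrix.row (Matrix.of fun a =>
      ((ε a : b) : Sym (Fin m) e → ℝ))) := hli.comp ε ε.injective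
  rw [Matrix.linearIndependent_rows_iff_isUnit, Matrix.isUnit_iff_isUnit_det] at h2
  exact h2.ne_zero

theorem exists_coeffs {w : Sym (Fin m) e → Fin m → ℝ} (h : (powMat m e w).det ≠ 0)
    {p : MvPolynomial (Fin m) ℝ} (hp : p.IsHomogeneous e) :
    ∃ c : Sym (Fin m) e → ℝ, p = ∑ a, C (c a) * lin (w a) ^ e := by
  have hli : LinearIndependent ℝ (fun a => coefMap m e (lin (w a) ^ e)) :=
    Matrix.linearIndependent_rows_of_det_ne_zero (A := powMat m e w) h
  have hspan := hli.span_eq_top_of_card_eq_finrank' (by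
    rw [Module.finrank_fintype_fun_eq_card])
  have hv2 : coefMap m e p ∈ Submodule.span ℝ (range fun a => coefMap m e (lin (w a) ^ e)) := by
    rw [hspan]; exact Submodule.mem_top
  rw [Submodule.mem_span_range_iff_exists_fun] at hv2
  obtain ⟨c, hc⟩ := hv2
  refine ⟨c, ?_⟩
  have hhom : (p - ∑ a, C (c a) * lin (w a) ^ e).IsHomogeneous e := by
    refine hp.sub (IsHomogeneous.sum _ _ _ fun a _ => ?_)
    have h1 := (isHomogeneous_C (Fin m) (c a)).mul ((lin_homog (w a)).pow e)
    rw [zero_add, one_mul] at h1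
    exact h1
  refine sub_eq_zero.1 (coefMap_injOn hhom ?_)
  rw [map_sub, map_sum, ← hc, sub_eq_zero]
  refine Finset.sum_congr rfl fun a _ => ?_
  rw [← smul_eq_C_mul, map_smul]

/-! ### Generic configurations -/

/-- configurations with an auxiliary vector -/
abbrev Conf (m s : ℕ) : Type := (Fin s → Fin m → Fin (m + 1) → ℝ) × (Fin (m + 1) → ℝ)

theorem analytic_entry (j : Fin s) (k : Fin m) (i : Fin (m + 1)) :
    AnalyticOnNhd ℝ (fun q : Conf m s => q.1 j k i) univ := by
  let L : Conf m s →L[ℝ] ℝ :=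
    (ContinuousLinearMap.proj (R := ℝ) (φ := fun _ : Fin (m + 1) => ℝ) i).comp
      ((ContinuousLinearMap.proj (R := ℝ) (φ := fun _ : Fin m => Fin (m + 1) → ℝ) k).comp
        ((ContinuousLinearMap.proj (R := ℝ)
          (φ := fun _ : Fin s => Fin m → Fin (m + 1) → ℝ) j).comp
            (ContinuousLinearMap.fst ℝ (Fin s → Fin m → Fin (m + 1) → ℝ) (Fin (m + 1) → ℝ))))
  exact L.analyticOnNhd univ

theorem analytic_aux (i : Fin (m + 1)) :
    AnalyticOnNhd ℝ (fun q : Conf m s => q.2 i) univ := by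
  let L : Conf m s →L[ℝ] ℝ :=
    (ContinuousLinearMap.proj (R := ℝ) (φ := fun _ : Fin (m + 1) => ℝ) i).comp
      (ContinuousLinearMap.snd ℝ (Fin s → Fin m → Fin (m + 1) → ℝ) (Fin (m + 1) → ℝ))
  exact L.analyticOnNhd univ

theorem analytic_DD {P : Type*} [NormedAddCommGroup P] [NormedSpace ℝ P]
    {z : P → Fin (m + 1) → ℝ} {w : P → Fin m → Fin (m + 1) → ℝ}
    (hz : ∀ i, AnalyticOnNhd ℝ (fun q => z q i) univ)
    (hw : ∀ k i, AnalyticOnNhd ℝ (fun q => w q k i) univ) :
    AnalyticOnNhd ℝ (fun q => DD (z q) (w q)) univ := by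
  unfold DD
  refine analytic_det fun i j => ?_
  refine Fin.cases ?_ (fun i => ?_) i
  · exact hz j
  · exact hw i j

theorem analytic_coefMap {P : Type*} [NormedAddCommGroup P] [NormedSpace ℝ P]
    {z : P → Fin m → ℝ} (hz : ∀ i, AnalyticOnNhd ℝ (fun q => z q i) univ) (b : Sym (Fin m) e) :
    AnalyticOnNhd ℝ (fun q => coefMap m e (lin (z q) ^ e) b) univ := by
  intro q hq
  simp only [coefMap_lin_pow, Finsupp.prod]
  exact analyticAt_const.mul (Finset.analyticAt_fun_prod _ fun i _ => (hz i q hq).pow _)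

/-- **Generic configurations exist.** -/
theorem exists_generic (hm : 0 < m)
    (hcard : Fintype.card (Sym (Fin (m + 1)) e) ≤ m * s) :
    ∃ (B : Fin s → Fin m → Fin (m + 1) → ℝ) (x : Fin s → Fin (m + 1) → ℝ),
      (∀ j, x j ≠ 0) ∧ ((List.ofFn x).Pairwise fun L M => ∀ c : ℝ, L ≠ c • M) ∧
      (∀ j k, x j ⬝ᵥ B j k = 0) ∧ (∀ i j k, i ≠ j → x i ⬝ᵥ B j k ≠ 0) ∧
      (∀ j, hyp (x j) ≤ LinearMap.range (comb (B j))) ∧
      ∀ p : MvPolynomial (Fin (m + 1)) ℝ, p.IsHomogeneous e →
        ∃ c : Fin s → Fin m → ℝ, p = ∑ j, ∑ k, C (c j k) * lin (B j k) ^ e := by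
  classical
  obtain ⟨σ⟩ : Nonempty (Sym (Fin (m + 1)) e ↪ Fin s × Fin m) := by
    apply Function.Embedding.nonempty_of_card_le
    rw [Fintype.card_prod, Fintype.card_fin, Fintype.card_fin, mul_comm]
    exact hcard
  let h : Conf m s → ℝ := fun q => (powMat (m + 1) e fun a => q.1 (σ a).1 (σ a).2).det
  have hh : AnalyticOnNhd ℝ h univ :=
    analytic_det fun a b => analytic_coefMap (fun i => analytic_entry _ _ i) b
  obtain ⟨w, hw⟩ := exists_basis_powers (m + 1) e
  have hh0 : ∃ q, h q ≠ 0 := by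
    refine ⟨(fun j k => if hjk : ∃ a, σ a = (j, k) then w hjk.choose else 0, 0), ?_⟩
    have h1 : (fun a => (fun j k => if hjk : ∃ a, σ a = (j, k) then w hjk.choose else 0 :
        Fin s → Fin m → Fin (m + 1) → ℝ) (σ a).1 (σ a).2) = w := by
      funext a
      have h2 : ∃ a', σ a' = ((σ a).1, (σ a).2) := ⟨a, rfl⟩
      simp only
      rw [dif_pos h2]
      congr 1
      exact σ.injective h2.choose_spec
    simp only [h]
    rw [h1]
    exact hw
  obtain ⟨q₀, hq₀⟩ := hh0
  let F : (Fin s × Fin s × Fin m) → Conf m s → ℝ := fun t q => DD (q.1 t.2.1 t.2.2) (q.1 t.1)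
  have hF : ∀ t, AnalyticOnNhd ℝ (F t) univ := fun t =>
    analytic_DD (fun i => analytic_entry _ _ i) fun k i => analytic_entry _ _ i
  let G : Fin s → Conf m s → ℝ := fun j q => DD q.2 (q.1 j)
  have hG : ∀ j, AnalyticOnNhd ℝ (G j) univ := fun j =>
    analytic_DD (fun i => analytic_aux i) fun k i => analytic_entry _ _ i
  have hdF : ∀ t : {t : Fin s × Fin s × Fin m // t.1 ≠ t.2.1}, Dense {q | F t.1 q ≠ 0} := by
    rintro ⟨⟨i, j, k⟩, hij⟩
    simp only [ne_eq] at hij
    refine dense_ne_zero (hF _) (p₀ := (fun i' => if i' = i then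
      (fun l => Pi.single l.succ 1) else fun _ => Pi.single 0 1, 0)) ?_
    simp only [F, if_true]
    rw [if_neg (fun h => hij h.symm), DD_std]
    exact one_ne_zero
  have hdG : ∀ j, Dense {q | G j q ≠ 0} := by
    intro j
    refine dense_ne_zero (hG _) (p₀ := (fun i' => (fun l => Pi.single l.succ 1),
      Pi.single 0 1)) ?_
    simp only [G]
    rw [DD_std]
    exact one_ne_zero
  have hd1 := dense_iInter_of_isOpen (fun t : {t : Fin s × Fin s × Fin m // t.1 ≠ t.2.1} =>
    isOpen_ne_zero (hF t.1)) hdF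
  have hd2 := dense_iInter_of_isOpen (fun j => isOpen_ne_zero (hG j)) hdG
  have ho1 : IsOpen (⋂ t : {t : Fin s × Fin s × Fin m // t.1 ≠ t.2.1}, {q | F t.1 q ≠ 0}) :=
    isOpen_iInter_of_finite fun t => isOpen_ne_zero (hF t.1)
  have hd3 := hd1.inter_of_isOpen_left hd2 ho1
  obtain ⟨q, hqh, hq1, hq2⟩ := hd3.inter_open_nonempty _ (isOpen_ne_zero hh) ⟨q₀, hq₀⟩
  rw [mem_iInter] at hq1 hq2
  have hx' : ∀ i j k, i ≠ j → ortho (q.1 i) ⬝ᵥ q.1 j k ≠ 0 := by
    intro i j k hij
    rw [ortho_dot]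
    exact hq1 ⟨(i, j, k), hij⟩
  have hx0 : ∀ j, ortho (q.1 j) ≠ 0 := by
    intro j h0
    apply hq2 j
    change DD q.2 (q.1 j) = 0
    rw [← ortho_dot, h0, zero_dotProduct]
  refine ⟨q.1, fun j => ortho (q.1 j), hx0, ?_, fun j k => ortho_dot_row _ _, hx',
    fun j => hyp_le_range (hq2 j), ?_⟩
  · rw [List.pairwise_ofFn]
    intro i j hij c hc
    apply hx' i j ⟨0, hm⟩ (ne_of_lt hij)
    rw [hc, smul_dotProduct, ortho_dot_row, smul_zero]
  · intro p hp
    obtain ⟨c, hc⟩ := exists_coeffs hqh hp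
    refine ⟨fun j k => ∑ a, if σ a = (j, k) then c a else 0, ?_⟩
    rw [← Fintype.sum_prod_type' (fun j k => C (∑ a, if σ a = (j, k) then c a else 0) *
      lin (q.1 j k) ^ e), hc]
    have h1 : ∀ t : Fin s × Fin m, C (∑ a, if σ a = (t.1, t.2) then c a else 0) *
        lin (q.1 t.1 t.2) ^ e = ∑ a, if σ a = t then C (c a) * lin (q.1 t.1 t.2) ^ e else 0 := by
      intro t
      rw [map_sum, Finset.sum_mul]
      refine Finset.sum_congr rfl fun a _ => ?_
      by_cases hat : σ a = t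
      · rw [if_pos hat, if_pos hat]
      · rw [if_neg hat, if_neg hat, C_0, zero_mul]
    rw [Finset.sum_congr rfl fun t _ => h1 t, Finset.sum_comm]
    refine Finset.sum_congr rfl fun a _ => ?_
    rw [Finset.sum_ite_eq]
    simp

end Pool.Agent.SubTyp
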