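import Pool.Agent.SubTyp.CodCx

/-! Linear independence of powers of generic complex linear forms. -/

set_option autoImplicit false

open MvPolynomial Module Set Filter
open scoped Topology

namespace Pool.Agent.SubTyp

variable {m e r l h : ℕ}

/-- pairs of vectors -/
abbrev CPar (m r : ℕ) : Type := (Fin r → Fin m → ℝ) × (Fin r → Fin m → ℝ)

/-- the rows -/
abbrev Rw (r l : ℕ) : Type := (Fin r ⊕ Fin r) ⊕ Fin l

/-- the matrix of the coefficients -/
noncomputable def cMat (ε : Rw r l ≃ Sym (Fin m) e) (c : Fin l → Fin m → ℝ) (q : CPar m r) :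
    Matrix (Rw r l) (Rw r l) ℝ :=
  Matrix.of fun x y => coefMap m e (Sum.elim (Sum.elim (fun i => (PQ (q.1 i) (q.2 i) e).1)
    (fun i => (PQ (q.1 i) (q.2 i) e).2)) (fun j => lin (c j) ^ e) x) (ε y)

theorem indep_of_det {ε : Rw r l ≃ Sym (Fin m) e} {c : Fin l → Fin m → ℝ} {q : CPar m r}
    (hd : (cMat ε c q).det ≠ 0) {z : Fin r → ℂ}
    (hz : ∑ i, reP (q.1 i) (q.2 i) (z i) e = 0) (i : Fin r) : z i = 0 := by
  let v : Rw r l → ℝ := Sum.elim (Sum.elim (fun i => (z i).re) (fun i => -(z i).im)) fun _ => 0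
  have hv : Matrix.vecMul v (cMat ε c q) = 0 := by
    funext y
    have h1 := congrFun (congrArg (coefMap m e) hz) (ε y)
    rw [map_sum, Finset.sum_apply, map_zero] at h1
    rw [Matrix.vecMul, dotProduct, Fintype.sum_sum_type, Fintype.sum_sum_type]
    simp only [v, cMat, Matrix.of_apply, Sum.elim_inl, Sum.elim_inr, zero_mul,
      Finset.sum_const_zero, add_zero]
    rw [← Finset.sum_add_distrib, Pi.zero_apply]
    refine Eq.trans ?_ h1
    refine Finset.sum_congr rfl fun i _ => ?_
    unfold reP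
    rw [map_sub, ← smul_eq_C_mul, ← smul_eq_C_mul, map_smul, map_smul]
    simp only [Pi.sub_apply, Pi.smul_apply, smul_eq_mul]
    ring
  have hv0 := Matrix.eq_zero_of_vecMul_eq_zero hd hv
  apply Complex.ext
  · exact congrFun hv0 (Sum.inl (Sum.inl i))
  · have h1 := congrFun hv0 (Sum.inl (Sum.inr i))
    have h2 : -(z i).im = 0 := h1
    simpa using h2

theorem exists_cMat (ε : Rw r l ≃ Sym (Fin m) e) :
    ∃ (c : Fin l → Fin m → ℝ) (q : CPar m r), (cMat ε c q).det ≠ 0 := by
  classical
  obtain ⟨w, hw⟩ := exists_basis_powers m e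
  let c1 : Fin r → Fin m → ℝ := fun i => w (ε (Sum.inl (Sum.inl i)))
  let c2 : Fin r → Fin m → ℝ := fun i => w (ε (Sum.inl (Sum.inr i)))
  let c : Fin l → Fin m → ℝ := fun j => w (ε (Sum.inr j))
  let a : Fin r → Fin m → ℝ := fun i k => (c1 i k + c2 i k) / 2
  let b : Fin r → Fin m → ℝ := fun i k => (c1 i k - c2 i k) / 2
  let row : Rw r l → Fin m → Polynomial ℂ := Sum.elim
    (Sum.elim (fun i k => Polynomial.C (a i k : ℂ) + Polynomial.X * Polynomial.C (b i k : ℂ))
      (fun i k => Polynomial.C (a i k : ℂ) - Polynomial.X * Polynomial.C (b i k : ℂ)))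
    (fun j k => Polynomial.C (c j k : ℂ))
  let D : Matrix (Rw r l) (Rw r l) (Polynomial ℂ) := Matrix.of fun x y => vero (row x) (ε y)
  have hD : ∀ t : ℂ, D.det.eval t =
      (Matrix.of fun x y => vero (fun k => (row x k).eval t) (ε y)).det := by
    intro t
    have h1 := RingHom.map_det (Polynomial.evalRingHom t) D
    rw [Polynomial.coe_evalRingHom] at h1
    rw [h1]
    congr 1
    ext x y
    exact map_vero (Polynomial.evalRingHom t) (row x) (ε y)
  have hD1 : D.det.eval 1 ≠ 0 := by
    rw [hD]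
    have h1 : (Matrix.of fun x y => vero (fun k => (row x k).eval 1) (ε y)) =
        ((powMat m e w).submatrix ε ε).map Complex.ofRealHom := by
      ext x y
      have h2 : (fun k => (row x k).eval 1) = fun k => (w (ε x) k : ℂ) := by
        funext k
        rcases x with (i | i) | j
        · simp only [row, Sum.elim_inl, Polynomial.eval_add, Polynomial.eval_mul,
            Polynomial.eval_C, Polynomial.eval_X, one_mul, a, b, c1, c2]
          push_cast
          ring
        · simp only [row, Sum.elim_inl, Sum.elim_inr, Polynomial.eval_sub, Polynomial.eval_mul,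
            Polynomial.eval_C, Polynomial.eval_X, one_mul, a, b, c1, c2]
          push_cast
          ring
        · simp only [row, Sum.elim_inr, Polynomial.eval_C, c]
      rw [Matrix.of_apply, h2, Matrix.map_apply, Matrix.submatrix_apply, powMat,
        Matrix.of_apply, coefMap_pow_vero, map_vero]
      rfl
    rw [h1, ← RingHom.mapMatrix_apply, ← RingHom.map_det, Matrix.det_submatrix_equiv_self]
    intro h2
    exact hw (by simpa using h2)
  have hD0 : D.det ≠ 0 := fun h0 => hD1 (by rw [h0, Polynomial.eval_zero])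
  obtain ⟨τ, hτ⟩ : ∃ τ : ℝ, D.det.eval (Complex.I * τ) ≠ 0 := by
    by_contra hcon
    push Not at hcon
    apply hD0
    refine Polynomial.eq_zero_of_infinite_isRoot _ ?_
    refine (Set.infinite_range_of_injective (f := fun τ : ℝ => Complex.I * (τ : ℂ)) ?_).mono ?_
    · intro x y hxy
      have h1 : (x : ℂ) = y := mul_left_cancel₀ Complex.I_ne_zero hxy
      exact_mod_cast h1
    · rintro _ ⟨x, rfl⟩
      exact hcon x
  refine ⟨c, (a, fun i k => τ * b i k), fun hdet => ?_⟩
  obtain ⟨v, hv0, hv⟩ := Matrix.exists_vecMul_eq_zero_iff.2 hdet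
  apply hv0
  rw [hD] at hτ
  let γ : Rw r l → ℂ := Sum.elim (Sum.elim
    (fun i => ((v (Sum.inl (Sum.inl i)) : ℂ) - Complex.I * (v (Sum.inl (Sum.inr i)) : ℂ)) / 2)
    (fun i => ((v (Sum.inl (Sum.inl i)) : ℂ) + Complex.I * (v (Sum.inl (Sum.inr i)) : ℂ)) / 2))
    (fun j => (v (Sum.inr j) : ℂ))
  have hγ : Matrix.vecMul γ
      (Matrix.of fun x y => vero (fun k => (row x k).eval (Complex.I * τ)) (ε y)) = 0 := by
    funext y
    have h1 := congrArg (fun x : ℝ => (x : ℂ)) (congrFun hv y)
    simp only [Matrix.vecMul, dotProduct, Fintype.sum_sum_type, cMat, Matrix.of_apply,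
      Sum.elim_inl, Sum.elim_inr, Pi.zero_apply, Complex.ofReal_add, Complex.ofReal_sum,
      Complex.ofReal_mul, Complex.ofReal_zero] at h1
    rw [Matrix.vecMul, dotProduct, Fintype.sum_sum_type, Fintype.sum_sum_type, Pi.zero_apply,
      ← h1]
    congr 1
    · rw [← Finset.sum_add_distrib, ← Finset.sum_add_distrib]
      refine Finset.sum_congr rfl fun i _ => ?_
      have h2 := coef_PQ (a i) (fun k => τ * b i k) (ε y)
      have h3 := congrArg (starRingEnd ℂ) h2
      rw [map_vero, map_add, map_mul, Complex.conj_I, Complex.conj_ofReal,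
        Complex.conj_ofReal] at h3
      have h4 : (fun k => (row (Sum.inl (Sum.inl i)) k).eval (Complex.I * τ)) =
          fun k => (a i k : ℂ) + Complex.I * ((τ * b i k : ℝ) : ℂ) := by
        funext k
        simp only [row, Sum.elim_inl, Polynomial.eval_add, Polynomial.eval_mul,
          Polynomial.eval_C, Polynomial.eval_X]
        push_cast
        ring
      have h5 : (fun k => (row (Sum.inl (Sum.inr i)) k).eval (Complex.I * τ)) =
          fun k => (starRingEnd ℂ) ((a i k : ℂ) + Complex.I * ((τ * b i k : ℝ) : ℂ)) := by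
        funext k
        rw [map_add, map_mul, Complex.conj_I, Complex.conj_ofReal, Complex.conj_ofReal]
        simp only [row, Sum.elim_inl, Sum.elim_inr, Polynomial.eval_sub, Polynomial.eval_mul,
          Polynomial.eval_C, Polynomial.eval_X]
        push_cast
        ring
      simp only [Matrix.of_apply]
      rw [h4, h5, ← h2, ← h3]
      simp only [γ, Sum.elim_inl, Sum.elim_inr]
      linear_combination (-(v (Sum.inl (Sum.inr i)) : ℂ) *
        ((coefMap m e (PQ (a i) (fun k => τ * b i k) e).2 (ε y) : ℝ) : ℂ)) * Complex.I_mul_I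
    · refine Finset.sum_congr rfl fun j _ => ?_
      simp only [Matrix.of_apply, γ, Sum.elim_inr, row, Polynomial.eval_C]
      rw [coefMap_pow_vero]
      congr 1
      exact (map_vero Complex.ofRealHom (c j) (ε y)).symm
  have hγ0 := Matrix.eq_zero_of_vecMul_eq_zero hτ hγ
  have h1 : ∀ i, (v (Sum.inl (Sum.inl i)) : ℂ) = 0 ∧ (v (Sum.inl (Sum.inr i)) : ℂ) = 0 := by
    intro i
    have k1 : ((v (Sum.inl (Sum.inl i)) : ℂ) - Complex.I * (v (Sum.inl (Sum.inr i)) : ℂ)) / 2 =
      0 := congrFun hγ0 (Sum.inl (Sum.inl i))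
    have k2 : ((v (Sum.inl (Sum.inl i)) : ℂ) + Complex.I * (v (Sum.inl (Sum.inr i)) : ℂ)) / 2 =
      0 := congrFun hγ0 (Sum.inl (Sum.inr i))
    refine ⟨by linear_combination k1 + k2, ?_⟩
    have k3 : Complex.I * (v (Sum.inl (Sum.inr i)) : ℂ) = 0 := by linear_combination k2 - k1
    exact (mul_eq_zero.1 k3).resolve_left Complex.I_ne_zero
  funext x
  rcases x with (i | i) | j
  · exact_mod_cast (h1 i).1
  · exact_mod_cast (h1 i).2
  · have h2 : (v (Sum.inr j) : ℂ) = 0 := congrFun hγ0 (Sum.inr j)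
    exact_mod_cast h2

end Pool.Agent.SubTyp
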