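import Pool.Agent.SubTyp.CodMain

/-! The number of typical ranks of `Sub_{m-1}(SⁿV)`, `m` even, is unbounded. -/

set_option autoImplicit false

open Module Set Filter

namespace Pool.Agent.SubTyp

private theorem bern {p : ℕ} (hp : 2 ≤ p) :
    (2 * (p : ℝ) ^ 2) ^ p * (2 * p - 1) ≤ 2 * p * (2 * (p : ℝ) ^ 2 - 1) ^ p := by
  have hp' : (2 : ℝ) ≤ p := by exact_mod_cast hp
  have hy : 0 < 2 * (p : ℝ) ^ 2 := by positivity
  have hy1 : (1 : ℝ) ≤ 2 * (p : ℝ) ^ 2 := by nlinarith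
  have h1 : -2 ≤ -(1 / (2 * (p : ℝ) ^ 2)) := by
    have : 1 / (2 * (p : ℝ) ^ 2) ≤ 1 := (div_le_one hy).2 hy1
    linarith
  have h2 := one_add_mul_le_pow h1 p
  have h3 : (2 * (p : ℝ) ^ 2 - 1) ^ p = (2 * (p : ℝ) ^ 2) ^ p * (1 + -(1 / (2 * (p : ℝ) ^ 2))) ^ p := by
    rw [← mul_pow]
    congr 1
    field_simp
    ring
  have h4 : 0 < (2 * (p : ℝ) ^ 2) ^ p := pow_pos hy p
  rw [h3]
  have h5 : 2 * (p : ℝ) * (1 + (p : ℝ) * -(1 / (2 * (p : ℝ) ^ 2))) = 2 * p - 1 := by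
    have : (p : ℝ) ≠ 0 := by positivity
    field_simp
    ring
  rw [← h5]
  calc (2 * (p : ℝ) ^ 2) ^ p * (2 * (p : ℝ) * (1 + (p : ℝ) * -(1 / (2 * (p : ℝ) ^ 2)))) =
      2 * p * ((2 * (p : ℝ) ^ 2) ^ p * (1 + (p : ℝ) * -(1 / (2 * (p : ℝ) ^ 2)))) := by ring
    _ ≤ 2 * p * ((2 * (p : ℝ) ^ 2) ^ p * (1 + -(1 / (2 * (p : ℝ) ^ 2))) ^ p) := by
      gcongr

/-- the growth of the binomial coefficients -/
private theorem growth {p : ℕ} (hp : 2 ≤ p) (K : ℕ) : ∃ e s : ℕ, K ≤ e ∧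
    (e + p).choose p ≤ p * s ∧ (p - 1) * (s + K) + 2 ≤ (e - K + p).choose p := by
  have hc : 1 ≤ (2 * p ^ 2 - 1) * (K + p) := by
    have h1 : 1 ≤ 2 * p ^ 2 - 1 := by
      have : 4 ≤ p ^ 2 := by nlinarith
      omega
    have h2 : 1 ≤ K + p := by omega
    nlinarith
  obtain ⟨x, hx⟩ : ∃ x, x = (2 * p ^ 2 - 1) * (K + p) := ⟨_, rfl⟩
  rw [← hx] at hc
  have hxr : (x : ℝ) = (2 * (p : ℝ) ^ 2 - 1) * ((K : ℝ) + p) := by
    rw [hx]
    have : 1 ≤ 2 * p ^ 2 := by nlinarith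
    push_cast [this]
    ring
  refine ⟨x + K - 1, (x + K - 1 + p).choose p / p + 1, by omega, ?_, ?_⟩
  · have h1 := Nat.div_add_mod ((x + K - 1 + p).choose p) p
    have h2 := Nat.mod_lt ((x + K - 1 + p).choose p) (show p > 0 by omega)
    rw [mul_add]
    omega
  · have e1 : x + K - 1 - K + p = x - 1 + p := by omega
    rw [e1]
    have h1 : p.factorial * (x + K - 1 + p).choose p ≤ (x + K - 1 + p) ^ p := by
      rw [← Nat.descFactorial_eq_factorial_mul_choose]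
      exact Nat.descFactorial_le_pow _ _
    have h2 : x ^ p ≤ p.factorial * (x - 1 + p).choose p := by
      rw [← Nat.descFactorial_eq_factorial_mul_choose]
      have := Nat.pow_sub_le_descFactorial (x - 1 + p) p
      rwa [show x - 1 + p + 1 - p = x by omega] at this
    have h3 : p * ((x + K - 1 + p).choose p / p) ≤ (x + K - 1 + p).choose p := Nat.mul_div_le _ _
    -- real inequalities
    have hp' : (2 : ℝ) ≤ p := by exact_mod_cast hp
    have hK : (0 : ℝ) ≤ K := Nat.cast_nonneg K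
    have hf : (0 : ℝ) < p.factorial := by exact_mod_cast Nat.factorial_pos p
    have hff : (p.factorial : ℝ) ≤ (p : ℝ) ^ p := by exact_mod_cast Nat.factorial_le_pow p
    have k1 : (p.factorial : ℝ) * (x + K - 1 + p).choose p ≤
        (2 * (p : ℝ) ^ 2) ^ p * ((K : ℝ) + p) ^ p := by
      have : ((x + K - 1 + p : ℕ) : ℝ) ≤ 2 * (p : ℝ) ^ 2 * ((K : ℝ) + p) := by
        have h4 : ((x + K - 1 + p : ℕ) : ℝ) ≤ x + K + p := by
          have : x + K - 1 + p ≤ x + K + p := by omega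
          exact_mod_cast this
        rw [hxr] at h4
        linarith
      rw [← mul_pow]
      refine le_trans (by exact_mod_cast h1) (pow_le_pow_left₀ (Nat.cast_nonneg _) this p)
    have k2 : (2 * (p : ℝ) ^ 2 - 1) ^ p * ((K : ℝ) + p) ^ p ≤
        (p.factorial : ℝ) * (x - 1 + p).choose p := by
      rw [← mul_pow, ← hxr]
      exact_mod_cast h2
    have k3 : (p : ℝ) * (((x + K - 1 + p).choose p / p : ℕ) : ℝ) ≤ (x + K - 1 + p).choose p := by
      exact_mod_cast h3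
    have k4 := bern hp
    have k5 : (p.factorial : ℝ) * (p ^ 2 * (2 * ((K : ℝ) + p) ^ 2)) ≤
        (2 * (p : ℝ) ^ 2) ^ p * ((K : ℝ) + p) ^ p / 2 := by
      have h5 : (2 * (p : ℝ) ^ 2) ^ p * ((K : ℝ) + p) ^ p =
          (p : ℝ) ^ p * (2 * p * ((K : ℝ) + p)) ^ p := by
        rw [← mul_pow, ← mul_pow]
        congr 1
        ring
      have h6 : (2 * p * ((K : ℝ) + p)) ^ 2 ≤ (2 * p * ((K : ℝ) + p)) ^ p := by
        refine pow_le_pow_right₀ ?_ hp
        nlinarith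
      rw [h5]
      have h7 : (p.factorial : ℝ) * (p ^ 2 * (2 * ((K : ℝ) + p) ^ 2)) ≤
          (p : ℝ) ^ p * (p ^ 2 * (2 * ((K : ℝ) + p) ^ 2)) :=
        mul_le_mul_of_nonneg_right hff (by positivity)
      have h8 : (p : ℝ) ^ p * (2 * p * ((K : ℝ) + p)) ^ 2 ≤
          (p : ℝ) ^ p * (2 * p * ((K : ℝ) + p)) ^ p :=
        mul_le_mul_of_nonneg_left h6 (by positivity)
      have h9 : (p : ℝ) ^ p * (p ^ 2 * (2 * ((K : ℝ) + p) ^ 2)) =
          (p : ℝ) ^ p * (2 * p * ((K : ℝ) + p)) ^ 2 / 2 := by ring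
      linarith
    generalize (x + K - 1 + p).choose p = Ne at *
    generalize (x - 1 + p).choose p = Nf at *
    generalize Ne / p = q at *
    have hL : 0 < ((K : ℝ) + p) ^ p := by positivity
    have k6 : (2 * (p : ℝ) ^ 2) ^ p * ((K : ℝ) + p) ^ p * (2 * p - 1) ≤
        2 * p * ((p.factorial : ℝ) * Nf) := by
      calc _ = (2 * (p : ℝ) ^ 2) ^ p * (2 * p - 1) * ((K : ℝ) + p) ^ p := by ring
        _ ≤ 2 * p * (2 * (p : ℝ) ^ 2 - 1) ^ p * ((K : ℝ) + p) ^ p :=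
          mul_le_mul_of_nonneg_right k4 hL.le
        _ = 2 * p * ((2 * (p : ℝ) ^ 2 - 1) ^ p * ((K : ℝ) + p) ^ p) := by ring
        _ ≤ _ := mul_le_mul_of_nonneg_left k2 (by positivity)
    have k7 : (p : ℝ) * ((p - 1) * (q + 1 + K) + 2) ≤ p * Nf := by
      refine le_of_mul_le_mul_left ?_ hf
      have m1 : (p.factorial : ℝ) * (p * q) ≤ p.factorial * Ne :=
        mul_le_mul_of_nonneg_left k3 hf.le
      have m2 : (p.factorial : ℝ) * (p * q) ≤ (2 * (p : ℝ) ^ 2) ^ p * ((K : ℝ) + p) ^ p :=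
        m1.trans k1
      have m3 : ((p : ℝ) - 1) * (p.factorial * (p * q)) ≤
          (p - 1) * ((2 * (p : ℝ) ^ 2) ^ p * ((K : ℝ) + p) ^ p) :=
        mul_le_mul_of_nonneg_left m2 (by linarith)
      have m4 : (p : ℝ) * ((p - 1) * (1 + K) + 2) ≤ p ^ 2 * (2 * ((K : ℝ) + p) ^ 2) := by
        nlinarith [mul_nonneg hK hK, mul_nonneg hK (by linarith : (0 : ℝ) ≤ p)]
      have m5 : (p.factorial : ℝ) * (p * ((p - 1) * (1 + K) + 2)) ≤
          p.factorial * (p ^ 2 * (2 * ((K : ℝ) + p) ^ 2)) :=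
        mul_le_mul_of_nonneg_left m4 hf.le
      linarith
    have k8 : ((p : ℝ) - 1) * (q + 1 + K) + 2 ≤ Nf :=
      le_of_mul_le_mul_left k7 (by linarith)
    have k9 : (((p - 1) * (q + 1 + K) + 2 : ℕ) : ℝ) ≤ Nf := by
      push_cast [show 1 ≤ p by omega]
      exact k8
    exact_mod_cast k9

/-- **Arbitrarily many typical ranks**. -/
theorem many_typical {m : ℕ} (hm : 4 ≤ m) (he : Even m) (K : ℕ) : ∃ n a : ℕ, 1 ≤ n ∧
    ∀ d, a ≤ d → d ≤ a + K → IsTypicalRank (SymSubVar n m (m - 1)) d := by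
  obtain ⟨e, s, hKe, h1, h2⟩ := growth (p := m - 1) (by omega) K
  have hs : 1 ≤ s := by
    rcases Nat.eq_zero_or_pos s with h0 | h0
    · rw [h0, mul_zero] at h1
      have := Nat.choose_pos (show m - 1 ≤ e + (m - 1) by omega)
      omega
    · exact h0
  obtain ⟨g, G, -, hint, hg, -, -, hG⟩ := codim_interval (n := e + s) (m := m) (by omega)
    (by omega)
  have h3 : g ≤ s := hg.2 (by
    change (e + s - s + (m - 1)).choose (m - 1) ≤ (m - 1) * s
    rwa [show e + s - s = e by omega])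
  have h4 : s + K + 1 ≤ G := hG he (s + K) (by
    rwa [show e + s - (s + K) = e - K by omega, show m - 2 = m - 1 - 1 by omega])
  exact ⟨e + s, s, by omega, fun d hd1 hd2 => (hint d).2 ⟨by omega, by omega⟩⟩

end Pool.Agent.SubTyp
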