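import Pool.Agent.SubTyp.CodInd
import Pool.Agent.SubTyp.CodDef

/-! Tensors of rank at most `s` which are not dense, in an even number of variables. -/

set_option autoImplicit false

open MvPolynomial Module Set Filter
open scoped Topology

namespace Pool.Agent.SubTyp

variable {m e r l h : ℕ}

theorem analytic_cMat (ε : Rw r l ≃ Sym (Fin m) e) (c : Fin l → Fin m → ℝ) :
    AnalyticOnNhd ℝ (fun q : CPar m r => (cMat ε c q).det) univ := by
  have hco : ∀ (i : Fin r) (k : Fin m), AnalyticOnNhd ℝ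
      (fun q : CPar m r => (q.1 i k : ℂ) + Complex.I * (q.2 i k : ℂ)) univ := by
    intro i k
    let L1 : CPar m r →L[ℝ] ℝ :=
      (ContinuousLinearMap.proj (R := ℝ) (φ := fun _ : Fin m => ℝ) k).comp
        ((ContinuousLinearMap.proj (R := ℝ) (φ := fun _ : Fin r => Fin m → ℝ) i).comp
          (ContinuousLinearMap.fst ℝ (Fin r → Fin m → ℝ) (Fin r → Fin m → ℝ)))
    let L2 : CPar m r →L[ℝ] ℝ :=
      (ContinuousLinearMap.proj (R := ℝ) (φ := fun _ : Fin m => ℝ) k).comp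
        ((ContinuousLinearMap.proj (R := ℝ) (φ := fun _ : Fin r => Fin m → ℝ) i).comp
          (ContinuousLinearMap.snd ℝ (Fin r → Fin m → ℝ) (Fin r → Fin m → ℝ)))
    intro q _
    have h1 : AnalyticAt ℝ (fun q : CPar m r => (q.1 i k : ℂ)) q :=
      (Complex.ofRealCLM.comp L1).analyticAt q
    have h2 : AnalyticAt ℝ (fun q : CPar m r => (q.2 i k : ℂ)) q :=
      (Complex.ofRealCLM.comp L2).analyticAt q
    exact h1.add (analyticAt_const.mul h2)
  have hv : ∀ (i : Fin r) (y : Sym (Fin m) e), AnalyticOnNhd ℝ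
      (fun q : CPar m r => vero (fun k => (q.1 i k : ℂ) + Complex.I * (q.2 i k : ℂ)) y)
      univ := by
    intro i y q hq
    unfold vero Finsupp.prod
    exact analyticAt_const.mul (Finset.analyticAt_fun_prod _ fun k _ => (hco i k q hq).pow _)
  refine analytic_det fun x y => ?_
  rcases x with (i | i) | j
  · intro q hq
    have h1 : (fun q : CPar m r => cMat ε c q (Sum.inl (Sum.inl i)) y) = fun q =>
        Complex.reCLM (vero (fun k => (q.1 i k : ℂ) + Complex.I * (q.2 i k : ℂ)) (ε y)) :=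
      funext fun q => coef_PQ1 _ _ _
    rw [h1]
    exact (Complex.reCLM.analyticAt _).comp (hv i (ε y) q hq)
  · intro q hq
    have h1 : (fun q : CPar m r => cMat ε c q (Sum.inl (Sum.inr i)) y) = fun q =>
        Complex.imCLM (vero (fun k => (q.1 i k : ℂ) + Complex.I * (q.2 i k : ℂ)) (ε y)) :=
      funext fun q => coef_PQ2 _ _ _
    rw [h1]
    exact (Complex.imCLM.analyticAt _).comp (hv i (ε y) q hq)
  · intro q _
    have h1 : (fun q : CPar m r => cMat ε c q (Sum.inr j) y) = fun _ =>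
        coefMap m e (lin (c j) ^ e) (ε y) := rfl
    rw [h1]
    exact analyticAt_const

/-- the matrix of `h` of the pairs -/
def bMat (δ : Fin h ⊕ Fin h ≃ Fin m) (ι : Fin h ↪ Fin r) (q : CPar m r) :
    Matrix (Fin h ⊕ Fin h) (Fin h ⊕ Fin h) ℝ :=
  Matrix.of fun x y => Sum.elim (fun j => q.1 (ι j)) (fun j => q.2 (ι j)) x (δ y)

theorem analytic_bMat (δ : Fin h ⊕ Fin h ≃ Fin m) (ι : Fin h ↪ Fin r) :
    AnalyticOnNhd ℝ (fun q : CPar m r => (bMat δ ι q).det) univ := by
  refine analytic_det fun x y => ?_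
  rcases x with j | j
  · let L1 : CPar m r →L[ℝ] ℝ :=
      (ContinuousLinearMap.proj (R := ℝ) (φ := fun _ : Fin m => ℝ) (δ y)).comp
        ((ContinuousLinearMap.proj (R := ℝ) (φ := fun _ : Fin r => Fin m → ℝ) (ι j)).comp
          (ContinuousLinearMap.fst ℝ (Fin r → Fin m → ℝ) (Fin r → Fin m → ℝ)))
    exact L1.analyticOnNhd univ
  · let L2 : CPar m r →L[ℝ] ℝ :=
      (ContinuousLinearMap.proj (R := ℝ) (φ := fun _ : Fin m => ℝ) (δ y)).comp
        ((ContinuousLinearMap.proj (R := ℝ) (φ := fun _ : Fin r => Fin m → ℝ) (ι j)).comp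
          (ContinuousLinearMap.snd ℝ (Fin r → Fin m → ℝ) (Fin r → Fin m → ℝ)))
    exact L2.analyticOnNhd univ

theorem exists_bMat (hh : 0 < h) (δ : Fin h ⊕ Fin h ≃ Fin m) (ι : Fin h ↪ Fin r) :
    ∃ q : CPar m r, (bMat δ ι q).det ≠ 0 := by
  have : Nonempty (Fin h) := ⟨⟨0, hh⟩⟩
  obtain ⟨g, hg⟩ := ι.injective.hasLeftInverse
  refine ⟨(fun i => Pi.single (δ (Sum.inl (g i))) 1, fun i => Pi.single (δ (Sum.inr (g i))) 1),
    ?_⟩
  have h1 : bMat δ ι (fun i => Pi.single (δ (Sum.inl (g i))) 1,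
      fun i => Pi.single (δ (Sum.inr (g i))) 1) = 1 := by
    ext x y
    rw [Matrix.one_apply]
    rcases x with j | j
    · change (Pi.single (δ (Sum.inl (g (ι j)))) 1 : Fin m → ℝ) (δ y) = _
      rw [hg j, Pi.single_apply]
      by_cases hy : Sum.inl j = y
      · rw [if_pos hy, if_pos (by rw [hy])]
      · rw [if_neg hy, if_neg fun h => hy (δ.injective h).symm]
    · change (Pi.single (δ (Sum.inr (g (ι j)))) 1 : Fin m → ℝ) (δ y) = _
      rw [hg j, Pi.single_apply]
      by_cases hy : Sum.inr j = y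
      · rw [if_pos hy, if_pos (by rw [hy])]
      · rw [if_neg hy, if_neg fun h => hy (δ.injective h).symm]
  rw [h1, Matrix.det_one]
  exact one_ne_zero

theorem eq_zero_of_bMat {δ : Fin h ⊕ Fin h ≃ Fin m} {ι : Fin h ↪ Fin r} {q : CPar m r}
    (hd : (bMat δ ι q).det ≠ 0) {L : Fin m → ℝ}
    (hL : ∀ j, cdot L (q.1 (ι j)) (q.2 (ι j)) = 0) : L = 0 := by
  have h1 : (bMat δ ι q).mulVec (fun y => L (δ y)) = 0 := by
    funext x
    have h2 : ∀ v : Fin m → ℝ, ∑ y, v (δ y) * L (δ y) = L ⬝ᵥ v := by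
      intro v
      rw [Equiv.sum_comp δ fun k => v k * L k, dotProduct]
      exact Finset.sum_congr rfl fun k _ => mul_comm _ _
    rcases x with j | j
    · exact (h2 (q.1 (ι j))).trans (congrArg Complex.re (hL j))
    · exact (h2 (q.2 (ι j))).trans (congrArg Complex.im (hL j))
  have h2 := Matrix.eq_zero_of_mulVec_eq_zero hd h1
  funext k
  have h3 := congrFun h2 (δ.symm k)
  simpa using h3

theorem exists_gen (hh : 0 < h) (δ : Fin h ⊕ Fin h ≃ Fin m) (hr : 2 * r ≤ cN m e) :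
    ∃ q : CPar m r, (∀ z : Fin r → ℂ, ∑ i, reP (q.1 i) (q.2 i) (z i) e = 0 → ∀ i, z i = 0) ∧
      ∀ (ι : Fin h ↪ Fin r) (L : Fin m → ℝ),
        (∀ j, cdot L (q.1 (ι j)) (q.2 (ι j)) = 0) → L = 0 := by
  obtain ⟨l, hl⟩ : ∃ l, 2 * r + l = cN m e := ⟨cN m e - 2 * r, by omega⟩
  have hcard : Fintype.card (Rw r l) = Fintype.card (Sym (Fin m) e) := by
    rw [Fintype.card_sum, Fintype.card_sum, Fintype.card_fin, Fintype.card_fin]
    change r + r + l = cN m e
    omega
  obtain ⟨ε⟩ : Nonempty (Rw r l ≃ Sym (Fin m) e) := Fintype.card_eq.1 hcard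
  obtain ⟨c, q0, hq0⟩ := exists_cMat ε
  let f : Option (Fin h ↪ Fin r) → Set (CPar m r) := fun o => match o with
    | none => {q | (cMat ε c q).det ≠ 0}
    | some ι => {q | (bMat δ ι q).det ≠ 0}
  have hd : Dense (⋂ o, f o) := by
    refine dense_iInter_of_isOpen (fun o => ?_) fun o => ?_
    · rcases o with _ | ι
      · exact isOpen_ne_zero (analytic_cMat ε c)
      · exact isOpen_ne_zero (analytic_bMat δ ι)
    · rcases o with _ | ι
      · exact dense_ne_zero (analytic_cMat ε c) hq0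
      · obtain ⟨q1, hq1⟩ := exists_bMat hh δ ι
        exact dense_ne_zero (analytic_bMat δ ι) hq1
  obtain ⟨q, hq⟩ := hd.nonempty
  rw [mem_iInter] at hq
  exact ⟨q, fun z hz i => indep_of_det (hq none) hz i, fun ι L hL => eq_zero_of_bMat (hq (some ι)) hL⟩

/-- **Tensors of rank at most `s` are not dense** -/
theorem not_dense_rankLE {m h s e n : ℕ} (hm : m + 1 = 2 * h) (hh : 1 ≤ h) (hn : n = e + s)
    (hcard : (m - 1) * s + 2 ≤ cN (m + 1) e) : ¬ Dense (RankLE (symK n (m + 1) m) s) := by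
  classical
  intro hdense
  obtain ⟨r, hr⟩ : ∃ r, r = s * (h - 1) + 1 := ⟨_, rfl⟩
  have hr2 : 2 * r ≤ cN (m + 1) e := by
    have h1 : m - 1 = 2 * (h - 1) := by omega
    rw [h1] at hcard
    rw [hr]
    calc 2 * (s * (h - 1) + 1) = 2 * (h - 1) * s + 2 := by ring
      _ ≤ _ := hcard
  obtain ⟨δ⟩ : Nonempty (Fin h ⊕ Fin h ≃ Fin (m + 1)) := by
    apply Fintype.card_eq.1
    rw [Fintype.card_sum, Fintype.card_fin, Fintype.card_fin, hm]
    omega
  obtain ⟨q, hq1, hq2⟩ := exists_gen hh δ hr2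
  -- the tensor
  have hhom : (∑ i, reP (q.1 i) (q.2 i) 1 n).IsHomogeneous n :=
    IsHomogeneous.sum _ _ _ fun i _ => reP_homog _ _ _ _
  obtain ⟨T', hT', hT'f⟩ := exists_toPoly_eq hhom
  let T : SymT n (m + 1) := ⟨T', hT'⟩
  have hT : T ∈ killSet n (m + 1) s := by
    have h1 : RankLE (symK n (m + 1) m) s ⊆ killSet n (m + 1) s := fun T hT =>
      exists_kill_of_rankLE hT
    have h2 := (isClosed_killSet n (m + 1) s).closure_subset_iff.2 h1
    rw [hdense.closure_eq] at h2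
    exact h2 (mem_univ T)
  obtain ⟨L, hL0, hL⟩ := hT
  change dl (List.ofFn L) (toPoly T') = 0 at hL
  rw [hT'f, map_sum] at hL
  have hlen : (List.ofFn L).length = s := List.length_ofFn
  have h3 : ∀ i, dl (List.ofFn L) (reP (q.1 i) (q.2 i) 1 n) =
      C (((e + s).descFactorial s : ℕ) : ℝ) *
        reP (q.1 i) (q.2 i) (∏ j, cdot (L j) (q.1 i) (q.2 i)) e := by
    intro i
    have h4 := dl_reP (List.ofFn L) (q.1 i) (q.2 i) 1 e
    rw [hlen, one_mul, List.map_ofFn, List.prod_ofFn] at h4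
    rw [hn]
    exact h4
  rw [Finset.sum_congr rfl fun i _ => h3 i, ← Finset.mul_sum] at hL
  have hκ : (C (((e + s).descFactorial s : ℕ) : ℝ) : MvPolynomial (Fin (m + 1)) ℝ) ≠ 0 := by
    rw [Ne, C_eq_zero]
    have h4 : 0 < (e + s).descFactorial s := Nat.descFactorial_pos.2 (by omega)
    exact_mod_cast h4.ne'
  have h5 := hq1 _ ((mul_eq_zero.1 hL).resolve_left hκ)
  have h6 : ∀ i, ∃ j, cdot (L j) (q.1 i) (q.2 i) = 0 := by
    intro i
    obtain ⟨j, -, hj⟩ := Finset.prod_eq_zero_iff.1 (h5 i)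
    exact ⟨j, hj⟩
  choose φ hφ using h6
  obtain ⟨j, hj⟩ := Fintype.exists_lt_card_fiber_of_mul_lt_card (n := h - 1) φ (by
    rw [Fintype.card_fin, Fintype.card_fin, hr]
    omega)
  have h7 : h ≤ (Finset.univ.filter fun i => φ i = j).card := by omega
  obtain ⟨ι⟩ : Nonempty (Fin h ↪ (Finset.univ.filter fun i => φ i = j : Finset (Fin r))) := by
    apply Function.Embedding.nonempty_of_card_le
    rw [Fintype.card_fin, Fintype.card_coe]
    exact h7
  refine hL0 j (hq2 (ι.trans (Function.Embedding.subtype _)) (L j) fun k => ?_)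
  have h8 : φ (ι k).1 = j := (Finset.mem_filter.1 (ι k).2).2
  have h9 := hφ (ι k).1
  rw [h8] at h9
  exact h9

end Pool.Agent.SubTyp
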