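import Mathlib

open Set Module
open scoped Topology RealInnerProductSpace

namespace Pool.Agent.SubTyp

/-- If `a t + b t² ≥ 0` for all real `t`, then `a = 0`. -/
theorem coef_zero_of_forall {a b : ℝ} (h : ∀ t : ℝ, 0 ≤ a * t + b * t ^ 2) : a = 0 := by
  by_contra ha
  have hb : 0 < |b| + 1 := by positivity
  have h1 := h (-a / (|b| + 1))
  have h2 : a * (-a / (|b| + 1)) + b * (-a / (|b| + 1)) ^ 2
      = (a ^ 2 / (|b| + 1) ^ 2) * (b - (|b| + 1)) := by
    field_simp
    ring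
  rw [h2] at h1
  have h3 : 0 < a ^ 2 / (|b| + 1) ^ 2 := by positivity
  have h4 : b - (|b| + 1) < 0 := by linarith [le_abs_self b]
  nlinarith [mul_neg_of_pos_of_neg h3 h4]

/-- If `a s + b s² ≥ 0` for all `s ≥ 0`, then `a ≥ 0`. -/
theorem coef_nonneg_of_forall {a b : ℝ} (h : ∀ s : ℝ, 0 ≤ s → 0 ≤ a * s + b * s ^ 2) : 0 ≤ a := by
  by_contra ha
  push Not at ha
  have hb : 0 < |b| + 1 := by positivity
  have hs : 0 ≤ -a / (2 * (|b| + 1)) := by
    apply div_nonneg <;> linarith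
  have h1 := h _ hs
  have h2 : a * (-a / (2 * (|b| + 1))) + b * (-a / (2 * (|b| + 1))) ^ 2
      = (a ^ 2 / (4 * (|b| + 1) ^ 2)) * (b - 2 * (|b| + 1)) := by
    field_simp
    ring
  rw [h2] at h1
  have h3 : 0 < a ^ 2 / (4 * (|b| + 1) ^ 2) := by
    have : a ≠ 0 := ha.ne
    positivity
  have h4 : b - 2 * (|b| + 1) < 0 := by linarith [le_abs_self b, abs_nonneg b]
  nlinarith [mul_neg_of_pos_of_neg h3 h4]

variable {E : Type*} [NormedAddCommGroup E] [InnerProductSpace ℝ E] [FiniteDimensional ℝ E]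

/-- The set of `x` such that the quadratic form of `B x` is positive definite on `V` is open. -/
theorem isOpen_posOn (B : E →L[ℝ] E →L[ℝ] E) (V : Submodule ℝ E) :
    IsOpen {x : E | ∀ v ∈ V, v ≠ 0 → 0 < ⟪B x v, v⟫} := by
  rw [isOpen_iff_mem_nhds]
  intro x hx
  -- the unit sphere of V is compact
  have hK : IsCompact ((V : Set E) ∩ Metric.sphere (0 : E) 1) :=
    (isCompact_sphere (0 : E) 1).inter_left (V.closed_of_finiteDimensional)
  have hcont : Continuous fun p : E × E => ⟪B p.1 p.2, p.2⟫ := by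
    have : Continuous fun p : E × E => B p.1 p.2 :=
      (B.continuous.comp continuous_fst).clm_apply continuous_snd
    exact this.inner continuous_snd
  have hev : ∀ᶠ x' in 𝓝 x, ∀ v ∈ (V : Set E) ∩ Metric.sphere (0 : E) 1, 0 < ⟪B x' v, v⟫ := by
    apply hK.eventually_forall_of_forall_eventually
    intro v hv
    have hv0 : v ≠ 0 := by
      rintro rfl
      have := hv.2
      simp at this
    have hpos : 0 < ⟪B x v, v⟫ := hx v hv.1 hv0
    have h := hcont.continuousAt (x := (x, v))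
    have := h.eventually (lt_mem_nhds hpos)
    exact this
  filter_upwards [hev] with x' hx' v hv hv0
  have hn : ‖v‖ ≠ 0 := norm_ne_zero_iff.2 hv0
  have h1 := hx' ((‖v‖)⁻¹ • v) ⟨V.smul_mem _ hv, by
    simp [norm_smul, hn]⟩
  rw [map_smul, inner_smul_left, inner_smul_right] at h1
  simp only [conj_trivial] at h1
  have h2 : 0 < (‖v‖)⁻¹ := inv_pos.2 (norm_pos_iff.2 hv0)
  have h3 : 0 < (‖v‖)⁻¹ * (‖v‖)⁻¹ := mul_pos h2 h2
  by_contra hcon
  push Not at hcon
  have : ‖v‖⁻¹ * (‖v‖⁻¹ * ⟪B x' v, v⟫) ≤ 0 := by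
    rw [← mul_assoc]; exact mul_nonpos_of_nonneg_of_nonpos h3.le hcon
  linarith


omit [FiniteDimensional ℝ E] in
theorem norm_inv_smul_self {v : E} (hv : v ≠ 0) : ‖‖v‖⁻¹ • v‖ = 1 := by
  rw [norm_smul, norm_inv, norm_norm, inv_mul_cancel₀ (norm_ne_zero_iff.2 hv)]

section Minimal

variable (B : E →L[ℝ] E →L[ℝ] E) (hc : ∀ x y, B x y = B y x)
  (hs : ∀ x y z, ⟪B x y, z⟫ = ⟪y, B x z⟫) {μ : ℝ} (hμ : ∀ x y, μ * (‖x‖ * ‖y‖) ≤ ‖B x y‖)

omit [FiniteDimensional ℝ E] in
include hs hμ in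
/-- At a minimal pair `(x, y)` the vector `y` is an eigenvector of `(B x)²`. -/
theorem minimal_sq (hμ0 : 0 < μ) {x y : E} (hx : ‖x‖ = 1) (hy : ‖y‖ = 1) (hxy : ‖B x y‖ = μ) :
    B x (B x y) = (μ ^ 2) • y := by
  have key : ∀ w : E, ⟪B x (B x y) - (μ ^ 2) • y, w⟫ = 0 := by
    intro w
    have h1 : ∀ t : ℝ, 0 ≤ (2 * (⟪B x y, B x w⟫ - μ ^ 2 * ⟪y, w⟫)) * t
        + (‖B x w‖ ^ 2 - μ ^ 2 * ‖w‖ ^ 2) * t ^ 2 := by
      intro t
      have h2 := hμ x (y + t • w)
      rw [hx, one_mul] at h2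
      have h3 : (μ * ‖y + t • w‖) ^ 2 ≤ ‖B x (y + t • w)‖ ^ 2 := by
        have : 0 ≤ μ * ‖y + t • w‖ := by positivity
        exact pow_le_pow_left₀ this h2 2
      have h4 : ‖y + t • w‖ ^ 2 = 1 + 2 * t * ⟪y, w⟫ + t ^ 2 * ‖w‖ ^ 2 := by
        rw [norm_add_sq_real, hy, inner_smul_right, norm_smul, mul_pow, Real.norm_eq_abs, sq_abs]
        ring
      have h5 : ‖B x (y + t • w)‖ ^ 2 = μ ^ 2 + 2 * t * ⟪B x y, B x w⟫ + t ^ 2 * ‖B x w‖ ^ 2 := by
        rw [map_add, map_smul, norm_add_sq_real, hxy, inner_smul_right, norm_smul, mul_pow,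
          Real.norm_eq_abs, sq_abs]
        ring
      rw [mul_pow, h4, h5] at h3
      nlinarith
    have h6 := coef_zero_of_forall h1
    rw [inner_sub_left, inner_smul_left, conj_trivial]
    have h7 : ⟪B x (B x y), w⟫ = ⟪B x y, B x w⟫ := hs x (B x y) w
    rw [h7]
    linarith
  have := key (B x (B x y) - (μ ^ 2) • y)
  rw [inner_self_eq_zero] at this
  exact sub_eq_zero.1 this

omit [FiniteDimensional ℝ E] in
include hc hs hμ in
/-- If `B x y = μ y` for unit vectors then `B y y = μ x`. -/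
theorem minimal_swap (hμ0 : 0 < μ) {x y : E} (hx : ‖x‖ = 1) (hy : ‖y‖ = 1)
    (hxy : B x y = μ • y) : B y y = μ • x := by
  have h1 : ‖B y x‖ = μ := by
    rw [hc y x, hxy, norm_smul, hy, mul_one, Real.norm_eq_abs, abs_of_pos hμ0]
  have h2 := minimal_sq B hs hμ hμ0 hy hx h1
  rw [hc y x, hxy, map_smul] at h2
  have h3 : μ • (B y y - μ • x) = 0 := by
    rw [smul_sub, h2, smul_smul, pow_two, sub_self]
  rcases smul_eq_zero.1 h3 with h | h
  · exact absurd h hμ0.ne'
  · exact sub_eq_zero.1 h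

omit [FiniteDimensional ℝ E] in
include hs hμ in
/-- there are unit vectors with `B x y = μ y`. -/
theorem exists_pair (hμ0 : 0 < μ) {x y : E} (hx : ‖x‖ = 1) (hy : ‖y‖ = 1)
    (hxy : ‖B x y‖ = μ) : ∃ x y : E, ‖x‖ = 1 ∧ ‖y‖ = 1 ∧ B x y = μ • y := by
  have h1 := minimal_sq B hs hμ hμ0 hx hy hxy
  set z := μ⁻¹ • B x y with hz
  have hz1 : B x y = μ • z := by rw [hz, smul_smul, mul_inv_cancel₀ hμ0.ne', one_smul]
  have hz2 : B x z = μ • y := by
    rw [hz, map_smul, h1, smul_smul, pow_two, ← mul_assoc, inv_mul_cancel₀ hμ0.ne', one_mul]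
  by_cases h0 : y + z = 0
  · refine ⟨-x, y, by simpa using hx, hy, ?_⟩
    have : z = -y := by rw [add_comm] at h0; exact eq_neg_of_add_eq_zero_left h0
    rw [map_neg, neg_apply, hz1, this, smul_neg, neg_neg]
  · refine ⟨x, ‖y + z‖⁻¹ • (y + z), hx, norm_inv_smul_self h0, ?_⟩
    have h3 : μ • z + μ • y = μ • (y + z) := by rw [smul_add, add_comm]
    rw [map_smul, map_add, hz1, hz2, h3, smul_comm]

include hc hs hμ in
/-- there is a unit vector `u` with `B u u = μ u`. -/
theorem exists_idem (hμ0 : 0 < μ) {x y : E} (hx : ‖x‖ = 1) (hy : ‖y‖ = 1)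
    (hxy : ‖B x y‖ = μ) : ∃ u : E, ‖u‖ = 1 ∧ B u u = μ • u := by
  obtain ⟨x₀, y₀, hx₀, hy₀, hxy₀⟩ := exists_pair B hs hμ hμ0 hx hy hxy
  -- the compact set of pairs
  let P : Set (E × E) := {p | ‖p.1‖ = 1 ∧ ‖p.2‖ = 1 ∧ B p.1 p.2 = μ • p.2}
  have hPne : P.Nonempty := ⟨(x₀, y₀), hx₀, hy₀, hxy₀⟩
  have hcontB : Continuous fun p : E × E => B p.1 p.2 :=
    (B.continuous.comp continuous_fst).clm_apply continuous_snd
  have hPc : IsCompact P := by
    have h1 : P = (Metric.sphere (0 : E) 1 ×ˢ Metric.sphere (0 : E) 1) ∩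
        {p | B p.1 p.2 = μ • p.2} := by
      ext p
      simp [P, and_assoc]
    rw [h1]
    exact ((isCompact_sphere _ _).prod (isCompact_sphere _ _)).inter_right
      (isClosed_eq hcontB (continuous_snd.const_smul μ))
  obtain ⟨⟨x, y⟩, ⟨hx, hy, hxy⟩, hmax⟩ := hPc.exists_isMaxOn hPne
    (f := fun p : E × E => ⟪p.1, p.2⟫) (continuous_fst.inner continuous_snd).continuousOn
  simp only at hx hy hxy
  have hyy := minimal_swap B hc hs hμ hμ0 hx hy hxy
  by_cases h1 : x = y
  · exact ⟨x, hx, by rw [← h1] at hyy; exact hyy⟩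
  by_cases h2 : x + y = 0
  · refine ⟨x, hx, ?_⟩
    have hy' : y = -x := by rw [add_comm] at h2; exact eq_neg_of_add_eq_zero_left h2
    rw [hy', map_neg, smul_neg, neg_inj] at hxy
    exact hxy
  · exfalso
    have hn : 0 < ‖x + y‖ := norm_pos_iff.2 h2
    set u := ‖x + y‖⁻¹ • (x + y) with hu
    have hu1 : ‖u‖ = 1 := norm_inv_smul_self h2
    have hyu : B y u = μ • u := by
      have h3 : μ • y + μ • x = μ • (x + y) := by rw [smul_add, add_comm]
      rw [hu, map_smul, map_add, hc y x, hxy, hyy, h3, smul_comm]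
    have hmem : (y, u) ∈ P := ⟨hy, hu1, hyu⟩
    have hle : ⟪y, u⟫ ≤ ⟪x, y⟫ := hmax hmem
    set c := ⟪x, y⟫ with hcdef
    have hns : ‖x + y‖ ^ 2 = 2 + 2 * c := by
      rw [norm_add_sq_real, hx, hy, ← hcdef]; ring
    have hyu' : ⟪y, u⟫ = (1 + c) / ‖x + y‖ := by
      rw [hu, inner_smul_right, inner_add_right, real_inner_self_eq_norm_sq, hy,
        real_inner_comm, ← hcdef]
      field_simp
      ring
    have hc1 : c < 1 := by
      rcases lt_or_ge c 1 with h | h
      · exact h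
      · exfalso
        apply h1
        have : c ≤ 1 := by
          have := real_inner_le_norm x y
          rw [hx, hy] at this; linarith
        have hc1 : c = 1 := le_antisymm this h
        have h3 : ‖x - y‖ ^ 2 = 0 := by
          rw [norm_sub_sq_real, hx, hy, ← hcdef, hc1]; ring
        have h4 : ‖x - y‖ = 0 := by
          rcases pow_eq_zero_iff (two_ne_zero) |>.1 h3 with h; exact h
        exact sub_eq_zero.1 (norm_eq_zero.1 h4)
    have hcm : -1 < c := by
      have : 0 < ‖x + y‖ ^ 2 := by positivity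
      rw [hns] at this; linarith
    rw [hyu'] at hle
    have hpos : 0 < (1 + c) / ‖x + y‖ := div_pos (by linarith) hn
    have hcpos : 0 < c := lt_of_lt_of_le hpos hle
    have hsq : ((1 + c) / ‖x + y‖) ^ 2 ≤ c ^ 2 := pow_le_pow_left₀ hpos.le hle 2
    rw [div_pow, hns, div_le_iff₀ (by linarith)] at hsq
    nlinarith [mul_pos hcpos (sub_pos.2 hc1)]

omit [FiniteDimensional ℝ E] in
include hc hs hμ in
/-- at an idempotent direction `u` with minimal `μ`, the form `⟪B u w, w⟫` is `≤ -μ ‖w‖²` on `uᗮ`. -/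
theorem second_order (hμ0 : 0 < μ) {u : E} (hu : ‖u‖ = 1) (huu : B u u = μ • u) {w : E}
    (hw : ⟪u, w⟫ = 0) : ⟪B u w, w⟫ ≤ - μ * ‖w‖ ^ 2 := by
  have h1 : ∀ s : ℝ, 0 ≤ s → 0 ≤ (-2 * μ * ⟪B u w, w⟫ - 2 * μ ^ 2 * ‖w‖ ^ 2) * s
      + (‖B w w‖ ^ 2 - μ ^ 2 * ‖w‖ ^ 4) * s ^ 2 := by
    intro s hs0
    obtain ⟨t, rfl⟩ : ∃ t : ℝ, s = t ^ 2 := ⟨Real.sqrt s, (Real.sq_sqrt hs0).symm⟩
    have h2 := hμ (u + t • w) (u - t • w)
    have hB : B (u + t • w) (u - t • w) = μ • u - (t ^ 2) • B w w := by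
      rw [map_add, map_smul, add_apply, smul_apply,
        map_sub, map_sub, map_smul, map_smul, huu, hc w u, smul_sub, smul_smul, pow_two]
      abel
    have hn1 : ‖u + t • w‖ ^ 2 = 1 + t ^ 2 * ‖w‖ ^ 2 := by
      rw [norm_add_sq_real, hu, inner_smul_right, hw, norm_smul, mul_pow, Real.norm_eq_abs, sq_abs]
      ring
    have hn2 : ‖u - t • w‖ ^ 2 = 1 + t ^ 2 * ‖w‖ ^ 2 := by
      rw [norm_sub_sq_real, hu, inner_smul_right, hw, norm_smul, mul_pow, Real.norm_eq_abs, sq_abs]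
      ring
    have hn3 : ‖B (u + t • w) (u - t • w)‖ ^ 2
        = μ ^ 2 - 2 * t ^ 2 * μ * ⟪B u w, w⟫ + t ^ 4 * ‖B w w‖ ^ 2 := by
      rw [hB, norm_sub_sq_real, norm_smul, norm_smul, hu, mul_one, inner_smul_left,
        inner_smul_right, conj_trivial]
      have : ⟪u, B w w⟫ = ⟪B u w, w⟫ := by
        rw [← hs w u w, hc w u]
      rw [this, Real.norm_eq_abs, Real.norm_eq_abs, mul_pow, sq_abs, sq_abs]
      ring
    have h3 : (μ * (‖u + t • w‖ * ‖u - t • w‖)) ^ 2 ≤ ‖B (u + t • w) (u - t • w)‖ ^ 2 :=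
      pow_le_pow_left₀ (by positivity) h2 2
    rw [mul_pow, mul_pow, hn1, hn2, hn3] at h3
    nlinarith
  have h4 := coef_nonneg_of_forall h1
  have h5 : 0 ≤ (2 * μ) * (-⟪B u w, w⟫ - μ * ‖w‖ ^ 2) := by nlinarith
  have h6 : 0 ≤ -⟪B u w, w⟫ - μ * ‖w‖ ^ 2 := by
    by_contra hcon
    push Not at hcon
    nlinarith [mul_neg_of_pos_of_neg (by linarith : (0 : ℝ) < 2 * μ) hcon]
  linarith

end Minimal

/-- If `B x` is symmetric, bounded below by `μ > 0`, and not negative definite on any subspace of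
codimension `≤ 1`, then it is positive definite on a two-dimensional subspace. -/
theorem pos_or_neg (T : E →L[ℝ] E) (hT : ∀ y z, ⟪T y, z⟫ = ⟪y, T z⟫) {μ : ℝ} (hμ0 : 0 < μ)
    (hμ : ∀ y, μ * ‖y‖ ≤ ‖T y‖) :
    (∃ V : Submodule ℝ E, 2 ≤ finrank ℝ V ∧ ∀ v ∈ V, v ≠ 0 → 0 < ⟪T v, v⟫) ∨
    (∃ V : Submodule ℝ E, finrank ℝ E ≤ finrank ℝ V + 1 ∧ ∀ v ∈ V, v ≠ 0 → ⟪T v, v⟫ < 0) := by
  classical
  have hsymm : (T : E →ₗ[ℝ] E).IsSymmetric := fun y z => hT y z
  let b := hsymm.eigenvectorBasis (n := finrank ℝ E) rfl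
  let ev := hsymm.eigenvalues (n := finrank ℝ E) rfl
  have hb : ∀ i, T (b i) = ev i • b i := fun i => by
    exact hsymm.apply_eigenvectorBasis (n := finrank ℝ E) rfl i
  have hne : ∀ i, ev i ≠ 0 := by
    intro i h0
    have h1 := hμ (b i)
    rw [hb i, h0, zero_smul, norm_zero, b.norm_eq_one] at h1
    linarith
  -- quadratic form in coordinates
  have hform : ∀ v : E, ⟪T v, v⟫ = ∑ i, ev i * (b.repr v i) ^ 2 := by
    intro v
    have h1 : T v = ∑ i, (ev i * b.repr v i) • b i := by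
      conv_lhs => rw [← b.sum_repr v]
      rw [map_sum]
      refine Finset.sum_congr rfl fun i _ => ?_
      rw [map_smul, hb i, smul_smul, mul_comm]
    rw [h1, sum_inner]
    refine Finset.sum_congr rfl fun i _ => ?_
    rw [inner_smul_left, conj_trivial, ← b.repr_apply_apply]
    ring
  by_cases h : ∃ i j, i ≠ j ∧ 0 < ev i ∧ 0 < ev j
  · left
    obtain ⟨i, j, hij, hi, hj⟩ := h
    have hli : LinearIndependent ℝ ![b i, b j] := by
      have := b.orthonormal.linearIndependent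
      have h2 := this.comp ![i, j] (by
        intro a c hac
        fin_cases a <;> fin_cases c <;> simp_all)
      have h3 : ![b i, b j] = b ∘ ![i, j] := by
        ext k
        fin_cases k <;> rfl
      rw [h3]
      exact h2
    refine ⟨Submodule.span ℝ (Set.range ![b i, b j]), ?_, ?_⟩
    · rw [finrank_span_eq_card hli]; simp
    · intro v hv hv0
      have hcoef : ∀ k, k ≠ i → k ≠ j → b.repr v k = 0 := by
        intro k hki hkj
        rw [b.repr_apply_apply]
        refine Submodule.span_induction (p := fun v _ => ⟪b k, v⟫ = 0) ?_ ?_ ?_ ?_ hv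
        · rintro x ⟨l, rfl⟩
          have h2 := b.orthonormal.2
          fin_cases l
          · exact h2 hki
          · exact h2 hkj
        · exact inner_zero_right _
        · intro x y _ _ hx hy; rw [inner_add_right, hx, hy, add_zero]
        · intro c x _ hx; rw [inner_smul_right, hx, mul_zero]
      have hnn : ∀ k, 0 ≤ ev k * (b.repr v k) ^ 2 := by
        intro k
        by_cases hki : k = i
        · subst hki; positivity
        by_cases hkj : k = j
        · subst hkj; positivity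
        rw [hcoef k hki hkj]; simp
      rw [hform]
      have hex : ∃ k, b.repr v k ≠ 0 := by
        by_contra hcon
        push Not at hcon
        apply hv0
        have : b.repr v = 0 := by ext k; simpa using hcon k
        simpa using this
      obtain ⟨k, hk⟩ := hex
      refine Finset.sum_pos' (fun k _ => hnn k) ⟨k, Finset.mem_univ _, ?_⟩
      have hkij : k = i ∨ k = j := by
        by_contra hcon
        push Not at hcon
        exact hk (hcoef k hcon.1 hcon.2)
      rcases hkij with rfl | rfl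
      · have : 0 < (b.repr v k) ^ 2 := by positivity
        positivity
      · have : 0 < (b.repr v k) ^ 2 := by positivity
        positivity
  · right
    push Not at h
    -- the functional vanishing on the negative part
    by_cases hp : ∃ i, 0 < ev i
    · obtain ⟨i, hi⟩ := hp
      refine ⟨(Submodule.span ℝ {b i})ᗮ, ?_, ?_⟩
      · have h1 := Submodule.finrank_add_finrank_orthogonal (Submodule.span ℝ {b i})
        have h2 : finrank ℝ (Submodule.span ℝ {b i}) ≤ 1 := by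
          have := finrank_span_le_card (R := ℝ) ({b i} : Set E)
          simpa using this
        omega
      · intro v hv hv0
        have hvi : b.repr v i = 0 := by
          rw [b.repr_apply_apply]
          exact Submodule.mem_orthogonal_singleton_iff_inner_right.1 hv
        have hneg : ∀ k, k ≠ i → ev k < 0 := by
          intro k hk
          rcases lt_or_gt_of_ne (hne k) with h' | h'
          · exact h'
          · exact absurd (h i k (Ne.symm hk) hi) (by linarith)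
        rw [hform]
        have hex : ∃ k, b.repr v k ≠ 0 := by
          by_contra hcon
          push Not at hcon
          apply hv0
          have : b.repr v = 0 := by ext k; simpa using hcon k
          simpa using this
        obtain ⟨k, hk⟩ := hex
        have hki : k ≠ i := by rintro rfl; exact hk hvi
        refine Finset.sum_neg' (fun l _ => ?_) ⟨k, Finset.mem_univ _, ?_⟩
        · by_cases hl : l = i
          · subst hl; rw [hvi]; simp
          · exact mul_nonpos_of_nonpos_of_nonneg (hneg l hl).le (sq_nonneg _)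
        · exact mul_neg_of_neg_of_pos (hneg k hki) (by positivity)
    · push Not at hp
      refine ⟨⊤, by simp, ?_⟩
      intro v _ hv0
      rw [hform]
      have hex : ∃ k, b.repr v k ≠ 0 := by
        by_contra hcon
        push Not at hcon
        apply hv0
        have : b.repr v = 0 := by ext k; simpa using hcon k
        simpa using this
      obtain ⟨k, hk⟩ := hex
      refine Finset.sum_neg' (fun l _ => ?_) ⟨k, Finset.mem_univ _, ?_⟩
      · exact mul_nonpos_of_nonpos_of_nonneg (hp l) (sq_nonneg _)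
      · exact mul_neg_of_neg_of_pos (lt_of_le_of_ne (hp k) (hne k)) (by positivity)

/-- **Hopf-type theorem, fully symmetric case.** A commutative bilinear product on a Euclidean space
of dimension `≥ 3` all of whose multiplication operators are self-adjoint has zero divisors. -/
theorem exists_bilin_zero (hE : 3 ≤ finrank ℝ E) (B : E →L[ℝ] E →L[ℝ] E)
    (hc : ∀ x y, B x y = B y x) (hs : ∀ x y z, ⟪B x y, z⟫ = ⟪y, B x z⟫) :
    ∃ x y : E, x ≠ 0 ∧ y ≠ 0 ∧ B x y = 0 := by
  classical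
  by_contra hcon
  push Not at hcon
  have hnt : Nontrivial E := by
    apply Module.nontrivial_of_finrank_pos (R := ℝ); omega
  have hSne : (Metric.sphere (0 : E) 1).Nonempty := by
    obtain ⟨v, hv⟩ := exists_ne (0 : E)
    exact ⟨‖v‖⁻¹ • v, by simpa using norm_inv_smul_self hv⟩
  have hcontB : Continuous fun p : E × E => B p.1 p.2 :=
    (B.continuous.comp continuous_fst).clm_apply continuous_snd
  obtain ⟨⟨x₀, y₀⟩, ⟨hx₀, hy₀⟩, hmin⟩ :=
    ((isCompact_sphere (0 : E) 1).prod (isCompact_sphere (0 : E) 1)).exists_isMinOn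
      (hSne.prod hSne) (f := fun p : E × E => ‖B p.1 p.2‖) hcontB.norm.continuousOn
  simp only [mem_sphere_iff_norm, sub_zero] at hx₀ hy₀
  set μ := ‖B x₀ y₀‖ with hμdef
  have hx₀0 : x₀ ≠ 0 := by rintro rfl; simp at hx₀
  have hy₀0 : y₀ ≠ 0 := by rintro rfl; simp at hy₀
  have hμ0 : 0 < μ := norm_pos_iff.2 (hcon x₀ y₀ hx₀0 hy₀0)
  have hμ : ∀ x y, μ * (‖x‖ * ‖y‖) ≤ ‖B x y‖ := by
    intro x y
    by_cases hx : x = 0
    · subst hx; simp
    by_cases hy : y = 0
    · subst hy; simp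
    have h1 : μ ≤ ‖B (‖x‖⁻¹ • x) (‖y‖⁻¹ • y)‖ := by
      have : ((‖x‖⁻¹ • x, ‖y‖⁻¹ • y) : E × E) ∈
          Metric.sphere (0 : E) 1 ×ˢ Metric.sphere (0 : E) 1 :=
        ⟨by simpa using norm_inv_smul_self hx, by simpa using norm_inv_smul_self hy⟩
      exact hmin this
    rw [map_smul, map_smul, smul_apply, norm_smul, norm_smul, norm_inv, norm_inv, norm_norm,
      norm_norm] at h1
    have hxp : 0 < ‖x‖ := norm_pos_iff.2 hx
    have hyp : 0 < ‖y‖ := norm_pos_iff.2 hy
    have h2 : μ * (‖x‖ * ‖y‖) ≤ (‖y‖⁻¹ * (‖x‖⁻¹ * ‖B x y‖)) * (‖x‖ * ‖y‖) :=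
      mul_le_mul_of_nonneg_right h1 (by positivity)
    have h3 : (‖y‖⁻¹ * (‖x‖⁻¹ * ‖B x y‖)) * (‖x‖ * ‖y‖) = ‖B x y‖ := by
      field_simp
    linarith
  obtain ⟨u, hu, huu⟩ := exists_idem B hc hs hμ hμ0 hx₀ hy₀ rfl
  -- the two open sets
  let P : Set E := ⋃ V : {V : Submodule ℝ E // 2 ≤ finrank ℝ V},
    {x : E | ∀ v ∈ V.1, v ≠ 0 → 0 < ⟪B x v, v⟫}
  let N : Set E := ⋃ V : {V : Submodule ℝ E // finrank ℝ E ≤ finrank ℝ V + 1},
    {x : E | ∀ v ∈ V.1, v ≠ 0 → 0 < ⟪B (-x) v, v⟫}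
  have hPo : IsOpen P := isOpen_iUnion fun V => isOpen_posOn B V.1
  have hNo : IsOpen N := isOpen_iUnion fun V =>
    (isOpen_posOn B V.1).preimage continuous_neg
  have hcov : Metric.sphere (0 : E) 1 ⊆ P ∪ N := by
    intro x hx
    have hx1 : ‖x‖ = 1 := by simpa using hx
    rcases pos_or_neg (B x) (hs x) hμ0 (fun y => by
      have := hμ x y; rwa [hx1, one_mul] at this) with ⟨V, hV, h⟩ | ⟨V, hV, h⟩
    · exact Or.inl (mem_iUnion.2 ⟨⟨V, hV⟩, h⟩)
    · refine Or.inr (mem_iUnion.2 ⟨⟨V, hV⟩, fun v hv hv0 => ?_⟩)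
      rw [map_neg, neg_apply, inner_neg_left]
      linarith [h v hv hv0]
  let W : Submodule ℝ E := (Submodule.span ℝ {u})ᗮ
  have hW : finrank ℝ E ≤ finrank ℝ W + 1 := by
    have h1 := Submodule.finrank_add_finrank_orthogonal (Submodule.span ℝ {u})
    have h2 : finrank ℝ (Submodule.span ℝ {u}) ≤ 1 := by
      have := finrank_span_le_card (R := ℝ) ({u} : Set E)
      simpa using this
    change finrank ℝ E ≤ finrank ℝ (Submodule.span ℝ {u})ᗮ + 1
    omega
  have hneg : ∀ v ∈ W, v ≠ 0 → ⟪B u v, v⟫ < 0 := by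
    intro v hv hv0
    have h1 : ⟪u, v⟫ = 0 := Submodule.mem_orthogonal_singleton_iff_inner_right.1 hv
    have h2 := second_order B hc hs hμ hμ0 hu huu h1
    have h3 : 0 < ‖v‖ ^ 2 := by positivity
    nlinarith
  have huN : u ∈ Metric.sphere (0 : E) 1 ∩ N := by
    refine ⟨by simpa using hu, mem_iUnion.2 ⟨⟨W, hW⟩, fun v hv hv0 => ?_⟩⟩
    rw [map_neg, neg_apply, inner_neg_left]
    linarith [hneg v hv hv0]
  have huP : -u ∈ Metric.sphere (0 : E) 1 ∩ P := by
    refine ⟨by simpa using hu, mem_iUnion.2 ⟨⟨W, by omega⟩, fun v hv hv0 => ?_⟩⟩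
    rw [map_neg, neg_apply, inner_neg_left]
    linarith [hneg v hv hv0]
  have hrank : 1 < Module.rank ℝ E := by
    rw [← finrank_eq_rank]
    exact_mod_cast (by omega : 1 < finrank ℝ E)
  have hpre := isPreconnected_sphere hrank (0 : E) 1
  obtain ⟨x, hxS, hxP, hxN⟩ := hpre P N hPo hNo hcov ⟨-u, huP⟩ ⟨u, huN⟩
  obtain ⟨⟨V, hV⟩, hVp⟩ := mem_iUnion.1 hxP
  obtain ⟨⟨V', hV'⟩, hVn⟩ := mem_iUnion.1 hxN
  simp only at hV hV' hVp hVn
  have hint : V ⊓ V' ≠ ⊥ := by
    intro h0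
    have h1 := Submodule.finrank_sup_add_finrank_inf_eq V V'
    rw [h0, finrank_bot] at h1
    have h2 : finrank ℝ (V ⊔ V' : Submodule ℝ E) ≤ finrank ℝ E := Submodule.finrank_le _
    omega
  obtain ⟨v, hv, hv0⟩ := Submodule.exists_mem_ne_zero_of_ne_bot hint
  have h1 := hVp v (Submodule.mem_inf.1 hv).1 hv0
  have h2 := hVn v (Submodule.mem_inf.1 hv).2 hv0
  rw [map_neg, neg_apply, inner_neg_left] at h2
  linarith

end Pool.Agent.SubTyp
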