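import Pool.Agent.SubTyp.Codim1
import Pool.Agent.SubTyp.Hopf

/-! Upper bounds for the rank in the codimension one case. -/

open MvPolynomial Module Set
open scoped ENNReal Topology LinearAlgebra.Projectivization

namespace Pool.Agent.SubTyp

theorem eq_zero_of_homog_one {m : ℕ} {p : MvPolynomial (Fin m) ℝ} (hp : p.IsHomogeneous 1)
    (h : ∀ i, coeff (Finsupp.single i 1) p = 0) : p = 0 := by
  ext d
  rw [coeff_zero]
  by_cases hd : d.degree = 1
  · obtain ⟨t, rfl⟩ := exists_expo_eq hd
    have : expo t = Finsupp.single (t 0) 1 := by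
      unfold expo; simp
    rw [this]
    exact h _
  · exact hp.coeff_eq_zero hd

theorem coeff_zero_dir {m : ℕ} (z : Fin m → ℝ) (p : MvPolynomial (Fin m) ℝ) :
    coeff 0 (dir z p) = ∑ i, z i * coeff (Finsupp.single i 1) p := by
  rw [dir_eq_sum, coeff_sum]
  refine Finset.sum_congr rfl fun i _ => ?_
  rw [coeff_C_mul, coeff_pderiv]
  simp

/-- the product on `ℝ^m` attached to a cubic form. -/
noncomputable def cubicB {m : ℕ} (g : MvPolynomial (Fin m) ℝ) :
    EuclideanSpace ℝ (Fin m) →ₗ[ℝ] EuclideanSpace ℝ (Fin m) →ₗ[ℝ] EuclideanSpace ℝ (Fin m) :=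
  LinearMap.mk₂ ℝ
    (fun x y => WithLp.toLp 2 fun i => coeff (Finsupp.single i 1)
      (dir (WithLp.ofLp x) (dir (WithLp.ofLp y) g)))
    (by
      intro x x' y
      ext i
      change coeff _ (dir (WithLp.ofLp x + WithLp.ofLp x') (dir (WithLp.ofLp y) g)) =
        coeff _ (dir (WithLp.ofLp x) (dir (WithLp.ofLp y) g)) +
        coeff _ (dir (WithLp.ofLp x') (dir (WithLp.ofLp y) g))
      rw [dir_add, coeff_add])
    (by
      intro c x y
      ext i
      change coeff _ (dir (c • WithLp.ofLp x) (dir (WithLp.ofLp y) g)) =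
        c • coeff _ (dir (WithLp.ofLp x) (dir (WithLp.ofLp y) g))
      rw [dir_smul, coeff_smul])
    (by
      intro x y y'
      ext i
      change coeff _ (dir (WithLp.ofLp x) (dir (WithLp.ofLp y + WithLp.ofLp y') g)) =
        coeff _ (dir (WithLp.ofLp x) (dir (WithLp.ofLp y) g)) +
        coeff _ (dir (WithLp.ofLp x) (dir (WithLp.ofLp y') g))
      rw [dir_add, map_add, coeff_add])
    (by
      intro c x y
      ext i
      change coeff _ (dir (WithLp.ofLp x) (dir (c • WithLp.ofLp y) g)) =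
        c • coeff _ (dir (WithLp.ofLp x) (dir (WithLp.ofLp y) g))
      rw [dir_smul, Derivation.map_smul, coeff_smul])

theorem cubicB_apply {m : ℕ} (g : MvPolynomial (Fin m) ℝ) (x y : EuclideanSpace ℝ (Fin m)) :
    cubicB g x y = WithLp.toLp 2 fun i => coeff (Finsupp.single i 1)
      (dir (WithLp.ofLp x) (dir (WithLp.ofLp y) g)) := rfl

theorem cubicB_inner {m : ℕ} (g : MvPolynomial (Fin m) ℝ) (x y z : EuclideanSpace ℝ (Fin m)) :
    inner ℝ (cubicB g x y) z
      = coeff 0 (dir (WithLp.ofLp z) (dir (WithLp.ofLp x) (dir (WithLp.ofLp y) g))) := by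
  rw [coeff_zero_dir, PiLp.inner_apply]
  refine Finset.sum_congr rfl fun i _ => ?_
  rw [cubicB_apply]
  simp

/-- **Hopf-type theorem for cubic forms**: a real cubic form in `m ≥ 3` variables is killed by a
product of two real directional derivatives. -/
theorem exists_two_kill {m : ℕ} (hm : 3 ≤ m) {g : MvPolynomial (Fin m) ℝ}
    (hg : g.IsHomogeneous 3) :
    ∃ x y : Fin m → ℝ, x ≠ 0 ∧ y ≠ 0 ∧ dir x (dir y g) = 0 := by
  classical
  let B : EuclideanSpace ℝ (Fin m) →L[ℝ] EuclideanSpace ℝ (Fin m) →L[ℝ]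
      EuclideanSpace ℝ (Fin m) := LinearMap.toContinuousLinearMap
    ((LinearMap.toContinuousLinearMap (𝕜 := ℝ) (E := EuclideanSpace ℝ (Fin m))
      (F' := EuclideanSpace ℝ (Fin m))).toLinearMap ∘ₗ cubicB g)
  have hB : ∀ x y, B x y = cubicB g x y := fun x y => rfl
  obtain ⟨x, y, hx, hy, hxy⟩ := exists_bilin_zero (E := EuclideanSpace ℝ (Fin m))
    (by simpa using hm) B
    (fun x y => by
      rw [hB, hB, cubicB_apply, cubicB_apply, dir_comm (WithLp.ofLp x) (WithLp.ofLp y)])
    (fun x y z => by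
      rw [hB, hB]
      have h1 := cubicB_inner g x y z
      have h2 := cubicB_inner g x z y
      have h3 : inner ℝ y (cubicB g x z) = inner ℝ (cubicB g x z) y := real_inner_comm _ _
      rw [h1, h3, h2, dir_comm (WithLp.ofLp x) (WithLp.ofLp y),
        dir_comm (WithLp.ofLp z) (WithLp.ofLp y), dir_comm (WithLp.ofLp z) (WithLp.ofLp x)])
  refine ⟨WithLp.ofLp x, WithLp.ofLp y, ?_, ?_, ?_⟩
  · intro h; apply hx; ext i; exact congrFun h i
  · intro h; apply hy; ext i; exact congrFun h i
  · refine eq_zero_of_homog_one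
      (by simpa using dir_homog (dir_homog hg (WithLp.ofLp y)) (WithLp.ofLp x)) fun i => ?_
    rw [hB, cubicB_apply] at hxy
    have := congrArg (fun v : EuclideanSpace ℝ (Fin m) => v i) hxy
    simpa using this

end Pool.Agent.SubTyp
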