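import Mathlib

/-!
# Ranks with respect to subspace varieties: definitions

* `InSpanOf Y p s`: the point `p` of the projective space lies in the linear span of `s` points of `Y`.
* `HasRank Y p d`: the `Y`-rank of `p` is `d`.
* `IsTypicalRank Y d`: the set of points of `Y`-rank `d` has non-empty interior in the Euclidean
  topology of the real projective space.
* `Ten m`: the tensor space `V₁ ⊗ ⋯ ⊗ Vₙ`, `Vᵢ = ℝ^{mᵢ}`, in coordinates.
* `boxT A`: the subspace `A₁ ⊗ ⋯ ⊗ Aₙ`.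
* `SubVar m r`: the subspace variety `Sub_{r₁,…,rₙ}(V₁ ⊗ ⋯ ⊗ Vₙ)`.
* `SymT n m`: the symmetric tensors `SⁿV ⊆ V^{⊗n}`, `V = ℝ^m`.
* `SymSubVar n m r`: the symmetric subspace variety `Sub_r(SⁿV)`.
-/

open Module
open scoped LinearAlgebra.Projectivization

namespace Pool.Agent.SubTyp

section General

variable {W : Type*} [AddCommGroup W] [Module ℝ W]

/-- `p` lies in the linear span of `s` points of `Y`. -/
def InSpanOf (Y : Set (ℙ ℝ W)) (p : ℙ ℝ W) (s : ℕ) : Prop :=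
  ∃ y : Fin s → ℙ ℝ W, (∀ j, y j ∈ Y) ∧ p.submodule ≤ ⨆ j, (y j).submodule

/-- `R_Y(p) = d`: `d` is the least number of points of `Y` whose linear span contains `p`. -/
def HasRank (Y : Set (ℙ ℝ W)) (p : ℙ ℝ W) (d : ℕ) : Prop := IsLeast {s | InSpanOf Y p s} d

/-- The open subsets of the real projective space `ℙ W`: those whose preimage in `W ∖ {0}` is
open (quotient topology). -/
def IsOpenProj [TopologicalSpace W] (U : Set (ℙ ℝ W)) : Prop :=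
  IsOpen {v : {v : W // v ≠ 0} | Projectivization.mk' ℝ v ∈ U}

/-- `d` is a typical `Y`-rank: the set `{p ∈ ℙ W : R_Y(p) = d}` has non-empty interior. -/
def IsTypicalRank [TopologicalSpace W] (Y : Set (ℙ ℝ W)) (d : ℕ) : Prop :=
  ∃ U : Set (ℙ ℝ W), IsOpenProj U ∧ U.Nonempty ∧ ∀ p ∈ U, HasRank Y p d

end General

/-- The tensor space `V₁ ⊗ ⋯ ⊗ Vₙ` with `Vᵢ = ℝ^{mᵢ}`, in coordinates. -/
abbrev Ten {n : ℕ} (m : Fin n → ℕ) : Type := ((i : Fin n) → Fin (m i)) → ℝ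

/-- The decomposable tensor `v₁ ⊗ ⋯ ⊗ vₙ`. -/
def pureT {n : ℕ} {m : Fin n → ℕ} (v : (i : Fin n) → Fin (m i) → ℝ) : Ten m :=
  fun t => ∏ i, v i (t i)

/-- The subspace `A₁ ⊗ ⋯ ⊗ Aₙ` of `V₁ ⊗ ⋯ ⊗ Vₙ`. -/
def boxT {n : ℕ} {m : Fin n → ℕ} (A : (i : Fin n) → Submodule ℝ (Fin (m i) → ℝ)) :
    Submodule ℝ (Ten m) :=
  Submodule.span ℝ {T | ∃ v : (i : Fin n) → Fin (m i) → ℝ, (∀ i, v i ∈ A i) ∧ T = pureT v}

/-- The subspace variety `Sub_{r₁,…,rₙ}(V₁ ⊗ ⋯ ⊗ Vₙ)`. -/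
def SubVar {n : ℕ} (m r : Fin n → ℕ) : Set (ℙ ℝ (Ten m)) :=
  {p | ∃ A : (i : Fin n) → Submodule ℝ (Fin (m i) → ℝ),
    (∀ i, finrank ℝ (A i) = r i) ∧ p.submodule ≤ boxT A}

/-- The symmetric tensors `SⁿV ⊆ V^{⊗n}`, `V = ℝ^m`. -/
def SymT (n m : ℕ) : Submodule ℝ (Ten fun _ : Fin n => m) where
  carrier := {T | ∀ (σ : Equiv.Perm (Fin n)) (t : Fin n → Fin m), T (t ∘ σ) = T t}
  add_mem' := fun {a b} ha hb σ t => by simp only [Pi.add_apply]; rw [ha σ t, hb σ t]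
  zero_mem' := fun _ _ => rfl
  smul_mem' := fun c T hT σ t => by simp only [Pi.smul_apply]; rw [hT σ t]

/-- The symmetric subspace variety `Sub_r(SⁿV)`, `V = ℝ^m`: the classes of the symmetric tensors
lying in `SⁿA = SⁿV ∩ A^{⊗n}` for some `r`-dimensional subspace `A ⊆ V`. -/
def SymSubVar (n m r : ℕ) : Set (ℙ ℝ (SymT n m)) :=
  {p | ∃ A : Submodule ℝ (Fin m → ℝ), finrank ℝ A = r ∧
    p.submodule ≤ (boxT fun _ : Fin n => A).comap (SymT n m).subtype}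

end Pool.Agent.SubTyp
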