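import Mathlib

open Set Module TopologicalSpace
open scoped Topology ENNReal

namespace Pool.Agent.SubTyp

/-- Local form: near a point `x₀` where `F x₀` is onto, the union of the kernels of the `F x` has
Hausdorff dimension at most `dim X + dim W - dim Z`. -/
theorem exists_nhds_dimH_le
    {X W Z : Type*} [NormedAddCommGroup X] [NormedSpace ℝ X] [FiniteDimensional ℝ X]
    [NormedAddCommGroup W] [NormedSpace ℝ W] [FiniteDimensional ℝ W]
    [NormedAddCommGroup Z] [NormedSpace ℝ Z] [FiniteDimensional ℝ Z]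
    (F : X → W →L[ℝ] Z) (hF : ContDiff ℝ 1 F) (x₀ : X) (hx₀ : Function.Surjective (F x₀)) :
    ∃ U ∈ 𝓝 x₀, dimH {w : W | ∃ x ∈ U, F x w = 0} ≤
      ((finrank ℝ X + (finrank ℝ W - finrank ℝ Z) : ℕ) : ℝ≥0∞) := by
  classical
  have : CompleteSpace Z := FiniteDimensional.complete ℝ Z
  -- right inverse
  obtain ⟨R₀, hR₀⟩ := (F x₀).toLinearMap.exists_rightInverse_of_surjective
    (LinearMap.range_eq_top.2 hx₀)
  let R : Z →L[ℝ] W := LinearMap.toContinuousLinearMap R₀
  have hR : ∀ z, F x₀ (R z) = z := fun z => by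
    have h : F x₀ (R₀ z) = z := by simpa using LinearMap.congr_fun hR₀ z
    exact h
  let G : X → Z →L[ℝ] Z := fun x => (F x).comp R
  have hG : ContDiff ℝ 1 G := hF.clm_comp contDiff_const
  have hG0 : G x₀ = (ContinuousLinearEquiv.refl ℝ Z : Z →L[ℝ] Z) := by
    ext z; simp [G, hR]
  let I : X → Z →L[ℝ] Z := fun x => ContinuousLinearMap.inverse (G x)
  have hI : ContDiffAt ℝ 1 I x₀ := by
    have h1 : ContDiffAt ℝ 1 (ContinuousLinearMap.inverse : (Z →L[ℝ] Z) → (Z →L[ℝ] Z)) (G x₀) := by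
      rw [hG0]; exact contDiffAt_map_inverse _
    exact h1.comp x₀ hG.contDiffAt
  -- neighbourhood where G x is invertible and I is C¹
  have hinv : ∀ᶠ x in 𝓝 x₀, (G x).IsInvertible := by
    have : {f : Z →L[ℝ] Z | f.IsInvertible} ∈ 𝓝 (G x₀) := by
      rw [hG0]
      have := ContinuousLinearEquiv.nhds (ContinuousLinearEquiv.refl ℝ Z)
      refine Filter.mem_of_superset this ?_
      rintro f ⟨e, rfl⟩
      exact ⟨e, rfl⟩
    exact hG.continuous.continuousAt this
  have hIev : ∀ᶠ x in 𝓝 x₀, ContDiffAt ℝ 1 I x := hI.eventually (by simp)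
  obtain ⟨ε, hε, hball⟩ := Metric.eventually_nhds_iff_ball.1 (hinv.and hIev)
  refine ⟨Metric.ball x₀ ε, Metric.ball_mem_nhds _ hε, ?_⟩
  let K : Submodule ℝ W := LinearMap.ker (F x₀).toLinearMap
  have hKdim : finrank ℝ K = finrank ℝ W - finrank ℝ Z := by
    have h1 := LinearMap.finrank_range_add_finrank_ker (F x₀).toLinearMap
    have h2 : finrank ℝ (LinearMap.range (F x₀).toLinearMap) = finrank ℝ Z := by
      rw [LinearMap.range_eq_top.2 hx₀, finrank_top]
    have h3 : finrank ℝ (LinearMap.ker (F x₀).toLinearMap) = finrank ℝ K := rfl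
    omega
  let Φ : X × K → W := fun p => (p.2 : W) - R (I p.1 (F p.1 (p.2 : W)))
  have hΦ : ContDiffOn ℝ 1 Φ (Metric.ball x₀ ε ×ˢ univ) := by
    intro p hp
    refine ContDiffAt.contDiffWithinAt ?_
    have hp1 : ContDiffAt ℝ 1 I p.1 := (hball p.1 hp.1).2
    have h1 : ContDiffAt ℝ 1 (fun p : X × K => I p.1) p := hp1.comp p contDiffAt_fst
    have h2 : ContDiffAt ℝ 1 (fun p : X × K => F p.1) p := hF.contDiffAt.comp p contDiffAt_fst
    have h3 : ContDiffAt ℝ 1 (fun p : X × K => (p.2 : W)) p :=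
      (K.subtypeL.contDiff.contDiffAt).comp p contDiffAt_snd
    have h4 : ContDiffAt ℝ 1 (fun p : X × K => F p.1 (p.2 : W)) p := h2.clm_apply h3
    have h5 : ContDiffAt ℝ 1 (fun p : X × K => I p.1 (F p.1 (p.2 : W))) p := h1.clm_apply h4
    exact h3.sub (R.contDiff.contDiffAt.comp p h5)
  have hsub : {w : W | ∃ x ∈ Metric.ball x₀ ε, F x w = 0} ⊆ Φ '' (Metric.ball x₀ ε ×ˢ univ) := by
    rintro w ⟨x, hx, hw⟩
    have hk : w - R (F x₀ w) ∈ K := by
      change (F x₀) (w - R (F x₀ w)) = 0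
      rw [map_sub, hR, sub_self]
    refine ⟨(x, ⟨w - R (F x₀ w), hk⟩), ⟨hx, mem_univ _⟩, ?_⟩
    have hxinv := (hball x hx).1
    have h1 : F x (w - R (F x₀ w)) = - G x (F x₀ w) := by
      rw [map_sub, hw, zero_sub]; rfl
    simp only [Φ]
    rw [h1, map_neg]
    have h2 : I x (G x (F x₀ w)) = F x₀ w := by
      have := hxinv.inverse_comp_self
      exact DFunLike.congr_fun this (F x₀ w)
    rw [h2, map_neg]
    simp
  calc dimH {w : W | ∃ x ∈ Metric.ball x₀ ε, F x w = 0}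
      ≤ dimH (Φ '' (Metric.ball x₀ ε ×ˢ univ)) := dimH_mono hsub
    _ ≤ dimH (Metric.ball x₀ ε ×ˢ (univ : Set K)) :=
        hΦ.dimH_image_le ((convex_ball x₀ ε).prod convex_univ) Subset.rfl
    _ ≤ dimH (univ : Set (X × K)) := dimH_mono (subset_univ _)
    _ = finrank ℝ (X × K) := Real.dimH_univ_eq_finrank _
    _ = ((finrank ℝ X + (finrank ℝ W - finrank ℝ Z) : ℕ) : ℝ≥0∞) := by
        rw [finrank_prod, hKdim]

/-- **Dimension lemma.** If `F x : W → Z` depends in a `C¹` way on `x ∈ X`, then the set of `w` killed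
by some surjective `F x` has Hausdorff dimension at most `dim X + dim W - dim Z`. -/
theorem dimH_incidence_le
    {X W Z : Type*} [NormedAddCommGroup X] [NormedSpace ℝ X] [FiniteDimensional ℝ X]
    [NormedAddCommGroup W] [NormedSpace ℝ W] [FiniteDimensional ℝ W]
    [NormedAddCommGroup Z] [NormedSpace ℝ Z] [FiniteDimensional ℝ Z]
    (F : X → W →L[ℝ] Z) (hF : ContDiff ℝ 1 F) :
    dimH {w : W | ∃ x, Function.Surjective (F x) ∧ F x w = 0} ≤
      ((finrank ℝ X + (finrank ℝ W - finrank ℝ Z) : ℕ) : ℝ≥0∞) := by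
  classical
  have : SecondCountableTopology X := inferInstance
  choose! U hU hdim using fun x₀ (hx₀ : Function.Surjective (F x₀)) =>
    exists_nhds_dimH_le F hF x₀ hx₀
  obtain ⟨t, hts, htc, hcov⟩ := countable_cover_nhdsWithin
    (s := {x | Function.Surjective (F x)}) (f := U)
    (fun x hx => mem_nhdsWithin_of_mem_nhds (hU x hx))
  have hsub : {w : W | ∃ x, Function.Surjective (F x) ∧ F x w = 0} ⊆
      ⋃ x₀ ∈ t, {w : W | ∃ x ∈ U x₀, F x w = 0} := by
    rintro w ⟨x, hx, hw⟩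
    obtain ⟨x₀, hx₀, hxU⟩ := mem_iUnion₂.1 (hcov hx)
    exact mem_iUnion₂.2 ⟨x₀, hx₀, x, hxU, hw⟩
  refine (dimH_mono hsub).trans ?_
  rw [dimH_bUnion htc]
  exact iSup₂_le fun x₀ hx₀ => hdim x₀ (hts hx₀)

end Pool.Agent.SubTyp
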