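import Pool.Agent.SubTyp.PenDefs

/-!
# Cyclic endomorphisms and splitting of pencils
-/

open Module Submodule Polynomial

namespace Pool.Agent.SubTyp

variable {m : ℕ}

/-- `v, M v, …, M^{m-1} v` are linearly independent. -/
def Cyc (M : End ℝ (Fin m → ℝ)) (v : Fin m → ℝ) : Prop :=
  LinearIndependent ℝ fun i : Fin m => (M ^ (i : ℕ)) v

theorem aeval_apply_eq_sum {M : End ℝ (Fin m → ℝ)} {v : Fin m → ℝ} {s : ℝ[X]} {n : ℕ}
    (hs : s.natDegree < n) : aeval M s v = ∑ i : Fin n, s.coeff i • (M ^ (i : ℕ)) v := by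
  rw [aeval_eq_sum_range' hs, LinearMap.sum_apply, Finset.sum_range]
  rfl

theorem Cyc.eq_zero {M : End ℝ (Fin m → ℝ)} {v : Fin m → ℝ} (h : Cyc M v) {s : ℝ[X]}
    (hs : s.degree < m) (h0 : aeval M s v = 0) : s = 0 := by
  by_contra hne
  have hs' : s.natDegree < m := (natDegree_lt_iff_degree_lt hne).2 hs
  rw [aeval_apply_eq_sum hs'] at h0
  have h1 := (Fintype.linearIndependent_iff.1 h) _ h0
  apply hne
  ext i
  rw [coeff_zero]
  by_cases hi : i < m
  · exact h1 ⟨i, hi⟩
  · exact coeff_eq_zero_of_natDegree_lt (by omega)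

theorem finrank_degreeLT (n : ℕ) : finrank ℝ (degreeLT ℝ n) = n := by
  rw [LinearEquiv.finrank_eq (degreeLTEquiv ℝ n), finrank_pi, Fintype.card_fin]

theorem Cyc.finrank_ker_le {M : End ℝ (Fin m → ℝ)} {v : Fin m → ℝ} (h : Cyc M v) {q : ℝ[X]}
    (hq : q ≠ 0) : finrank ℝ (LinearMap.ker (aeval M q)) ≤ q.natDegree := by
  rcases Nat.lt_or_ge m q.natDegree with hd | hd
  · have := Submodule.finrank_le (LinearMap.ker (aeval M q))
    rw [finrank_pi, Fintype.card_fin] at this
    omega
  · -- the map `r ↦ (q r)(M) v`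
    let φ : degreeLT ℝ (m - q.natDegree) →ₗ[ℝ] (Fin m → ℝ) :=
      { toFun := fun r => aeval M q (aeval M (r : ℝ[X]) v)
        map_add' := fun r s => by
          rw [Submodule.coe_add, map_add, LinearMap.add_apply, map_add]
        map_smul' := fun c r => by
          rw [Submodule.coe_smul, map_smul, LinearMap.smul_apply, map_smul, RingHom.id_apply] }
    have hinj : Function.Injective φ := by
      rw [injective_iff_map_eq_zero]
      intro r hr
      have h1 : aeval M (q * (r : ℝ[X])) v = 0 := by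
        rw [map_mul]
        exact hr
      have h2 : (q * (r : ℝ[X])).degree < m := by
        by_cases hr0 : (r : ℝ[X]) = 0
        · rw [hr0, mul_zero, degree_zero]
          exact WithBot.bot_lt_coe _
        · have h3 := mem_degreeLT.1 r.2
          rw [← natDegree_lt_iff_degree_lt hr0] at h3
          rw [← natDegree_lt_iff_degree_lt (mul_ne_zero hq hr0), natDegree_mul hq hr0]
          omega
      have h3 := h.eq_zero h2 h1
      rcases mul_eq_zero.1 h3 with h4 | h4
      · exact absurd h4 hq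
      · exact Subtype.ext h4
    have h1 : LinearMap.range φ ≤ LinearMap.range (aeval M q) := by
      rintro _ ⟨r, rfl⟩
      exact ⟨_, rfl⟩
    have h2 := Submodule.finrank_mono h1
    rw [LinearMap.finrank_range_of_inj hinj, finrank_degreeLT] at h2
    have h3 := LinearMap.finrank_range_add_finrank_ker (aeval M q)
    rw [finrank_pi, Fintype.card_fin] at h3
    omega

/-- **Changing the last column.** -/
theorem Cyc.modify {n : ℕ} {M : End ℝ (Fin (n + 1) → ℝ)} {v : Fin (n + 1) → ℝ} (h : Cyc M v) :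
    ∃ g : (Fin (n + 1) → ℝ) →ₗ[ℝ] ℝ, ∀ p : ℝ[X], p.Monic → p.natDegree = n + 1 →
      ∀ u : Fin (n + 1) → ℝ, u = (M ^ (n + 1)) v + ∑ i : Fin (n + 1), p.coeff i • (M ^ (i : ℕ)) v →
        Cyc (M - g.smulRight u) v ∧ aeval (M - g.smulRight u) p = 0 := by
  have h' : LinearIndependent ℝ fun i : Fin (n + 1) => (M ^ (i : ℕ)) v := h
  have hcard : Fintype.card (Fin (n + 1)) = finrank ℝ (Fin (n + 1) → ℝ) := by rw [finrank_pi]
  let b : Basis (Fin (n + 1)) ℝ (Fin (n + 1) → ℝ) :=
    basisOfLinearIndependentOfCardEqFinrank h' hcard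
  have hb : ∀ i, b i = (M ^ (i : ℕ)) v := fun i =>
    congrFun (coe_basisOfLinearIndependentOfCardEqFinrank h' hcard) i
  refine ⟨b.coord (Fin.last n), fun p hp hd u hu => ?_⟩
  set M' := M - (b.coord (Fin.last n)).smulRight u with hM'
  -- the powers applied to `v`
  have hstep : ∀ i : Fin (n + 1), M' ((M ^ (i : ℕ)) v) =
      (M ^ ((i : ℕ) + 1)) v - (if i = Fin.last n then u else 0) := by
    intro i
    rw [hM', LinearMap.sub_apply, LinearMap.smulRight_apply, ← hb i, Basis.coord_apply,
      Basis.repr_self, Finsupp.single_apply, hb i, pow_succ', Module.End.mul_apply]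
    split_ifs with h1
    · rw [one_smul]
    · rw [zero_smul]
  have hpow : ∀ i : ℕ, i ≤ n → (M' ^ i) v = (M ^ i) v := by
    intro i
    induction i with
    | zero =>
      intro _
      rfl
    | succ i ih =>
      intro hi
      rw [pow_succ', Module.End.mul_apply, ih (by omega), hstep ⟨i, by omega⟩, if_neg, sub_zero]
      intro hcon
      have := congrArg Fin.val hcon
      simp only [Fin.val_last] at this
      omega
  have hlast : (M' ^ (n + 1)) v = (M ^ (n + 1)) v - u := by
    rw [pow_succ', Module.End.mul_apply, hpow n le_rfl]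
    have := hstep (Fin.last n)
    rw [if_pos rfl] at this
    exact this
  have hv : aeval M' p v = 0 := by
    rw [aeval_apply_eq_sum (n := n + 2) (by omega), Fin.sum_univ_castSucc]
    have e1 : p.coeff ((Fin.last (n + 1) : Fin (n + 2)) : ℕ) = 1 := by
      rw [Fin.val_last, ← hd]
      exact hp
    rw [e1, one_smul, Fin.val_last, hlast, hu]
    have e2 : ∑ i : Fin (n + 1), p.coeff (i.castSucc : ℕ) • (M' ^ (i.castSucc : ℕ)) v =
        ∑ i : Fin (n + 1), p.coeff (i : ℕ) • (M ^ (i : ℕ)) v :=
      Finset.sum_congr rfl fun i _ => by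
        rw [Fin.val_castSucc, hpow i (by omega)]
    rw [e2]
    abel
  have hcyc : Cyc M' v := by
    have : (fun i : Fin (n + 1) => (M' ^ (i : ℕ)) v) = fun i : Fin (n + 1) => (M ^ (i : ℕ)) v := by
      funext i
      exact hpow i (by omega)
    unfold Cyc
    rw [this]
    exact h
  refine ⟨hcyc, ?_⟩
  refine b.ext fun i => ?_
  rw [hb i, ← hpow i (by omega), LinearMap.zero_apply, ← Module.End.mul_apply]
  have : aeval M' p * M' ^ (i : ℕ) = M' ^ (i : ℕ) * aeval M' p := by
    have e1 : M' ^ (i : ℕ) = aeval M' (X ^ (i : ℕ) : ℝ[X]) := by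
      rw [map_pow, aeval_X]
    rw [e1, ← map_mul, ← map_mul, mul_comm]
  rw [this, Module.End.mul_apply, hv, map_zero]

/-- **Splitting along coprime factors.** -/
theorem split {ι : Type*} [DecidableEq ι] (s : Finset ι) (q : ι → ℝ[X]) {M T : End ℝ (Fin m → ℝ)}
    (hco : (s : Set ι).Pairwise fun i j => IsCoprime (q i) (q j)) (hs : s.Nonempty)
    (h0 : aeval M (∏ i ∈ s, q i) = 0) {d : ι → ℕ}
    (hd : ∀ i ∈ s, finrank ℝ (LinearMap.ker (aeval M (q i))) ≤ d i) :
    ∃ X : ι → Pen m, (∀ i ∈ s, Sup (d i) (d i) (X i)) ∧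
      (![T, T ∘ₗ M] : Pen m) = ∑ i ∈ s, X i := by
  obtain ⟨μ, hμ⟩ := (exists_sum_eq_one_iff_pairwise_coprime hs).2 (by
    intro i j hij
    exact hco i.2 j.2 fun h => hij (Subtype.ext h))
  -- the projections
  let E : ι → End ℝ (Fin m → ℝ) := fun i => aeval M (μ i * ∏ j ∈ s \ {i}, q j)
  have hE : ∑ i ∈ s, E i = 1 := by
    have e1 : (1 : End ℝ (Fin m → ℝ)) = aeval M (1 : ℝ[X]) := by rw [map_one]
    rw [e1, ← hμ, map_sum]
  have hcomm : ∀ i, M * E i = E i * M := by
    intro i
    have e1 : ∀ r : ℝ[X], M * aeval M r = aeval M r * M := by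
      intro r
      have e2 : aeval M (X * r) = aeval M (r * X) := by rw [mul_comm]
      rwa [map_mul, map_mul, aeval_X] at e2
    exact e1 _
  have hker : ∀ i ∈ s, ∀ x, E i x ∈ LinearMap.ker (aeval M (q i)) := by
    intro i hi x
    rw [LinearMap.mem_ker, ← Module.End.mul_apply]
    have e1 : aeval M (q i) * E i = 0 := by
      change aeval M (q i) * aeval M _ = 0
      rw [← map_mul]
      have e2 : q i * (μ i * ∏ j ∈ s \ {i}, q j) = μ i * ∏ j ∈ s, q j := by
        rw [← Finset.mul_prod_erase s q hi, Finset.sdiff_singleton_eq_erase]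
        ring
      rw [e2, map_mul, h0, mul_zero]
    rw [e1, LinearMap.zero_apply]
  refine ⟨fun i => ![T ∘ₗ E i, T ∘ₗ M ∘ₗ E i], fun i hi => ?_, ?_⟩
  · refine ⟨(LinearMap.ker (aeval M (q i))).map T, LinearMap.ker (E i),
      (Submodule.finrank_map_le _ _).trans (hd i hi), ?_, ?_⟩
    · have h1 := LinearMap.finrank_range_add_finrank_ker (E i)
      rw [finrank_pi, Fintype.card_fin] at h1
      have h2 : LinearMap.range (E i) ≤ LinearMap.ker (aeval M (q i)) := by
        rintro _ ⟨x, rfl⟩
        exact hker i hi x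
      have h3 := Submodule.finrank_mono h2
      have h4 := hd i hi
      omega
    · intro k
      have hk : k = 0 ∨ k = 1 := by
        fin_cases k
        · exact Or.inl rfl
        · exact Or.inr rfl
      rcases hk with rfl | rfl
      · refine ⟨fun x => ⟨E i x, hker i hi x, rfl⟩, fun x hx => ?_⟩
        change T (E i x) = 0
        rw [LinearMap.mem_ker.1 hx, map_zero]
      · refine ⟨fun x => ⟨M (E i x), ?_, rfl⟩, fun x hx => ?_⟩
        · have : M (E i x) = E i (M x) := by
            rw [← Module.End.mul_apply, hcomm, Module.End.mul_apply]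
          rw [this]
          exact hker i hi _
        · change T (M (E i x)) = 0
          rw [LinearMap.mem_ker.1 hx, map_zero, map_zero]
  · funext k
    rw [Finset.sum_apply]
    have hk : k = 0 ∨ k = 1 := by
      fin_cases k
      · exact Or.inl rfl
      · exact Or.inr rfl
    rcases hk with rfl | rfl
    · change T = ∑ i ∈ s, T * E i
      rw [← Finset.mul_sum, hE, mul_one]
    · change T * M = ∑ i ∈ s, T * (M * E i)
      rw [← Finset.mul_sum, ← Finset.mul_sum, hE, mul_one]

end Pool.Agent.SubTyp
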