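import Mathlib

/-!
# Pencils and their decompositions

A pencil is a pair of endomorphisms of `ℝ^m`. `Sup a b X`: the pencil `X` has its image in a
subspace of dimension at most `a`, and vanishes on a subspace of codimension at most `b`.
`PR a b s T`: the pencil `T` is the sum of `s` such pencils.
-/

open Module Submodule

namespace Pool.Agent.SubTyp

/-- Pairs of endomorphisms of `ℝ^m`. -/
abbrev Pen (m : ℕ) : Type := Fin 2 → ((Fin m → ℝ) →ₗ[ℝ] (Fin m → ℝ))

variable {m : ℕ}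

/-- The pencil lives in a subspace of dimension `a` and a quotient of dimension `b`. -/
def Sup (a b : ℕ) (X : Pen m) : Prop :=
  ∃ A N : Submodule ℝ (Fin m → ℝ), finrank ℝ A ≤ a ∧ m ≤ finrank ℝ N + b ∧
    ∀ k, (∀ x, X k x ∈ A) ∧ ∀ x ∈ N, X k x = 0

/-- The pencil is the sum of `s` pencils of size `(a, b)`. -/
def PR (a b s : ℕ) (T : Pen m) : Prop :=
  ∃ X : Fin s → Pen m, (∀ j, Sup a b (X j)) ∧ T = ∑ j, X j

theorem Sup.mono {a b a' b' : ℕ} {X : Pen m} (h : Sup a b X) (ha : a ≤ a') (hb : b ≤ b') :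
    Sup a' b' X := by
  obtain ⟨A, N, h1, h2, h3⟩ := h
  exact ⟨A, N, h1.trans ha, by omega, h3⟩

theorem Sup.zero (a b : ℕ) : Sup a b (0 : Pen m) := by
  refine ⟨⊥, ⊤, ?_, ?_, fun k => ⟨fun x => ?_, fun x _ => rfl⟩⟩
  · rw [finrank_bot]
    exact Nat.zero_le a
  · rw [finrank_top, finrank_pi, Fintype.card_fin]
    exact Nat.le_add_right m b
  · exact Submodule.zero_mem _

theorem Sup.add {a b a' b' : ℕ} {X Y : Pen m} (h : Sup a b X) (h' : Sup a' b' Y) :
    Sup (a + a') (b + b') (X + Y) := by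
  obtain ⟨A, N, h1, h2, h3⟩ := h
  obtain ⟨A', N', h1', h2', h3'⟩ := h'
  refine ⟨A ⊔ A', N ⊓ N', ?_, ?_, fun k => ⟨fun x => ?_, fun x hx => ?_⟩⟩
  · have := Submodule.finrank_add_le_finrank_add_finrank A A'
    omega
  · have e1 := Submodule.finrank_sup_add_finrank_inf_eq N N'
    have e2 := Submodule.finrank_le (N ⊔ N')
    rw [finrank_pi, Fintype.card_fin] at e2
    omega
  · exact Submodule.add_mem_sup ((h3 k).1 x) ((h3' k).1 x)
  · change X k x + Y k x = 0
    rw [(h3 k).2 x hx.1, (h3' k).2 x hx.2, add_zero]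

theorem PR.mono {a b a' b' s : ℕ} {T : Pen m} (h : PR a b s T) (ha : a ≤ a') (hb : b ≤ b') :
    PR a' b' s T := by
  obtain ⟨X, h1, h2⟩ := h
  exact ⟨X, fun j => (h1 j).mono ha hb, h2⟩

theorem PR.nil (a b : ℕ) : PR a b 0 (0 : Pen m) :=
  ⟨Fin.elim0, fun j => j.elim0, by simp⟩

theorem PR.single {a b : ℕ} {X : Pen m} (h : Sup a b X) : PR a b 1 X :=
  ⟨fun _ => X, fun _ => h, by simp⟩

theorem PR.add {a b s t : ℕ} {T U : Pen m} (h : PR a b s T) (h' : PR a b t U) :
    PR a b (s + t) (T + U) := by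
  obtain ⟨X, h1, h2⟩ := h
  obtain ⟨Y, h1', h2'⟩ := h'
  refine ⟨Fin.append X Y, ?_, ?_⟩
  · intro j
    refine Fin.addCases (fun i => ?_) (fun i => ?_) j
    · rw [Fin.append_left]
      exact h1 i
    · rw [Fin.append_right]
      exact h1' i
  · rw [Fin.sum_univ_add, h2, h2']
    simp only [Fin.append_left, Fin.append_right]

theorem PR.le {a b s t : ℕ} {T : Pen m} (h : PR a b s T) (hst : s ≤ t) : PR a b t T := by
  induction hst with
  | refl => exact h
  | step _ ih =>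
    have := ih.add (PR.single (Sup.zero (m := m) a b))
    rwa [add_zero] at this

theorem PR.succ_iff {a b s : ℕ} {T : Pen m} :
    PR a b (s + 1) T ↔ ∃ X U, Sup a b X ∧ PR a b s U ∧ T = X + U := by
  constructor
  · rintro ⟨X, h1, h2⟩
    refine ⟨X 0, ∑ j : Fin s, X j.succ, h1 0, ⟨fun j => X j.succ, fun j => h1 _, rfl⟩, ?_⟩
    rw [h2, Fin.sum_univ_succ]
  · rintro ⟨X, U, h1, h2, rfl⟩
    rw [add_comm X U]
    exact h2.add (PR.single h1)

theorem PR.sup {s : ℕ} {T : Pen m} (h : PR 1 1 s T) : Sup s s T := by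
  induction s generalizing T with
  | zero =>
    obtain ⟨X, -, h2⟩ := h
    rw [h2]
    simp only [Finset.univ_eq_empty, Finset.sum_empty]
    exact Sup.zero 0 0
  | succ s ih =>
    obtain ⟨X, U, h1, h2, rfl⟩ := PR.succ_iff.1 h
    rw [add_comm X U]
    exact (ih h2).add h1

/-- Grouping pencils of size `(1, 1)`. -/
theorem PR.group {c s N : ℕ} {T : Pen m} (h : PR 1 1 N T) (hN : N ≤ s * c) : PR c c s T := by
  induction s generalizing N T with
  | zero =>
    have : N = 0 := by omega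
    subst this
    obtain ⟨X, -, h2⟩ := h
    rw [h2]
    simp only [Finset.univ_eq_empty, Finset.sum_empty]
    exact PR.nil c c
  | succ s ih =>
    rcases Nat.lt_or_ge N c with h1 | h1
    · have h2 := (PR.single (h.sup.mono h1.le h1.le)).le (show 1 ≤ s + 1 by omega)
      exact h2
    · obtain ⟨M, rfl⟩ : ∃ M, N = c + M := ⟨N - c, by omega⟩
      obtain ⟨X, hX, rfl⟩ := h
      rw [Fin.sum_univ_add]
      have h2 : PR 1 1 c (∑ i, X (Fin.castAdd M i)) := ⟨_, fun j => hX _, rfl⟩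
      have h3 : PR 1 1 M (∑ i, X (Fin.natAdd c i)) := ⟨_, fun j => hX _, rfl⟩
      have h4 := ih h3 (by
        rw [Nat.succ_mul] at hN
        omega)
      rw [Nat.add_comm s 1]
      exact (PR.single h2.sup).add h4

theorem exists_split (A : Submodule ℝ (Fin m → ℝ)) (h1 : finrank ℝ A ≤ 2) :
    ∃ A1 A2 : Submodule ℝ (Fin m → ℝ), A1 ⊔ A2 = A ∧ Disjoint A1 A2 ∧
      finrank ℝ A1 ≤ 1 ∧ finrank ℝ A2 ≤ 1 := by
  by_cases h0 : A = ⊥
  · refine ⟨⊥, ⊥, ?_, disjoint_bot_left, ?_, ?_⟩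
    · rw [h0, sup_idem]
    · rw [finrank_bot]
      omega
    · rw [finrank_bot]
      omega
  · obtain ⟨x, hx, hx0⟩ := Submodule.exists_mem_ne_zero_of_ne_bot h0
    obtain ⟨A2, hA2⟩ := Submodule.exists_isCompl (Submodule.comap A.subtype (span ℝ {x}))
    have e1 : finrank ℝ (span ℝ {x}) = 1 := finrank_span_singleton hx0
    have hle : span ℝ {x} ≤ A := (span_singleton_le_iff_mem x A).2 hx
    have e2 : finrank ℝ (Submodule.comap A.subtype (span ℝ {x})) = 1 := by
      rw [← e1]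
      exact LinearEquiv.finrank_eq (Submodule.comapSubtypeEquivOfLe hle)
    have e3 := Submodule.finrank_add_eq_of_isCompl hA2
    have e4 : (Submodule.comap A.subtype (span ℝ {x})).map A.subtype = span ℝ {x} := by
      rw [Submodule.map_comap_subtype, inf_eq_right.2 hle]
    refine ⟨span ℝ {x}, A2.map A.subtype, ?_, ?_, e1.le, ?_⟩
    · have e5 := congrArg (Submodule.map A.subtype) hA2.sup_eq_top
      rw [Submodule.map_sup, e4, Submodule.map_subtype_top] at e5
      exact e5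
    · rw [← e4]
      rw [disjoint_iff, ← Submodule.map_inf _ A.injective_subtype, hA2.inf_eq_bot,
        Submodule.map_bot]
    · have e6 := LinearEquiv.finrank_eq (Submodule.equivMapOfInjective A.subtype
        A.injective_subtype A2)
      omega

theorem isCompl_of_three {A A1 A2 B : Submodule ℝ (Fin m → ℝ)} (hA : A1 ⊔ A2 = A)
    (hd : Disjoint A1 A2) (hB : IsCompl A B) : IsCompl A1 (A2 ⊔ B) := by
  constructor
  · rw [disjoint_iff, eq_bot_iff]
    rintro x ⟨hx1, hx2⟩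
    obtain ⟨y, hy, z, hz, rfl⟩ := Submodule.mem_sup.1 hx2
    have hyA : y ∈ A := by
      rw [← hA]
      exact Submodule.mem_sup_right hy
    have hxA : y + z ∈ A := by
      rw [← hA]
      exact Submodule.mem_sup_left hx1
    have hzA : z ∈ A := by
      have := A.sub_mem hxA hyA
      rwa [add_sub_cancel_left] at this
    have hz0 : z = 0 := by
      have := Submodule.disjoint_def.1 hB.disjoint z hzA hz
      exact this
    rw [hz0, add_zero] at hx1 ⊢
    exact (Submodule.mem_bot ℝ).2 (Submodule.disjoint_def.1 hd y hx1 hy)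
  · rw [codisjoint_iff, ← sup_assoc, hA]
    exact hB.sup_eq_top

/-- A pencil of size `(2, 2)` is the sum of two pencils of size `(1, 2)`. -/
theorem Sup.split_left {X : Pen m} (h : Sup 2 2 X) :
    ∃ Y Z, Sup 1 2 Y ∧ Sup 1 2 Z ∧ X = Y + Z := by
  obtain ⟨A, N, h1, h2, h3⟩ := h
  obtain ⟨A1, A2, hA, hd, d1, d2⟩ := exists_split A h1
  -- a projection of the space onto `A1` which kills `A2`
  obtain ⟨B, hB⟩ := Submodule.exists_isCompl A
  have hc : IsCompl A1 (A2 ⊔ B) := isCompl_of_three hA hd hB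
  let π : (Fin m → ℝ) →ₗ[ℝ] (Fin m → ℝ) := A1.subtype ∘ₗ A1.projectionOnto _ hc
  have hπ1 : ∀ x, π x ∈ A1 := fun x => (A1.projectionOnto _ hc x).2
  have hπ2 : ∀ x ∈ A, x - π x ∈ A2 := by
    intro x hx
    rw [← hA] at hx
    obtain ⟨y, hy, z, hz, rfl⟩ := Submodule.mem_sup.1 hx
    have e1 : π y = y := by
      change ((A1.projectionOnto _ hc y : A1) : Fin m → ℝ) = y
      have := Submodule.projectionOnto_apply_left hc ⟨y, hy⟩
      rw [this]
    have e2 : π z = 0 := by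
      change ((A1.projectionOnto _ hc z : A1) : Fin m → ℝ) = 0
      rw [Submodule.projectionOnto_apply_of_mem_right hc (Submodule.mem_sup_left hz)]
      rfl
    rw [map_add, e1, e2, add_zero, add_sub_cancel_left]
    exact hz
  refine ⟨fun k => π ∘ₗ X k, fun k => (LinearMap.id - π) ∘ₗ X k,
    ⟨A1, N, d1, h2, fun k => ⟨fun x => hπ1 _, fun x hx => ?_⟩⟩,
    ⟨A2, N, d2, h2, fun k => ⟨fun x => ?_, fun x hx => ?_⟩⟩, ?_⟩
  · rw [LinearMap.comp_apply, (h3 k).2 x hx, map_zero]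
  · exact hπ2 _ ((h3 k).1 x)
  · rw [LinearMap.comp_apply, (h3 k).2 x hx, map_zero]
  · funext k
    change X k = π ∘ₗ X k + (LinearMap.id - π) ∘ₗ X k
    rw [← LinearMap.add_comp, add_sub_cancel, LinearMap.id_comp]

/-- A pencil of size `(2, 2)` is the sum of two pencils of size `(2, 1)`. -/
theorem Sup.split_right {X : Pen m} (h : Sup 2 2 X) :
    ∃ Y Z, Sup 2 1 Y ∧ Sup 2 1 Z ∧ X = Y + Z := by
  obtain ⟨A, N, h1, h2, h3⟩ := h
  obtain ⟨C, hC⟩ := Submodule.exists_isCompl N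
  have e1 := Submodule.finrank_add_eq_of_isCompl hC
  rw [finrank_pi, Fintype.card_fin] at e1
  obtain ⟨C1, C2, hCC, hd, d1, d2⟩ := exists_split C (by omega)
  have hc : IsCompl C1 (C2 ⊔ N) := isCompl_of_three hCC hd hC.symm
  have hc' : IsCompl C2 (C1 ⊔ N) :=
    isCompl_of_three (by rw [sup_comm]; exact hCC) hd.symm hC.symm
  have f1 := Submodule.finrank_add_eq_of_isCompl hc
  have f2 := Submodule.finrank_add_eq_of_isCompl hc'
  rw [finrank_pi, Fintype.card_fin] at f1 f2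
  let π : (Fin m → ℝ) →ₗ[ℝ] (Fin m → ℝ) := C1.subtype ∘ₗ C1.projectionOnto _ hc
  have hπ1 : ∀ x ∈ C2 ⊔ N, π x = 0 := by
    intro x hx
    change ((C1.projectionOnto _ hc x : C1) : Fin m → ℝ) = 0
    rw [Submodule.projectionOnto_apply_of_mem_right hc hx]
    rfl
  have hπ2 : ∀ x ∈ C1, π x = x := by
    intro x hx
    change ((C1.projectionOnto _ hc x : C1) : Fin m → ℝ) = x
    have := Submodule.projectionOnto_apply_left hc ⟨x, hx⟩
    rw [this]
  refine ⟨fun k => X k ∘ₗ π, fun k => X k ∘ₗ (LinearMap.id - π),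
    ⟨A, C2 ⊔ N, h1, by omega, fun k => ⟨fun x => (h3 k).1 _, fun x hx => ?_⟩⟩,
    ⟨A, C1 ⊔ N, h1, by omega, fun k => ⟨fun x => (h3 k).1 _, fun x hx => ?_⟩⟩, ?_⟩
  · rw [LinearMap.comp_apply, hπ1 x hx, map_zero]
  · obtain ⟨y, hy, z, hz, rfl⟩ := Submodule.mem_sup.1 hx
    rw [LinearMap.comp_apply, LinearMap.sub_apply, LinearMap.id_apply, map_add π, hπ2 y hy,
      hπ1 z (Submodule.mem_sup_right hz), add_zero, add_sub_cancel_left, (h3 k).2 z hz]
  · funext k
    change X k = X k ∘ₗ π + X k ∘ₗ (LinearMap.id - π)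
    rw [← LinearMap.comp_add, add_sub_cancel, LinearMap.comp_id]

end Pool.Agent.SubTyp
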