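import Pool.Agent.SubTyp.PenDefs

/-!
# Pencils with real eigenvalues
-/

open Module Submodule

namespace Pool.Agent.SubTyp

variable {m : ℕ}

/-- **A pencil with a basis of real eigenvectors.** -/
theorem PR.of_eigen {T : Pen m} (h0 : Function.Injective (T 0)) (c : Fin m → ℝ)
    (hc : Function.Injective c) (w : Fin m → (Fin m → ℝ)) (hw : ∀ i, w i ≠ 0)
    (h : ∀ i, T 1 (w i) = c i • T 0 (w i)) : PR 1 1 m T := by
  classical
  let e : (Fin m → ℝ) ≃ₗ[ℝ] (Fin m → ℝ) := LinearEquiv.ofInjectiveEndo (T 0) h0
  have he : ∀ x, e x = T 0 x := fun x => LinearEquiv.coe_ofInjectiveEndo (T 0) h0 ▸ rfl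
  let M : End ℝ (Fin m → ℝ) := e.symm.toLinearMap ∘ₗ T 1
  have hM : ∀ i, M (w i) = c i • w i := by
    intro i
    change e.symm (T 1 (w i)) = _
    rw [h i, map_smul, ← he, LinearEquiv.symm_apply_apply]
  have hind : LinearIndependent ℝ w := by
    refine Module.End.eigenvectors_linearIndependent' M c hc w fun i => ?_
    exact Module.End.hasEigenvector_iff.2 ⟨Module.End.mem_eigenspace_iff.2 (hM i), hw i⟩
  have hcard : Fintype.card (Fin m) = finrank ℝ (Fin m → ℝ) := by rw [finrank_pi]
  let b : Basis (Fin m) ℝ (Fin m → ℝ) := by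
    by_cases hm : Nonempty (Fin m)
    · exact basisOfLinearIndependentOfCardEqFinrank hind hcard
    · exact Pi.basisFun ℝ (Fin m)
  have hb : ∀ i, b i = w i := by
    intro i
    have hm : Nonempty (Fin m) := ⟨i⟩
    change (if hm : Nonempty (Fin m) then basisOfLinearIndependentOfCardEqFinrank hind hcard
      else Pi.basisFun ℝ (Fin m) : Basis (Fin m) ℝ (Fin m → ℝ)) i = w i
    rw [dif_pos hm]
    exact congrFun (coe_basisOfLinearIndependentOfCardEqFinrank hind hcard) i
  refine ⟨fun i k => T k ∘ₗ (b.coord i).smulRight (b i), fun i => ?_, ?_⟩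
  · refine ⟨span ℝ {T 0 (w i)}, LinearMap.ker (b.coord i),
      (finrank_span_le_card _).trans (by simp), ?_, fun k => ?_⟩
    · have e1 := LinearMap.finrank_range_add_finrank_ker (b.coord i)
      rw [finrank_pi, Fintype.card_fin] at e1
      have e2 := Submodule.finrank_le (LinearMap.range (b.coord i))
      rw [finrank_self] at e2
      omega
    · refine ⟨fun x => ?_, fun x hx => ?_⟩
      · change T k (b.coord i x • b i) ∈ _
        rw [map_smul, hb i]
        refine Submodule.smul_mem _ _ ?_
        fin_cases k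
        · exact mem_span_singleton_self _
        · change T 1 (w i) ∈ _
          rw [h i]
          exact Submodule.smul_mem _ _ (mem_span_singleton_self _)
      · change T k (b.coord i x • b i) = 0
        rw [LinearMap.mem_ker.1 hx, zero_smul, map_zero]
  · funext k
    rw [Finset.sum_apply]
    refine LinearMap.ext fun x => ?_
    rw [LinearMap.sum_apply]
    change T k x = ∑ i, T k (b.coord i x • b i)
    rw [← map_sum]
    congr 1
    exact (b.sum_repr x).symm

/-- **Sign changes.** -/
theorem PR.of_signs {T : Pen m} (h0 : Function.Injective (T 0)) (x : ℕ → ℝ) (hx : StrictMono x)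
    (hs : ∀ i : ℕ, i < m → LinearMap.det (x i • T 0 - T 1) * LinearMap.det (x (i + 1) • T 0 - T 1) < 0) :
    PR 1 1 m T := by
  -- the characteristic function is continuous
  have hcont : Continuous fun t : ℝ => LinearMap.det (t • T 0 - T 1) := by
    have e1 : ∀ t : ℝ, LinearMap.det (t • T 0 - T 1) =
        Matrix.det (t • LinearMap.toMatrix' (T 0) - LinearMap.toMatrix' (T 1)) := by
      intro t
      rw [← LinearMap.det_toMatrix', map_sub, map_smul]
    simp only [e1]
    fun_prop
  have hroot : ∀ i : Fin m, ∃ t, x i < t ∧ t < x (i + 1) ∧ LinearMap.det (t • T 0 - T 1) = 0 := by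
    intro i
    have h1 := hs i i.2
    have h2 : x i < x (i + 1) := hx (Nat.lt_succ_self _)
    rcases mul_neg_iff.1 h1 with ⟨h3, h4⟩ | ⟨h3, h4⟩
    · obtain ⟨t, ht, ht0⟩ := intermediate_value_Ioo' h2.le hcont.continuousOn ⟨h4, h3⟩
      exact ⟨t, ht.1, ht.2, ht0⟩
    · obtain ⟨t, ht, ht0⟩ := intermediate_value_Ioo h2.le hcont.continuousOn ⟨h3, h4⟩
      exact ⟨t, ht.1, ht.2, ht0⟩
  choose c hc1 hc2 hc3 using hroot
  have hinj : Function.Injective c := by
    have hlt : ∀ i j : Fin m, i < j → c i < c j := by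
      intro i j hij
      have h1 : x (i + 1) ≤ x j := hx.monotone (by
        have := Fin.lt_def.1 hij
        omega)
      linarith [hc2 i, hc1 j]
    intro i j hij
    rcases lt_trichotomy i j with h | h | h
    · have := hlt i j h
      rw [hij] at this
      exact absurd this (lt_irrefl _)
    · exact h
    · have := hlt j i h
      rw [hij] at this
      exact absurd this (lt_irrefl _)
  have hker : ∀ i, ∃ w : Fin m → ℝ, w ≠ 0 ∧ T 1 w = c i • T 0 w := by
    intro i
    have h1 := LinearMap.bot_lt_ker_of_det_eq_zero (hc3 i)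
    obtain ⟨w, hw, hw0⟩ := Submodule.exists_mem_ne_zero_of_ne_bot h1.ne'
    refine ⟨w, hw0, ?_⟩
    have h2 := LinearMap.mem_ker.1 hw
    rw [LinearMap.sub_apply, LinearMap.smul_apply, sub_eq_zero] at h2
    exact h2.symm
  choose w hw0 hw using hker
  exact PR.of_eigen h0 c hinj w hw0 hw

end Pool.Agent.SubTyp
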