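import Pool.Agent.SubTyp.PenDefs

/-!
# A pencil all of whose neighbours have at most one real eigenvector
-/

open Module Submodule

namespace Pool.Agent.SubTyp

variable {m : ℕ}

/-- The direct sum of `⌊m/2⌋` rotations by a right angle and, for odd `m`, of `0`. -/
def skw (m : ℕ) : (Fin m → ℝ) →ₗ[ℝ] (Fin m → ℝ) where
  toFun x i := if i.val % 2 = 0 then (if h : i.val + 1 < m then x ⟨i.val + 1, h⟩ else 0)
    else - x ⟨i.val - 1, by omega⟩
  map_add' x y := by
    funext i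
    simp only [Pi.add_apply]
    split_ifs
    · rfl
    · rw [add_zero]
    · rw [neg_add]
  map_smul' c x := by
    funext i
    simp only [Pi.smul_apply, smul_eq_mul, RingHom.id_apply]
    split_ifs
    · rfl
    · rw [mul_zero]
    · rw [mul_neg]

theorem skw_apply (x : Fin m → ℝ) (i : Fin m) : skw m x i =
    if i.val % 2 = 0 then (if h : i.val + 1 < m then x ⟨i.val + 1, h⟩ else 0)
    else - x ⟨i.val - 1, by omega⟩ := rfl

theorem norm_skw_le (x : Fin m → ℝ) : ‖skw m x‖ ≤ ‖x‖ := by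
  rw [pi_norm_le_iff_of_nonneg (norm_nonneg x)]
  intro i
  rw [skw_apply]
  split_ifs
  · exact norm_le_pi_norm x _
  · rw [norm_zero]
    exact norm_nonneg x
  · rw [norm_neg]
    exact norm_le_pi_norm x _

/-- the coordinates moved by the rotations -/
def Jc (i : Fin m) : Prop := i.val % 2 = 1 ∨ i.val + 1 < m

theorem skw_skw {x : Fin m → ℝ} {i : Fin m} (hi : Jc i) : skw m (skw m x) i = - x i := by
  rw [skw_apply]
  split_ifs with h1 h2
  · rw [skw_apply]
    rw [if_neg (by simp only; omega)]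
    congr 2
  · rcases hi with hi | hi
    · omega
    · exact absurd hi h2
  · rw [skw_apply]
    have h3 : (i.val - 1) % 2 = 0 := by omega
    have h4 : i.val - 1 + 1 < m := by omega
    simp only [h3, if_true, h4, dite_true]
    congr 2
    apply Fin.ext
    simp only
    omega

theorem skw_last {x : Fin m → ℝ} {i : Fin m} (hi : ¬ Jc i) : skw m x i = 0 := by
  unfold Jc at hi
  push Not at hi
  rw [skw_apply, if_pos (by omega), dif_neg (by omega)]

/-- `T` is `δ`-close to the pencil `(1, skw m)`. -/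
def Close (δ : ℝ) (T : Pen m) : Prop :=
  (∀ x, ‖T 0 x - x‖ ≤ δ * ‖x‖) ∧ ∀ x, ‖T 1 x - skw m x‖ ≤ δ * ‖x‖

theorem Close.injective {δ : ℝ} (hδ : δ < 1) {T : Pen m} (h : Close δ T) :
    Function.Injective (T 0) := by
  rw [injective_iff_map_eq_zero]
  intro x hx
  have h1 := h.1 x
  rw [hx, zero_sub, norm_neg] at h1
  have h2 : ‖x‖ = 0 := by
    have := norm_nonneg x
    nlinarith
  exact norm_eq_zero.1 h2

/-- the coordinates of an eigenvector in the rotation part are small -/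
theorem Close.small {δ : ℝ} (hδ0 : 0 ≤ δ) {T : Pen m} (h : Close δ T) {z : Fin m → ℝ} {c : ℝ}
    (hz : T 1 z = c • T 0 z) {i : Fin m} (hi : Jc i) : |z i| ≤ 2 * δ * ‖z‖ := by
  -- `skw z = c z + F`
  set F := skw m z - c • z with hF
  have hFn : ‖F‖ ≤ δ * (1 + |c|) * ‖z‖ := by
    have e1 : F = c • (T 0 z - z) - (T 1 z - skw m z) := by
      rw [hF, hz, smul_sub]
      abel
    rw [e1]
    calc ‖c • (T 0 z - z) - (T 1 z - skw m z)‖ ≤ ‖c • (T 0 z - z)‖ + ‖T 1 z - skw m z‖ :=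
          norm_sub_le _ _
      _ ≤ |c| * (δ * ‖z‖) + δ * ‖z‖ := by
          rw [norm_smul, Real.norm_eq_abs]
          exact add_le_add (mul_le_mul_of_nonneg_left (h.1 z) (abs_nonneg c)) (h.2 z)
      _ = δ * (1 + |c|) * ‖z‖ := by ring
  have e2 : skw m z = c • z + F := by
    rw [hF]
    abel
  have e3 : skw m (skw m z) i = c * (c * z i + F i) + skw m F i := by
    conv_lhs => rw [e2]
    rw [map_add, map_smul, e2]
    rfl
  rw [skw_skw hi] at e3
  have e4 : (1 + c ^ 2) * z i = - (c * F i + skw m F i) := by linear_combination -e3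
  have e5 : (1 + c ^ 2) * |z i| ≤ (1 + |c|) * ‖F‖ := by
    have h1 : |c * F i + skw m F i| ≤ |c| * ‖F‖ + ‖F‖ := by
      refine (abs_add_le _ _).trans ?_
      rw [abs_mul]
      refine add_le_add (mul_le_mul_of_nonneg_left (norm_le_pi_norm F i) (abs_nonneg c)) ?_
      exact (norm_le_pi_norm (skw m F) i).trans (norm_skw_le F)
    have h2 : (1 + c ^ 2) * |z i| = |(1 + c ^ 2) * z i| := by
      rw [abs_mul, abs_of_pos (by positivity : (0 : ℝ) < 1 + c ^ 2)]
    rw [h2, e4, abs_neg]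
    linarith
  have e6 : (1 + |c|) ^ 2 ≤ 2 * (1 + c ^ 2) := by
    have h1 := sq_abs c
    nlinarith [sq_nonneg (1 - |c|)]
  have hz0 := norm_nonneg z
  have e7 : (1 + c ^ 2) * |z i| ≤ (1 + c ^ 2) * (2 * δ * ‖z‖) := by
    calc (1 + c ^ 2) * |z i| ≤ (1 + |c|) * ‖F‖ := e5
      _ ≤ (1 + |c|) * (δ * (1 + |c|) * ‖z‖) :=
          mul_le_mul_of_nonneg_left hFn (by positivity)
      _ = (1 + |c|) ^ 2 * (δ * ‖z‖) := by ring
      _ ≤ 2 * (1 + c ^ 2) * (δ * ‖z‖) := mul_le_mul_of_nonneg_right e6 (by positivity)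
      _ = (1 + c ^ 2) * (2 * δ * ‖z‖) := by ring
  exact le_of_mul_le_mul_left e7 (by positivity)

theorem exists_norm_eq {z : Fin m → ℝ} (hz : z ≠ 0) : ∃ i, |z i| = ‖z‖ := by
  by_contra hcon
  push Not at hcon
  have h1 : ∀ i, ‖z i‖ < ‖z‖ := fun i => lt_of_le_of_ne (norm_le_pi_norm z i) (hcon i)
  have h2 : ‖z‖ < ‖z‖ := (pi_norm_lt_iff (norm_pos_iff.2 hz)).2 h1
  exact lt_irrefl _ h2

/-- an eigenvector is concentrated in the last coordinate and its eigenvalue is small -/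
theorem Close.last {δ : ℝ} (hδ0 : 0 ≤ δ) (hδ : δ ≤ 1 / 4) {T : Pen m} (h : Close δ T)
    {z : Fin m → ℝ} (hz0 : z ≠ 0) {c : ℝ} (hz : T 1 z = c • T 0 z) :
    |c| ≤ 2 * δ ∧ ∃ i, ¬ Jc i ∧ z i ≠ 0 := by
  obtain ⟨i, hi⟩ := exists_norm_eq hz0
  have hn : 0 < ‖z‖ := norm_pos_iff.2 hz0
  have hJ : ¬ Jc i := by
    intro hJ
    have := h.small hδ0 hz hJ
    rw [hi] at this
    nlinarith
  have hzi : z i ≠ 0 := by
    intro h0
    rw [h0, abs_zero] at hi
    linarith
  refine ⟨?_, i, hJ, hzi⟩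
  have e1 := skw_last (x := z) hJ
  have e2 : skw m z = c • T 0 z - (T 1 z - skw m z) := by
    rw [hz]
    abel
  have e3 : c * z i = - (c * ((T 0 z - z) i)) + (T 1 z - skw m z) i := by
    have := congrFun e2 i
    rw [e1] at this
    simp only [Pi.sub_apply, Pi.smul_apply, smul_eq_mul] at this ⊢
    linear_combination -this
  have e4 : |c| * ‖z‖ ≤ |c| * (δ * ‖z‖) + δ * ‖z‖ := by
    rw [← hi, ← abs_mul, e3]
    refine (abs_add_le _ _).trans ?_
    rw [abs_neg, abs_mul, hi]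
    exact add_le_add (mul_le_mul_of_nonneg_left ((norm_le_pi_norm _ i).trans (h.1 z))
      (abs_nonneg c)) ((norm_le_pi_norm _ i).trans (h.2 z))
  have e5 : |c| ≤ |c| * δ + δ := by
    have : |c| * ‖z‖ ≤ (|c| * δ + δ) * ‖z‖ := by linarith
    exact le_of_mul_le_mul_right this hn
  nlinarith [abs_nonneg c]

theorem Jc_unique {i j : Fin m} (hi : ¬ Jc i) (hj : ¬ Jc j) : i = j := by
  unfold Jc at hi hj
  push Not at hi hj
  apply Fin.ext
  omega

/-- **Two real eigenvectors of a close pencil are proportional.** -/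
theorem Close.proportional {T : Pen m} (h : Close (1 / 20) T)
    {z w : Fin m → ℝ} (hz0 : z ≠ 0) (hw0 : w ≠ 0) {c d : ℝ} (hz : T 1 z = c • T 0 z)
    (hw : T 1 w = d • T 0 w) : ∃ r t : ℝ, r ≠ 0 ∧ r • z = t • w := by
  obtain ⟨hc, i, hi, hzi⟩ := h.last (by norm_num) (by norm_num) hz0 hz
  obtain ⟨hd, j, hj, hwj⟩ := h.last (by norm_num) (by norm_num) hw0 hw
  have hij := Jc_unique hi hj
  subst hij
  refine ⟨w i, z i, hwj, ?_⟩
  set y := w i • z - z i • w with hy
  have hyi : y i = 0 := by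
    rw [hy]
    simp only [Pi.sub_apply, Pi.smul_apply, smul_eq_mul]
    ring
  have hKK : skw m (skw m y) = - y := by
    funext j
    by_cases hjJ : Jc j
    · exact skw_skw hjJ
    · have : j = i := Jc_unique hjJ hi
      subst this
      rw [skw_last hjJ, Pi.neg_apply, hyi, neg_zero]
  set u := (w i * (c - d)) • z with hu
  have hTu : T 1 u = c • T 0 u := by
    rw [hu, map_smul, map_smul, hz, smul_comm]
  have hT0u : T 0 u = T 1 y - d • T 0 y := by
    rw [hu, hy]
    simp only [map_smul, map_sub, hz, hw, smul_sub, smul_smul]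
    rw [mul_comm (w i) (c - d), sub_mul, sub_smul, mul_comm (z i) d, mul_comm (w i) c]
    abel
  -- norms
  have n1 : ‖u - skw m y‖ ≤ (1 / 20) * ‖y‖ + |d| * ((1 + 1 / 20) * ‖y‖) + (1 / 20) * ‖u‖ := by
    have e1 : u - skw m y = (T 1 y - skw m y) - d • T 0 y - (T 0 u - u) := by
      rw [hT0u]
      abel
    rw [e1]
    refine (norm_sub_le _ _).trans (add_le_add ((norm_sub_le _ _).trans (add_le_add (h.2 y) ?_))
      (h.1 u))
    rw [norm_smul, Real.norm_eq_abs]
    refine mul_le_mul_of_nonneg_left ?_ (abs_nonneg d)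
    have e2 : T 0 y = (T 0 y - y) + y := by abel
    rw [e2]
    refine (norm_add_le _ _).trans ?_
    have := h.1 y
    linarith
  have n2 : ‖skw m u‖ ≤ |c| * ((1 + 1 / 20) * ‖u‖) + (1 / 20) * ‖u‖ := by
    have e1 : skw m u = c • T 0 u - (T 1 u - skw m u) := by
      rw [hTu]
      abel
    rw [e1]
    refine (norm_sub_le _ _).trans (add_le_add ?_ (h.2 u))
    rw [norm_smul, Real.norm_eq_abs]
    refine mul_le_mul_of_nonneg_left ?_ (abs_nonneg c)
    have e2 : T 0 u = (T 0 u - u) + u := by abel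
    rw [e2]
    refine (norm_add_le _ _).trans ?_
    have := h.1 u
    linarith
  have n3 : ‖y‖ ≤ ‖skw m u‖ + ‖u - skw m y‖ := by
    calc ‖y‖ ≤ ‖skw m (u - skw m y)‖ + ‖skw m u‖ := by
          have : y = skw m (u - skw m y) - skw m u := by
            rw [map_sub, hKK]
            abel
          conv_lhs => rw [this]
          exact norm_sub_le _ _
      _ ≤ ‖skw m u‖ + ‖u - skw m y‖ := by
          have := norm_skw_le (u - skw m y)
          linarith
  have n4 : ‖u‖ ≤ ‖y‖ + ‖u - skw m y‖ := by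
    have e1 : u = skw m y + (u - skw m y) := by abel
    conv_lhs => rw [e1]
    refine (norm_add_le _ _).trans ?_
    have := norm_skw_le y
    linarith
  have hy0 := norm_nonneg y
  have hu0 := norm_nonneg u
  have n1' : ‖u - skw m y‖ ≤ 0.155 * ‖y‖ + 0.05 * ‖u‖ := by
    have : |d| * ((1 + 1 / 20) * ‖y‖) ≤ (2 * (1 / 20)) * ((1 + 1 / 20) * ‖y‖) :=
      mul_le_mul_of_nonneg_right hd (by positivity)
    norm_num at this n1 ⊢
    linarith
  have n2' : ‖skw m u‖ ≤ 0.155 * ‖u‖ := by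
    have : |c| * ((1 + 1 / 20) * ‖u‖) ≤ (2 * (1 / 20)) * ((1 + 1 / 20) * ‖u‖) :=
      mul_le_mul_of_nonneg_right hc (by positivity)
    norm_num at this n2 ⊢
    linarith
  have hyz : ‖y‖ = 0 := by
    have h1 : ‖y‖ ≤ 0.155 * ‖y‖ + 0.205 * ‖u‖ := by norm_num at n1' n2' ⊢; linarith
    have h2 : 0.95 * ‖u‖ ≤ 1.155 * ‖y‖ := by norm_num at n1' ⊢; linarith
    norm_num at h1 h2
    nlinarith
  exact sub_eq_zero.1 (norm_eq_zero.1 hyz)

end Pool.Agent.SubTyp
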