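import Pool.Agent.SubTyp.PenDefs
import Pool.Agent.SubTyp.Typical

/-!
# Tensors of format `2 × m × m` and pencils
-/

open Module Submodule Set
open scoped LinearAlgebra.Projectivization Topology

namespace Pool.Agent.SubTyp

variable {m : ℕ}

/-- indices of a tensor of format `2 × m × m` -/
def tup (k : Fin 2) (i j : Fin m) : (l : Fin 3) → Fin ((![2, m, m] : Fin 3 → ℕ) l)
  | 0 => k
  | 1 => i
  | 2 => j

theorem tup_eta (t : (l : Fin 3) → Fin ((![2, m, m] : Fin 3 → ℕ) l)) :
    tup (t 0) (t 1) (t 2) = t := by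
  funext l
  fin_cases l <;> rfl

/-- the slices of a tensor -/
def mat (T : Ten ![2, m, m]) (k : Fin 2) : Matrix (Fin m) (Fin m) ℝ :=
  Matrix.of fun i j => T (tup k i j)

/-- the pencil of a tensor -/
noncomputable def pen : Ten ![2, m, m] ≃ₗ[ℝ] Pen m where
  toFun T k := Matrix.toLin' (mat T k)
  invFun X t := LinearMap.toMatrix' (X (t 0)) (t 1) (t 2)
  map_add' T U := by
    funext k
    have : mat (T + U) k = mat T k + mat U k := rfl
    rw [this, map_add]
    rfl
  map_smul' c T := by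
    funext k
    have : mat (c • T) k = c • mat T k := rfl
    rw [this, map_smul]
    rfl
  left_inv T := by
    funext t
    simp only
    rw [LinearMap.toMatrix'_toLin']
    exact congrArg T (tup_eta t)
  right_inv X := by
    funext k
    simp only
    have : mat (fun t => LinearMap.toMatrix' (X (t 0)) (t 1) (t 2)) k =
        LinearMap.toMatrix' (X k) := rfl
    rw [this, Matrix.toLin'_toMatrix']

theorem pen_apply (T : Ten ![2, m, m]) (k : Fin 2) : pen T k = Matrix.toLin' (mat T k) := rfl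

theorem pen_apply_apply (T : Ten ![2, m, m]) (k : Fin 2) (x : Fin m → ℝ) (i : Fin m) :
    pen T k x i = ∑ j, T (tup k i j) * x j := by
  rw [pen_apply, Matrix.toLin'_apply]
  rfl

/-- the components of a triple of vectors -/
def c0 (v : (l : Fin 3) → Fin ((![2, m, m] : Fin 3 → ℕ) l) → ℝ) : Fin 2 → ℝ := v 0

/-- the components of a triple of vectors -/
def c1 (v : (l : Fin 3) → Fin ((![2, m, m] : Fin 3 → ℕ) l) → ℝ) : Fin m → ℝ := v 1

/-- the components of a triple of vectors -/
def c2 (v : (l : Fin 3) → Fin ((![2, m, m] : Fin 3 → ℕ) l) → ℝ) : Fin m → ℝ := v 2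

theorem pen_pureT (v : (l : Fin 3) → Fin ((![2, m, m] : Fin 3 → ℕ) l) → ℝ) (k : Fin 2)
    (x : Fin m → ℝ) : pen (pureT v) k x = (c0 v k * ∑ j, c2 v j * x j) • c1 v := by
  funext i
  rw [pen_apply_apply, Pi.smul_apply, smul_eq_mul, Finset.mul_sum, Finset.sum_mul]
  refine Finset.sum_congr rfl fun j _ => ?_
  have : pureT v (tup k i j) = c0 v k * c1 v i * c2 v j := by
    unfold pureT
    rw [Fin.prod_univ_three]
    rfl
  rw [this]
  ring

/-- a triple of vectors -/
def mk3 (u : Fin 2 → ℝ) (v w : Fin m → ℝ) :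
    (l : Fin 3) → Fin ((![2, m, m] : Fin 3 → ℕ) l) → ℝ
  | 0 => u
  | 1 => v
  | 2 => w

/-- the components of a triple of subspaces -/
def s1 (A : (l : Fin 3) → Submodule ℝ (Fin ((![2, m, m] : Fin 3 → ℕ) l) → ℝ)) :
    Submodule ℝ (Fin m → ℝ) := A 1

/-- the components of a triple of subspaces -/
def s2 (A : (l : Fin 3) → Submodule ℝ (Fin ((![2, m, m] : Fin 3 → ℕ) l) → ℝ)) :
    Submodule ℝ (Fin m → ℝ) := A 2

/-- a triple of subspaces -/
def mkS (A B : Submodule ℝ (Fin m → ℝ)) :
    (l : Fin 3) → Submodule ℝ (Fin ((![2, m, m] : Fin 3 → ℕ) l) → ℝ)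
  | 0 => (⊤ : Submodule ℝ (Fin 2 → ℝ))
  | 1 => A
  | 2 => B

theorem finrank_mkS {a b : ℕ} {A B : Submodule ℝ (Fin m → ℝ)} (hA : finrank ℝ A = a)
    (hB : finrank ℝ B = b) : ∀ l, finrank ℝ (mkS A B l) = (![2, a, b] : Fin 3 → ℕ) l := by
  have h0 : finrank ℝ (⊤ : Submodule ℝ (Fin 2 → ℝ)) = 2 := by
    rw [finrank_top, finrank_pi, Fintype.card_fin]
  intro l
  match l with
  | 0 => exact h0
  | 1 => exact hA
  | 2 => exact hB

theorem mk3_mem {A B : Submodule ℝ (Fin m → ℝ)} {u : Fin 2 → ℝ} {v w : Fin m → ℝ} (hv : v ∈ A)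
    (hw : w ∈ B) : ∀ l, mk3 u v w l ∈ mkS A B l := by
  have h0 : u ∈ (⊤ : Submodule ℝ (Fin 2 → ℝ)) := Submodule.mem_top
  intro l
  match l with
  | 0 => exact h0
  | 1 => exact hv
  | 2 => exact hw

/-- The triples of subspaces. -/
abbrev Tri (m a b : ℕ) : Type :=
  {A : (l : Fin 3) → Submodule ℝ (Fin ((![2, m, m] : Fin 3 → ℕ) l) → ℝ) //
    ∀ l, finrank ℝ (A l) = (![2, a, b] : Fin 3 → ℕ) l}

/-- The family of the subspaces `A₁ ⊗ A₂ ⊗ A₃`. -/
def triK (m a b : ℕ) (A : Tri m a b) : Submodule ℝ (Ten ![2, m, m]) := boxT A.1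

theorem subVar_eq (m a b : ℕ) : SubVar ![2, m, m] ![2, a, b] = famSet (triK m a b) := by
  ext p
  constructor
  · rintro ⟨A, hA, hp⟩
    exact ⟨⟨A, hA⟩, hp⟩
  · rintro ⟨A, hp⟩
    exact ⟨A.1, A.2, hp⟩

/-- the annihilator of a subspace -/
def ann (B : Submodule ℝ (Fin m → ℝ)) : Submodule ℝ (Fin m → ℝ) where
  carrier := {x | ∀ y ∈ B, ∑ j, y j * x j = 0}
  add_mem' := by
    intro x x' hx hx' y hy
    simp only [Pi.add_apply, mul_add, Finset.sum_add_distrib]
    rw [hx y hy, hx' y hy, add_zero]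
  zero_mem' := by
    intro y _
    simp
  smul_mem' := by
    intro c x hx y hy
    have : ∑ j, y j * (c • x) j = c * ∑ j, y j * x j := by
      rw [Finset.mul_sum]
      refine Finset.sum_congr rfl fun j _ => ?_
      rw [Pi.smul_apply, smul_eq_mul]
      ring
    rw [this, hx y hy, mul_zero]

theorem finrank_ann (B : Submodule ℝ (Fin m → ℝ)) : m ≤ finrank ℝ (ann B) + finrank ℝ B := by
  let φ : (Fin m → ℝ) →ₗ[ℝ] Module.Dual ℝ B :=
    { toFun := fun x =>
        { toFun := fun y => ∑ j, (y : Fin m → ℝ) j * x j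
          map_add' := fun y y' => by
            simp only [Submodule.coe_add, Pi.add_apply, add_mul, Finset.sum_add_distrib]
          map_smul' := fun c y => by
            simp only [Submodule.coe_smul, Pi.smul_apply, smul_eq_mul, RingHom.id_apply,
              Finset.mul_sum, mul_assoc] }
      map_add' := fun x x' => by
        refine LinearMap.ext fun y => ?_
        change ∑ j, (y : Fin m → ℝ) j * (x + x') j =
          ∑ j, (y : Fin m → ℝ) j * x j + ∑ j, (y : Fin m → ℝ) j * x' j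
        simp only [Pi.add_apply, mul_add, Finset.sum_add_distrib]
      map_smul' := fun c x => by
        refine LinearMap.ext fun y => ?_
        change ∑ j, (y : Fin m → ℝ) j * (c • x) j = c * ∑ j, (y : Fin m → ℝ) j * x j
        rw [Finset.mul_sum]
        refine Finset.sum_congr rfl fun j _ => ?_
        rw [Pi.smul_apply, smul_eq_mul]
        ring }
  have h1 := LinearMap.finrank_range_add_finrank_ker φ
  rw [finrank_pi, Fintype.card_fin] at h1
  have h2 := Submodule.finrank_le (LinearMap.range φ)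
  rw [Subspace.dual_finrank_eq] at h2
  have h3 : LinearMap.ker φ = ann B := by
    ext x
    rw [LinearMap.mem_ker]
    constructor
    · intro hx y hy
      exact LinearMap.congr_fun hx ⟨y, hy⟩
    · intro hx
      refine LinearMap.ext fun y => ?_
      exact hx y y.2
  rw [h3] at h1
  omega

/-- Tensors in a box give small pencils. -/
theorem sup_of_mem_triK {a b : ℕ} {A : Tri m a b} {T : Ten ![2, m, m]} (hT : T ∈ triK m a b A) :
    Sup a b (pen T) := by
  have hA1 : finrank ℝ (s1 A.1) = a := A.2 1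
  have hA2 : finrank ℝ (s2 A.1) = b := A.2 2
  refine ⟨s1 A.1, ann (s2 A.1), hA1.le, ?_, fun k => ?_⟩
  · have h1 := finrank_ann (s2 A.1)
    omega
  · have hgen : ∀ U ∈ triK m a b A, (∀ x, pen U k x ∈ s1 A.1) ∧
        ∀ x ∈ ann (s2 A.1), pen U k x = 0 := by
      intro U hU
      refine Submodule.span_induction ?_ ?_ ?_ ?_ hU
      · rintro _ ⟨v, hv, rfl⟩
        have hv1 : c1 v ∈ s1 A.1 := hv 1
        have hv2 : c2 v ∈ s2 A.1 := hv 2
        refine ⟨fun x => ?_, fun x hx => ?_⟩
        · rw [pen_pureT]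
          exact Submodule.smul_mem _ _ hv1
        · rw [pen_pureT]
          have : ∑ j, c2 v j * x j = 0 := hx _ hv2
          rw [this, mul_zero, zero_smul]
      · rw [map_zero]
        exact ⟨fun x => Submodule.zero_mem _, fun x _ => rfl⟩
      · rintro U V _ _ ⟨h1, h2⟩ ⟨h3, h4⟩
        rw [map_add]
        refine ⟨fun x => Submodule.add_mem _ (h1 x) (h3 x), fun x hx => ?_⟩
        change pen U k x + pen V k x = 0
        rw [h2 x hx, h4 x hx, add_zero]
      · rintro c U _ ⟨h1, h2⟩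
        rw [map_smul]
        refine ⟨fun x => Submodule.smul_mem _ _ (h1 x), fun x hx => ?_⟩
        change c • pen U k x = 0
        rw [h2 x hx, smul_zero]
    exact hgen T hT

/-- subspaces can be enlarged to a given dimension -/
theorem exists_enlarge {a : ℕ} (ha : a ≤ m) (A : Submodule ℝ (Fin m → ℝ)) (hA : finrank ℝ A ≤ a) :
    ∃ B, A ≤ B ∧ finrank ℝ B = a := by
  obtain ⟨k, hk⟩ : ∃ k, a = finrank ℝ A + k := ⟨a - finrank ℝ A, by omega⟩
  clear hA
  induction k generalizing A with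
  | zero => exact ⟨A, le_rfl, by omega⟩
  | succ k ih =>
    have hne : A ≠ ⊤ := by
      rintro rfl
      rw [finrank_top, finrank_pi, Fintype.card_fin] at hk
      omega
    obtain ⟨x, -, hx⟩ := SetLike.exists_of_lt (lt_top_iff_ne_top.2 hne)
    have h1 : A < A ⊔ span ℝ {x} := by
      refine lt_of_le_of_ne le_sup_left fun h => hx ?_
      rw [h]
      exact Submodule.mem_sup_right (mem_span_singleton_self x)
    have h2 := Submodule.finrank_lt_finrank_of_lt h1
    have h3 := Submodule.finrank_add_le_finrank_add_finrank A (span ℝ {x})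
    have h4 : finrank ℝ (span ℝ {x}) ≤ 1 := (finrank_span_le_card _).trans (by simp)
    obtain ⟨B, hB, hB'⟩ := ih (A ⊔ span ℝ {x}) (by omega)
    exact ⟨B, le_sup_left.trans hB, hB'⟩

/-- Small pencils come from tensors in a box. -/
theorem exists_triK {a b : ℕ} (ha : a ≤ m) (hb : b ≤ m) {T : Ten ![2, m, m]}
    (hT : Sup a b (pen T)) : ∃ A : Tri m a b, T ∈ triK m a b A := by
  classical
  obtain ⟨A, N, h1, h2, h3⟩ := hT
  obtain ⟨A', hA, hA'⟩ := exists_enlarge ha A h1
  obtain ⟨C, hC⟩ := Submodule.exists_isCompl N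
  have e1 := Submodule.finrank_add_eq_of_isCompl hC
  rw [finrank_pi, Fintype.card_fin] at e1
  -- a basis of the complement, with the coordinate functionals
  let c := Module.finBasis ℝ C
  let π : (Fin m → ℝ) →ₗ[ℝ] C := C.projectionOnto N hC.symm
  have hπ : ∀ x, x - π x ∈ N := by
    intro x
    have h4 := hC.symm.sup_eq_top
    have hx : x ∈ C ⊔ N := by
      rw [h4]
      exact Submodule.mem_top
    obtain ⟨y, hy, z, hz, rfl⟩ := Submodule.mem_sup.1 hx
    have e3 : π y = ⟨y, hy⟩ := Submodule.projectionOnto_apply_left hC.symm ⟨y, hy⟩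
    have e4 : π z = 0 := Submodule.projectionOnto_apply_of_mem_right hC.symm hz
    rw [map_add, e3, e4, add_zero]
    simpa using hz
  let f : Fin (finrank ℝ C) → Fin m → ℝ := fun l i => c.coord l (π (Pi.single i 1))
  have hf : ∀ l x, c.coord l (π x) = ∑ j, f l j * x j := by
    intro l x
    have h5 : x = ∑ i, x i • (Pi.single i 1 : Fin m → ℝ) := by
      have := (Pi.basisFun ℝ (Fin m)).sum_repr x
      simp only [Pi.basisFun_repr, Pi.basisFun_apply] at this
      exact this.symm
    conv_lhs => rw [h5, map_sum, map_sum]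
    refine Finset.sum_congr rfl fun i _ => ?_
    rw [map_smul, map_smul, smul_eq_mul, mul_comm]
  obtain ⟨B, hB, hB'⟩ := exists_enlarge hb (span ℝ (Set.range f)) (by
    refine (finrank_range_le_card f).trans ?_
    rw [Fintype.card_fin]
    omega)
  have hTT : T = ∑ k : Fin 2, ∑ l, pureT (mk3 (Pi.single k 1) (pen T k (c l : Fin m → ℝ)) (f l)) := by
    apply pen.injective
    funext k
    refine LinearMap.ext fun x => ?_
    rw [map_sum]
    simp only [map_sum]
    rw [Finset.sum_apply, LinearMap.sum_apply]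
    simp only [Finset.sum_apply, LinearMap.sum_apply, pen_pureT]
    rw [Finset.sum_eq_single k]
    · have e2 : pen T k x = pen T k (π x : Fin m → ℝ) := by
        have := (h3 k).2 _ (hπ x)
        rw [map_sub, sub_eq_zero] at this
        exact this
      rw [e2]
      have e3 : (π x : Fin m → ℝ) = ∑ l, c.coord l (π x) • (c l : Fin m → ℝ) := by
        have := congrArg Subtype.val (c.sum_repr (π x))
        rw [AddSubmonoidClass.coe_finsetSum] at this
        rw [← this]
        rfl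
      conv_lhs => rw [e3]
      rw [map_sum]
      refine Finset.sum_congr rfl fun l _ => ?_
      rw [map_smul, hf l x]
      have e4 : c0 (mk3 (Pi.single k 1) (pen T k (c l : Fin m → ℝ)) (f l)) k = 1 :=
        Pi.single_eq_same k 1
      rw [e4, one_mul]
      rfl
    · intro k' _ hk'
      refine Finset.sum_eq_zero fun l _ => ?_
      have e4 : c0 (mk3 (Pi.single k' 1) (pen T k' (c l : Fin m → ℝ)) (f l)) k = 0 :=
        Pi.single_eq_of_ne (Ne.symm hk') 1
      rw [e4, zero_mul, zero_smul]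
    · intro h
      exact absurd (Finset.mem_univ k) h
  refine ⟨⟨mkS A' B, finrank_mkS hA' hB'⟩, ?_⟩
  rw [hTT]
  refine Submodule.sum_mem _ fun k _ => Submodule.sum_mem _ fun l _ => ?_
  exact Submodule.subset_span ⟨_, mk3_mem (hA ((h3 k).1 _)) (hB (Submodule.subset_span ⟨l, rfl⟩)),
    rfl⟩

/-- **The rank of a tensor in terms of its pencil.** -/
theorem mem_rankLE_iff {a b : ℕ} (ha : a ≤ m) (hb : b ≤ m) {s : ℕ} {T : Ten ![2, m, m]} :
    T ∈ RankLE (triK m a b) s ↔ PR a b s (pen T) := by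
  classical
  constructor
  · rintro ⟨A, hA⟩
    rw [Submodule.mem_iSup_iff_exists_finsupp] at hA
    obtain ⟨f, hf, hsum⟩ := hA
    refine ⟨fun j => pen (f j), fun j => sup_of_mem_triK (hf j), ?_⟩
    rw [← map_sum, ← hsum, Finsupp.sum_fintype _ _ fun _ => rfl]
  · rintro ⟨X, hX, hT⟩
    have h1 : ∀ j, ∃ A : Tri m a b, pen.symm (X j) ∈ triK m a b A := fun j =>
      exists_triK ha hb (by rw [LinearEquiv.apply_symm_apply]; exact hX j)
    choose A hA using h1
    refine ⟨A, ?_⟩
    have h2 : T = ∑ j, pen.symm (X j) := by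
      rw [← map_sum, ← hT, LinearEquiv.symm_apply_apply]
    rw [h2]
    exact Submodule.sum_mem _ fun j _ => Submodule.mem_iSup_of_mem j (hA j)

theorem nonempty_tri {a b : ℕ} (ha : a ≤ m) (hb : b ≤ m) : Nonempty (Tri m a b) := by
  obtain ⟨A, -, hA⟩ := exists_enlarge ha (⊥ : Submodule ℝ (Fin m → ℝ)) (by
    rw [finrank_bot]
    exact Nat.zero_le a)
  obtain ⟨B, -, hB⟩ := exists_enlarge hb (⊥ : Submodule ℝ (Fin m → ℝ)) (by
    rw [finrank_bot]
    exact Nat.zero_le b)
  exact ⟨⟨mkS A B, finrank_mkS hA hB⟩⟩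

theorem exists_triK_ne_bot {a b : ℕ} (ha : a ≤ m) (hb : b ≤ m) (ha0 : 1 ≤ a) (hb0 : 1 ≤ b) :
    ∃ A, triK m a b A ≠ ⊥ := by
  have hm : 0 < m := by omega
  -- a rank one pencil
  have h1 : Sup a b (fun _ => (LinearMap.proj (⟨0, hm⟩ : Fin m)).smulRight
      (Pi.single (⟨0, hm⟩ : Fin m) (1 : ℝ)) : Pen m) := by
    refine Sup.mono (a := 1) (b := 1) ?_ ha0 hb0
    refine ⟨span ℝ {Pi.single (⟨0, hm⟩ : Fin m) (1 : ℝ)},
      LinearMap.ker (LinearMap.proj (⟨0, hm⟩ : Fin m) : (Fin m → ℝ) →ₗ[ℝ] ℝ),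
      (finrank_span_le_card _).trans (by simp), ?_, fun k => ⟨fun x => ?_, fun x hx => ?_⟩⟩
    · have e1 := LinearMap.finrank_range_add_finrank_ker
        (LinearMap.proj (⟨0, hm⟩ : Fin m) : (Fin m → ℝ) →ₗ[ℝ] ℝ)
      rw [finrank_pi, Fintype.card_fin] at e1
      have e2 := Submodule.finrank_le
        (LinearMap.range (LinearMap.proj (⟨0, hm⟩ : Fin m) : (Fin m → ℝ) →ₗ[ℝ] ℝ))
      rw [finrank_self] at e2
      omega
    · exact Submodule.smul_mem _ _ (mem_span_singleton_self _)
    · rw [LinearMap.smulRight_apply, LinearMap.mem_ker.1 hx, zero_smul]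
  rw [← LinearEquiv.apply_symm_apply pen (fun _ => _ : Pen m)] at h1
  obtain ⟨A, hA⟩ := exists_triK ha hb h1
  refine ⟨A, fun h0 => ?_⟩
  rw [h0, Submodule.mem_bot, LinearEquiv.symm_apply_eq, map_zero] at hA
  have h2 := congrFun hA 0
  have h3 := LinearMap.congr_fun h2 (Pi.single (⟨0, hm⟩ : Fin m) (1 : ℝ))
  have h4 := congrFun h3 ⟨0, hm⟩
  simp at h4

end Pool.Agent.SubTyp
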