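import Pool.Agent.SubTyp.PenPoly
import Pool.Agent.SubTyp.PenTen
import Pool.Agent.SubTyp.PenEig
import Pool.Agent.SubTyp.PenSkew

/-!
# Generic tensors of format `2 × m × m`
-/

open Module Submodule Set Polynomial
open scoped Topology

namespace Pool.Agent.SubTyp

/-! ### Zero sets of functions that are polynomial on lines -/

theorem dense_ne_zero {W : Type*} [AddCommGroup W] [Module ℝ W] [TopologicalSpace W]
    [ContinuousAdd W] [ContinuousSMul ℝ W] (ψ : W → ℝ) (y : W) (hy : ψ y ≠ 0)
    (hq : ∀ x, ∃ q : ℝ[X], ∀ t : ℝ, ψ (x + t • (y - x)) = q.eval t) : Dense {x | ψ x ≠ 0} := by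
  intro x
  obtain ⟨q, hq⟩ := hq x
  have hq0 : q ≠ 0 := by
    rintro rfl
    have := hq 1
    rw [one_smul, add_sub_cancel, eval_zero] at this
    exact hy this
  have hfin : {t : ℝ | q.eval t = 0}.Finite := by
    refine (q.roots.toFinset.finite_toSet).subset fun t ht => ?_
    rw [Finset.mem_coe, Multiset.mem_toFinset, mem_roots hq0]
    exact ht
  have hdense : Dense {t : ℝ | q.eval t = 0}ᶜ := hfin.countable.dense_compl ℝ
  have hcont : Continuous fun t : ℝ => x + t • (y - x) := by fun_prop
  have h1 : (fun t : ℝ => x + t • (y - x)) 0 ∈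
      closure ((fun t : ℝ => x + t • (y - x)) '' {t : ℝ | q.eval t = 0}ᶜ) :=
    image_closure_subset_closure_image hcont ⟨0, hdense 0, rfl⟩
  simp only [zero_smul, add_zero] at h1
  refine closure_mono ?_ h1
  rintro _ ⟨t, ht, rfl⟩
  change ψ (x + t • (y - x)) ≠ 0
  rw [hq t]
  exact ht

/-! ### The determinant of a cyclic pencil -/

variable {n : ℕ}

/-- `det A` times the determinant of the vectors `(adj A * B) ^ j e₀`. -/
def psi {R : Type*} [CommRing R] (A B : Matrix (Fin (n + 1)) (Fin (n + 1)) R) : R :=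
  A.det * (Matrix.of fun i j : Fin (n + 1) => ((A.adjugate * B) ^ (j : ℕ)) i 0).det

theorem map_psi {R S : Type*} [CommRing R] [CommRing S] (f : R →+* S)
    (A B : Matrix (Fin (n + 1)) (Fin (n + 1)) R) :
    f (psi A B) = psi (A.map f) (B.map f) := by
  unfold psi
  rw [map_mul, RingHom.map_det, RingHom.map_det]
  congr 2
  ext i j
  simp only [RingHom.mapMatrix_apply, Matrix.map_apply, Matrix.of_apply]
  have h1 : ((A.map f).adjugate * B.map f) ^ (j : ℕ) = ((A.adjugate * B) ^ (j : ℕ)).map f := by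
    have e1 : (A.map f).adjugate = A.adjugate.map f := by
      have := RingHom.map_adjugate f A
      exact this.symm
    rw [e1, ← Matrix.map_mul, ← RingHom.mapMatrix_apply, ← RingHom.mapMatrix_apply, ← map_pow]
  rw [h1, Matrix.map_apply]

/-- the function on tensors -/
noncomputable def Psi (T : Ten ![2, n + 1, n + 1]) : ℝ := psi (mat T 0) (mat T 1)

theorem continuous_mat (k : Fin 2) : Continuous fun T : Ten ![2, n, n] => mat T k := by
  refine continuous_matrix fun i j => ?_
  exact continuous_apply (tup k i j)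

theorem continuous_Psi : Continuous (Psi : Ten ![2, n + 1, n + 1] → ℝ) := by
  unfold Psi psi
  have h0 := continuous_mat (n := n + 1) 0
  have h1 := continuous_mat (n := n + 1) 1
  refine Continuous.mul h0.matrix_det (Continuous.matrix_det (continuous_matrix fun i j => ?_))
  have h2 : Continuous fun T : Ten ![2, n + 1, n + 1] =>
      ((mat T 0).adjugate * mat T 1) ^ (j : ℕ) := (h0.matrix_adjugate.matrix_mul h1).pow _
  exact h2.matrix_elem i 0

/-- the shift -/
def shf (n : ℕ) : Matrix (Fin (n + 1)) (Fin (n + 1)) ℝ :=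
  Matrix.of fun i j => if i.val = j.val + 1 then 1 else 0

theorem shf_pow (j : ℕ) (hj : j ≤ n) (i : Fin (n + 1)) :
    (shf n ^ j) i 0 = if i.val = j then 1 else 0 := by
  induction j generalizing i with
  | zero =>
    rw [pow_zero, Matrix.one_apply]
    simp only [Fin.ext_iff, Fin.val_zero]
  | succ j ih =>
    rw [pow_succ', Matrix.mul_apply]
    rw [Finset.sum_eq_single (⟨j, by omega⟩ : Fin (n + 1))]
    · rw [ih (by omega), if_pos rfl, mul_one]
      rfl
    · intro k _ hk
      rw [ih (by omega), if_neg, mul_zero]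
      intro h
      exact hk (Fin.ext h)
    · intro h
      exact absurd (Finset.mem_univ _) h

theorem psi_shf : psi (1 : Matrix (Fin (n + 1)) (Fin (n + 1)) ℝ) (shf n) = 1 := by
  unfold psi
  rw [Matrix.det_one, one_mul, Matrix.adjugate_one, Matrix.one_mul]
  have : (Matrix.of fun i j : Fin (n + 1) => (shf n ^ (j : ℕ)) i 0) = 1 := by
    ext i j
    rw [Matrix.of_apply, shf_pow _ (by omega), Matrix.one_apply]
    simp only [Fin.ext_iff]
  rw [this, Matrix.det_one]

/-- the tensor with given slices -/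
def ofMat (A B : Matrix (Fin n) (Fin n) ℝ) : Ten ![2, n, n] :=
  fun t => (![A, B] : Fin 2 → Matrix (Fin n) (Fin n) ℝ) (t 0) (t 1) (t 2)

theorem mat_ofMat_zero (A B : Matrix (Fin n) (Fin n) ℝ) : mat (ofMat A B) 0 = A := rfl

theorem mat_ofMat_one (A B : Matrix (Fin n) (Fin n) ℝ) : mat (ofMat A B) 1 = B := rfl

theorem dense_Psi : Dense {T : Ten ![2, n + 1, n + 1] | Psi T ≠ 0} := by
  refine dense_ne_zero Psi (ofMat 1 (shf n)) ?_ fun T => ?_
  · unfold Psi
    rw [mat_ofMat_zero, mat_ofMat_one, psi_shf]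
    exact one_ne_zero
  · let P : Fin 2 → Matrix (Fin (n + 1)) (Fin (n + 1)) ℝ[X] := fun k =>
      Matrix.of fun i j => C (mat T k i j) + X * C (mat (ofMat 1 (shf n)) k i j - mat T k i j)
    refine ⟨psi (P 0) (P 1), fun t => ?_⟩
    rw [← coe_evalRingHom, map_psi]
    unfold Psi
    have h1 : ∀ k, (P k).map (evalRingHom t) = mat (T + t • (ofMat 1 (shf n) - T)) k := by
      intro k
      ext i j
      rw [Matrix.map_apply]
      change eval t (C (mat T k i j) + X * C (mat (ofMat 1 (shf n)) k i j - mat T k i j)) = _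
      rw [eval_add, eval_mul, eval_C, eval_X, eval_C]
      rfl
    rw [h1 0, h1 1]

/-- Generic pencils are regular and cyclic. -/
theorem generic {T : Ten ![2, n + 1, n + 1]} (hT : Psi T ≠ 0) :
    Function.Injective (pen T 0) ∧ ∃ (M : End ℝ (Fin (n + 1) → ℝ)) (v : Fin (n + 1) → ℝ),
      Cyc M v ∧ pen T = ![pen T 0, pen T 0 ∘ₗ M] := by
  unfold Psi psi at hT
  set A := mat T 0 with hA
  set B := mat T 1 with hB
  have hdet : A.det ≠ 0 := left_ne_zero_of_mul hT
  have hdet2 := right_ne_zero_of_mul hT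
  have hunit : IsUnit A.det := hdet.isUnit
  have hinj : Function.Injective (pen T 0) := by
    rw [pen_apply, ← hA]
    refine Function.LeftInverse.injective (g := Matrix.toLin' A⁻¹) fun x => ?_
    rw [← LinearMap.comp_apply, ← Matrix.toLin'_mul, Matrix.nonsing_inv_mul A hunit,
      Matrix.toLin'_one, LinearMap.id_apply]
  refine ⟨hinj, Matrix.toLin' (A⁻¹ * B), Pi.single 0 1, ?_, ?_⟩
  · -- cyclicity
    have hpow : ∀ j : ℕ, ((Matrix.toLin' (A⁻¹ * B)) ^ j) (Pi.single 0 1) =
        fun i => (A.det⁻¹) ^ j * ((A.adjugate * B) ^ j) i 0 := by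
      intro j
      have e1 : A⁻¹ * B = A.det⁻¹ • (A.adjugate * B) := by
        rw [Matrix.inv_def, Matrix.smul_mul, Ring.inverse_eq_inv']
      have e2 : (Matrix.toLin' (A⁻¹ * B)) ^ j = Matrix.toLin' ((A⁻¹ * B) ^ j) :=
        (map_pow Matrix.toLinAlgEquiv' (A⁻¹ * B) j).symm
      rw [e2, e1, _root_.smul_pow, Matrix.toLin'_apply]
      funext i
      rw [Matrix.mulVec_single_one]
      rfl
    unfold Cyc
    rw [Fintype.linearIndependent_iff]
    intro g hg i
    have hcol : LinearIndependent ℝ (fun j : Fin (n + 1) =>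
        fun i => ((A.adjugate * B) ^ (j : ℕ)) i 0) := by
      have := Matrix.linearIndependent_cols_of_det_ne_zero hdet2
      exact this
    rw [Fintype.linearIndependent_iff] at hcol
    have h1 := hcol (fun j => g j * (A.det⁻¹) ^ (j : ℕ)) (by
      rw [← hg]
      refine Finset.sum_congr rfl fun j _ => ?_
      rw [hpow j]
      funext k
      simp only [Pi.smul_apply, smul_eq_mul]
      ring) i
    exact (mul_eq_zero.1 h1).resolve_right (pow_ne_zero _ (inv_ne_zero hdet))
  · funext k
    fin_cases k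
    · rfl
    · change pen T 1 = pen T 0 ∘ₗ Matrix.toLin' (A⁻¹ * B)
      rw [pen_apply, pen_apply, ← hA, ← hB, ← Matrix.toLin'_mul, ← Matrix.mul_assoc,
        Matrix.mul_nonsing_inv A hunit, Matrix.one_mul]

end Pool.Agent.SubTyp
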