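import Pool.Agent.SubTyp.PenDefs

/-!
# Lower bounds: odd blocks give real eigenvectors
-/

open Module Submodule Polynomial

namespace Pool.Agent.SubTyp

variable {m : ℕ}

theorem PR.sup_mul {c d s : ℕ} {T : Pen m} (h : PR c d s T) : Sup (s * c) (s * d) T := by
  induction s generalizing T with
  | zero =>
    obtain ⟨X, -, h2⟩ := h
    rw [h2]
    simp only [Finset.univ_eq_empty, Finset.sum_empty]
    exact Sup.zero _ _
  | succ s ih =>
    obtain ⟨X, U, h1, h2, rfl⟩ := PR.succ_iff.1 h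
    rw [add_comm X U, Nat.succ_mul, Nat.succ_mul]
    exact (ih h2).add h1

/-- **The dimension count.** -/
theorem PR.le_mul {a b s : ℕ} {T : Pen m} (h : PR a b s T) (h0 : Function.Injective (T 0)) :
    m ≤ s * a ∧ m ≤ s * b := by
  obtain ⟨A, N, h1, h2, h3⟩ := h.sup_mul
  constructor
  · have e1 : LinearMap.range (T 0) ≤ A := by
      rintro _ ⟨x, rfl⟩
      exact (h3 0).1 x
    have e2 := Submodule.finrank_mono e1
    rw [LinearMap.finrank_range_of_inj h0, finrank_pi, Fintype.card_fin] at e2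
    omega
  · have e1 : N = ⊥ := by
      rw [eq_bot_iff]
      intro x hx
      refine (Submodule.mem_bot ℝ).2 (h0 ?_)
      rw [(h3 0).2 x hx, map_zero]
    rw [e1, finrank_bot] at h2
    omega

/-- A monic real polynomial of odd degree has a real root. -/
theorem exists_root_of_odd (k : ℕ) : ∀ {f : ℝ[X]}, IsMonicOfDegree f (2 * k + 1) →
    ∃ x, f.IsRoot x := by
  induction k with
  | zero =>
    intro f hf
    have h1 : f.degree = 1 := by
      rw [degree_eq_natDegree hf.monic.ne_zero, hf.natDegree_eq]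
      rfl
    exact exists_root_of_degree_eq_one h1
  | succ k ih =>
    intro f hf
    obtain ⟨f₁, f₂, -, h2, rfl⟩ :=
      Polynomial.IsMonicOfDegree.eq_isMonicOfDegree_two_mul_isMonicOfDegree
        (show IsMonicOfDegree f (2 * k + 1 + 2) from hf)
    obtain ⟨x, hx⟩ := ih h2
    refine ⟨x, ?_⟩
    rw [IsRoot.def, eval_mul, IsRoot.def.1 hx, mul_zero]

/-- **Odd blocks have real eigenvectors.** -/
theorem exists_eig {a : ℕ} (ha : Odd a) {T : Pen m} (h0 : Function.Injective (T 0))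
    {U A : Submodule ℝ (Fin m → ℝ)} (hA : finrank ℝ A ≤ a) (hU : a ≤ finrank ℝ U)
    (hT : ∀ k, ∀ x ∈ U, T k x ∈ A) : ∃ z ∈ U, z ≠ 0 ∧ ∃ c : ℝ, T 1 z = c • T 0 z := by
  let f0 : U →ₗ[ℝ] A := (T 0).restrict (hT 0)
  let f1 : U →ₗ[ℝ] A := (T 1).restrict (hT 1)
  have hinj : Function.Injective f0 := by
    intro x y hxy
    have := congrArg Subtype.val hxy
    exact Subtype.ext (h0 this)
  have h1 : finrank ℝ U ≤ finrank ℝ A := LinearMap.finrank_le_finrank_of_injective hinj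
  have hdim : finrank ℝ U = finrank ℝ A := by omega
  let e : U ≃ₗ[ℝ] A := LinearEquiv.ofInjectiveOfFinrankEq f0 hinj hdim
  let M : End ℝ U := e.symm.toLinearMap ∘ₗ f1
  obtain ⟨k, hk⟩ := ha
  have hM : IsMonicOfDegree M.charpoly (2 * k + 1) :=
    ⟨by rw [LinearMap.charpoly_natDegree]; omega, LinearMap.charpoly_monic M⟩
  obtain ⟨c, hc⟩ := exists_root_of_odd k hM
  have h2 : M.HasEigenvalue c := (Module.End.hasEigenvalue_iff_isRoot_charpoly M c).2 hc
  obtain ⟨z, hz⟩ := h2.exists_hasEigenvector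
  refine ⟨z, z.2, ?_, c, ?_⟩
  · intro h
    exact hz.2 (Subtype.ext h)
  · have h3 : e.symm (f1 z) = c • z := hz.apply_eq_smul
    have h4 : f1 z = e (c • z) := by
      rw [← h3, LinearEquiv.apply_symm_apply]
    rw [map_smul] at h4
    have h5 := congrArg Subtype.val h4
    exact h5

/-- **Two independent real eigenvectors**, from a decomposition into `s ≥ 2` odd blocks. -/
theorem exists_two_eig {a s : ℕ} (ha : Odd a) (hm : m = a * (s + 2)) {T : Pen m}
    (h0 : Function.Injective (T 0)) (h : PR a a (s + 2) T) :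
    ∃ z w : Fin m → ℝ, z ≠ 0 ∧ w ≠ 0 ∧ (∃ c : ℝ, T 1 z = c • T 0 z) ∧
      (∃ d : ℝ, T 1 w = d • T 0 w) ∧ ∀ r t : ℝ, r • z = t • w → r • z = 0 := by
  obtain ⟨X, V, hX, hV, rfl⟩ := PR.succ_iff.1 h
  obtain ⟨Y, R, hY, hR, rfl⟩ := PR.succ_iff.1 hV
  obtain ⟨A, N, a1, a2, a3⟩ := hX
  obtain ⟨B, P, b1, b2, b3⟩ := hY
  obtain ⟨C, Q, c1, c2, c3⟩ := hR.sup_mul
  have hms : m = a + (a + s * a) := by rw [hm]; ring
  have hinf : ∀ S S' : Submodule ℝ (Fin m → ℝ), finrank ℝ S + finrank ℝ S' ≤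
      m + finrank ℝ (S ⊓ S' : Submodule ℝ (Fin m → ℝ)) := by
    intro S S'
    have e1 := Submodule.finrank_sup_add_finrank_inf_eq S S'
    have e2 := Submodule.finrank_le (S ⊔ S')
    rw [finrank_pi, Fintype.card_fin] at e2
    omega
  -- the eigenvector of the first block
  obtain ⟨z, hz, hz0, hzc⟩ := exists_eig ha h0 (U := P ⊓ Q) (A := A) a1 (by
    have := hinf P Q
    omega) (by
    rintro k x ⟨hx1, hx2⟩
    change X k x + (Y k x + R k x) ∈ A
    rw [(b3 k).2 x hx1, (c3 k).2 x hx2, add_zero, add_zero]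
    exact (a3 k).1 x)
  obtain ⟨w, hw, hw0, hwc⟩ := exists_eig ha h0 (U := N ⊓ Q) (A := B) b1 (by
    have := hinf N Q
    omega) (by
    rintro k x ⟨hx1, hx2⟩
    change X k x + (Y k x + R k x) ∈ B
    rw [(a3 k).2 x hx1, (c3 k).2 x hx2, add_zero, zero_add]
    exact (b3 k).1 x)
  refine ⟨z, w, hz0, hw0, hzc, hwc, fun r t hrt => h0 ?_⟩
  have h1 : r • z ∈ P := P.smul_mem r hz.1
  have h2 : r • z ∈ Q := Q.smul_mem r hz.2
  have h3 : r • z ∈ N := by
    rw [hrt]
    exact N.smul_mem t hw.1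
  change X 0 (r • z) + (Y 0 (r • z) + R 0 (r • z)) = X 0 0 + (Y 0 0 + R 0 0)
  rw [(a3 0).2 _ h3, (b3 0).2 _ h1, (c3 0).2 _ h2, map_zero, map_zero, map_zero]

end Pool.Agent.SubTyp
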