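import Pool.Agent.SubTyp.PenGen
import Pool.Agent.SubTyp.PenLow

/-!
# Typical ranks of real pencils with respect to subspace varieties
-/

open Module Submodule Set Polynomial
open scoped Topology

namespace Pool.Agent.SubTyp

variable {n : ℕ}

/-! ### Dense sets -/

theorem dense_injective : Dense {T : Ten ![2, n + 1, n + 1] | Function.Injective (pen T 0)} :=
  dense_Psi.mono fun _ hT => (generic hT).1

theorem dense_group {c s : ℕ} (hs : n + 2 ≤ s * c) :
    Dense {T : Ten ![2, n + 1, n + 1] | PR c c s (pen T)} := by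
  refine dense_Psi.mono fun T hT => ?_
  obtain ⟨-, M, v, hM, hpen⟩ := generic hT
  change PR c c s (pen T)
  rw [hpen]
  exact (PR.of_cyc hM _).group hs

theorem dense_dec : Dense {T : Ten ![2, n + 1, n + 1] | Dec (n + 1) (pen T)} := by
  rw [dense_iff_inter_open]
  intro O hO hne
  obtain ⟨T, hTO, hT⟩ := dense_iff_inter_open.1 dense_Psi O hO hne
  obtain ⟨-, M, v, hcyc, hpen⟩ := generic hT
  obtain ⟨g, hg⟩ := exists_perturb hcyc
  set U : Ten ![2, n + 1, n + 1] := pen.symm ![0, pen T 0 ∘ₗ g.smulRight v] with hU
  have hcont : Continuous fun t : ℝ => T + t • U := by fun_prop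
  have hnhds : (fun t : ℝ => T + t • U) ⁻¹' O ∈ 𝓝 (0 : ℝ) := by
    refine hcont.continuousAt.preimage_mem_nhds (hO.mem_nhds ?_)
    rw [zero_smul, add_zero]
    exact hTO
  obtain ⟨δ, hδ, hball⟩ := Metric.mem_nhds_iff.1 hnhds
  obtain ⟨ε, h1, h2, h3⟩ := hg δ hδ
  refine ⟨T + ε • U, hball ?_, ?_⟩
  · rw [mem_ball_zero_iff, Real.norm_eq_abs, abs_of_pos h1]
    exact h2
  · change Dec (n + 1) (pen (T + ε • U))
    rw [map_add, map_smul, hU, LinearEquiv.apply_symm_apply, hpen]
    exact h3 (pen T 0)

/-! ### Open sets -/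

theorem det_pen (T : Ten ![2, n, n]) (x : ℝ) :
    LinearMap.det (x • pen T 0 - pen T 1) = (x • mat T 0 - mat T 1).det := by
  rw [pen_apply, pen_apply, ← map_smul, ← map_sub, LinearMap.det_toLin']

/-- tensors with real eigenvalues -/
theorem exists_open_eig : ∃ O : Set (Ten ![2, n, n]), IsOpen O ∧ O.Nonempty ∧
    ∀ T ∈ O, Function.Injective (pen T 0) ∧ PR 1 1 n (pen T) := by
  set x : ℕ → ℝ := fun i => (i : ℝ) - 1 / 2 with hx
  have hxm : StrictMono x := by
    intro i j hij
    have : (i : ℝ) < j := by exact_mod_cast hij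
    change (i : ℝ) - 1 / 2 < (j : ℝ) - 1 / 2
    linarith
  refine ⟨{T | (mat T 0).det ≠ 0} ∩ ⋂ i : Fin n, {T | (x i • mat T 0 - mat T 1).det *
    (x (i + 1) • mat T 0 - mat T 1).det < 0}, ?_, ?_, ?_⟩
  · have h0 := continuous_mat (n := n) 0
    have h1 := continuous_mat (n := n) 1
    refine IsOpen.inter ?_ (isOpen_iInter_of_finite fun i => ?_)
    · exact (isOpen_ne (x := (0 : ℝ))).preimage h0.matrix_det
    · have h2 : Continuous fun T : Ten ![2, n, n] => (x i • mat T 0 - mat T 1).det *
          (x (i + 1) • mat T 0 - mat T 1).det :=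
        ((h0.const_smul (x i)).sub h1).matrix_det.mul
          ((h0.const_smul (x (i + 1))).sub h1).matrix_det
      exact (isOpen_Iio (a := (0 : ℝ))).preimage h2
  · refine ⟨ofMat 1 (Matrix.diagonal fun i : Fin n => ((i : ℕ) : ℝ)), ?_, ?_⟩
    · change (mat (ofMat 1 _) 0).det ≠ 0
      rw [mat_ofMat_zero, Matrix.det_one]
      exact one_ne_zero
    · rw [mem_iInter]
      intro i
      change (x i • mat (ofMat 1 _) 0 - mat (ofMat 1 _) 1).det *
        (x (i + 1) • mat (ofMat 1 _) 0 - mat (ofMat 1 _) 1).det < 0
      rw [mat_ofMat_zero, mat_ofMat_one]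
      have hdiag : ∀ t : ℝ, (t • (1 : Matrix (Fin n) (Fin n) ℝ) -
          Matrix.diagonal fun i : Fin n => ((i : ℕ) : ℝ)).det = ∏ k : Fin n, (t - (k : ℕ)) := by
        intro t
        rw [← Matrix.diagonal_one, ← Matrix.diagonal_smul, Matrix.diagonal_sub, Matrix.det_diagonal]
        refine Finset.prod_congr rfl fun k _ => ?_
        simp
      rw [hdiag, hdiag, ← Finset.prod_mul_distrib, ← Finset.mul_prod_erase _ _ (Finset.mem_univ i)]
      refine mul_neg_of_neg_of_pos ?_ (Finset.prod_pos fun k hk => ?_)
      · rw [hx]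
        push_cast
        ring_nf
        norm_num
      · have hne : (k : ℕ) ≠ i := fun h => (Finset.mem_erase.1 hk).1 (Fin.ext h)
        rw [hx]
        push_cast
        have h2 : (1 : ℝ) ≤ (((i : ℕ) : ℝ) - (k : ℕ)) ^ 2 := by
          have h3 : (1 : ℤ) ≤ (((i : ℕ) : ℤ) - (k : ℕ)) ^ 2 := by
            have h4 : ((i : ℕ) : ℤ) - (k : ℕ) ≠ 0 := by
              intro h
              apply hne
              omega
            have := sq_pos_of_ne_zero h4
            omega
          exact_mod_cast h3
        nlinarith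
  · rintro T ⟨h1, h2⟩
    have hinj : Function.Injective (pen T 0) := by
      rw [pen_apply]
      refine Function.LeftInverse.injective (g := Matrix.toLin' (mat T 0)⁻¹) fun x => ?_
      rw [← LinearMap.comp_apply, ← Matrix.toLin'_mul,
        Matrix.nonsing_inv_mul _ (IsUnit.mk0 _ h1), Matrix.toLin'_one, LinearMap.id_apply]
    refine ⟨hinj, PR.of_signs hinj x hxm fun i hi => ?_⟩
    rw [det_pen, det_pen]
    exact mem_iInter.1 h2 ⟨i, hi⟩

theorem norm_pen_le (E : Ten ![2, n, n]) (k : Fin 2) (x : Fin n → ℝ) :
    ‖pen E k x‖ ≤ n * ‖E‖ * ‖x‖ := by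
  rw [pi_norm_le_iff_of_nonneg (by positivity)]
  intro i
  rw [pen_apply_apply]
  refine (norm_sum_le _ _).trans ?_
  calc ∑ j : Fin n, ‖E (tup k i j) * x j‖ ≤ ∑ _j : Fin n, ‖E‖ * ‖x‖ := by
        refine Finset.sum_le_sum fun j _ => ?_
        rw [norm_mul]
        exact mul_le_mul (norm_le_pi_norm E _) (norm_le_pi_norm x j) (norm_nonneg _) (norm_nonneg _)
    _ = n * ‖E‖ * ‖x‖ := by
        rw [Finset.sum_const, Finset.card_univ, Fintype.card_fin, nsmul_eq_mul]
        ring

theorem exists_open_skw : ∃ O : Set (Ten ![2, n + 1, n + 1]), IsOpen O ∧ O.Nonempty ∧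
    ∀ T ∈ O, Close (1 / 20) (pen T) := by
  set S : Ten ![2, n + 1, n + 1] := ofMat 1 (LinearMap.toMatrix' (skw (n + 1))) with hS
  refine ⟨Metric.ball S (1 / (20 * ((n + 1 : ℕ) : ℝ))), Metric.isOpen_ball,
    ⟨S, Metric.mem_ball_self (by positivity)⟩, fun T hT => ?_⟩
  have hT' : ‖T - S‖ ≤ 1 / (20 * ((n + 1 : ℕ) : ℝ)) := by
    rw [← dist_eq_norm]
    exact (Metric.mem_ball.1 hT).le
  have hb : ∀ (k : Fin 2) (x : Fin (n + 1) → ℝ), ‖pen T k x - pen S k x‖ ≤ 1 / 20 * ‖x‖ := by
    intro k x
    have e1 : pen T k x - pen S k x = pen (T - S) k x := by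
      rw [map_sub]
      rfl
    rw [e1]
    refine (norm_pen_le _ k x).trans (mul_le_mul_of_nonneg_right ?_ (norm_nonneg x))
    calc ((n + 1 : ℕ) : ℝ) * ‖T - S‖ ≤ ((n + 1 : ℕ) : ℝ) * (1 / (20 * ((n + 1 : ℕ) : ℝ))) :=
          mul_le_mul_of_nonneg_left hT' (by positivity)
      _ = 1 / 20 := by
          have : ((n + 1 : ℕ) : ℝ) ≠ 0 := by positivity
          field_simp
  constructor
  · intro x
    have h1 := hb 0 x
    have h2 : pen S 0 x = x := by
      rw [pen_apply, hS, mat_ofMat_zero, Matrix.toLin'_one, LinearMap.id_apply]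
    rwa [h2] at h1
  · intro x
    have h1 := hb 1 x
    have h2 : pen S 1 x = skw (n + 1) x := by
      rw [pen_apply, hS, mat_ofMat_one, Matrix.toLin'_toMatrix']
    rwa [h2] at h1

/-! ### The main theorem -/

/-- **The typical ranks of real pencils of square matrices with respect to subspace varieties.** -/
theorem typical_pencils {m a b : ℕ} (ha : 1 ≤ a) (ha' : a ≤ m) (hb : 1 ≤ b) (hb' : b ≤ m) (d : ℕ) :
    IsTypicalRank (SubVar ![2, m, m] ![2, a, b]) d ↔
      d = (m + min a b - 1) / min a b ∨
        (a = b ∧ a % 2 = 1 ∧ a ∣ m ∧ a < m ∧ d = m / a + 1) := by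
  obtain ⟨n, rfl⟩ : ∃ n, m = n + 1 := ⟨m - 1, by omega⟩
  have hne := nonempty_tri (m := n + 1) ha' hb'
  have hK := exists_triK_ne_bot (m := n + 1) ha' hb' ha hb
  rw [subVar_eq]
  set r := min a b with hr
  have hr1 : 1 ≤ r := by omega
  set c := (n + 1 + r - 1) / r with hc
  have hc1 : n + 1 ≤ c * r := by
    have h1 := Nat.lt_div_mul_add (a := n + 1 + r - 1) (b := r) (by omega)
    rw [← hc] at h1
    omega
  have hc2 : (c - 1) * r < n + 1 := by
    have h1 := Nat.div_mul_le_self (n + 1 + r - 1) r
    rw [← hc] at h1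
    rw [Nat.sub_mul, Nat.one_mul]
    omega
  have hc0 : 1 ≤ c := by
    rcases Nat.eq_zero_or_pos c with h | h
    · rw [h, Nat.zero_mul] at hc1
      omega
    · exact h
  -- lower bound
  have hnot : ∀ T : Ten ![2, n + 1, n + 1], Function.Injective (pen T 0) →
      T ∉ RankLE (triK (n + 1) a b) (c - 1) := by
    intro T hT hcon
    rw [mem_rankLE_iff ha' hb'] at hcon
    obtain ⟨h1, h2⟩ := hcon.le_mul hT
    rcases le_total a b with h | h
    · rw [min_eq_left h] at hr
      rw [hr] at hc2
      omega
    · rw [min_eq_right h] at hr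
      rw [hr] at hc2
      omega
  have hlow : IsTypicalRank (famSet (triK (n + 1) a b)) d → c ≤ d := by
    intro h
    have h1 := lt_typical (triK (n + 1) a b) hK (s := c - 1)
      (dense_injective.mono fun T hT => hnot T hT) h
    omega
  -- the generic rank is typical
  have htyp : IsTypicalRank (famSet (triK (n + 1) a b)) c := by
    obtain ⟨O, hO, hOne, hOT⟩ := exists_open_eig (n := n + 1)
    have h1 := typical_of_open (triK (n + 1) a b) hK (s := c - 1) hO hOne (fun T hT => by
      rw [mem_rankLE_iff ha' hb', Nat.sub_add_cancel hc0]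
      exact ((hOT T hT).2.group hc1).mono (min_le_left a b) (min_le_right a b))
      fun T hT => hnot T (hOT T hT).1
    rwa [Nat.sub_add_cancel hc0] at h1
  by_cases hex : a = b ∧ a % 2 = 1 ∧ a ∣ n + 1 ∧ a < n + 1
  · -- the exceptional case
    obtain ⟨hab, hodd, hdvd, hlt⟩ := hex
    subst hab
    rw [min_self] at hr
    rw [hr] at hc hc1 hc2
    obtain ⟨t, ht⟩ := hdvd
    have hct : c = t := by
      rw [hc, ht]
      have : a * t + a - 1 = a * t + (a - 1) := by omega
      rw [this, Nat.mul_add_div (by omega), Nat.div_eq_of_lt (by omega), add_zero]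
    have hma : (n + 1) / a = c := by
      rw [ht, hct]
      exact Nat.mul_div_cancel_left t (by omega)
    have ht2 : 2 ≤ t := by
      by_contra hcon
      have : t = 0 ∨ t = 1 := by omega
      rcases this with h | h
      · rw [h] at ht
        omega
      · rw [h] at ht
        omega
    rw [hma]
    have hup : IsTypicalRank (famSet (triK (n + 1) a a)) d → d ≤ c + 1 := by
      refine typical_le (triK (n + 1) a a) hK ?_
      refine (dense_group (c := a) (s := c + 1) ?_).mono fun T hT =>
        (mem_rankLE_iff ha' hb').2 hT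
      rw [Nat.succ_mul]
      omega
    have htyp' : IsTypicalRank (famSet (triK (n + 1) a a)) (c + 1) := by
      obtain ⟨O, hO, hOne, hOT⟩ := exists_open_skw (n := n)
      have hO' : IsOpen (O ∩ {T | Psi T ≠ 0}) :=
        hO.inter (isOpen_ne.preimage continuous_Psi)
      refine typical_of_open (triK (n + 1) a a) hK (s := c) hO'
        (dense_iff_inter_open.1 dense_Psi O hO hOne) ?_ ?_
      · rintro T ⟨-, hT⟩
        obtain ⟨-, M, v, hM, hpen⟩ := generic hT
        rw [mem_rankLE_iff ha' hb', hpen]
        refine (PR.of_cyc hM _).group ?_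
        rw [Nat.succ_mul]
        omega
      · rintro T ⟨hT, -⟩ hcon
        rw [mem_rankLE_iff ha' hb'] at hcon
        have hcl := hOT T hT
        obtain ⟨s, hs⟩ : ∃ s, c = s + 2 := ⟨c - 2, by omega⟩
        rw [hs] at hcon
        obtain ⟨z, w, hz0, hw0, ⟨c1, hz⟩, ⟨c2, hw⟩, hzw⟩ :=
          exists_two_eig (Nat.odd_iff.2 hodd) (by rw [ht, ← hct, hs]) (hcl.injective (by norm_num))
            hcon
        obtain ⟨p, q, hp, hpq⟩ := hcl.proportional hz0 hw0 hz hw
        have := hzw p q hpq
        rw [smul_eq_zero] at this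
        rcases this with h | h
        · exact hp h
        · exact hz0 h
    constructor
    · intro h
      have h1 := hlow h
      have h2 := hup h
      rcases Nat.lt_or_ge c d with h3 | h3
      · right
        exact ⟨rfl, hodd, ⟨t, ht⟩, hlt, by omega⟩
      · left
        omega
    · rintro (h | ⟨-, -, -, -, h⟩)
      · rw [h]
        exact htyp
      · rw [h]
        exact htyp'
  · -- all other cases
    have hdense : Dense (RankLE (triK (n + 1) a b) c) := by
      by_cases hfull : r = n + 1
      · -- everything is of rank one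
        have h1 : RankLE (triK (n + 1) a b) c = univ := by
          rw [eq_univ_iff_forall]
          intro T
          rw [mem_rankLE_iff ha' hb']
          refine (PR.single ?_).le hc0
          refine ⟨⊤, ⊥, ?_, ?_, fun k => ⟨fun x => Submodule.mem_top, fun x hx => ?_⟩⟩
          · rw [finrank_top, finrank_pi, Fintype.card_fin]
            omega
          · omega
          · rw [(Submodule.mem_bot ℝ).1 hx, map_zero]
        rw [h1]
        exact dense_univ
      · by_cases hdvd : r ∣ n + 1
        · obtain ⟨t, ht⟩ := hdvd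
          have hct : c = t := by
            rw [hc, ht]
            have : r * t + r - 1 = r * t + (r - 1) := by omega
            rw [this, Nat.mul_add_div (by omega), Nat.div_eq_of_lt (by omega), add_zero]
          refine dense_dec.mono fun T hT => ?_
          rw [mem_rankLE_iff ha' hb', hct]
          change Dec (n + 1) (pen T) at hT
          rcases Nat.even_or_odd' r with ⟨k, hk | hk⟩
          · have hT' : Dec (2 * k * t) (pen T) := by
              have e : 2 * k * t = n + 1 := by rw [ht, hk]
              rw [e]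
              exact hT
            have h1 := hT'.even
            rw [← hk] at h1
            exact h1.mono (min_le_left a b) (min_le_right a b)
          · have hT' : Dec ((2 * k + 1) * t) (pen T) := by
              have e : (2 * k + 1) * t = n + 1 := by rw [ht, hk]
              rw [e]
              exact hT
            have h1 := hT'.odd
            rcases lt_trichotomy a b with h | h | h
            · have hra : a = 2 * k + 1 := by
                rw [← hk, hr, min_eq_left h.le]
              exact h1.1.mono (by omega) (by omega)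
            · exfalso
              apply hex
              rw [← h, min_self] at hr
              refine ⟨h, by omega, ?_, by omega⟩
              rw [← hr, ht]
              exact Dvd.intro t rfl
            · have hrb : b = 2 * k + 1 := by
                rw [← hk, hr, min_eq_right h.le]
              exact h1.2.mono (by omega) (by omega)
        · refine (dense_group (c := r) (s := c) ?_).mono fun T hT => ?_
          · have h1 : n + 1 ≠ c * r := fun h => hdvd ⟨c, by rw [h, Nat.mul_comm]⟩
            omega
          · rw [mem_rankLE_iff ha' hb']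
            exact PR.mono hT (min_le_left a b) (min_le_right a b)
    constructor
    · intro h
      left
      exact le_antisymm (typical_le _ hK hdense h) (hlow h)
    · rintro (h | ⟨h1, h2, h3, h4, -⟩)
      · rw [h]
        exact htyp
      · exact absurd ⟨h1, h2, h3, h4⟩ hex

end Pool.Agent.SubTyp
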