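import Pool.Agent.SubTyp.PenReal

/-!
# Decompositions of cyclic real pencils: the polynomials
-/

open Module Submodule Polynomial UniqueFactorizationMonoid

namespace Pool.Agent.SubTyp

variable {m : ℕ}

/-- A monic squarefree real polynomial is a product of pairwise coprime polynomials of degree one
and two. -/
theorem exists_factors {p : ℝ[X]} (hp : p.Monic) (hsq : Squarefree p) :
    ∃ s : Finset ℝ[X], ∏ q ∈ s, q = p ∧ (∀ q ∈ s, q ≠ 0 ∧ (q.natDegree = 1 ∨ q.natDegree = 2)) ∧
      (s : Set ℝ[X]).Pairwise fun q r => IsCoprime q r := by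
  classical
  have hp0 : p ≠ 0 := hp.ne_zero
  have hnd := (squarefree_iff_nodup_normalizedFactors hp0).1 hsq
  refine ⟨(normalizedFactors p).toFinset, ?_, ?_, ?_⟩
  · rw [Finset.prod, Multiset.toFinset_val, hnd.dedup, Multiset.map_id',
      prod_normalizedFactors_eq hp0, hp.normalize_eq_self]
  · intro q hq
    rw [Multiset.mem_toFinset] at hq
    have h1 := irreducible_of_normalized_factor q hq
    have h2 := h1.natDegree_le_two
    have h3 := h1.natDegree_pos
    exact ⟨h1.ne_zero, by omega⟩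
  · intro q hq r hr hqr
    rw [Finset.mem_coe, Multiset.mem_toFinset] at hq hr
    have h1 := irreducible_of_normalized_factor q hq
    have h2 := irreducible_of_normalized_factor r hr
    rw [h1.coprime_iff_not_dvd]
    intro h3
    apply hqr
    have h4 : Associated q r := h1.associated_of_dvd h2 h3
    rw [← normalize_normalized_factor q hq, ← normalize_normalized_factor r hr]
    exact normalize_eq_normalize_iff_associated.2 h4

theorem dec_of_squarefree {M : End ℝ (Fin m → ℝ)} {v : Fin m → ℝ} (h : Cyc M v) {p : ℝ[X]}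
    (hp : p.Monic) (hsq : Squarefree p) (hd : p.natDegree = m) (hm : 0 < m)
    (h0 : aeval M p = 0) (T : End ℝ (Fin m → ℝ)) : Dec m (![T, T ∘ₗ M] : Pen m) := by
  classical
  obtain ⟨s, hs, hdeg, hco⟩ := exists_factors hp hsq
  have hne : s.Nonempty := by
    rw [Finset.nonempty_iff_ne_empty]
    rintro rfl
    rw [Finset.prod_empty] at hs
    rw [← hs, natDegree_one] at hd
    omega
  obtain ⟨X, hX, hT⟩ := split (T := T) s (fun q => q) (M := M) hco hne (by rw [hs]; exact h0)
    (d := fun q => q.natDegree) fun q hq => h.finrank_ker_le (hdeg q hq).1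
  rw [hT]
  have h1 : m = ∑ q ∈ s, q.natDegree := by
    rw [← natDegree_prod s (fun q => q) fun q hq => (hdeg q hq).1, hs, hd]
  have h2 := Dec.sum s (fun q => q.natDegree) X (fun q hq => (hdeg q hq).2) hX
  rwa [← h1] at h2

/-- **A cyclic pencil is the sum of `m + 1` pencils of size `(1, 1)`.** -/
theorem PR.of_cyc {n : ℕ} {M : End ℝ (Fin (n + 1) → ℝ)} {v : Fin (n + 1) → ℝ} (h : Cyc M v)
    (T : End ℝ (Fin (n + 1) → ℝ)) : PR 1 1 (n + 2) (![T, T ∘ₗ M] : Pen (n + 1)) := by
  classical
  obtain ⟨g, hg⟩ := h.modify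
  set p : ℝ[X] := ∏ i : Fin (n + 1), (X - C ((i : ℕ) : ℝ)) with hp
  have hmon : p.Monic := monic_prod_of_monic _ _ fun i _ => monic_X_sub_C _
  have hdeg : p.natDegree = n + 1 := by
    rw [hp, natDegree_prod_of_monic _ _ fun i _ => monic_X_sub_C _]
    simp only [natDegree_X_sub_C, Finset.sum_const, Finset.card_univ, Fintype.card_fin, smul_eq_mul,
      mul_one]
  obtain ⟨h1, h2⟩ := hg p hmon hdeg _ rfl
  set u : Fin (n + 1) → ℝ :=
    (M ^ (n + 1)) v + ∑ i : Fin (n + 1), p.coeff i • (M ^ (i : ℕ)) v with hu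
  set M' := M - g.smulRight u with hM'
  have hco : Pairwise (Function.onFun IsCoprime fun i : Fin (n + 1) => X - C ((i : ℕ) : ℝ)) :=
    pairwise_coprime_X_sub_C fun i j hij => Fin.ext (by exact_mod_cast hij)
  obtain ⟨Y, hY, hT⟩ := split (T := T) Finset.univ
    (fun i : Fin (n + 1) => (X - C ((i : ℕ) : ℝ) : ℝ[X])) (M := M')
    (fun i _ j _ hij => hco hij) Finset.univ_nonempty h2 (d := fun _ => 1) fun i _ => by
      have := h1.finrank_ker_le (X_sub_C_ne_zero ((i : ℕ) : ℝ))
      rwa [natDegree_X_sub_C] at this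
  have h3 : PR 1 1 (n + 1) (![T, T ∘ₗ M'] : Pen (n + 1)) :=
    ⟨Y, fun i => hY i (Finset.mem_univ i), hT⟩
  have h4 : Sup 1 1 (![0, T ∘ₗ g.smulRight u] : Pen (n + 1)) := by
    refine ⟨span ℝ {T u}, LinearMap.ker g, (finrank_span_le_card _).trans (by simp), ?_,
      fun k => ?_⟩
    · have e1 := LinearMap.finrank_range_add_finrank_ker g
      rw [finrank_pi, Fintype.card_fin] at e1
      have e2 := Submodule.finrank_le (LinearMap.range g)
      rw [finrank_self] at e2
      omega
    · fin_cases k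
      · exact ⟨fun x => Submodule.zero_mem _, fun x _ => rfl⟩
      · refine ⟨fun x => ?_, fun x hx => ?_⟩
        · change T (g x • u) ∈ _
          rw [map_smul]
          exact Submodule.smul_mem _ _ (mem_span_singleton_self _)
        · change T (g x • u) = 0
          rw [LinearMap.mem_ker.1 hx, zero_smul, map_zero]
  have h5 : (![T, T ∘ₗ M] : Pen (n + 1)) = ![T, T ∘ₗ M'] + ![0, T ∘ₗ g.smulRight u] := by
    funext k
    fin_cases k
    · change T = T + 0
      rw [add_zero]
    · change T ∘ₗ M = T ∘ₗ M' + T ∘ₗ g.smulRight u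
      rw [← LinearMap.comp_add, hM', sub_add_cancel]
  rw [h5]
  exact h3.add (PR.single h4)

theorem natDegree_charpoly' {n : ℕ} (M : End ℝ (Fin n → ℝ)) : M.charpoly.natDegree = n := by
  rw [LinearMap.charpoly_natDegree, finrank_pi, Fintype.card_fin]

/-- **Small perturbations of a cyclic pencil with a good decomposition.** -/
theorem exists_perturb {n : ℕ} {M : End ℝ (Fin (n + 1) → ℝ)} {v : Fin (n + 1) → ℝ} (h : Cyc M v) :
    ∃ g : (Fin (n + 1) → ℝ) →ₗ[ℝ] ℝ, ∀ δ : ℝ, 0 < δ → ∃ ε : ℝ, 0 < ε ∧ ε < δ ∧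
      ∀ T : End ℝ (Fin (n + 1) → ℝ),
        Dec (n + 1) (![T, T ∘ₗ M] + ε • (![0, T ∘ₗ g.smulRight v] : Pen (n + 1))) := by
  classical
  obtain ⟨g, hg⟩ := h.modify
  refine ⟨-g, fun δ hδ => ?_⟩
  set p := M.charpoly with hp
  have hmon : p.Monic := LinearMap.charpoly_monic M
  have hdeg : p.natDegree = n + 1 := natDegree_charpoly' M
  have hder : derivative p ≠ 0 := by
    intro hcon
    have := Polynomial.derivative_eq_zero.1 hcon
    omega
  -- the bad values
  let S : Finset ℝ := (((derivative p).aroots ℂ).toFinset.image fun z => (- aeval z p : ℂ).re)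
  obtain ⟨ε, hε, hεS⟩ := (Set.Ioo_infinite hδ).exists_notMem_finset S
  refine ⟨ε, hε.1, hε.2, fun T => ?_⟩
  have hmon' : (p + C ε).Monic := by
    refine hmon.add_of_left ?_
    refine lt_of_le_of_lt degree_C_le ?_
    rw [degree_eq_natDegree hmon.ne_zero, hdeg]
    exact_mod_cast Nat.succ_pos n
  have hdeg' : (p + C ε).natDegree = n + 1 := by
    rw [natDegree_add_C, hdeg]
  have hsep : (p + C ε).Separable := by
    unfold Polynomial.Separable
    rw [derivative_add, derivative_C, add_zero]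
    refine (isCoprime_iff_aeval_ne_zero_of_isAlgClosed ℝ ℂ _ _).2 fun z => ?_
    by_contra hcon
    push Not at hcon
    obtain ⟨h1, h2⟩ := hcon
    apply hεS
    refine Finset.mem_image.2 ⟨z, ?_, ?_⟩
    · rw [Multiset.mem_toFinset, mem_aroots]
      exact ⟨hder, h2⟩
    · rw [map_add, aeval_C] at h1
      have : (- aeval z p : ℂ) = (algebraMap ℝ ℂ) ε := by
        linear_combination -h1
      rw [this]
      rfl
  obtain ⟨h1, h2⟩ := hg (p + C ε) hmon' hdeg' (ε • v) (by
    have e0 : aeval M p v = 0 := by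
      rw [hp, LinearMap.aeval_self_charpoly, LinearMap.zero_apply]
    rw [aeval_apply_eq_sum (n := n + 2) (by omega), Fin.sum_univ_castSucc] at e0
    have e1 : p.coeff ((Fin.last (n + 1) : Fin (n + 2)) : ℕ) = 1 := by
      rw [Fin.val_last, ← hdeg]
      exact hmon
    rw [e1, one_smul, Fin.val_last] at e0
    have e2 : ∑ i : Fin (n + 1), (p + C ε).coeff (i : ℕ) • (M ^ (i : ℕ)) v =
        ∑ i : Fin (n + 1), p.coeff (i.castSucc : ℕ) • (M ^ (i.castSucc : ℕ)) v + ε • v := by
      rw [Fin.sum_univ_succ, Fin.sum_univ_succ]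
      have e3 : ∀ i : Fin n, (p + C ε).coeff (i.succ : ℕ) • (M ^ (i.succ : ℕ)) v =
          p.coeff (i.succ.castSucc : ℕ) • (M ^ (i.succ.castSucc : ℕ)) v := by
        intro i
        rw [coeff_add, coeff_C_of_ne_zero (by simp), add_zero, Fin.val_castSucc]
      rw [Finset.sum_congr rfl fun i _ => e3 i, coeff_add]
      simp only [Fin.val_zero, Fin.castSucc_zero, coeff_C_zero, pow_zero, Module.End.one_apply]
      rw [add_smul]
      abel
    rw [e2, ← add_assoc, add_comm ((M ^ (n + 1)) v), e0, zero_add])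
  have h3 := dec_of_squarefree h1 hmon' hsep.squarefree hdeg' (Nat.succ_pos n) h2 T
  have h4 : (![T, T ∘ₗ M] + ε • (![0, T ∘ₗ (-g).smulRight v] : Pen (n + 1))) =
      ![T, T ∘ₗ (M - g.smulRight (ε • v))] := by
    funext k
    fin_cases k
    · change T + ε • (0 : End ℝ (Fin (n + 1) → ℝ)) = T
      rw [smul_zero, add_zero]
    · change T ∘ₗ M + ε • (T ∘ₗ (-g).smulRight v) = T ∘ₗ (M - g.smulRight (ε • v))
      refine LinearMap.ext fun x => ?_
      simp only [LinearMap.add_apply, LinearMap.smul_apply, LinearMap.comp_apply,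
        LinearMap.smulRight_apply, LinearMap.sub_apply, LinearMap.neg_apply, map_sub, map_smul,
        neg_smul, map_neg, smul_neg]
      rw [smul_comm, sub_eq_add_neg]
  rw [h4]
  exact h3

end Pool.Agent.SubTyp
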