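import Pool.Agent.SubTyp.PenCyc

/-!
# Decompositions of cyclic real pencils
-/

open Module Submodule Polynomial

namespace Pool.Agent.SubTyp

variable {m : ℕ}

/-- Grouping pencils of size `(c, d)`. -/
theorem PR.sup' {c d s : ℕ} {T : Pen m} (h : PR c d s T) : Sup (s * c) (s * d) T := by
  induction s generalizing T with
  | zero =>
    obtain ⟨X, -, h2⟩ := h
    rw [h2]
    simp only [Finset.univ_eq_empty, Finset.sum_empty]
    exact Sup.zero _ _
  | succ s ih =>
    obtain ⟨X, U, h1, h2, rfl⟩ := PR.succ_iff.1 h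
    rw [add_comm X U, Nat.succ_mul, Nat.succ_mul]
    exact (ih h2).add h1

/-- Splitting off the first members. -/
theorem PR.split_add {c d s t : ℕ} {T : Pen m} (h : PR c d (s + t) T) :
    ∃ U V, PR c d s U ∧ PR c d t V ∧ T = U + V := by
  obtain ⟨X, hX, rfl⟩ := h
  rw [Fin.sum_univ_add]
  exact ⟨_, _, ⟨_, fun j => hX _, rfl⟩, ⟨_, fun j => hX _, rfl⟩, rfl⟩

/-- Regrouping: every `k` members are replaced by `t` members of another size. -/
theorem PR.regroup {c d k a b t : ℕ} (hk : ∀ U : Pen m, PR c d k U → PR a b t U) :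
    ∀ (s : ℕ) {T : Pen m}, PR c d (s * k) T → PR a b (s * t) T := by
  intro s
  induction s with
  | zero =>
    intro T h
    rw [Nat.zero_mul] at h ⊢
    obtain ⟨X, -, h2⟩ := h
    rw [h2]
    simp only [Finset.univ_eq_empty, Finset.sum_empty]
    exact PR.nil a b
  | succ s ih =>
    intro T h
    rw [Nat.succ_mul] at h ⊢
    obtain ⟨U, V, h1, h2, rfl⟩ := h.split_add
    exact (ih h1).add (hk V h2)

/-- `T` is the sum of `⌊k/2⌋` pencils of size `(2, 2)` and, for odd `k`, of one of size `(1, 1)`. -/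
def Dec (k : ℕ) (T : Pen m) : Prop :=
  ∃ U X, PR 2 2 (k / 2) U ∧ Sup (k % 2) (k % 2) X ∧ T = U + X

theorem Dec.zero : Dec 0 (0 : Pen m) :=
  ⟨0, 0, PR.nil 2 2, Sup.zero _ _, (add_zero _).symm⟩

theorem Dec.add_one {k : ℕ} {T Y : Pen m} (h : Dec k T) (hY : Sup 1 1 Y) : Dec (k + 1) (T + Y) := by
  obtain ⟨U, X, h1, h2, rfl⟩ := h
  rcases Nat.mod_two_eq_zero_or_one k with hk | hk
  · rw [hk] at h2
    refine ⟨U, X + Y, ?_, ?_, by rw [add_assoc]⟩
    · rw [show (k + 1) / 2 = k / 2 by omega]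
      exact h1
    · rw [show (k + 1) % 2 = 0 + 1 by omega]
      exact h2.add hY
  · rw [hk] at h2
    refine ⟨U + (X + Y), 0, ?_, Sup.zero _ _, by rw [add_zero, add_assoc]⟩
    rw [show (k + 1) / 2 = k / 2 + 1 by omega]
    exact h1.add (PR.single (h2.add hY))

theorem Dec.add_two {k : ℕ} {T Y : Pen m} (h : Dec k T) (hY : Sup 2 2 Y) : Dec (k + 2) (T + Y) := by
  obtain ⟨U, X, h1, h2, rfl⟩ := h
  refine ⟨U + Y, X, ?_, ?_, by abel⟩
  · rw [show (k + 2) / 2 = k / 2 + 1 by omega]
    exact h1.add (PR.single hY)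
  · rw [show (k + 2) % 2 = k % 2 by omega]
    exact h2

/-- The sum of pencils of sizes one and two. -/
theorem Dec.sum {ι : Type*} [DecidableEq ι] (s : Finset ι) (d : ι → ℕ) (X : ι → Pen m)
    (hd : ∀ i ∈ s, d i = 1 ∨ d i = 2) (hX : ∀ i ∈ s, Sup (d i) (d i) (X i)) :
    Dec (∑ i ∈ s, d i) (∑ i ∈ s, X i) := by
  induction s using Finset.induction_on with
  | empty =>
    simp only [Finset.sum_empty]
    exact Dec.zero
  | insert a s ha ih =>
    rw [Finset.sum_insert ha, Finset.sum_insert ha, add_comm (d a), add_comm (X a)]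
    have h1 := ih (fun i hi => hd i (Finset.mem_insert_of_mem hi))
      fun i hi => hX i (Finset.mem_insert_of_mem hi)
    have h2 := hX a (Finset.mem_insert_self a s)
    rcases hd a (Finset.mem_insert_self a s) with h3 | h3
    · rw [h3] at h2 ⊢
      exact h1.add_one h2
    · rw [h3] at h2 ⊢
      exact h1.add_two h2

/-- Even size. -/
theorem Dec.even {c s : ℕ} {T : Pen m} (h : Dec (2 * c * s) T) : PR (2 * c) (2 * c) s T := by
  obtain ⟨U, X, h1, h2, rfl⟩ := h
  rw [show (2 * c * s) % 2 = 0 by rw [mul_assoc]; omega] at h2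
  rw [show (2 * c * s) / 2 = s * c by
    rw [mul_assoc, Nat.mul_div_cancel_left _ (by norm_num), Nat.mul_comm]] at h1
  have h3 : PR 2 2 (s * c) U → PR (2 * c) (2 * c) (s * 1) U := fun h =>
    PR.regroup (fun V hV => by
      have := hV.sup'
      rw [Nat.mul_comm c 2] at this
      exact PR.single this) s h
  have h4 := h3 h1
  rw [Nat.mul_one] at h4
  have h5 : X = 0 := by
    obtain ⟨A, N, e1, -, e3⟩ := h2
    have : A = ⊥ := Submodule.finrank_eq_zero.1 (by omega)
    funext k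
    refine LinearMap.ext fun x => ?_
    have := (e3 k).1 x
    rw [‹A = ⊥›] at this
    exact (Submodule.mem_bot ℝ).1 this
  rw [h5, add_zero]
  exact h4

/-- `2c+1` pencils of size `(2, 2)` make two pencils of size `(2c+1, 2c+2)`, and two pencils of
size `(2c+2, 2c+1)`. -/
theorem PR.two_groups {c : ℕ} {T : Pen m} (h : PR 2 2 (2 * c + 1) T) :
    PR (2 * c + 1) (2 * c + 2) 2 T ∧ PR (2 * c + 2) (2 * c + 1) 2 T := by
  obtain ⟨X, U, hX, hU, rfl⟩ := PR.succ_iff.1 h
  rw [show 2 * c = c + c by ring] at hU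
  obtain ⟨V, W, hV, hW, rfl⟩ := hU.split_add
  have hV' := hV.sup'
  have hW' := hW.sup'
  rw [Nat.mul_comm c 2] at hV' hW'
  constructor
  · obtain ⟨Y, Z, hY, hZ, rfl⟩ := hX.split_left
    have e : Y + Z + (V + W) = (V + Y) + (W + Z) := by abel
    rw [e]
    exact (PR.single (hV'.add hY)).add (PR.single (hW'.add hZ))
  · obtain ⟨Y, Z, hY, hZ, rfl⟩ := hX.split_right
    have e : Y + Z + (V + W) = (V + Y) + (W + Z) := by abel
    rw [e]
    exact (PR.single (hV'.add hY)).add (PR.single (hW'.add hZ))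

/-- Odd size. -/
theorem Dec.odd {c s : ℕ} {T : Pen m} (h : Dec ((2 * c + 1) * s) T) :
    PR (2 * c + 1) (2 * c + 2) s T ∧ PR (2 * c + 2) (2 * c + 1) s T := by
  obtain ⟨U, X, h1, h2, rfl⟩ := h
  rcases Nat.even_or_odd' s with ⟨t, rfl | rfl⟩
  · have e0 : (2 * c + 1) * (2 * t) = 2 * (t * (2 * c + 1)) := by ring
    rw [e0, Nat.mul_mod_right] at h2
    rw [e0, Nat.mul_div_cancel_left _ (by norm_num)] at h1
    have h5 : X = 0 := by
      obtain ⟨A, N, e1, -, e3⟩ := h2
      have : A = ⊥ := Submodule.finrank_eq_zero.1 (by omega)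
      funext k
      refine LinearMap.ext fun x => ?_
      have := (e3 k).1 x
      rw [‹A = ⊥›] at this
      exact (Submodule.mem_bot ℝ).1 this
    rw [h5, add_zero, Nat.mul_comm 2 t]
    exact ⟨PR.regroup (fun V hV => hV.two_groups.1) t h1,
      PR.regroup (fun V hV => hV.two_groups.2) t h1⟩
  · have e0 : (2 * c + 1) * (2 * t + 1) = 2 * (t * (2 * c + 1) + c) + 1 := by ring
    rw [e0] at h1 h2
    rw [show (2 * (t * (2 * c + 1) + c) + 1) % 2 = 1 by omega] at h2
    rw [show (2 * (t * (2 * c + 1) + c) + 1) / 2 = t * (2 * c + 1) + c by omega] at h1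
    obtain ⟨V, W, hV, hW, rfl⟩ := h1.split_add
    have hW' := hW.sup'
    rw [Nat.mul_comm c 2] at hW'
    have e : V + W + X = V + (W + X) := by abel
    rw [e, Nat.mul_comm 2 t]
    have h3 := hW'.add h2
    exact ⟨(PR.regroup (fun V hV => hV.two_groups.1) t hV).add
        (PR.single (h3.mono le_rfl (by omega))),
      (PR.regroup (fun V hV => hV.two_groups.2) t hV).add
        (PR.single (h3.mono (by omega) le_rfl))⟩

end Pool.Agent.SubTyp
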