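import Pool.Agent.SubTyp.Defs

/-! Directional derivatives on polynomials. -/

open MvPolynomial Module Finset

namespace Pool.Agent.SubTyp

variable {m : ℕ}

/-- the linear form attached to a vector. -/
noncomputable def lin (v : Fin m → ℝ) : MvPolynomial (Fin m) ℝ := ∑ i, C (v i) * X i

/-- the derivative in the direction `L`. -/
noncomputable def dir (L : Fin m → ℝ) :
    Derivation ℝ (MvPolynomial (Fin m) ℝ) (MvPolynomial (Fin m) ℝ) :=
  mkDerivation ℝ (fun i => C (L i))

theorem dir_X (L : Fin m → ℝ) (i : Fin m) : dir L (X i) = C (L i) := by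
  simp [dir]

theorem derivation_sum_apply {ι : Type*} (s : Finset ι)
    (D : ι → Derivation ℝ (MvPolynomial (Fin m) ℝ) (MvPolynomial (Fin m) ℝ))
    (p : MvPolynomial (Fin m) ℝ) : (∑ i ∈ s, D i) p = ∑ i ∈ s, D i p := by
  classical
  induction s using Finset.induction_on with
  | empty => simp
  | insert a s ha ih => rw [Finset.sum_insert ha, Finset.sum_insert ha, Derivation.add_apply, ih]

theorem dir_eq_sum (L : Fin m → ℝ) (p : MvPolynomial (Fin m) ℝ) :
    dir L p = ∑ i, C (L i) * pderiv i p := by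
  classical
  have h : dir L = ∑ i, (C (L i) : MvPolynomial (Fin m) ℝ) • pderiv (R := ℝ) i := by
    apply MvPolynomial.derivation_ext
    intro j
    rw [dir_X, derivation_sum_apply]
    simp [pderiv_X, Pi.single_apply]
  rw [h, derivation_sum_apply]
  simp

theorem dir_lin (L v : Fin m → ℝ) : dir L (lin v) = C (L ⬝ᵥ v) := by
  unfold lin dotProduct
  rw [map_sum, map_sum]
  refine Finset.sum_congr rfl fun i _ => ?_
  rw [Derivation.leibniz, dir_X, MvPolynomial.derivation_C]
  simp [mul_comm]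

theorem dir_comm (L M : Fin m → ℝ) (p : MvPolynomial (Fin m) ℝ) :
    dir L (dir M p) = dir M (dir L p) := by
  have h : ⁅dir L, dir M⁆ = 0 := by
    apply MvPolynomial.derivation_ext
    intro j
    rw [Derivation.commutator_apply, dir_X, dir_X]
    simp
  have h2 := DFunLike.congr_fun h p
  rw [Derivation.commutator_apply] at h2
  exact sub_eq_zero.1 h2

theorem dir_add (L M : Fin m → ℝ) (p : MvPolynomial (Fin m) ℝ) :
    dir (L + M) p = dir L p + dir M p := by
  simp only [dir_eq_sum, Pi.add_apply, C_add, add_mul, Finset.sum_add_distrib]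

theorem dir_smul (c : ℝ) (L : Fin m → ℝ) (p : MvPolynomial (Fin m) ℝ) :
    dir (c • L) p = c • dir L p := by
  simp only [dir_eq_sum, Pi.smul_apply, smul_eq_mul, C_mul, Finset.smul_sum, smul_eq_C_mul,
    mul_assoc]

theorem dir_zero (p : MvPolynomial (Fin m) ℝ) : dir 0 p = 0 := by
  simp [dir_eq_sum]

theorem dir_homog {p : MvPolynomial (Fin m) ℝ} {n : ℕ} (hp : p.IsHomogeneous n) (L : Fin m → ℝ) :
    (dir L p).IsHomogeneous (n - 1) := by
  rw [dir_eq_sum]
  refine IsHomogeneous.sum _ _ _ fun i _ => ?_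
  have := (isHomogeneous_C (Fin m) (L i)).mul (hp.pderiv (i := i))
  rwa [zero_add] at this

theorem dir_homog_zero {p : MvPolynomial (Fin m) ℝ} (hp : p.IsHomogeneous 0) (L : Fin m → ℝ) :
    dir L p = 0 := by
  rw [← totalDegree_zero_iff_isHomogeneous, totalDegree_eq_zero_iff_eq_C] at hp
  rw [hp, MvPolynomial.derivation_C]

theorem lin_homog (v : Fin m → ℝ) : (lin v).IsHomogeneous 1 := by
  refine IsHomogeneous.sum _ _ _ fun i _ => ?_
  have := (isHomogeneous_C (Fin m) (v i)).mul (isHomogeneous_X ℝ i)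
  rwa [zero_add] at this

/-- iterated directional derivative along a list. -/
noncomputable def dl : List (Fin m → ℝ) → MvPolynomial (Fin m) ℝ →ₗ[ℝ] MvPolynomial (Fin m) ℝ
  | [] => LinearMap.id
  | (L :: Ls) => (dir L).toLinearMap ∘ₗ dl Ls

@[simp] theorem dl_nil (p : MvPolynomial (Fin m) ℝ) : dl [] p = p := rfl

@[simp] theorem dl_cons (L : Fin m → ℝ) (Ls : List (Fin m → ℝ)) (p : MvPolynomial (Fin m) ℝ) :
    dl (L :: Ls) p = dir L (dl Ls p) := rfl

theorem dl_dir (L : Fin m → ℝ) (Ls : List (Fin m → ℝ)) (p : MvPolynomial (Fin m) ℝ) :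
    dl Ls (dir L p) = dir L (dl Ls p) := by
  induction Ls with
  | nil => rfl
  | cons M Ls ih => rw [dl_cons, ih, dl_cons, dir_comm]

theorem dl_append (Ls Ms : List (Fin m → ℝ)) (p : MvPolynomial (Fin m) ℝ) :
    dl (Ls ++ Ms) p = dl Ls (dl Ms p) := by
  induction Ls with
  | nil => rfl
  | cons M Ls ih => rw [List.cons_append, dl_cons, ih, dl_cons]

theorem dl_perm {Ls Ms : List (Fin m → ℝ)} (h : Ls.Perm Ms) (p : MvPolynomial (Fin m) ℝ) :
    dl Ls p = dl Ms p := by
  induction h generalizing p with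
  | nil => rfl
  | cons x _ ih => rw [dl_cons, dl_cons, ih]
  | swap x y l => rw [dl_cons, dl_cons, dl_cons, dl_cons, dir_comm]
  | trans _ _ ih1 ih2 => rw [ih1, ih2]

theorem dl_homog {n : ℕ} (Ls : List (Fin m → ℝ)) {p : MvPolynomial (Fin m) ℝ}
    (hp : p.IsHomogeneous n) : (dl Ls p).IsHomogeneous (n - Ls.length) := by
  induction Ls with
  | nil => simpa using hp
  | cons L Ls ih =>
    rw [dl_cons, List.length_cons, ← Nat.sub_sub]
    exact dir_homog ih L

theorem dl_eq_zero_of_mem {Ls : List (Fin m → ℝ)} {L : Fin m → ℝ} (hL : L ∈ Ls)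
    {p : MvPolynomial (Fin m) ℝ} (hp : dir L p = 0) : dl Ls p = 0 := by
  induction Ls with
  | nil => simp at hL
  | cons M Ls ih =>
    rcases List.mem_cons.1 hL with rfl | h
    · rw [dl_cons, ← dl_dir, hp, map_zero]
    · rw [dl_cons, ih h, map_zero]

/-- powers of the derivative. -/
theorem dir_iter_homog {p : MvPolynomial (Fin m) ℝ} {n : ℕ} (hp : p.IsHomogeneous n)
    (L : Fin m → ℝ) (i : ℕ) : ((dir L)^[i] p).IsHomogeneous (n - i) := by
  induction i with
  | zero => simpa using hp
  | succ i ih =>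
    rw [Function.iterate_succ_apply', ← Nat.sub_sub]
    exact dir_homog ih L

theorem dir_iter_zero {p : MvPolynomial (Fin m) ℝ} {n : ℕ} (hp : p.IsHomogeneous n)
    (L : Fin m → ℝ) : (dir L)^[n + 1] p = 0 := by
  rw [Function.iterate_succ_apply']
  exact dir_homog_zero (by simpa using dir_iter_homog hp L n) L

/-- **integration**: if `L ⬝ v = 1` and `L' ⬝ v = 0`, every form `g` of degree `n` killed by `L'` is
the `L`-derivative of a form of degree `n + 1` killed by `L'`. -/
theorem exists_primitive {L L' v : Fin m → ℝ} (hL : L ⬝ᵥ v = 1) (hL' : L' ⬝ᵥ v = 0)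
    {g : MvPolynomial (Fin m) ℝ} {n : ℕ} (hg : g.IsHomogeneous n) (hg' : dir L' g = 0) :
    ∃ f : MvPolynomial (Fin m) ℝ, f.IsHomogeneous (n + 1) ∧ dir L' f = 0 ∧ dir L f = g := by
  have hv : dir L (lin v) = 1 := by rw [dir_lin, hL, C_1]
  have hv' : dir L' (lin v) = 0 := by rw [dir_lin, hL', C_0]
  have hiter : ∀ i, dir L' ((dir L)^[i] g) = 0 := by
    intro i
    induction i with
    | zero => simpa using hg'
    | succ i ih => rw [Function.iterate_succ_apply', dir_comm, ih, map_zero]
  let term : ℕ → MvPolynomial (Fin m) ℝ := fun i =>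
    C ((-1 : ℝ) ^ i / ((i + 1).factorial : ℝ)) * (lin v ^ (i + 1) * (dir L)^[i] g)
  -- derivative of the partial sums
  have hsum : ∀ N : ℕ, dir L (∑ i ∈ range (N + 1), term i)
      = g + C ((-1 : ℝ) ^ N / ((N + 1).factorial : ℝ)) *
        (lin v ^ (N + 1) * (dir L)^[N + 1] g) := by
    intro N
    have hterm : ∀ i : ℕ, dir L (term i)
        = C ((-1 : ℝ) ^ i / (i.factorial : ℝ)) * (lin v ^ i * (dir L)^[i] g)
        + C ((-1 : ℝ) ^ i / ((i + 1).factorial : ℝ)) *
          (lin v ^ (i + 1) * (dir L)^[i + 1] g) := by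
      intro i
      simp only [term]
      rw [← smul_eq_C_mul, ← smul_eq_C_mul, ← smul_eq_C_mul, Derivation.map_smul,
        Derivation.leibniz, Derivation.leibniz_pow, hv, Function.iterate_succ_apply']
      simp only [smul_eq_mul, add_tsub_cancel_right, nsmul_eq_mul, mul_one]
      rw [smul_add, add_comm]
      congr 1
      have hfac : ((i + 1 : ℕ).factorial : ℝ) = ((i : ℝ) + 1) * (i.factorial : ℝ) := by
        rw [Nat.factorial_succ]; push_cast; ring
      rw [smul_eq_C_mul, smul_eq_C_mul, hfac]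
      have hi : (i.factorial : ℝ) ≠ 0 := by exact_mod_cast i.factorial_ne_zero
      have hi1 : (i : ℝ) + 1 ≠ 0 := by positivity
      have hcast : ((i + 1 : ℕ) : MvPolynomial (Fin m) ℝ) = C ((i : ℝ) + 1) := by simp
      rw [hcast]
      have : C ((-1 : ℝ) ^ i / (i.factorial : ℝ))
          = C ((-1 : ℝ) ^ i / (((i : ℝ) + 1) * (i.factorial : ℝ))) *
          (C ((i : ℝ) + 1) : MvPolynomial (Fin m) ℝ) := by
        rw [← C_mul]
        congr 1
        field_simp
      rw [this]
      ring
    induction N with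
    | zero =>
      rw [Finset.sum_range_one, hterm]
      simp
    | succ N ih =>
      rw [Finset.sum_range_succ, map_add, ih, hterm, add_assoc]
      congr 1
      rw [← add_assoc]
      have : C ((-1 : ℝ) ^ N / ((N + 1).factorial : ℝ)) * (lin v ^ (N + 1) * (dir L)^[N + 1] g)
          + C ((-1 : ℝ) ^ (N + 1) / ((N + 1).factorial : ℝ)) *
            (lin v ^ (N + 1) * (dir L)^[N + 1] g)
          = (0 : MvPolynomial (Fin m) ℝ) := by
        rw [← add_mul, ← C_add]
        have : (-1 : ℝ) ^ N / ((N + 1).factorial : ℝ)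
            + (-1 : ℝ) ^ (N + 1) / ((N + 1).factorial : ℝ) = 0 := by
          rw [pow_succ]; ring
        rw [this, C_0, zero_mul]
      rw [this, zero_add]
  refine ⟨∑ i ∈ range (n + 1), term i, ?_, ?_, ?_⟩
  · refine IsHomogeneous.sum _ _ _ fun i hi => ?_
    have hi' : i ≤ n := by simpa [Nat.lt_succ_iff] using hi
    have h1 := (isHomogeneous_C (Fin m) ((-1 : ℝ) ^ i / ((i + 1).factorial : ℝ))).mul
      (((lin_homog v).pow (i + 1)).mul (dir_iter_homog hg L i))
    have h2 : 0 + (1 * (i + 1) + (n - i)) = n + 1 := by omega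
    rw [h2] at h1
    exact h1
  · rw [map_sum]
    refine Finset.sum_eq_zero fun i _ => ?_
    simp only [term]
    rw [← smul_eq_C_mul, Derivation.map_smul, Derivation.leibniz, Derivation.leibniz_pow, hv',
      hiter i]
    simp
  · rw [hsum n, dir_iter_zero hg L, mul_zero, mul_zero, add_zero]

/-- surjectivity of the directional derivative. -/
theorem exists_primitive' {L : Fin m → ℝ} (hL : L ≠ 0)
    {g : MvPolynomial (Fin m) ℝ} {n : ℕ} (hg : g.IsHomogeneous n) :
    ∃ f : MvPolynomial (Fin m) ℝ, f.IsHomogeneous (n + 1) ∧ dir L f = g := by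
  have hLL : L ⬝ᵥ L ≠ 0 := fun h => hL (dotProduct_self_eq_zero.1 h)
  obtain ⟨f, h1, _, h3⟩ := exists_primitive (L := L) (L' := 0) (v := (L ⬝ᵥ L)⁻¹ • L)
    (by rw [dotProduct_smul, smul_eq_mul, inv_mul_cancel₀ hLL]) (by simp) hg (dir_zero g)
  exact ⟨f, h1, h3⟩

theorem exists_dl_primitive (Ls : List (Fin m → ℝ)) (hL : ∀ L ∈ Ls, L ≠ 0)
    {g : MvPolynomial (Fin m) ℝ} {n : ℕ} (hg : g.IsHomogeneous n) :
    ∃ f : MvPolynomial (Fin m) ℝ, f.IsHomogeneous (n + Ls.length) ∧ dl Ls f = g := by
  induction Ls with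
  | nil => exact ⟨g, by simpa using hg, rfl⟩
  | cons L Ls ih =>
    obtain ⟨f, hf, hfg⟩ := ih (fun M hM => hL M (List.mem_cons_of_mem _ hM))
    obtain ⟨f', hf', hff⟩ := exists_primitive' (hL L List.mem_cons_self) hf
    refine ⟨f', ?_, ?_⟩
    · rw [List.length_cons, ← add_assoc]; exact hf'
    · rw [dl_cons, ← dl_dir, hff, hfg]

theorem exists_sep {L M : Fin m → ℝ} (hL : ∀ c : ℝ, L ≠ c • M) :
    ∃ v : Fin m → ℝ, L ⬝ᵥ v = 1 ∧ M ⬝ᵥ v = 0 := by
  by_cases hM : M = 0
  · subst hM
    have hL0 : L ≠ 0 := by have := hL 0; rwa [zero_smul] at this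
    have hLL : L ⬝ᵥ L ≠ 0 := fun h => hL0 (dotProduct_self_eq_zero.1 h)
    exact ⟨(L ⬝ᵥ L)⁻¹ • L, by rw [dotProduct_smul, smul_eq_mul, inv_mul_cancel₀ hLL], by simp⟩
  · have hMM : M ⬝ᵥ M ≠ 0 := fun h => hM (dotProduct_self_eq_zero.1 h)
    set w := L - ((L ⬝ᵥ M) / (M ⬝ᵥ M)) • M with hw
    have hw0 : w ≠ 0 := fun h => hL _ (sub_eq_zero.1 h)
    have hMw : M ⬝ᵥ w = 0 := by
      rw [hw, dotProduct_sub, dotProduct_smul, smul_eq_mul, div_mul_cancel₀ _ hMM,
        dotProduct_comm L M, sub_self]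
    have hLw : L ⬝ᵥ w = w ⬝ᵥ w := by
      have : L = w + ((L ⬝ᵥ M) / (M ⬝ᵥ M)) • M := by rw [hw]; abel
      conv_lhs => rw [this]
      rw [add_dotProduct, smul_dotProduct, hMw, smul_zero, add_zero]
    have hww : w ⬝ᵥ w ≠ 0 := fun h => hw0 (dotProduct_self_eq_zero.1 h)
    exact ⟨(w ⬝ᵥ w)⁻¹ • w, by rw [dotProduct_smul, hLw, smul_eq_mul, inv_mul_cancel₀ hww],
      by rw [dotProduct_smul, hMw, smul_zero]⟩

/-- **Decomposition.** If `L₁ ⋯ L_s f = 0` for pairwise non-proportional directions, then `f` is a sum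
of forms killed by the `L_j`. -/
theorem mem_of_dl_eq_zero (Ls : List (Fin m → ℝ))
    (hLs : Ls.Pairwise fun L M => ∀ c : ℝ, L ≠ c • M) :
    ∀ (n : ℕ) (S : Submodule ℝ (MvPolynomial (Fin m) ℝ)),
      S ≤ homogeneousSubmodule (Fin m) ℝ n →
      (∀ L ∈ Ls, ∀ g : MvPolynomial (Fin m) ℝ, g.IsHomogeneous n → dir L g = 0 → g ∈ S) →
      ∀ f : MvPolynomial (Fin m) ℝ, f.IsHomogeneous n → dl Ls f = 0 → f ∈ S := by
  induction Ls with
  | nil =>
    intro n S _ _ f _ h0
    rw [dl_nil] at h0
    rw [h0]; exact S.zero_mem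
  | cons L Ls ih =>
    intro n S hS hmem f hf h0
    rw [List.pairwise_cons] at hLs
    rcases n with _ | n
    · exact hmem L List.mem_cons_self f hf (dir_homog_zero hf L)
    · have hdf : (dir L f).IsHomogeneous n := by simpa using dir_homog hf L
      have h1 : dir L f ∈ S.map (dir L).toLinearMap := by
        refine ih hLs.2 n (S.map (dir L).toLinearMap) ?_ ?_ (dir L f) hdf ?_
        · rintro _ ⟨g, hg, rfl⟩
          have := dir_homog ((mem_homogeneousSubmodule _ _).1 (hS hg)) L
          rw [mem_homogeneousSubmodule]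
          simpa using this
        · intro M hM g hg hMg
          obtain ⟨v, hv1, hv2⟩ := exists_sep (hLs.1 M hM)
          obtain ⟨f', h1, h2, h3⟩ := exists_primitive hv1 hv2 hg hMg
          exact ⟨f', hmem M (List.mem_cons_of_mem _ hM) f' h1 h2, h3⟩
        · rw [dl_dir]; exact h0
      obtain ⟨f', hf'S, hf'⟩ := h1
      have hf'h : f'.IsHomogeneous (n + 1) := (mem_homogeneousSubmodule _ _).1 (hS hf'S)
      have h2 : f - f' ∈ S := by
        refine hmem L List.mem_cons_self _ (hf.sub hf'h) ?_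
        rw [map_sub]
        exact sub_eq_zero.2 hf'.symm
      have := S.add_mem h2 hf'S
      simpa using this

/-- a polynomial killed by the derivative in direction `u` is invariant under translation by `u`. -/
theorem eval_add_of_dir_eq_zero {u : Fin m → ℝ} {f : MvPolynomial (Fin m) ℝ} (hf : dir u f = 0)
    (x : Fin m → ℝ) : eval (x + u) f = eval x f := by
  let φ : MvPolynomial (Fin m) ℝ →ₐ[ℝ] Polynomial ℝ :=
    aeval fun i => Polynomial.C (x i) + Polynomial.X * Polynomial.C (u i)
  have hder : ∀ p : MvPolynomial (Fin m) ℝ, Polynomial.derivative (φ p) = φ (dir u p) := by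
    intro p
    induction p using MvPolynomial.induction_on with
    | C a => rw [MvPolynomial.derivation_C, map_zero, algHom_C]; simp
    | add p q hp hq => rw [map_add, map_add, hp, hq, map_add, map_add]
    | mul_X p i hp =>
      rw [map_mul, Polynomial.derivative_mul, hp, Derivation.leibniz, dir_X, map_add]
      simp only [smul_eq_mul, map_mul]
      have h1 : φ (X i) = Polynomial.C (x i) + Polynomial.X * Polynomial.C (u i) := by
        simp [φ]
      have h2 : φ (C (u i)) = Polynomial.C (u i) := by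
        rw [algHom_C]; rfl
      rw [h1, h2]
      simp
      ring
  have h0 : Polynomial.derivative (φ f) = 0 := by rw [hder, hf, map_zero]
  have h1 := Polynomial.derivative_eq_zero.1 h0
  obtain ⟨c, hc⟩ := Polynomial.natDegree_eq_zero.1 h1
  have hev : ∀ t : ℝ, (φ f).eval t = eval (x + t • u) f := by
    intro t
    have h2 : ∀ p : MvPolynomial (Fin m) ℝ, (φ p).eval t = eval (x + t • u) p := by
      intro p
      induction p using MvPolynomial.induction_on with
      | C a => rw [algHom_C]; simp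
      | add p q hp hq => rw [map_add, Polynomial.eval_add, hp, hq, map_add]
      | mul_X p i hp =>
        rw [map_mul, Polynomial.eval_mul, hp, map_mul]
        congr 1
        simp [φ]
        ring
    exact h2 f
  have h3 := hev 1
  have h4 := hev 0
  rw [one_smul] at h3
  rw [zero_smul, add_zero] at h4
  rw [← h3, ← h4, ← hc]
  simp

end Pool.Agent.SubTyp
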