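import Mathlib

/-!
# Rectangular pencils and their decompositions

A pencil of format `p × q` is a pair of linear maps `ℝ^q → ℝ^p`. `Blk c a b X`: the pencil `X` lies in
`U ⊗ A ⊗ B` with `dim U ≤ c`, `dim A ≤ a`, `dim B ≤ b`. `BP c a b s T`: the pencil `T` is the sum of
`s` such pencils.
-/

open Module Submodule

namespace Pool.Agent.SubTyp

/-- Pairs of linear maps `ℝ^q → ℝ^p`. -/
abbrev RPen (p q : ℕ) : Type := Fin 2 → ((Fin q → ℝ) →ₗ[ℝ] (Fin p → ℝ))

variable {p q : ℕ}

/-- The pencil lies in `U ⊗ A ⊗ B`, `dim U ≤ c`, `dim A ≤ a`, `dim B ≤ b`. -/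
def Blk (c a b : ℕ) (X : RPen p q) : Prop :=
  ∃ (U : Submodule ℝ (Fin 2 → ℝ)) (A : Submodule ℝ (Fin p → ℝ)) (N : Submodule ℝ (Fin q → ℝ)),
    finrank ℝ U ≤ c ∧ finrank ℝ A ≤ a ∧ q ≤ finrank ℝ N + b ∧
    (∀ x i, (fun k => X k x i) ∈ U) ∧ ∀ k, (∀ x, X k x ∈ A) ∧ ∀ x ∈ N, X k x = 0

/-- The pencil is the sum of `s` pencils of type `(c, a, b)`. -/
def BP (c a b s : ℕ) (T : RPen p q) : Prop :=
  ∃ X : Fin s → RPen p q, (∀ j, Blk c a b (X j)) ∧ T = ∑ j, X j

/-- For `c = 2` the first condition is void. -/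
theorem blk_two_iff {a b : ℕ} {X : RPen p q} : Blk 2 a b X ↔
    ∃ (A : Submodule ℝ (Fin p → ℝ)) (N : Submodule ℝ (Fin q → ℝ)),
      finrank ℝ A ≤ a ∧ q ≤ finrank ℝ N + b ∧ ∀ k, (∀ x, X k x ∈ A) ∧ ∀ x ∈ N, X k x = 0 := by
  constructor
  · rintro ⟨U, A, N, -, h2, h3, -, h5⟩
    exact ⟨A, N, h2, h3, h5⟩
  · rintro ⟨A, N, h2, h3, h5⟩
    refine ⟨⊤, A, N, ?_, h2, h3, fun _ _ => Submodule.mem_top, h5⟩
    rw [finrank_top, finrank_pi, Fintype.card_fin]

/-- For `c = 1` the pencil is a vector times a linear map. -/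
theorem blk_one_iff {a b : ℕ} {X : RPen p q} : Blk 1 a b X ↔
    ∃ (u : Fin 2 → ℝ) (M : (Fin q → ℝ) →ₗ[ℝ] (Fin p → ℝ)),
      finrank ℝ (LinearMap.range M) ≤ min a b ∧ X = fun k => u k • M := by
  constructor
  · rintro ⟨U, A, N, h1, h2, h3, h4, h5⟩
    by_cases h0 : X = 0
    · refine ⟨0, 0, ?_, ?_⟩
      · rw [LinearMap.range_zero, finrank_bot]
        exact Nat.zero_le _
      · rw [h0]
        funext k
        simp
    · -- a generator of `U`
      obtain ⟨x0, i0, hx0⟩ : ∃ x i, (fun k => X k x i) ≠ 0 := by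
        by_contra hcon
        push Not at hcon
        apply h0
        funext k
        refine LinearMap.ext fun x => ?_
        funext i
        exact congrFun (hcon x i) k
      set u : Fin 2 → ℝ := fun k => X k x0 i0 with hu
      have hU : U = span ℝ {u} := by
        symm
        apply Submodule.eq_of_le_of_finrank_le
        · rw [span_singleton_le_iff_mem]
          exact h4 x0 i0
        · rw [finrank_span_singleton hx0]
          exact h1
      obtain ⟨k0, hk0⟩ : ∃ k, u k ≠ 0 := by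
        by_contra hcon
        push Not at hcon
        exact hx0 (funext hcon)
      refine ⟨u, (u k0)⁻¹ • X k0, ?_, ?_⟩
      · have e1 : LinearMap.range ((u k0)⁻¹ • X k0) ≤ A := by
          rintro _ ⟨x, rfl⟩
          exact A.smul_mem _ ((h5 k0).1 x)
        have e2 : N ≤ LinearMap.ker ((u k0)⁻¹ • X k0) := by
          intro x hx
          rw [LinearMap.mem_ker, LinearMap.smul_apply, (h5 k0).2 x hx, smul_zero]
        have e3 := Submodule.finrank_mono e1
        have e4 := Submodule.finrank_mono e2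
        have e5 := LinearMap.finrank_range_add_finrank_ker ((u k0)⁻¹ • X k0)
        rw [finrank_pi, Fintype.card_fin] at e5
        rw [le_min_iff]
        constructor <;> omega
      · funext k
        refine LinearMap.ext fun x => ?_
        funext i
        have h6 := h4 x i
        rw [hU, mem_span_singleton] at h6
        obtain ⟨t, ht⟩ := h6
        have h7 : X k x i = t * u k := by
          have := congrFun ht k
          simp only [Pi.smul_apply, smul_eq_mul] at this
          exact this.symm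
        have h8 : X k0 x i = t * u k0 := by
          have := congrFun ht k0
          simp only [Pi.smul_apply, smul_eq_mul] at this
          exact this.symm
        change X k x i = u k * ((u k0)⁻¹ * X k0 x i)
        rw [h7, h8]
        field_simp
  · rintro ⟨u, M, h1, rfl⟩
    rw [le_min_iff] at h1
    refine ⟨span ℝ {u}, LinearMap.range M, LinearMap.ker M,
      (finrank_span_le_card _).trans (by simp), h1.1, ?_, fun x i => ?_, fun k => ⟨fun x => ?_,
        fun x hx => ?_⟩⟩
    · have e5 := LinearMap.finrank_range_add_finrank_ker M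
      rw [finrank_pi, Fintype.card_fin] at e5
      omega
    · rw [mem_span_singleton]
      refine ⟨M x i, ?_⟩
      funext k
      change M x i * u k = u k * M x i
      ring
    · exact Submodule.smul_mem _ _ ⟨x, rfl⟩
    · rw [LinearMap.smul_apply, LinearMap.mem_ker.1 hx, smul_zero]

theorem Blk.mono {c a b c' a' b' : ℕ} {X : RPen p q} (h : Blk c a b X) (hc : c ≤ c') (ha : a ≤ a')
    (hb : b ≤ b') : Blk c' a' b' X := by
  obtain ⟨U, A, N, h0, h1, h2, h3, h4⟩ := h
  exact ⟨U, A, N, h0.trans hc, h1.trans ha, by omega, h3, h4⟩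

theorem Blk.zero (c a b : ℕ) : Blk c a b (0 : RPen p q) := by
  refine ⟨⊥, ⊥, ⊤, ?_, ?_, ?_, fun x i => ?_, fun k => ⟨fun x => ?_, fun x _ => rfl⟩⟩
  · rw [finrank_bot]
    exact Nat.zero_le c
  · rw [finrank_bot]
    exact Nat.zero_le a
  · rw [finrank_top, finrank_pi, Fintype.card_fin]
    exact Nat.le_add_right q b
  · exact Submodule.zero_mem _
  · exact Submodule.zero_mem _

/-- Sums of blocks with the full first space. -/
theorem Blk.add {a b a' b' : ℕ} {X Y : RPen p q} (h : Blk 2 a b X) (h' : Blk 2 a' b' Y) :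
    Blk 2 (a + a') (b + b') (X + Y) := by
  rw [blk_two_iff] at h h' ⊢
  obtain ⟨A, N, h1, h2, h3⟩ := h
  obtain ⟨A', N', h1', h2', h3'⟩ := h'
  refine ⟨A ⊔ A', N ⊓ N', ?_, ?_, fun k => ⟨fun x => ?_, fun x hx => ?_⟩⟩
  · have := Submodule.finrank_add_le_finrank_add_finrank A A'
    omega
  · have e1 := Submodule.finrank_sup_add_finrank_inf_eq N N'
    have e2 := Submodule.finrank_le (N ⊔ N')
    rw [finrank_pi, Fintype.card_fin] at e2
    omega
  · exact Submodule.add_mem_sup ((h3 k).1 x) ((h3' k).1 x)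
  · change X k x + Y k x = 0
    rw [(h3 k).2 x hx.1, (h3' k).2 x hx.2, add_zero]

theorem Blk.sum {ι : Type*} [DecidableEq ι] (s : Finset ι) (a b : ι → ℕ) (X : ι → RPen p q)
    (hX : ∀ i ∈ s, Blk 2 (a i) (b i) (X i)) : Blk 2 (∑ i ∈ s, a i) (∑ i ∈ s, b i) (∑ i ∈ s, X i) := by
  induction s using Finset.induction_on with
  | empty =>
    simp only [Finset.sum_empty]
    exact Blk.zero 2 0 0
  | insert i s hi ih =>
    rw [Finset.sum_insert hi, Finset.sum_insert hi, Finset.sum_insert hi]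
    exact (hX i (Finset.mem_insert_self i s)).add
      (ih fun j hj => hX j (Finset.mem_insert_of_mem hj))

/-- Composition with linear maps. -/
theorem Blk.comp {p' q' c a b : ℕ} {X : RPen p q} (h : Blk c a b X)
    (P : (Fin p → ℝ) →ₗ[ℝ] (Fin p' → ℝ)) (Q : (Fin q' → ℝ) →ₗ[ℝ] (Fin q → ℝ)) :
    Blk c a b (fun k => P ∘ₗ X k ∘ₗ Q : RPen p' q') := by
  obtain ⟨U, A, N, h0, h1, h2, h3, h4⟩ := h
  refine ⟨U, A.map P, N.comap Q, h0, (Submodule.finrank_map_le _ _).trans h1, ?_, fun x i => ?_,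
    fun k => ⟨fun x => ⟨X k (Q x), (h4 k).1 _, rfl⟩, fun x hx => ?_⟩⟩
  · -- codimension of a preimage
    have e1 : LinearMap.ker (N.mkQ ∘ₗ Q) = N.comap Q := by
      rw [LinearMap.ker_comp, Submodule.ker_mkQ]
    have e2 := LinearMap.finrank_range_add_finrank_ker (N.mkQ ∘ₗ Q)
    rw [e1, finrank_pi, Fintype.card_fin] at e2
    have e3 := Submodule.finrank_le (LinearMap.range (N.mkQ ∘ₗ Q))
    have e4 := Submodule.finrank_quotient_add_finrank N
    rw [finrank_pi, Fintype.card_fin] at e4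
    omega
  · -- the entries are combinations of the entries of `X k`
    have e1 : (fun k => (P ∘ₗ X k ∘ₗ Q) x i) =
        ∑ j, (P (Pi.single j 1) i) • (fun k => X k (Q x) j) := by
      funext k
      rw [Finset.sum_apply]
      change P (X k (Q x)) i = _
      have e2 : X k (Q x) = ∑ j, X k (Q x) j • (Pi.single j 1 : Fin p → ℝ) := by
        have := (Pi.basisFun ℝ (Fin p)).sum_repr (X k (Q x))
        simp only [Pi.basisFun_repr, Pi.basisFun_apply] at this
        exact this.symm
      conv_lhs => rw [e2]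
      rw [map_sum, Finset.sum_apply]
      refine Finset.sum_congr rfl fun j _ => ?_
      rw [map_smul]
      simp only [Pi.smul_apply, smul_eq_mul]
      ring
    rw [e1]
    exact Submodule.sum_mem _ fun j _ => U.smul_mem _ (h3 _ j)
  · change P (X k (Q x)) = 0
    rw [(h4 k).2 _ hx, map_zero]

theorem BP.mono {c a b c' a' b' s : ℕ} {T : RPen p q} (h : BP c a b s T) (hc : c ≤ c')
    (ha : a ≤ a') (hb : b ≤ b') : BP c' a' b' s T := by
  obtain ⟨X, h1, h2⟩ := h
  exact ⟨X, fun j => (h1 j).mono hc ha hb, h2⟩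

theorem BP.comp {p' q' c a b s : ℕ} {T : RPen p q} (h : BP c a b s T)
    (P : (Fin p → ℝ) →ₗ[ℝ] (Fin p' → ℝ)) (Q : (Fin q' → ℝ) →ₗ[ℝ] (Fin q → ℝ)) :
    BP c a b s (fun k => P ∘ₗ T k ∘ₗ Q : RPen p' q') := by
  obtain ⟨X, h1, rfl⟩ := h
  refine ⟨fun j k => P ∘ₗ X j k ∘ₗ Q, fun j => (h1 j).comp P Q, ?_⟩
  funext k
  refine LinearMap.ext fun x => ?_
  rw [Finset.sum_apply, Finset.sum_apply, LinearMap.sum_apply]
  change P ((∑ j, X j k) (Q x)) = ∑ j, P (X j k (Q x))
  rw [LinearMap.sum_apply, map_sum]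

theorem BP.single {c a b : ℕ} {X : RPen p q} (h : Blk c a b X) : BP c a b 1 X :=
  ⟨fun _ => X, fun _ => h, by simp⟩

theorem BP.add {c a b s t : ℕ} {T U : RPen p q} (h : BP c a b s T) (h' : BP c a b t U) :
    BP c a b (s + t) (T + U) := by
  obtain ⟨X, h1, h2⟩ := h
  obtain ⟨Y, h1', h2'⟩ := h'
  refine ⟨Fin.append X Y, ?_, ?_⟩
  · intro j
    refine Fin.addCases (fun i => ?_) (fun i => ?_) j
    · rw [Fin.append_left]
      exact h1 i
    · rw [Fin.append_right]
      exact h1' i
  · rw [Fin.sum_univ_add, h2, h2']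
    simp only [Fin.append_left, Fin.append_right]

theorem BP.le {c a b s t : ℕ} {T : RPen p q} (h : BP c a b s T) (hst : s ≤ t) : BP c a b t T := by
  induction hst with
  | refl => exact h
  | step _ ih =>
    have := ih.add (BP.single (Blk.zero (p := p) (q := q) c a b))
    rwa [add_zero] at this

theorem BP.sum_blk {a b s : ℕ} {T : RPen p q} (h : BP 2 a b s T) : Blk 2 (s * a) (s * b) T := by
  classical
  obtain ⟨X, h1, rfl⟩ := h
  have := Blk.sum Finset.univ (fun _ : Fin s => a) (fun _ => b) X fun i _ => h1 i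
  rwa [Finset.sum_const, Finset.sum_const, Finset.card_univ, Fintype.card_fin, smul_eq_mul,
    smul_eq_mul] at this

/-- Grouping blocks of type `(2, 1, 1)`. -/
theorem BP.group {c s N : ℕ} {T : RPen p q} (h : BP 2 1 1 N T) (hN : N ≤ s * c) :
    BP 2 c c s T := by
  obtain ⟨X, hX, rfl⟩ := h.le hN
  classical
  refine ⟨fun j => ∑ t : Fin c, X (finProdFinEquiv (j, t)), fun j => ?_, ?_⟩
  · have := Blk.sum Finset.univ (fun _ : Fin c => 1) (fun _ => 1)
      (fun t : Fin c => X (finProdFinEquiv (j, t))) fun t _ => hX _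
    rwa [Finset.sum_const, Finset.card_univ, Fintype.card_fin, smul_eq_mul, mul_one] at this
  · rw [← finProdFinEquiv.sum_comp, Fintype.sum_prod_type]

end Pool.Agent.SubTyp
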