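import Pool.Agent.SubTyp.RpTr
import Pool.Agent.SubTyp.PenMain

/-!
# Typical ranks of pencils with respect to `Sub_{2,a,b}`
-/

open Module Submodule Set
open scoped Topology

namespace Pool.Agent.SubTyp

/-- The pencils of an open dense set do not decompose. -/
def NB (c a b s p q : ℕ) : Prop :=
  ∃ O : Set (Ten ![2, p, q]), IsOpen O ∧ Dense O ∧ ∀ T ∈ O, ¬ BP c a b s (rpen T)

theorem NB.tr {c a b s p q : ℕ} (h : NB c a b s p q) : NB c b a s q p := by
  obtain ⟨O, h1, h2, h3⟩ := h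
  have hc : Continuous (sw p q) := LinearMap.continuous_of_finiteDimensional _
  have hs := sw_surjective p q
  refine ⟨sw p q '' O, ?_, ?_, ?_⟩
  · exact LinearMap.isOpenMap_of_finiteDimensional _ hs _ h1
  · exact hs.denseRange.dense_image hc h2
  · rintro _ ⟨T, hT, rfl⟩ hcon
    exact h3 T hT (bp_sw_iff.1 hcon)

theorem nb_right {c a b s p q : ℕ} (hc : c ≤ 2) (h : s * b < min q (2 * p)) : NB c a b s p q := by
  obtain ⟨r, hr⟩ : ∃ r, q = min q (2 * p) + r := Nat.exists_eq_add_of_le (min_le_left _ _)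
  set n := min q (2 * p) with hn
  have hn2 : n ≤ 2 * p := min_le_right _ _
  clear_value n
  subst hr
  refine ⟨_, (dense_stk p n r hn2).1, (dense_stk p n r hn2).2, fun T hT hcon => ?_⟩
  have h1 := ker_stk hn2 hT
  have h2 := (hcon.mono hc le_rfl le_rfl).sum_blk
  rw [blk_two_iff] at h2
  obtain ⟨A, N, -, h3, h4⟩ := h2
  have h5 : N ≤ LinearMap.ker (rpen T 0) ⊓ LinearMap.ker (rpen T 1) := fun x hx =>
    ⟨(h4 0).2 x hx, (h4 1).2 x hx⟩
  have h6 := Submodule.finrank_mono h5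
  omega

theorem nb_left {c a b s p q : ℕ} (hc : c ≤ 2) (h : s * a < min p (2 * q)) : NB c a b s p q :=
  (nb_right hc h).tr

theorem BP.zero_pen {c a b s p q : ℕ} : BP c a b s (0 : RPen p q) :=
  ⟨fun _ => 0, fun _ => Blk.zero c a b, by simp⟩

/-- **A unique typical rank.** -/
theorem typical_unique {c a b s p q : ℕ} (hc : c ≤ 2) (ha : a ≤ p) (hb : b ≤ q) (hc0 : 1 ≤ c)
    (ha0 : 1 ≤ a) (hb0 : 1 ≤ b) (h1 : OD c a b (s + 1) p q) (h2 : NB c a b s p q) (d : ℕ) :
    IsTypicalRank (SubVar ![2, p, q] ![c, a, b]) d ↔ d = s + 1 := by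
  rw [rtypical_iff hc ha hb hc0 ha0 hb0]
  obtain ⟨O₁, o1, d1, h1⟩ := h1
  obtain ⟨O₂, o2, d2, h2⟩ := h2
  constructor
  · rintro ⟨O, hO, hne, hT⟩
    apply le_antisymm
    · obtain ⟨T, hTO, hT1⟩ := dense_iff_inter_open.1 d1 O hO hne
      by_contra hcon
      exact (hT T hTO).2.2 (s + 1) (not_le.1 hcon) (h1 T hT1)
    · obtain ⟨T, hTO, hT2⟩ := dense_iff_inter_open.1 d2 O hO hne
      by_contra hcon
      exact h2 T hT2 ((hT T hTO).2.1.le (by omega))
  · rintro rfl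
    refine ⟨O₁ ∩ O₂, o1.inter o2, (d1.inter_of_isOpen_left d2 o1).nonempty, ?_⟩
    rintro T ⟨hT1, hT2⟩
    refine ⟨?_, h1 T hT1, fun t ht hcon => h2 T hT2 (hcon.le (by omega))⟩
    rintro rfl
    apply h2 0 hT2
    rw [map_zero]
    exact BP.zero_pen

theorem od_two_lt {a b s p q : ℕ} (hs : 0 < s) (hab : a < b) (hp : p ≤ a * s) (hq : q ≤ b * s) :
    OD 2 a b s p q := by
  obtain ⟨d, rfl⟩ := Nat.exists_eq_add_of_lt hab
  have h1 : OD 2 a (a + (d + 1)) s (a * s) (a * s + (d + 1) * s) := od_blocks (by positivity)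
  refine h1.res hp (hq.trans (le_of_eq ?_))
  ring

theorem od_two_eq {a s p q : ℕ} (hp : p < a * s) (hq : q ≤ a * s) : OD 2 a a s p q := by
  obtain ⟨κ, hκ⟩ : ∃ κ, a * s = κ + 1 := ⟨a * s - 1, by omega⟩
  have h1 : OD 2 1 1 (κ + 1) (κ * 1) (κ * 1 + 1) :=
    (od_ones one_pos κ).mono (by norm_num) le_rfl le_rfl
  have h2 : OD 2 a a s (κ * 1) (κ * 1 + 1) := h1.group (by rw [← hκ, Nat.mul_comm])
  exact h2.res (by omega) (by omega)

theorem od_two {a b s p q : ℕ} (hs : 0 < s) (hp : p ≤ a * s) (hq : q ≤ b * s)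
    (hne : ¬ (a = b ∧ p = a * s ∧ q = b * s)) : OD 2 a b s p q := by
  rcases lt_trichotomy a b with h | h | h
  · exact od_two_lt hs h hp hq
  · subst h
    rcases hp.lt_or_eq with h1 | h1
    · exact od_two_eq h1 hq
    · have h2 : q < a * s := by
        rcases hq.lt_or_eq with h2 | h2
        · exact h2
        · exact absurd ⟨rfl, h1, h2⟩ hne
      exact (od_two_eq h2 hp).tr
  · exact (od_two_lt hs h hq hp).tr

theorem OD.of_all {c a b s p q : ℕ} (h : ∀ T : RPen p q, BP c a b s T) : OD c a b s p q :=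
  ⟨Set.univ, isOpen_univ, dense_univ, fun _ _ => h _⟩

theorem od_two_full {a b s p q : ℕ} (hp1 : 1 ≤ p) (hq1 : 1 ≤ q) (hs : 0 < s)
    (hp : min p (2 * q) ≤ a * s) (hq : min q (2 * p) ≤ b * s) (hpq : p ≠ q) :
    OD 2 a b s p q := by
  by_cases h1 : 2 * p ≤ q
  · rw [min_eq_right h1] at hq
    rw [min_eq_left (by omega)] at hp
    exact OD.of_all ((od_two hs hp hq (by rintro ⟨rfl, h2, h3⟩; omega)).wide q)
  · by_cases h2 : 2 * q ≤ p
    · rw [min_eq_right h2] at hp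
      rw [min_eq_left (by omega)] at hq
      exact (OD.of_all ((od_two hs hq hp (by rintro ⟨rfl, h2, h3⟩; omega)).wide p)).tr
    · rw [min_eq_left (by omega)] at hp hq
      exact od_two hs hp hq (by rintro ⟨rfl, h2, h3⟩; omega)

/-- **The typical ranks of real pencils with respect to `Sub_{2,a,b}`, non-square case.** -/
theorem typical_two {p q a b : ℕ} (ha : 1 ≤ a) (ha' : a ≤ p) (hb : 1 ≤ b) (hb' : b ≤ q)
    (hpq : p ≠ q) (d : ℕ) : IsTypicalRank (SubVar ![2, p, q] ![2, a, b]) d ↔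
      d = max ((min p (2 * q) + a - 1) / a) ((min q (2 * p) + b - 1) / b) := by
  have hceil : ∀ n a : ℕ, 1 ≤ a → ∀ t, (n + a - 1) / a ≤ t ↔ n ≤ a * t := by
    intro n a ha t
    rw [Nat.div_le_iff_le_mul_add_pred ha]
    omega
  set c := max ((min p (2 * q) + a - 1) / a) ((min q (2 * p) + b - 1) / b) with hc
  have hct : ∀ t, c ≤ t ↔ min p (2 * q) ≤ a * t ∧ min q (2 * p) ≤ b * t := by
    intro t
    rw [hc, max_le_iff, hceil _ _ ha, hceil _ _ hb]
  have hc0 : 1 ≤ c := by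
    by_contra hcon
    have := (hct 0).1 (by omega)
    omega
  obtain ⟨s, hs⟩ : ∃ s, c = s + 1 := ⟨c - 1, by omega⟩
  rw [hs] at hct ⊢
  obtain ⟨h1, h2⟩ := (hct (s + 1)).1 le_rfl
  refine typical_unique le_rfl ha' hb' one_le_two ha hb
    (od_two_full (by omega) (by omega) (Nat.succ_pos s) h1 h2 hpq) ?_ d
  by_cases h3 : min p (2 * q) ≤ a * s
  · refine nb_right le_rfl ?_
    by_contra hcon
    have := (hct s).2 ⟨h3, by rw [Nat.mul_comm b s]; exact not_lt.1 hcon⟩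
    omega
  · exact nb_left le_rfl (by rw [Nat.mul_comm s a]; exact not_le.1 h3)

end Pool.Agent.SubTyp
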