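import Pool.Agent.SubTyp.RpPole
import Pool.Agent.SubTyp.RpMain

/-!
# Square pencils with distinct real eigenvalues
-/

open Module Submodule Set
open scoped Topology

namespace Pool.Agent.SubTyp

/-- A pencil with distinct real eigenvalues. -/
def EigB {m : ℕ} (T : RPen m m) : Prop :=
  Function.Injective (T 0) ∧ ∃ (c : Fin m → ℝ) (w : Fin m → (Fin m → ℝ)), Function.Injective c ∧
    (∀ i, w i ≠ 0) ∧ ∀ i, T 1 (w i) = c i • T 0 (w i)

theorem EigB.basis {m : ℕ} {T : RPen m m} (h : EigB T) :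
    ∃ (c : Fin m → ℝ) (b : Basis (Fin m) ℝ (Fin m → ℝ)), Function.Injective c ∧
      ∀ i, T 1 (b i) = c i • T 0 (b i) := by
  classical
  obtain ⟨h0, c, w, hc, hw, h⟩ := h
  let e : (Fin m → ℝ) ≃ₗ[ℝ] (Fin m → ℝ) := LinearEquiv.ofInjectiveEndo (T 0) h0
  have he : ∀ x, e x = T 0 x := fun x => LinearEquiv.coe_ofInjectiveEndo (T 0) h0 ▸ rfl
  let M : End ℝ (Fin m → ℝ) := e.symm.toLinearMap ∘ₗ T 1
  have hM : ∀ i, M (w i) = c i • w i := by
    intro i
    change e.symm (T 1 (w i)) = _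
    rw [h i, map_smul, ← he, LinearEquiv.symm_apply_apply]
  have hind : LinearIndependent ℝ w := by
    refine Module.End.eigenvectors_linearIndependent' M c hc w fun i => ?_
    exact Module.End.hasEigenvector_iff.2 ⟨Module.End.mem_eigenspace_iff.2 (hM i), hw i⟩
  have hcard : Fintype.card (Fin m) = finrank ℝ (Fin m → ℝ) := by rw [finrank_pi]
  have hspan := hind.span_eq_top_of_card_eq_finrank' hcard
  let b : Basis (Fin m) ℝ (Fin m → ℝ) := basisOfTopLeSpanOfCardEqFinrank w hspan.ge hcard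
  have hb : ∀ i, b i = w i := fun i =>
    congrFun (coe_basisOfTopLeSpanOfCardEqFinrank w hspan.ge hcard) i
  refine ⟨c, b, hc, fun i => ?_⟩
  rw [hb, h]

/-- **Sign changes.** -/
theorem EigB.of_signs {m : ℕ} {T : RPen m m} (h0 : Function.Injective (T 0)) (x : ℕ → ℝ)
    (hx : StrictMono x)
    (hs : ∀ i : ℕ, i < m → LinearMap.det (x i • T 0 - T 1) *
      LinearMap.det (x (i + 1) • T 0 - T 1) < 0) : EigB T := by
  -- the characteristic function is continuous
  have hcont : Continuous fun t : ℝ => LinearMap.det (t • T 0 - T 1) := by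
    have e1 : ∀ t : ℝ, LinearMap.det (t • T 0 - T 1) =
        Matrix.det (t • LinearMap.toMatrix' (T 0) - LinearMap.toMatrix' (T 1)) := by
      intro t
      rw [← LinearMap.det_toMatrix', map_sub, map_smul]
    simp only [e1]
    fun_prop
  have hroot : ∀ i : Fin m, ∃ t, x i < t ∧ t < x (i + 1) ∧ LinearMap.det (t • T 0 - T 1) = 0 := by
    intro i
    have h1 := hs i i.2
    have h2 : x i < x (i + 1) := hx (Nat.lt_succ_self _)
    rcases mul_neg_iff.1 h1 with ⟨h3, h4⟩ | ⟨h3, h4⟩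
    · obtain ⟨t, ht, ht0⟩ := intermediate_value_Ioo' h2.le hcont.continuousOn ⟨h4, h3⟩
      exact ⟨t, ht.1, ht.2, ht0⟩
    · obtain ⟨t, ht, ht0⟩ := intermediate_value_Ioo h2.le hcont.continuousOn ⟨h3, h4⟩
      exact ⟨t, ht.1, ht.2, ht0⟩
  choose c hc1 hc2 hc3 using hroot
  have hinj : Function.Injective c := by
    have hlt : ∀ i j : Fin m, i < j → c i < c j := by
      intro i j hij
      have h1 : x (i + 1) ≤ x j := hx.monotone (by
        have := Fin.lt_def.1 hij
        omega)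
      linarith [hc2 i, hc1 j]
    intro i j hij
    rcases lt_trichotomy i j with h | h | h
    · have := hlt i j h
      rw [hij] at this
      exact absurd this (lt_irrefl _)
    · exact h
    · have := hlt j i h
      rw [hij] at this
      exact absurd this (lt_irrefl _)
  have hker : ∀ i, ∃ w : Fin m → ℝ, w ≠ 0 ∧ T 1 w = c i • T 0 w := by
    intro i
    have h1 := LinearMap.bot_lt_ker_of_det_eq_zero (hc3 i)
    obtain ⟨w, hw, hw0⟩ := Submodule.exists_mem_ne_zero_of_ne_bot h1.ne'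
    refine ⟨w, hw0, ?_⟩
    have h2 := LinearMap.mem_ker.1 hw
    rw [LinearMap.sub_apply, LinearMap.smul_apply, sub_eq_zero] at h2
    exact h2.symm
  choose w hw0 hw using hker
  exact ⟨h0, c, w, hinj, hw0, hw⟩

theorem rpen_eq_pen {m : ℕ} (T : Ten ![2, m, m]) : rpen T = pen T := by
  have h : ∀ k i j, (rtup k i j : (l : Fin 3) → Fin ((![2, m, m] : Fin 3 → ℕ) l)) = tup k i j := by
    intro k i j
    funext l
    fin_cases l <;> rfl
  funext k
  rw [rpen_apply, pen_apply]
  have h2 : rmat T k = mat T k := by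
    ext i j
    change T (rtup k i j) = T (tup k i j)
    rw [h]
  rw [h2]

/-- tensors with distinct real eigenvalues -/
theorem exists_open_eigB (n : ℕ) : ∃ O : Set (Ten ![2, n, n]), IsOpen O ∧ O.Nonempty ∧
    ∀ T ∈ O, EigB (rpen T) := by
  set x : ℕ → ℝ := fun i => (i : ℝ) - 1 / 2 with hx
  have hxm : StrictMono x := by
    intro i j hij
    have : (i : ℝ) < j := by exact_mod_cast hij
    change (i : ℝ) - 1 / 2 < (j : ℝ) - 1 / 2
    linarith
  refine ⟨{T | (mat T 0).det ≠ 0} ∩ ⋂ i : Fin n, {T | (x i • mat T 0 - mat T 1).det *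
    (x (i + 1) • mat T 0 - mat T 1).det < 0}, ?_, ?_, ?_⟩
  · have h0 := continuous_mat (n := n) 0
    have h1 := continuous_mat (n := n) 1
    refine IsOpen.inter ?_ (isOpen_iInter_of_finite fun i => ?_)
    · exact (isOpen_ne (x := (0 : ℝ))).preimage h0.matrix_det
    · have h2 : Continuous fun T : Ten ![2, n, n] => (x i • mat T 0 - mat T 1).det *
          (x (i + 1) • mat T 0 - mat T 1).det :=
        ((h0.const_smul (x i)).sub h1).matrix_det.mul
          ((h0.const_smul (x (i + 1))).sub h1).matrix_det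
      exact (isOpen_Iio (a := (0 : ℝ))).preimage h2
  · refine ⟨ofMat 1 (Matrix.diagonal fun i : Fin n => ((i : ℕ) : ℝ)), ?_, ?_⟩
    · change (mat (ofMat 1 _) 0).det ≠ 0
      rw [mat_ofMat_zero, Matrix.det_one]
      exact one_ne_zero
    · rw [mem_iInter]
      intro i
      change (x i • mat (ofMat 1 _) 0 - mat (ofMat 1 _) 1).det *
        (x (i + 1) • mat (ofMat 1 _) 0 - mat (ofMat 1 _) 1).det < 0
      rw [mat_ofMat_zero, mat_ofMat_one]
      have hdiag : ∀ t : ℝ, (t • (1 : Matrix (Fin n) (Fin n) ℝ) -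
          Matrix.diagonal fun i : Fin n => ((i : ℕ) : ℝ)).det = ∏ k : Fin n, (t - (k : ℕ)) := by
        intro t
        rw [← Matrix.diagonal_one, ← Matrix.diagonal_smul, Matrix.diagonal_sub, Matrix.det_diagonal]
        refine Finset.prod_congr rfl fun k _ => ?_
        simp
      rw [hdiag, hdiag, ← Finset.prod_mul_distrib, ← Finset.mul_prod_erase _ _ (Finset.mem_univ i)]
      refine mul_neg_of_neg_of_pos ?_ (Finset.prod_pos fun k hk => ?_)
      · rw [hx]
        push_cast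
        ring_nf
        norm_num
      · have hne : (k : ℕ) ≠ i := fun h => (Finset.mem_erase.1 hk).1 (Fin.ext h)
        rw [hx]
        push_cast
        have h2 : (1 : ℝ) ≤ (((i : ℕ) : ℝ) - (k : ℕ)) ^ 2 := by
          have h3 : (1 : ℤ) ≤ (((i : ℕ) : ℤ) - (k : ℕ)) ^ 2 := by
            have h4 : ((i : ℕ) : ℤ) - (k : ℕ) ≠ 0 := by
              intro h
              apply hne
              omega
            have := sq_pos_of_ne_zero h4
            omega
          exact_mod_cast h3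
        nlinarith
  · rintro T ⟨h1, h2⟩
    have hinj : Function.Injective (pen T 0) := by
      rw [pen_apply]
      refine Function.LeftInverse.injective (g := Matrix.toLin' (mat T 0)⁻¹) fun x => ?_
      rw [← LinearMap.comp_apply, ← Matrix.toLin'_mul,
        Matrix.nonsing_inv_mul _ (IsUnit.mk0 _ h1), Matrix.toLin'_one, LinearMap.id_apply]
    change EigB (rpen T)
    rw [rpen_eq_pen]
    refine EigB.of_signs hinj x hxm fun i hi => ?_
    rw [det_pen, det_pen]
    exact mem_iInter.1 h2 ⟨i, hi⟩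

theorem cyc_diag {d : ℕ} (θ : Fin d → ℝ) (hθ : Function.Injective θ) :
    Cyc (Matrix.toLin' (Matrix.diagonal θ)) (fun _ => 1) := by
  have hpow : ∀ i : ℕ, ((Matrix.toLin' (Matrix.diagonal θ)) ^ i) (fun _ => 1) = fun l => θ l ^ i := by
    intro i
    have e2 : (Matrix.toLin' (Matrix.diagonal θ)) ^ i = Matrix.toLin' ((Matrix.diagonal θ) ^ i) :=
      (map_pow Matrix.toLinAlgEquiv' (Matrix.diagonal θ) i).symm
    rw [e2, Matrix.diagonal_pow, Matrix.toLin'_apply]
    funext l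
    rw [Matrix.mulVec_diagonal, mul_one, Pi.pow_apply]
  unfold Cyc
  simp only [hpow]
  have h1 : (Matrix.vandermonde θ).det ≠ 0 := Matrix.det_vandermonde_ne_zero_iff.2 hθ
  exact Matrix.linearIndependent_cols_of_det_ne_zero h1

/-- **Pencils with distinct real eigenvalues are short sums.** -/
theorem EigB.bp {k ρ : ℕ} {T : RPen (k + 1 + ρ * k) (k + 1 + ρ * k)} (h : EigB T) :
    BP 1 (ρ + 1) (ρ + 1) (k + 1) T := by
  classical
  obtain ⟨c, b, hc, hb⟩ := h.basis
  set l0 : Fin (k + 1) → ℝ := fun i => c (Fin.castAdd (ρ * k) i) with hl0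
  set μ : Fin (ρ * k) → ℝ := fun l => c (Fin.natAdd (k + 1) l) with hμ
  have hne1 : ∀ j : Fin k, l0 j.succ - l0 0 ≠ 0 := by
    intro j h
    have h1 := hc (sub_eq_zero.1 h)
    have h2 := congrArg Fin.val h1
    simp at h2
  have hne2 : ∀ l, μ l - l0 0 ≠ 0 := by
    intro l h
    have h1 := hc (sub_eq_zero.1 h)
    have h2 := congrArg Fin.val h1
    simp at h2
  set ν : Fin k → ℝ := fun j => (l0 j.succ - l0 0)⁻¹ with hν
  have hνi : Function.Injective ν := by
    intro i j hij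
    have h1 := inv_injective hij
    have h2 : l0 i.succ = l0 j.succ := by linarith
    have h3 := congrArg Fin.val (hc h2)
    simp only [Fin.val_castAdd, Fin.val_succ] at h3
    exact Fin.ext (by omega)
  set θ : Fin (ρ * k) → ℝ := fun l => (μ l - l0 0)⁻¹ with hθ
  have hθi : Function.Injective θ := by
    intro i j hij
    have h1 := inv_injective hij
    have h2 : μ i = μ j := by linarith
    have h3 := congrArg Fin.val (hc h2)
    simp only [Fin.val_natAdd] at h3
    exact Fin.ext (by omega)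
  set Mh : End ℝ (Fin (ρ * k) → ℝ) := Matrix.toLin' (Matrix.diagonal θ) with hMh
  have hMhx : ∀ y l, Mh y l = θ l * y l := by
    intro y l
    rw [hMh, Matrix.toLin'_apply, Matrix.mulVec_diagonal]
  obtain ⟨E, hE1, hE2, hE3⟩ := (cyc_diag θ hθi).place rfl ν hνi
  rw [← hMh] at hE3
  -- the maps
  set Pj : Fin (k + 1) → End ℝ (Fin (k + 1 + ρ * k) → ℝ) := fun i =>
    (b.coord (Fin.castAdd (ρ * k) i)).smulRight (b (Fin.castAdd (ρ * k) i)) with hPj
  set Pi : (Fin (k + 1 + ρ * k) → ℝ) →ₗ[ℝ] (Fin (ρ * k) → ℝ) :=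
    LinearMap.pi fun l => b.coord (Fin.natAdd (k + 1) l) with hPi
  set J : (Fin (ρ * k) → ℝ) →ₗ[ℝ] (Fin (k + 1 + ρ * k) → ℝ) :=
    ∑ l, (LinearMap.proj l : (Fin (ρ * k) → ℝ) →ₗ[ℝ] ℝ).smulRight (b (Fin.natAdd (k + 1) l)) with hJ
  have hJx : ∀ y, J y = ∑ l, y l • b (Fin.natAdd (k + 1) l) := by
    intro y
    rw [hJ, LinearMap.sum_apply]
    rfl
  have hdec : ∀ x, x = ∑ i, Pj i x + J (Pi x) := by
    intro x
    conv_lhs => rw [← b.sum_repr x, Fin.sum_univ_add]
    rw [hJx]
    rfl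
  have hJ1 : ∀ y, T 1 (J y) = ∑ l, (μ l * y l) • T 0 (b (Fin.natAdd (k + 1) l)) := by
    intro y
    rw [hJx, map_sum]
    refine Finset.sum_congr rfl fun l _ => ?_
    rw [map_smul, hb, smul_smul]
    exact congrArg (fun r : ℝ => r • T 0 (b (Fin.natAdd (k + 1) l))) (mul_comm _ _)
  have hJ0 : ∀ y, T 0 (J y) = ∑ l, y l • T 0 (b (Fin.natAdd (k + 1) l)) := by
    intro y
    rw [hJx, map_sum]
    refine Finset.sum_congr rfl fun l _ => ?_
    rw [map_smul]
  have hA : ∀ y, (T 1 - l0 0 • T 0) (J (Mh y)) = T 0 (J y) := by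
    intro y
    rw [LinearMap.sub_apply, LinearMap.smul_apply, hJ1, hJ0, hJ0, Finset.smul_sum,
      ← Finset.sum_sub_distrib]
    refine Finset.sum_congr rfl fun l _ => ?_
    rw [smul_smul, ← sub_smul, hMhx]
    congr 1
    have h1 := hne2 l
    rw [hθ]
    field_simp
  have hP1 : ∀ i x, T 1 (Pj i x) = l0 i • T 0 (Pj i x) := by
    intro i x
    rw [hPj]
    simp only [LinearMap.smulRight_apply, map_smul]
    rw [hb, smul_comm]
  set A : (Fin (k + 1 + ρ * k) → ℝ) →ₗ[ℝ] (Fin (k + 1 + ρ * k) → ℝ) := T 1 - l0 0 • T 0 with hAdef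
  set G0 : (Fin (ρ * k) → ℝ) →ₗ[ℝ] (Fin (k + 1 + ρ * k) → ℝ) :=
    (A ∘ₗ J) ∘ₗ (Mh - ∑ j, ν j • E j) with hG0
  set G : Fin k → ((Fin (ρ * k) → ℝ) →ₗ[ℝ] (Fin (k + 1 + ρ * k) → ℝ)) := fun j =>
    (A ∘ₗ J) ∘ₗ (ν j • E j) with hG
  set M : Fin (k + 1) → ((Fin (k + 1 + ρ * k) → ℝ) →ₗ[ℝ] (Fin (k + 1 + ρ * k) → ℝ)) :=
    fun i => T 0 ∘ₗ Pj i + (Fin.cons G0 G : Fin (k + 1) → _) i ∘ₗ Pi with hM
  have hrk : ∀ (F : (Fin (ρ * k) → ℝ) →ₗ[ℝ] (Fin (k + 1 + ρ * k) → ℝ)) (i : Fin (k + 1)),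
      finrank ℝ (LinearMap.range F) ≤ ρ →
      finrank ℝ (LinearMap.range (T 0 ∘ₗ Pj i + F ∘ₗ Pi)) ≤ ρ + 1 := by
    intro F i hF
    have h1 : LinearMap.range (T 0 ∘ₗ Pj i + F ∘ₗ Pi) ≤
        span ℝ {T 0 (b (Fin.castAdd (ρ * k) i))} ⊔ LinearMap.range F := by
      rintro _ ⟨x, rfl⟩
      refine Submodule.add_mem_sup ?_ ⟨_, rfl⟩
      change T 0 (b.coord (Fin.castAdd (ρ * k) i) x • b (Fin.castAdd (ρ * k) i)) ∈ _
      rw [map_smul]
      exact Submodule.smul_mem _ _ (mem_span_singleton_self _)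
    have h2 := Submodule.finrank_mono h1
    have h3 := Submodule.finrank_add_le_finrank_add_finrank
      (span ℝ {T 0 (b (Fin.castAdd (ρ * k) i))}) (LinearMap.range F)
    have h4 : finrank ℝ (span ℝ {T 0 (b (Fin.castAdd (ρ * k) i))}) ≤ 1 :=
      (finrank_span_le_card _).trans (by simp)
    omega
  have hcomp : ∀ F : End ℝ (Fin (ρ * k) → ℝ), finrank ℝ (LinearMap.range F) ≤ ρ →
      finrank ℝ (LinearMap.range ((A ∘ₗ J) ∘ₗ F)) ≤ ρ := by
    intro F hF
    rw [LinearMap.range_comp]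
    exact (Submodule.finrank_map_le _ _).trans hF
  have hMr : ∀ i, finrank ℝ (LinearMap.range (M i)) ≤ ρ + 1 := by
    intro i
    refine hrk _ i ?_
    refine Fin.cases ?_ (fun j => ?_) i
    · rw [Fin.cons_zero]
      exact hcomp _ hE3
    · rw [Fin.cons_succ]
      refine hcomp _ ((Submodule.finrank_mono ?_).trans (hE2 j))
      rintro _ ⟨x, rfl⟩
      exact Submodule.smul_mem _ _ ⟨x, rfl⟩
  refine ⟨fun i κ => (![1, l0 i] : Fin 2 → ℝ) κ • M i, fun i => ?_, ?_⟩
  · rw [blk_one_iff]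
    refine ⟨![1, l0 i], M i, ?_, rfl⟩
    rw [min_self]
    exact hMr i
  · have hG0G : ∀ y, G0 y + ∑ j, G j y = T 0 (J y) := by
      intro y
      have e1 : ∑ j, G j y = (A ∘ₗ J) ((∑ j, ν j • E j) y) := by
        rw [LinearMap.sum_apply, map_sum]
        rfl
      rw [e1, hG0, LinearMap.comp_apply, ← map_add, LinearMap.sub_apply, sub_add_cancel]
      exact hA y
    have hG1 : ∀ y, l0 0 • G0 y + ∑ j : Fin k, l0 j.succ • G j y = T 1 (J y) := by
      intro y
      have e1 : l0 0 • G0 y = l0 0 • (T 0 (J y)) - ∑ j, l0 0 • G j y := by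
        rw [← hG0G, smul_add, Finset.smul_sum, add_sub_cancel_right]
      have e2 : ∀ j : Fin k, l0 j.succ • G j y - l0 0 • G j y = (A ∘ₗ J) (E j y) := by
        intro j
        rw [← sub_smul, hG]
        simp only
        rw [LinearMap.comp_apply, LinearMap.smul_apply, map_smul, smul_smul, hν]
        simp only
        rw [mul_inv_cancel₀ (hne1 j), one_smul]
      have e3 : ∑ j, (A ∘ₗ J) (E j y) = (A ∘ₗ J) y := by
        rw [← map_sum, ← LinearMap.sum_apply, hE1, Module.End.one_apply]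
      have e4 : (A ∘ₗ J) y = T 1 (J y) - l0 0 • T 0 (J y) := rfl
      have e5 : ∑ j : Fin k, l0 j.succ • G j y - ∑ j, l0 0 • G j y = (A ∘ₗ J) y := by
        rw [← Finset.sum_sub_distrib, ← e3]
        exact Finset.sum_congr rfl fun j _ => e2 j
      rw [e1]
      have e6 := e5.trans e4
      rw [sub_eq_sub_iff_add_eq_add] at e6
      rw [sub_add_eq_add_sub, sub_eq_iff_eq_add]
      exact (add_comm _ _).trans e6
    funext κ
    refine LinearMap.ext fun x => ?_
    rw [Finset.sum_apply, LinearMap.sum_apply]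
    have e1 : ∀ i, ((![1, l0 i] : Fin 2 → ℝ) κ • M i) x =
        (![1, l0 i] : Fin 2 → ℝ) κ • T 0 (Pj i x) +
          (![1, l0 i] : Fin 2 → ℝ) κ • ((Fin.cons G0 G : Fin (k + 1) → _) i (Pi x)) := by
      intro i
      rw [LinearMap.smul_apply, ← smul_add]
      rfl
    simp only [e1, Finset.sum_add_distrib]
    conv_lhs => rw [hdec x, map_add, map_sum]
    have hκ : κ = 0 ∨ κ = 1 := by
      fin_cases κ
      · exact Or.inl rfl
      · exact Or.inr rfl
    rcases hκ with rfl | rfl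
    · congr 1
      · refine Finset.sum_congr rfl fun i _ => ?_
        change _ = (1 : ℝ) • _
        rw [one_smul]
      · rw [Fin.sum_univ_succ, Fin.cons_zero]
        simp only [Fin.cons_succ]
        change _ = (1 : ℝ) • G0 (Pi x) + ∑ j : Fin k, (1 : ℝ) • G j (Pi x)
        simp only [one_smul]
        exact (hG0G _).symm
    · congr 1
      · refine Finset.sum_congr rfl fun i _ => ?_
        exact hP1 i x
      · rw [Fin.sum_univ_succ, Fin.cons_zero]
        simp only [Fin.cons_succ]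
        exact (hG1 _).symm

end Pool.Agent.SubTyp
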