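import Pool.Agent.SubTyp.RpTen
import Pool.Agent.SubTyp.PenGen

/-!
# The generic pencil of format `p × (p + g)`

A generic pencil of format `p × (p + g)` is equivalent to the pair `(0 | I)`, `(I | 0)`.
-/

open Module Submodule Set Polynomial
open scoped Topology

namespace Pool.Agent.SubTyp

/-! ### Chains -/

section Chain

variable {V W : Type*} [AddCommGroup V] [Module ℝ V] [AddCommGroup W] [Module ℝ W]

/-- The span of the vectors `M ^ j (T₁ z)`, `j < t`, `T₀ z = 0`. -/
def cspace (T0 T1 : V →ₗ[ℝ] W) (M : Module.End ℝ W) : ℕ → Submodule ℝ W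
  | 0 => ⊥
  | t + 1 => cspace T0 T1 M t ⊔ (LinearMap.ker T0).map ((M ^ t : Module.End ℝ W) ∘ₗ T1)

theorem exists_chain (T0 T1 : V →ₗ[ℝ] W) (R : W →ₗ[ℝ] V) (M : Module.End ℝ W)
    (hM : ∀ x, T1 (R x) = M x) (hR : ∀ x, T0 (R x) = x) (κ : ℕ) (y : V)
    (h : (M ^ κ) (T1 y) ∈ cspace T0 T1 M κ) :
    ∃ c : ℕ → V, c 0 = y ∧ (∀ t, t < κ → T0 (c (t + 1)) = T1 (c t)) ∧ T1 (c κ) = 0 ∧
      ∀ t, t ≤ κ → T1 (c t) - (M ^ t) (T1 y) ∈ cspace T0 T1 M t := by
  induction κ generalizing y with
  | zero =>
    refine ⟨fun _ => y, rfl, fun t ht => absurd ht (Nat.not_lt_zero t), ?_, fun t ht => ?_⟩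
    · exact (Submodule.mem_bot ℝ).1 h
    · obtain rfl : t = 0 := by omega
      rw [pow_zero, Module.End.one_apply, sub_self]
      exact Submodule.zero_mem _
  | succ κ ih =>
    obtain ⟨s, hs, x, ⟨ζ, hζ, rfl⟩, hsum⟩ := Submodule.mem_sup.1 h
    have hζ0 : T0 ζ = 0 := hζ
    obtain ⟨c, h0, h1, h2, h3⟩ := ih (R (T1 y) - ζ) (by
      have e1 : (M ^ κ) (T1 (R (T1 y) - ζ)) = s := by
        rw [map_sub, hM, map_sub, ← Module.End.mul_apply, ← pow_succ, ← hsum]
        exact add_sub_cancel_right _ _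
      rw [e1]
      exact hs)
    refine ⟨fun t => Nat.casesOn t y c, rfl, ?_, h2, ?_⟩
    · intro t ht
      rcases t with _ | t
      · change T0 (c 0) = T1 y
        rw [h0, map_sub, hR, hζ0, sub_zero]
      · exact h1 t (by omega)
    · intro t ht
      rcases t with _ | t
      · change T1 y - (M ^ 0) (T1 y) ∈ _
        rw [pow_zero, Module.End.one_apply, sub_self]
        exact Submodule.zero_mem _
      · change T1 (c t) - (M ^ (t + 1)) (T1 y) ∈ cspace T0 T1 M t ⊔ _
        have e1 : T1 (c t) - (M ^ (t + 1)) (T1 y) =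
            (T1 (c t) - (M ^ t) (T1 (R (T1 y) - ζ))) + ((M ^ t : Module.End ℝ W) ∘ₗ T1) (-ζ) := by
          rw [map_sub, hM, map_sub, ← Module.End.mul_apply, ← pow_succ, LinearMap.comp_apply,
            map_neg, map_neg]
          abel
        rw [e1]
        refine Submodule.add_mem_sup (h3 t (by omega)) ⟨-ζ, ?_, rfl⟩
        exact Submodule.neg_mem _ hζ

end Chain

/-- The pencil is equivalent to the pair `(0 | I)`, `(I | 0)`. -/
def Kron (p g : ℕ) (T : RPen p (p + g)) : Prop :=
  ∃ (w : ℕ → (Fin (p + g) → ℝ)) (f : ℕ → ((Fin (p + g) → ℝ) →ₗ[ℝ] ℝ)),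
    (∀ x, x = ∑ l ∈ Finset.range (p + g), f l x • w l) ∧ (∀ l, l < g → T 0 (w l) = 0) ∧
    (∀ l, l < p → T 0 (w (l + g)) = T 1 (w l)) ∧ (∀ l, p ≤ l → l < p + g → T 1 (w l) = 0) ∧
    ⊤ ≤ span ℝ (Set.range fun l : Fin p => T 1 (w l))

theorem kron_of {p g : ℕ} (hg : 0 < g) (T : RPen p (p + g))
    (R : (Fin p → ℝ) →ₗ[ℝ] (Fin (p + g) → ℝ)) (M : Module.End ℝ (Fin p → ℝ))
    (hM : ∀ x, T 1 (R x) = M x) (hR : ∀ x, T 0 (R x) = x) (z : ℕ → Fin (p + g) → ℝ)
    (hz : ∀ x, T 0 x = 0 → x ∈ span ℝ (Set.range fun i : Fin g => z i))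
    (hz' : ∀ i, i < g → T 0 (z i) = 0)
    (hv : ⊤ ≤ span ℝ (Set.range fun l : Fin p => (M ^ ((l : ℕ) / g)) (T 1 (z ((l : ℕ) % g))))) :
    Kron p g T := by
  classical
  set e := p / g with he
  set rem := p % g with hrem
  have hp : p = g * e + rem := (Nat.div_add_mod p g).symm
  have hrg : rem < g := Nat.mod_lt _ hg
  set Z0 : Submodule ℝ (Fin (p + g) → ℝ) := span ℝ (Set.range fun i : Fin rem => z i) with hZ0
  have hmono : Monotone (cspace (T 0) (T 1) M) := monotone_nat_of_le_succ fun t => le_sup_left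
  -- the first spanning statement
  have hdm : ∀ l : Fin p, (l : ℕ) = g * ((l : ℕ) / g) + (l : ℕ) % g := fun l =>
    (Nat.div_add_mod _ _).symm
  have htop : ∀ l : Fin p, (M ^ ((l : ℕ) / g)) (T 1 (z ((l : ℕ) % g))) ∈
      cspace (T 0) (T 1) M e ⊔ Z0.map ((M ^ e : Module.End ℝ (Fin p → ℝ)) ∘ₗ T 1) := by
    intro l
    have h1 := hdm l
    have h2 := Nat.mod_lt (l : ℕ) hg
    have h3 : (l : ℕ) / g ≤ e := Nat.div_le_div_right l.2.le
    rcases h3.lt_or_eq with h4 | h4
    · refine Submodule.mem_sup_left (hmono (Nat.succ_le_of_lt h4) ?_)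
      exact Submodule.mem_sup_right ⟨_, hz' _ h2, rfl⟩
    · refine Submodule.mem_sup_right ⟨z ((l : ℕ) % g), ?_, ?_⟩
      · refine Submodule.subset_span ⟨⟨(l : ℕ) % g, ?_⟩, rfl⟩
        have h5 := l.2
        rw [h4] at h1
        omega
      · rw [LinearMap.comp_apply, h4]
  have hall : cspace (T 0) (T 1) M e ⊔ Z0.map ((M ^ e : Module.End ℝ (Fin p → ℝ)) ∘ₗ T 1) = ⊤ := by
    rw [eq_top_iff]
    refine hv.trans (span_le.2 ?_)
    rintro _ ⟨l, rfl⟩
    exact htop l
  have hZker : Z0 ≤ LinearMap.ker (T 0) := by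
    refine span_le.2 ?_
    rintro _ ⟨i, rfl⟩
    exact hz' _ (i.2.trans hrg)
  have hall' : cspace (T 0) (T 1) M (e + 1) = ⊤ := by
    rw [eq_top_iff, ← hall]
    exact sup_le_sup_left (Submodule.map_mono hZker) _
  -- corrected vectors
  have hcorr : ∀ i : ℕ, ∃ ζ ∈ Z0, (rem ≤ i → (M ^ e) (T 1 (z i - ζ)) ∈ cspace (T 0) (T 1) M e) ∧
      (i < rem → ζ = 0) := by
    intro i
    by_cases hi : i < rem
    · exact ⟨0, Submodule.zero_mem _, fun h => absurd hi (not_lt.2 h), fun _ => rfl⟩
    · have h1 : (M ^ e) (T 1 (z i)) ∈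
          cspace (T 0) (T 1) M e ⊔ Z0.map ((M ^ e : Module.End ℝ (Fin p → ℝ)) ∘ₗ T 1) := by
        rw [hall]
        exact Submodule.mem_top
      obtain ⟨s, hs, x, ⟨ζ, hζ, rfl⟩, hsum⟩ := Submodule.mem_sup.1 h1
      refine ⟨ζ, hζ, fun _ => ?_, fun h => absurd h hi⟩
      have e1 : (M ^ e) (T 1 (z i - ζ)) = s := by
        rw [map_sub, map_sub, ← hsum]
        exact add_sub_cancel_right _ _
      rw [e1]
      exact hs
  choose ζ hζ hζ1 hζ2 using hcorr
  set κ : ℕ → ℕ := fun i => if i < rem then e + 1 else e with hκ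
  have hch : ∀ i : ℕ, (M ^ κ i) (T 1 (z i - ζ i)) ∈ cspace (T 0) (T 1) M (κ i) := by
    intro i
    by_cases hi : i < rem
    · have : κ i = e + 1 := if_pos hi
      rw [this, hall']
      exact Submodule.mem_top
    · have : κ i = e := if_neg hi
      rw [this]
      exact hζ1 i (not_lt.1 hi)
  choose c hc0 hc1 hc2 hc3 using fun i => exists_chain (T 0) (T 1) R M hM hR (κ i) _ (hch i)
  set w : ℕ → (Fin (p + g) → ℝ) := fun l => c (l % g) (l / g) with hw
  have hwadd : ∀ l, w (l + g) = c (l % g) (l / g + 1) := by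
    intro l
    rw [hw]
    simp only [Nat.add_mod_right, Nat.add_div_right l hg]
  have hκlt : ∀ l, l < p → l / g < κ (l % g) := by
    intro l hl
    have h1 := Nat.div_add_mod l g
    have h3 : l / g ≤ e := Nat.div_le_div_right hl.le
    rcases h3.lt_or_eq with h4 | h4
    · change _ < if _ then _ else _
      split_ifs
      · exact h4.trans (Nat.lt_succ_self e)
      · exact h4
    · have h5 : l % g < rem := by
        rw [h4] at h1
        omega
      change _ < if _ then _ else _
      rw [if_pos h5]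
      omega
  have hκeq : ∀ l, p ≤ l → l < p + g → l / g = κ (l % g) := by
    intro l hl hl'
    have h1 := Nat.div_add_mod l g
    have h2 := Nat.mod_lt l hg
    have h3 : e ≤ l / g := Nat.div_le_div_right hl
    have h3' : l / g ≤ e + 1 := by
      have := Nat.div_le_div_right (c := g) hl'.le
      rwa [Nat.add_div_right p hg] at this
    change _ = if _ then _ else _
    rcases h3.lt_or_eq with h4 | h4
    · have h5 : l / g = e + 1 := by omega
      rw [h5] at h1
      have h6 : l % g < rem := by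
        rw [Nat.mul_add] at h1
        omega
      rw [if_pos h6, h5]
    · have h6 : ¬ l % g < rem := by
        rw [← h4] at h1
        omega
      rw [if_neg h6, h4]
  have r0 : ∀ l, l < g → T 0 (w l) = 0 := by
    intro l hl
    have e1 : w l = z l - ζ l := by
      rw [hw]
      simp only [Nat.mod_eq_of_lt hl, Nat.div_eq_of_lt hl]
      exact hc0 l
    rw [e1, map_sub, hz' l hl, zero_sub, neg_eq_zero]
    exact hZker (hζ l)
  have r1 : ∀ l, l < p → T 0 (w (l + g)) = T 1 (w l) := by
    intro l hl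
    rw [hwadd]
    exact hc1 _ _ (hκlt l hl)
  have r2 : ∀ l, p ≤ l → l < p + g → T 1 (w l) = 0 := by
    intro l hl hl'
    change T 1 (c (l % g) (l / g)) = 0
    rw [hκeq l hl hl']
    exact hc2 _
  -- the spans
  set Wu : Submodule ℝ (Fin p → ℝ) := span ℝ (Set.range fun l : Fin p => T 1 (w l)) with hWu
  have hzz : ∀ i, i < g → z i - ζ i = w i := by
    intro i hi
    rw [hw]
    simp only [Nat.mod_eq_of_lt hi, Nat.div_eq_of_lt hi]
    exact (hc0 i).symm
  have key : ∀ t i, i < g → g * t + i < p → cspace (T 0) (T 1) M t ≤ Wu →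
      (M ^ t) (T 1 (w i)) ∈ Wu := by
    intro t i hi hti hle
    have e1 : (g * t + i) / g = t := by
      rw [Nat.mul_add_div hg, Nat.div_eq_of_lt hi, add_zero]
    have e2 : (g * t + i) % g = i := by
      rw [Nat.mul_add_mod, Nat.mod_eq_of_lt hi]
    have h1 : T 1 (w (g * t + i)) ∈ Wu := Submodule.subset_span ⟨⟨_, hti⟩, rfl⟩
    have h2 : w (g * t + i) = c i t := by
      change c ((g * t + i) % g) ((g * t + i) / g) = c i t
      rw [e1, e2]
    have h3 := hκlt _ hti
    rw [e1, e2] at h3
    have h4 := hle (hc3 i t h3.le)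
    rw [hzz i hi, ← h2] at h4
    have h5 := Submodule.sub_mem _ h1 h4
    rwa [sub_sub_cancel] at h5
  -- kernel of `T₀`
  have hkerw : ∀ x, T 0 x = 0 → x ∈ span ℝ (Set.range fun i : Fin g => w i) := by
    intro x hx
    have hZ0' : Z0 ≤ span ℝ (Set.range fun i : Fin g => w i) := by
      refine span_le.2 ?_
      rintro _ ⟨i, rfl⟩
      have h1 := hzz i (i.2.trans hrg)
      rw [hζ2 i i.2, sub_zero] at h1
      change z i ∈ _
      rw [h1]
      exact Submodule.subset_span ⟨⟨i, i.2.trans hrg⟩, rfl⟩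
    refine (span_le.2 ?_ : span ℝ (Set.range fun i : Fin g => z i) ≤ _) (hz x hx)
    rintro _ ⟨i, rfl⟩
    have h1 := hzz i i.2
    rw [sub_eq_iff_eq_add] at h1
    change z i ∈ _
    rw [h1]
    exact Submodule.add_mem _ (Submodule.subset_span ⟨i, rfl⟩) (hZ0' (hζ _))
  have hS : ∀ t, t ≤ e → cspace (T 0) (T 1) M t ≤ Wu := by
    intro t
    induction t with
    | zero => exact fun _ => bot_le
    | succ t ih =>
      intro ht
      have ih' := ih (by omega)
      refine sup_le ih' ?_
      rintro _ ⟨x, hx, rfl⟩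
      have h1 : span ℝ (Set.range fun i : Fin g => w i) ≤
          Wu.comap ((M ^ t : Module.End ℝ (Fin p → ℝ)) ∘ₗ T 1) := by
        refine span_le.2 ?_
        rintro _ ⟨i, rfl⟩
        refine key t i i.2 ?_ ih'
        have h2 : g * (t + 1) ≤ g * e := Nat.mul_le_mul_left g ht
        rw [Nat.mul_add, Nat.mul_one] at h2
        have h3 := i.2
        omega
      exact h1 (hkerw x hx)
  have hWtop : Wu = ⊤ := by
    rw [eq_top_iff, ← hall]
    refine sup_le (hS e le_rfl) ?_
    rintro _ ⟨x, hx, rfl⟩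
    have h1 : Z0 ≤ Wu.comap ((M ^ e : Module.End ℝ (Fin p → ℝ)) ∘ₗ T 1) := by
      refine span_le.2 ?_
      rintro _ ⟨i, rfl⟩
      have h1 := hzz i (i.2.trans hrg)
      rw [hζ2 i i.2, sub_zero] at h1
      change (M ^ e) (T 1 (z i)) ∈ Wu
      rw [h1]
      refine key e i (i.2.trans hrg) ?_ (hS e le_rfl)
      have h3 := i.2
      omega
    exact h1 hx
  have hspan : ⊤ ≤ span ℝ (Set.range fun l : Fin (p + g) => w l) := by
    intro x _
    have h1 : Wu ≤ (span ℝ (Set.range fun l : Fin (p + g) => w l)).map (T 0) := by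
      refine span_le.2 ?_
      rintro _ ⟨l, rfl⟩
      refine ⟨w (l + g), Submodule.subset_span ⟨⟨l + g, by omega⟩, rfl⟩, r1 l l.2⟩
    have h2 : T 0 x ∈ Wu := by
      rw [hWtop]
      exact Submodule.mem_top
    obtain ⟨y, hy, hxy⟩ := h1 h2
    have h3 : x - y ∈ span ℝ (Set.range fun l : Fin (p + g) => w l) := by
      refine (span_mono ?_ : span ℝ (Set.range fun i : Fin g => w i) ≤ _)
        (hkerw (x - y) (by rw [map_sub, hxy, sub_self]))
      rintro _ ⟨i, rfl⟩
      exact ⟨⟨i, by omega⟩, rfl⟩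
    have h4 := Submodule.add_mem _ h3 hy
    rwa [sub_add_cancel] at h4
  -- the basis
  have hcard : Fintype.card (Fin (p + g)) = finrank ℝ (Fin (p + g) → ℝ) := by rw [finrank_pi]
  let b : Basis (Fin (p + g)) ℝ (Fin (p + g) → ℝ) :=
    basisOfTopLeSpanOfCardEqFinrank (fun l : Fin (p + g) => w l) hspan hcard
  have hb : ∀ l, b l = w l := fun l =>
    congrFun (coe_basisOfTopLeSpanOfCardEqFinrank (fun l : Fin (p + g) => w l) hspan hcard) l
  refine ⟨w, fun l => if h : l < p + g then b.coord ⟨l, h⟩ else 0, fun x => ?_, r0, r1, r2,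
    hWtop.ge⟩
  have h1 := b.sum_repr x
  rw [Finset.sum_range]
  conv_lhs => rw [← h1]
  refine Finset.sum_congr rfl fun l _ => ?_
  simp only
  rw [dif_pos l.2, hb]
  rfl

/-! ### Genericity -/

section Poly

variable {R : Type*} [CommRing R] {p h : ℕ}

/-- The vectors of the chains. -/
def kvec (A B : Matrix (Fin p) (Fin p) R) (C D : Matrix (Fin p) (Fin (h + 1)) R) (t : ℕ) :
    Matrix (Fin p) (Fin (h + 1)) R :=
  (B * A.adjugate) ^ t * (A.det • D - B * A.adjugate * C)

/-- The determinant of the pencil `(A | C)`, `(B | D)`. -/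
def psiK (A B : Matrix (Fin p) (Fin p) R) (C D : Matrix (Fin p) (Fin (h + 1)) R) : R :=
  A.det * (Matrix.of fun i l : Fin p =>
    kvec A B C D ((l : ℕ) / (h + 1)) i (Fin.ofNat (h + 1) (l : ℕ))).det

theorem map_kvec {S : Type*} [CommRing S] (f : R →+* S) (A B : Matrix (Fin p) (Fin p) R)
    (C D : Matrix (Fin p) (Fin (h + 1)) R) (t : ℕ) :
    (kvec A B C D t).map f = kvec (A.map f) (B.map f) (C.map f) (D.map f) t := by
  have e1 : (A.map f).adjugate = A.adjugate.map f := (RingHom.map_adjugate f A).symm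
  have e2 : (B * A.adjugate).map f = B.map f * (A.map f).adjugate := by
    rw [e1, Matrix.map_mul]
  have e3 : ((B * A.adjugate) ^ t).map f = (B.map f * (A.map f).adjugate) ^ t := by
    rw [← e2, ← RingHom.mapMatrix_apply, ← RingHom.mapMatrix_apply, ← map_pow]
  have e4 : (A.map f).det = f A.det := (RingHom.map_det f A).symm
  unfold kvec
  rw [Matrix.map_mul, e3, ← e2, e4]
  congr 1
  ext i j
  simp only [Matrix.map_apply, Matrix.sub_apply, Matrix.smul_apply, smul_eq_mul, map_sub, map_mul]
  rw [← Matrix.map_mul, Matrix.map_apply]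

theorem map_psiK {S : Type*} [CommRing S] (f : R →+* S) (A B : Matrix (Fin p) (Fin p) R)
    (C D : Matrix (Fin p) (Fin (h + 1)) R) :
    f (psiK A B C D) = psiK (A.map f) (B.map f) (C.map f) (D.map f) := by
  unfold psiK
  rw [map_mul, RingHom.map_det, RingHom.map_det]
  congr 2
  ext i l
  rw [RingHom.mapMatrix_apply, Matrix.map_apply, Matrix.of_apply, Matrix.of_apply, ← map_kvec,
    Matrix.map_apply]

end Poly

variable {p h : ℕ}

/-- the left block of a slice -/
def matL (T : Ten ![2, p, p + (h + 1)]) (k : Fin 2) : Matrix (Fin p) (Fin p) ℝ :=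
  Matrix.of fun i j => T (rtup k i (Fin.castAdd (h + 1) j))

/-- the right block of a slice -/
def matR (T : Ten ![2, p, p + (h + 1)]) (k : Fin 2) : Matrix (Fin p) (Fin (h + 1)) ℝ :=
  Matrix.of fun i j => T (rtup k i (Fin.natAdd p j))

/-- the function on tensors -/
noncomputable def PsiK (T : Ten ![2, p, p + (h + 1)]) : ℝ :=
  psiK (matL T 0) (matL T 1) (matR T 0) (matR T 1)

theorem continuous_matL (k : Fin 2) :
    Continuous fun T : Ten ![2, p, p + (h + 1)] => matL T k := by
  refine continuous_matrix fun i j => ?_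
  exact continuous_apply (rtup k i (Fin.castAdd (h + 1) j))

theorem continuous_matR (k : Fin 2) :
    Continuous fun T : Ten ![2, p, p + (h + 1)] => matR T k := by
  refine continuous_matrix fun i j => ?_
  exact continuous_apply (rtup k i (Fin.natAdd p j))

theorem continuous_PsiK : Continuous (PsiK : Ten ![2, p, p + (h + 1)] → ℝ) := by
  unfold PsiK psiK
  have h0 := continuous_matL (p := p) (h := h) 0
  have h1 := continuous_matL (p := p) (h := h) 1
  have h2 := continuous_matR (p := p) (h := h) 0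
  have h3 := continuous_matR (p := p) (h := h) 1
  refine Continuous.mul h0.matrix_det (Continuous.matrix_det (continuous_matrix fun i l => ?_))
  have h4 : Continuous fun T : Ten ![2, p, p + (h + 1)] =>
      kvec (matL T 0) (matL T 1) (matR T 0) (matR T 1) ((l : ℕ) / (h + 1)) := by
    unfold kvec
    have h5 : Continuous fun T : Ten ![2, p, p + (h + 1)] => matL T 1 * (matL T 0).adjugate :=
      h1.matrix_mul h0.matrix_adjugate
    exact (h5.pow _).matrix_mul ((h0.matrix_det.smul h3).sub (h5.matrix_mul h2))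
  exact h4.matrix_elem i _

/-- the slices of the special tensor -/
def kslice (p h : ℕ) : Fin 2 → Matrix (Fin p) (Fin (p + (h + 1))) ℝ :=
  ![Matrix.of fun i j => if i.val = j.val then 1 else 0,
    Matrix.of fun i j => if j.val < p then (if i.val = j.val + (h + 1) then 1 else 0) else
      if i.val + p = j.val then 1 else 0]

/-- the tensor with given slices -/
def rofMat {p q : ℕ} (X : Fin 2 → Matrix (Fin p) (Fin q) ℝ) : Ten ![2, p, q] :=
  fun t => X (t 0) (t 1) (t 2)

/-- the block shift -/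
def bshf (p h : ℕ) : Matrix (Fin p) (Fin p) ℝ :=
  Matrix.of fun i j => if i.val = j.val + (h + 1) then 1 else 0

/-- the first columns of the identity -/
def fcol (p h : ℕ) : Matrix (Fin p) (Fin (h + 1)) ℝ :=
  Matrix.of fun i j => if i.val = j.val then 1 else 0

theorem matL_kslice_zero : matL (rofMat (kslice p h)) 0 = 1 := by
  ext i j
  rw [Matrix.one_apply]
  change (if i.val = j.val then (1 : ℝ) else 0) = _
  simp only [Fin.ext_iff]

theorem matL_kslice_one : matL (rofMat (kslice p h)) 1 = bshf p h := by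
  ext i j
  change (if j.val < p then (if i.val = j.val + (h + 1) then (1 : ℝ) else 0) else
    if i.val + p = j.val then 1 else 0) = _
  rw [if_pos j.2]
  rfl

theorem matR_kslice_zero : matR (rofMat (kslice p h)) 0 = 0 := by
  ext i j
  change (if i.val = p + j.val then (1 : ℝ) else 0) = 0
  rw [if_neg]
  have := i.2
  omega

theorem matR_kslice_one : matR (rofMat (kslice p h)) 1 = fcol p h := by
  ext i j
  change (if p + j.val < p then (if i.val = p + j.val + (h + 1) then (1 : ℝ) else 0) else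
    if i.val + p = p + j.val then (1 : ℝ) else 0) = _
  rw [if_neg (by omega)]
  change _ = if i.val = j.val then (1 : ℝ) else 0
  congr 1
  rw [eq_iff_iff]
  omega

theorem bshf_pow_mul (t : ℕ) (i : Fin p) (j : Fin (h + 1)) :
    ((bshf p h) ^ t * fcol p h) i j = if i.val = j.val + t * (h + 1) then 1 else 0 := by
  induction t generalizing i with
  | zero =>
    rw [pow_zero, Matrix.one_mul, Nat.zero_mul, add_zero]
    rfl
  | succ t ih =>
    rw [pow_succ', Matrix.mul_assoc, Matrix.mul_apply]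
    by_cases hk : j.val + t * (h + 1) < p
    · rw [Finset.sum_eq_single (⟨j.val + t * (h + 1), hk⟩ : Fin p)]
      · rw [ih, if_pos rfl, mul_one, Nat.succ_mul, ← Nat.add_assoc]
        rfl
      · intro k _ hne
        rw [ih, if_neg, mul_zero]
        intro h'
        exact hne (Fin.ext h')
      · intro h'
        exact absurd (Finset.mem_univ _) h'
    · rw [if_neg]
      · refine Finset.sum_eq_zero fun k _ => ?_
        rw [ih, if_neg, mul_zero]
        have := k.2
        omega
      · have := i.2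
        rw [Nat.succ_mul]
        omega

theorem psiK_kslice : PsiK (rofMat (kslice p h)) = 1 := by
  unfold PsiK psiK
  rw [matL_kslice_zero, matL_kslice_one, matR_kslice_zero, matR_kslice_one, Matrix.det_one, one_mul]
  have : (Matrix.of fun i l : Fin p => kvec (1 : Matrix (Fin p) (Fin p) ℝ) (bshf p h) 0 (fcol p h)
      ((l : ℕ) / (h + 1)) i (Fin.ofNat (h + 1) (l : ℕ))) = 1 := by
    ext i l
    unfold kvec
    rw [Matrix.of_apply, Matrix.adjugate_one, Matrix.mul_one, Matrix.det_one, one_smul,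
      Matrix.mul_zero, sub_zero, bshf_pow_mul, Matrix.one_apply]
    have e1 : (Fin.ofNat (h + 1) (l : ℕ)).val + (l : ℕ) / (h + 1) * (h + 1) = l.val := by
      change (l : ℕ) % (h + 1) + (l : ℕ) / (h + 1) * (h + 1) = l.val
      rw [Nat.mul_comm]
      exact Nat.mod_add_div _ _
    rw [e1]
    simp only [Fin.ext_iff]
  rw [this, Matrix.det_one]

theorem dense_PsiK : Dense {T : Ten ![2, p, p + (h + 1)] | PsiK T ≠ 0} := by
  refine dense_ne_zero PsiK (rofMat (kslice p h)) ?_ fun T => ?_
  · rw [psiK_kslice]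
    exact one_ne_zero
  · set S : Ten ![2, p, p + (h + 1)] := rofMat (kslice p h) with hS
    let P : Fin 2 → Matrix (Fin p) (Fin p) ℝ[X] := fun k =>
      Matrix.of fun i j => Polynomial.C (matL T k i j) +
        Polynomial.X * Polynomial.C (matL S k i j - matL T k i j)
    let Q : Fin 2 → Matrix (Fin p) (Fin (h + 1)) ℝ[X] := fun k =>
      Matrix.of fun i j => Polynomial.C (matR T k i j) +
        Polynomial.X * Polynomial.C (matR S k i j - matR T k i j)
    refine ⟨psiK (P 0) (P 1) (Q 0) (Q 1), fun t => ?_⟩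
    rw [← coe_evalRingHom, map_psiK]
    unfold PsiK
    have h1 : ∀ k, (P k).map (evalRingHom t) = matL (T + t • (S - T)) k := by
      intro k
      ext i j
      rw [Matrix.map_apply]
      change eval t (Polynomial.C (matL T k i j) +
        Polynomial.X * Polynomial.C (matL S k i j - matL T k i j)) = _
      rw [eval_add, eval_mul, eval_C, eval_X, eval_C]
      rfl
    have h2 : ∀ k, (Q k).map (evalRingHom t) = matR (T + t • (S - T)) k := by
      intro k
      ext i j
      rw [Matrix.map_apply]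
      change eval t (Polynomial.C (matR T k i j) +
        Polynomial.X * Polynomial.C (matR S k i j - matR T k i j)) = _
      rw [eval_add, eval_mul, eval_C, eval_X, eval_C]
      rfl
    rw [h1 0, h1 1, h2 0, h2 1]

theorem rpen_split (T : Ten ![2, p, p + (h + 1)]) (k : Fin 2) (x : Fin p → ℝ)
    (y : Fin (h + 1) → ℝ) :
    rpen T k (Fin.append x y) = (matL T k).mulVec x + (matR T k).mulVec y := by
  funext i
  rw [rpen_apply_apply, Fin.sum_univ_add, Pi.add_apply]
  congr 1
  · refine Finset.sum_congr rfl fun j _ => ?_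
    rw [Fin.append_left]
    rfl
  · refine Finset.sum_congr rfl fun j _ => ?_
    rw [Fin.append_right]
    rfl

/-- **Generic pencils of format `p × (p + g)` are equivalent to `(0 | I)`, `(I | 0)`.** -/
theorem kron_of_psiK {T : Ten ![2, p, p + (h + 1)]} (hT : PsiK T ≠ 0) :
    Kron p (h + 1) (rpen T) := by
  unfold PsiK psiK at hT
  set A := matL T 0 with hA
  set B := matL T 1 with hB
  set C := matR T 0 with hC
  set D := matR T 1 with hD
  have hdet : A.det ≠ 0 := left_ne_zero_of_mul hT
  have hdet2 := right_ne_zero_of_mul hT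
  have hunit : IsUnit A.det := hdet.isUnit
  let R : (Fin p → ℝ) →ₗ[ℝ] (Fin (p + (h + 1)) → ℝ) :=
    { toFun := fun x => Fin.append (A⁻¹.mulVec x) (0 : Fin (h + 1) → ℝ)
      map_add' := fun x y => by
        rw [Matrix.mulVec_add]
        funext l
        refine Fin.addCases (fun i => ?_) (fun i => ?_) l
        · rw [Pi.add_apply, Fin.append_left, Fin.append_left, Fin.append_left, Pi.add_apply]
        · rw [Pi.add_apply, Fin.append_right, Fin.append_right, Fin.append_right]
          simp
      map_smul' := fun c x => by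
        rw [Matrix.mulVec_smul]
        funext l
        refine Fin.addCases (fun i => ?_) (fun i => ?_) l
        · rw [Pi.smul_apply, Fin.append_left, Fin.append_left, Pi.smul_apply]
          rfl
        · rw [Pi.smul_apply, Fin.append_right, Fin.append_right]
          simp }
  have hRx : ∀ x, R x = Fin.append (A⁻¹.mulVec x) (0 : Fin (h + 1) → ℝ) := fun x => rfl
  let zz : (Fin (h + 1) → ℝ) → (Fin (p + (h + 1)) → ℝ) := fun y =>
    Fin.append (-(A⁻¹.mulVec (C.mulVec y))) y
  have hzz0 : ∀ y, rpen T 0 (zz y) = 0 := by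
    intro y
    change rpen T 0 (Fin.append _ _) = 0
    rw [rpen_split, ← hA, ← hC, Matrix.mulVec_neg, Matrix.mulVec_mulVec,
      Matrix.mul_nonsing_inv A hunit, Matrix.one_mulVec, neg_add_cancel]
  have hzz1 : ∀ y, rpen T 1 (zz y) = (D - B * A⁻¹ * C).mulVec y := by
    intro y
    change rpen T 1 (Fin.append _ _) = _
    rw [rpen_split, ← hB, ← hD, Matrix.mulVec_neg, Matrix.sub_mulVec, Matrix.mulVec_mulVec,
      Matrix.mulVec_mulVec]
    abel
  refine kron_of (Nat.succ_pos h) (rpen T) R (Matrix.toLin' (B * A⁻¹)) ?_ ?_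
    (fun i => zz (Pi.single (Fin.ofNat (h + 1) i) 1)) ?_ ?_ ?_
  · intro x
    rw [hRx, rpen_split, ← hB, Matrix.mulVec_zero, add_zero, Matrix.mulVec_mulVec,
      Matrix.toLin'_apply]
  · intro x
    rw [hRx, rpen_split, ← hA, Matrix.mulVec_zero, add_zero, Matrix.mulVec_mulVec,
      Matrix.mul_nonsing_inv A hunit, Matrix.one_mulVec]
  · intro x hx
    have hx' : x = Fin.append (fun i => x (Fin.castAdd (h + 1) i)) fun i => x (Fin.natAdd p i) := by
      funext l
      refine Fin.addCases (fun i => ?_) (fun i => ?_) l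
      · rw [Fin.append_left]
      · rw [Fin.append_right]
    set x1 := fun i => x (Fin.castAdd (h + 1) i) with hx1
    set x2 := fun i => x (Fin.natAdd p i) with hx2
    rw [hx', rpen_split, ← hA, ← hC] at hx
    have h1 : x1 = -(A⁻¹.mulVec (C.mulVec x2)) := by
      have h2 := congrArg (A⁻¹.mulVec) hx
      rw [Matrix.mulVec_add, Matrix.mulVec_mulVec, Matrix.nonsing_inv_mul A hunit,
        Matrix.one_mulVec, Matrix.mulVec_zero] at h2
      exact eq_neg_of_add_eq_zero_left h2
    have h3 : x = zz x2 := by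
      rw [hx', h1]
    let zl : (Fin (h + 1) → ℝ) →ₗ[ℝ] (Fin (p + (h + 1)) → ℝ) :=
      { toFun := zz
        map_add' := fun y y' => by
          funext l
          simp only [zz, Pi.add_apply]
          refine Fin.addCases (fun i => ?_) (fun i => ?_) l
          · rw [Fin.append_left, Fin.append_left, Fin.append_left, Matrix.mulVec_add,
              Matrix.mulVec_add, neg_add, Pi.add_apply]
          · rw [Fin.append_right, Fin.append_right, Fin.append_right, Pi.add_apply]
        map_smul' := fun c y => by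
          funext l
          simp only [zz, Pi.smul_apply, smul_eq_mul, RingHom.id_apply]
          refine Fin.addCases (fun i => ?_) (fun i => ?_) l
          · rw [Fin.append_left, Fin.append_left, Matrix.mulVec_smul, Matrix.mulVec_smul]
            simp
          · rw [Fin.append_right, Fin.append_right, Pi.smul_apply, smul_eq_mul] }
    have h4 : zz x2 = ∑ i, x2 i • zz (Pi.single i 1) := by
      change zl x2 = ∑ i, x2 i • zl (Pi.single i 1)
      conv_lhs => rw [single_sum x2, map_sum]
      refine Finset.sum_congr rfl fun i _ => ?_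
      rw [map_smul]
    rw [h3, h4]
    refine Submodule.sum_mem _ fun i _ => Submodule.smul_mem _ _ (Submodule.subset_span ⟨i, ?_⟩)
    have e1 : Fin.ofNat (h + 1) (i : ℕ) = i := Fin.ext (Nat.mod_eq_of_lt i.2)
    simp only [e1]
  · intro i _
    exact hzz0 _
  · -- the controllability condition
    have hcol : LinearIndependent ℝ (fun l : Fin p => fun i =>
        kvec A B C D ((l : ℕ) / (h + 1)) i (Fin.ofNat (h + 1) (l : ℕ))) :=
      Matrix.linearIndependent_cols_of_det_ne_zero hdet2
    have e0 : B * A⁻¹ = A.det⁻¹ • (B * A.adjugate) := by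
      rw [Matrix.inv_def, Matrix.mul_smul, Ring.inverse_eq_inv']
    have e1 : ∀ t : ℕ, (B * A⁻¹) ^ t * (D - B * A⁻¹ * C) =
        (A.det⁻¹) ^ (t + 1) • kvec A B C D t := by
      intro t
      have e2 : D - B * A⁻¹ * C = A.det⁻¹ • (A.det • D - B * A.adjugate * C) := by
        rw [smul_sub, smul_smul, inv_mul_cancel₀ hdet, one_smul, e0, Matrix.smul_mul]
      rw [e2, e0, _root_.smul_pow, Matrix.smul_mul, Matrix.mul_smul, smul_smul, ← pow_succ]
      rfl
    have hvec : ∀ l : Fin p, ((Matrix.toLin' (B * A⁻¹)) ^ ((l : ℕ) / (h + 1)))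
        (rpen T 1 (zz (Pi.single (Fin.ofNat (h + 1) ((l : ℕ) % (h + 1))) 1))) =
        (A.det⁻¹) ^ ((l : ℕ) / (h + 1) + 1) • fun i =>
          kvec A B C D ((l : ℕ) / (h + 1)) i (Fin.ofNat (h + 1) (l : ℕ)) := by
      intro l
      have e3 : (Matrix.toLin' (B * A⁻¹)) ^ ((l : ℕ) / (h + 1)) =
          Matrix.toLin' ((B * A⁻¹) ^ ((l : ℕ) / (h + 1))) :=
        (map_pow Matrix.toLinAlgEquiv' (B * A⁻¹) _).symm
      have e4 : Fin.ofNat (h + 1) ((l : ℕ) % (h + 1)) = Fin.ofNat (h + 1) (l : ℕ) :=
        Fin.ext (Nat.mod_mod _ _)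
      rw [e3, e4, hzz1, Matrix.toLin'_apply, Matrix.mulVec_mulVec, e1, Matrix.mulVec_single_one]
      rfl
    simp only [hvec]
    have hne : ∀ l : Fin p, (A.det⁻¹) ^ ((l : ℕ) / (h + 1) + 1) ≠ 0 := fun l =>
      pow_ne_zero _ (inv_ne_zero hdet)
    have hli := hcol.units_smul (fun l => Units.mk0 _ (hne l))
    have htop := hli.span_eq_top_of_card_eq_finrank' (by rw [finrank_pi])
    exact htop.ge

end Pool.Agent.SubTyp
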