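import Pool.Agent.SubTyp.PenCyc

/-!
# Placing the eigenvalues of a cyclic endomorphism by a perturbation of small rank
-/

open Module Submodule Polynomial

namespace Pool.Agent.SubTyp

/-- **Pole placement.** A cyclic endomorphism of `ℝ^d`, `d = ρ k`, differs from a diagonalizable one
with `k` given eigenvalues, each of multiplicity `ρ`, by an endomorphism of rank at most `ρ`. -/
theorem Cyc.place {d k ρ : ℕ} (hd : d = ρ * k) {M : End ℝ (Fin d → ℝ)} {v : Fin d → ℝ}
    (hv : Cyc M v) (ν : Fin k → ℝ) (hν : Function.Injective ν) :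
    ∃ E : Fin k → End ℝ (Fin d → ℝ), ∑ j, E j = 1 ∧
      (∀ j, finrank ℝ (LinearMap.range (E j)) ≤ ρ) ∧
      finrank ℝ (LinearMap.range (M - ∑ j, ν j • E j)) ≤ ρ := by
  classical
  have hinj : Set.InjOn ν (Finset.univ : Finset (Fin k)) := hν.injOn
  set f : Fin ρ × Fin k → (Fin d → ℝ) := fun x =>
    aeval M (X ^ ((x.1 : ℕ) * k) * Lagrange.basis Finset.univ ν x.2) v with hf
  -- powers are combinations of the basis polynomials
  have hpow : ∀ t : ℕ, t < k → (X ^ t : ℝ[X]) =
      ∑ j, C (ν j ^ t) * Lagrange.basis Finset.univ ν j := by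
    intro t ht
    have h1 := Lagrange.eq_interpolate (f := (X ^ t : ℝ[X])) hinj (by
      rw [degree_X_pow, Finset.card_univ, Fintype.card_fin]
      exact_mod_cast ht)
    rw [h1, Lagrange.interpolate_apply]
    refine Finset.sum_congr rfl fun j _ => ?_
    rw [eval_pow, eval_X]
  have hspan : ⊤ ≤ span ℝ (Set.range f) := by
    have h1 : LinearIndependent ℝ fun i : Fin d => (M ^ (i : ℕ)) v := hv
    have h2 := h1.span_eq_top_of_card_eq_finrank' (by rw [finrank_pi])
    rw [← h2]
    refine span_le.2 ?_
    rintro _ ⟨l, rfl⟩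
    have hk : 0 < k := by
      rcases Nat.eq_zero_or_pos k with h | h
      · have := l.2
        rw [h, Nat.mul_zero] at hd
        omega
      · exact h
    have h3 := Nat.div_add_mod (l : ℕ) k
    have h4 : (l : ℕ) % k < k := Nat.mod_lt _ hk
    have h5 : (l : ℕ) / k < ρ := by
      rw [Nat.div_lt_iff_lt_mul hk, ← hd]
      exact l.2
    have h6 : (M ^ (l : ℕ)) v = ∑ j, (ν j ^ ((l : ℕ) % k)) • f (⟨(l : ℕ) / k, h5⟩, j) := by
      have e1 : (X ^ (l : ℕ) : ℝ[X]) = ∑ j, C (ν j ^ ((l : ℕ) % k)) *
          (X ^ (((l : ℕ) / k) * k) * Lagrange.basis Finset.univ ν j) := by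
        conv_lhs => rw [← h3, pow_add, hpow _ h4, Finset.mul_sum]
        refine Finset.sum_congr rfl fun j _ => ?_
        rw [Nat.mul_comm k]
        ring
      have e2 : M ^ (l : ℕ) = aeval M (X ^ (l : ℕ) : ℝ[X]) := by rw [map_pow, aeval_X]
      rw [e2, e1, map_sum, LinearMap.sum_apply]
      refine Finset.sum_congr rfl fun j _ => ?_
      rw [map_mul, aeval_C, Module.End.mul_apply]
      rfl
    change (M ^ (l : ℕ)) v ∈ span ℝ (Set.range f)
    rw [h6]
    exact Submodule.sum_mem _ fun j _ => Submodule.smul_mem _ _ (Submodule.subset_span ⟨_, rfl⟩)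
  have hcard : Fintype.card (Fin ρ × Fin k) = finrank ℝ (Fin d → ℝ) := by
    rw [finrank_pi, Fintype.card_prod, Fintype.card_fin, Fintype.card_fin, Fintype.card_fin, hd]
  let b : Basis (Fin ρ × Fin k) ℝ (Fin d → ℝ) := basisOfTopLeSpanOfCardEqFinrank f hspan hcard
  have hb : ∀ x, b x = f x := fun x =>
    congrFun (coe_basisOfTopLeSpanOfCardEqFinrank f hspan hcard) x
  set E : Fin k → End ℝ (Fin d → ℝ) := fun j =>
    ∑ c : Fin ρ, (b.coord (c, j)).smulRight (f (c, j)) with hE
  have hEb : ∀ j c j', E j (f (c, j')) = if j = j' then f (c, j') else 0 := by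
    intro j c j'
    rw [hE]
    simp only
    rw [LinearMap.sum_apply, ← hb (c, j')]
    simp only [LinearMap.smulRight_apply, Basis.coord_apply, Basis.repr_self, Finsupp.single_apply]
    by_cases h : j = j'
    · subst h
      rw [if_pos rfl, Finset.sum_eq_single c]
      · rw [if_pos rfl, one_smul, hb]
      · intro c' _ hne
        rw [if_neg, zero_smul]
        intro hcon
        exact hne (congrArg Prod.fst hcon).symm
      · intro h
        exact absurd (Finset.mem_univ c) h
    · rw [if_neg h]
      refine Finset.sum_eq_zero fun c' _ => ?_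
      rw [if_neg, zero_smul]
      intro hcon
      exact h (congrArg Prod.snd hcon).symm
  set g : Fin ρ → (Fin d → ℝ) := fun c =>
    aeval M (X ^ ((c : ℕ) * k) * Lagrange.nodal Finset.univ ν) v with hg
  refine ⟨E, ?_, fun j => ?_, ?_⟩
  · refine b.ext fun x => ?_
    obtain ⟨c, j⟩ := x
    rw [hb, LinearMap.sum_apply, Module.End.one_apply]
    simp only [hEb]
    rw [Finset.sum_eq_single j]
    · rw [if_pos rfl]
    · intro j' _ hne
      rw [if_neg hne]
    · intro h
      exact absurd (Finset.mem_univ j) h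
  · have h1 : LinearMap.range (E j) ≤ span ℝ (Set.range fun c : Fin ρ => f (c, j)) := by
      rintro _ ⟨x, rfl⟩
      rw [hE]
      simp only
      rw [LinearMap.sum_apply]
      refine Submodule.sum_mem _ fun c _ => ?_
      rw [LinearMap.smulRight_apply]
      exact Submodule.smul_mem _ _ (Submodule.subset_span ⟨c, rfl⟩)
    refine (Submodule.finrank_mono h1).trans ((finrank_range_le_card _).trans ?_)
    rw [Fintype.card_fin]
  · have h1 : LinearMap.range (M - ∑ j, ν j • E j) ≤ span ℝ (Set.range g) := by
      rw [LinearMap.range_eq_map, ← b.span_eq, map_span, span_le]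
      rintro _ ⟨_, ⟨⟨c, j⟩, rfl⟩, rfl⟩
      have e1 : (M - ∑ j, ν j • E j) (b (c, j)) = M (f (c, j)) - ν j • f (c, j) := by
        rw [hb, LinearMap.sub_apply, LinearMap.sum_apply]
        simp only [LinearMap.smul_apply, hEb]
        rw [Finset.sum_eq_single j]
        · rw [if_pos rfl]
        · intro j' _ hne
          rw [if_neg hne, smul_zero]
        · intro h
          exact absurd (Finset.mem_univ j) h
      have e2 : M (f (c, j)) - ν j • f (c, j) = Lagrange.nodalWeight Finset.univ ν j • g c := by
        have e3 : (X - C (ν j)) * Lagrange.basis Finset.univ ν j =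
            C (Lagrange.nodalWeight Finset.univ ν j) * Lagrange.nodal Finset.univ ν := by
          rw [Lagrange.basis_eq_prod_sub_inv_mul_nodal_div (Finset.mem_univ j),
            ← Lagrange.nodal_erase_eq_nodal_div (Finset.mem_univ j),
            Lagrange.nodal_eq_mul_nodal_erase (Finset.mem_univ j)]
          ring
        have e4 : M (f (c, j)) - ν j • f (c, j) = aeval M ((X - C (ν j)) *
            (X ^ ((c : ℕ) * k) * Lagrange.basis Finset.univ ν j)) v := by
          rw [map_mul, map_sub, aeval_X, aeval_C, Module.End.mul_apply, LinearMap.sub_apply]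
          rfl
        rw [e4]
        have e5 : (X - C (ν j)) * (X ^ ((c : ℕ) * k) * Lagrange.basis Finset.univ ν j) =
            C (Lagrange.nodalWeight Finset.univ ν j) *
              (X ^ ((c : ℕ) * k) * Lagrange.nodal Finset.univ ν) := by
          linear_combination (X ^ ((c : ℕ) * k)) * e3
        rw [e5, map_mul, aeval_C, Module.End.mul_apply]
        rfl
      change (M - ∑ j, ν j • E j) (b (c, j)) ∈ span ℝ (Set.range g)
      rw [e1, e2]
      exact Submodule.smul_mem _ _ (Submodule.subset_span ⟨c, rfl⟩)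
    refine (Submodule.finrank_mono h1).trans ((finrank_range_le_card _).trans ?_)
    rw [Fintype.card_fin]

end Pool.Agent.SubTyp
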