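import Pool.Agent.SubTyp.RpDefs
import Pool.Agent.SubTyp.PenTen

/-!
# Tensors of format `2 × p × q` and pencils
-/

open Module Submodule Set
open scoped LinearAlgebra.Projectivization Topology

namespace Pool.Agent.SubTyp

variable {p q : ℕ}

/-- indices of a tensor of format `2 × p × q` -/
def rtup (k : Fin 2) (i : Fin p) (j : Fin q) : (l : Fin 3) → Fin ((![2, p, q] : Fin 3 → ℕ) l)
  | 0 => k
  | 1 => i
  | 2 => j

theorem rtup_eta (t : (l : Fin 3) → Fin ((![2, p, q] : Fin 3 → ℕ) l)) :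
    rtup (t 0) (t 1) (t 2) = t := by
  funext l
  fin_cases l <;> rfl

/-- the slices of a tensor -/
def rmat (T : Ten ![2, p, q]) (k : Fin 2) : Matrix (Fin p) (Fin q) ℝ :=
  Matrix.of fun i j => T (rtup k i j)

/-- the pencil of a tensor -/
noncomputable def rpen : Ten ![2, p, q] ≃ₗ[ℝ] RPen p q where
  toFun T k := Matrix.toLin' (rmat T k)
  invFun X t := LinearMap.toMatrix' (X (t 0)) (t 1) (t 2)
  map_add' T U := by
    funext k
    have : rmat (T + U) k = rmat T k + rmat U k := rfl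
    rw [this, map_add]
    rfl
  map_smul' c T := by
    funext k
    have : rmat (c • T) k = c • rmat T k := rfl
    rw [this, map_smul]
    rfl
  left_inv T := by
    funext t
    simp only
    rw [LinearMap.toMatrix'_toLin']
    exact congrArg T (rtup_eta t)
  right_inv X := by
    funext k
    simp only
    have : rmat (fun t => LinearMap.toMatrix' (X (t 0)) (t 1) (t 2)) k =
        LinearMap.toMatrix' (X k) := rfl
    rw [this, Matrix.toLin'_toMatrix']

theorem rpen_apply (T : Ten ![2, p, q]) (k : Fin 2) : rpen T k = Matrix.toLin' (rmat T k) := rfl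

theorem rpen_apply_apply (T : Ten ![2, p, q]) (k : Fin 2) (x : Fin q → ℝ) (i : Fin p) :
    rpen T k x i = ∑ j, T (rtup k i j) * x j := by
  rw [rpen_apply, Matrix.toLin'_apply]
  rfl

/-- the components of a triple of vectors -/
def rc0 (v : (l : Fin 3) → Fin ((![2, p, q] : Fin 3 → ℕ) l) → ℝ) : Fin 2 → ℝ := v 0

/-- the components of a triple of vectors -/
def rc1 (v : (l : Fin 3) → Fin ((![2, p, q] : Fin 3 → ℕ) l) → ℝ) : Fin p → ℝ := v 1

/-- the components of a triple of vectors -/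
def rc2 (v : (l : Fin 3) → Fin ((![2, p, q] : Fin 3 → ℕ) l) → ℝ) : Fin q → ℝ := v 2

theorem rpen_pureT (v : (l : Fin 3) → Fin ((![2, p, q] : Fin 3 → ℕ) l) → ℝ) (k : Fin 2)
    (x : Fin q → ℝ) : rpen (pureT v) k x = (rc0 v k * ∑ j, rc2 v j * x j) • rc1 v := by
  funext i
  rw [rpen_apply_apply, Pi.smul_apply, smul_eq_mul, Finset.mul_sum, Finset.sum_mul]
  refine Finset.sum_congr rfl fun j _ => ?_
  have : pureT v (rtup k i j) = rc0 v k * rc1 v i * rc2 v j := by
    unfold pureT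
    rw [Fin.prod_univ_three]
    rfl
  rw [this]
  ring

/-- a triple of vectors -/
def rmk (u : Fin 2 → ℝ) (v : Fin p → ℝ) (w : Fin q → ℝ) :
    (l : Fin 3) → Fin ((![2, p, q] : Fin 3 → ℕ) l) → ℝ
  | 0 => u
  | 1 => v
  | 2 => w

/-- the components of a triple of subspaces -/
def rs0 (A : (l : Fin 3) → Submodule ℝ (Fin ((![2, p, q] : Fin 3 → ℕ) l) → ℝ)) :
    Submodule ℝ (Fin 2 → ℝ) := A 0

/-- the components of a triple of subspaces -/
def rs1 (A : (l : Fin 3) → Submodule ℝ (Fin ((![2, p, q] : Fin 3 → ℕ) l) → ℝ)) :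
    Submodule ℝ (Fin p → ℝ) := A 1

/-- the components of a triple of subspaces -/
def rs2 (A : (l : Fin 3) → Submodule ℝ (Fin ((![2, p, q] : Fin 3 → ℕ) l) → ℝ)) :
    Submodule ℝ (Fin q → ℝ) := A 2

/-- a triple of subspaces -/
def rmkS (U : Submodule ℝ (Fin 2 → ℝ)) (A : Submodule ℝ (Fin p → ℝ))
    (B : Submodule ℝ (Fin q → ℝ)) :
    (l : Fin 3) → Submodule ℝ (Fin ((![2, p, q] : Fin 3 → ℕ) l) → ℝ)
  | 0 => U
  | 1 => A
  | 2 => B

theorem finrank_rmkS {c a b : ℕ} {U : Submodule ℝ (Fin 2 → ℝ)} {A : Submodule ℝ (Fin p → ℝ)}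
    {B : Submodule ℝ (Fin q → ℝ)} (hU : finrank ℝ U = c) (hA : finrank ℝ A = a)
    (hB : finrank ℝ B = b) : ∀ l, finrank ℝ (rmkS U A B l) = (![c, a, b] : Fin 3 → ℕ) l := by
  intro l
  match l with
  | 0 => exact hU
  | 1 => exact hA
  | 2 => exact hB

theorem rmk_mem {U : Submodule ℝ (Fin 2 → ℝ)} {A : Submodule ℝ (Fin p → ℝ)}
    {B : Submodule ℝ (Fin q → ℝ)} {u : Fin 2 → ℝ} {v : Fin p → ℝ} {w : Fin q → ℝ} (hu : u ∈ U)
    (hv : v ∈ A) (hw : w ∈ B) : ∀ l, rmk u v w l ∈ rmkS U A B l := by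
  intro l
  match l with
  | 0 => exact hu
  | 1 => exact hv
  | 2 => exact hw

/-- The triples of subspaces. -/
abbrev RTri (p q c a b : ℕ) : Type :=
  {A : (l : Fin 3) → Submodule ℝ (Fin ((![2, p, q] : Fin 3 → ℕ) l) → ℝ) //
    ∀ l, finrank ℝ (A l) = (![c, a, b] : Fin 3 → ℕ) l}

/-- The family of the subspaces `A₁ ⊗ A₂ ⊗ A₃`. -/
def rtriK (p q c a b : ℕ) (A : RTri p q c a b) : Submodule ℝ (Ten ![2, p, q]) := boxT A.1

theorem rsubVar_eq (p q c a b : ℕ) : SubVar ![2, p, q] ![c, a, b] = famSet (rtriK p q c a b) := by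
  ext x
  constructor
  · rintro ⟨A, hA, hx⟩
    exact ⟨⟨A, hA⟩, hx⟩
  · rintro ⟨A, hx⟩
    exact ⟨A.1, A.2, hx⟩

/-- Tensors in a box give small pencils. -/
theorem blk_of_mem_rtriK {c a b : ℕ} {A : RTri p q c a b} {T : Ten ![2, p, q]}
    (hT : T ∈ rtriK p q c a b A) : Blk c a b (rpen T) := by
  have hA0 : finrank ℝ (rs0 A.1) = c := A.2 0
  have hA1 : finrank ℝ (rs1 A.1) = a := A.2 1
  have hA2 : finrank ℝ (rs2 A.1) = b := A.2 2
  have hgen : ∀ U ∈ rtriK p q c a b A, (∀ x i, (fun k => rpen U k x i) ∈ rs0 A.1) ∧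
      ∀ k, (∀ x, rpen U k x ∈ rs1 A.1) ∧ ∀ x ∈ ann (rs2 A.1), rpen U k x = 0 := by
    intro U hU
    refine Submodule.span_induction ?_ ?_ ?_ ?_ hU
    · rintro _ ⟨v, hv, rfl⟩
      have hv0 : rc0 v ∈ rs0 A.1 := hv 0
      have hv1 : rc1 v ∈ rs1 A.1 := hv 1
      have hv2 : rc2 v ∈ rs2 A.1 := hv 2
      refine ⟨fun x i => ?_, fun k => ⟨fun x => ?_, fun x hx => ?_⟩⟩
      · have : (fun k => rpen (pureT v) k x i) = ((∑ j, rc2 v j * x j) * rc1 v i) • rc0 v := by
          funext k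
          rw [rpen_pureT]
          simp only [Pi.smul_apply, smul_eq_mul]
          ring
        rw [this]
        exact Submodule.smul_mem _ _ hv0
      · rw [rpen_pureT]
        exact Submodule.smul_mem _ _ hv1
      · rw [rpen_pureT]
        have : ∑ j, rc2 v j * x j = 0 := hx _ hv2
        rw [this, mul_zero, zero_smul]
    · rw [map_zero]
      exact ⟨fun x i => Submodule.zero_mem _, fun k => ⟨fun x => Submodule.zero_mem _,
        fun x _ => rfl⟩⟩
    · rintro U V _ _ ⟨g1, h1⟩ ⟨g2, h2⟩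
      rw [map_add]
      refine ⟨fun x i => Submodule.add_mem _ (g1 x i) (g2 x i), fun k =>
        ⟨fun x => Submodule.add_mem _ ((h1 k).1 x) ((h2 k).1 x), fun x hx => ?_⟩⟩
      change rpen U k x + rpen V k x = 0
      rw [(h1 k).2 x hx, (h2 k).2 x hx, add_zero]
    · rintro t U _ ⟨g1, h1⟩
      rw [map_smul]
      refine ⟨fun x i => Submodule.smul_mem _ t (g1 x i), fun k =>
        ⟨fun x => Submodule.smul_mem _ _ ((h1 k).1 x), fun x hx => ?_⟩⟩
      change t • rpen U k x = 0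
      rw [(h1 k).2 x hx, smul_zero]
  obtain ⟨g, h⟩ := hgen T hT
  refine ⟨rs0 A.1, rs1 A.1, ann (rs2 A.1), hA0.le, hA1.le, ?_, g, h⟩
  have h1 := finrank_ann (rs2 A.1)
  omega

theorem exists_proj {n : ℕ} (U : Submodule ℝ (Fin n → ℝ)) :
    ∃ P : (Fin n → ℝ) →ₗ[ℝ] (Fin n → ℝ), (∀ x, P x ∈ U) ∧ ∀ x ∈ U, P x = x := by
  obtain ⟨C, hC⟩ := Submodule.exists_isCompl U
  refine ⟨U.subtype ∘ₗ U.projectionOnto C hC, fun x => (U.projectionOnto C hC x).2,
    fun x hx => ?_⟩
  change ((U.projectionOnto C hC x : U) : Fin n → ℝ) = x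
  have := Submodule.projectionOnto_apply_left hC ⟨x, hx⟩
  rw [this]

theorem single_sum {n : ℕ} (x : Fin n → ℝ) : x = ∑ i, x i • (Pi.single i 1 : Fin n → ℝ) := by
  have := (Pi.basisFun ℝ (Fin n)).sum_repr x
  simp only [Pi.basisFun_repr, Pi.basisFun_apply] at this
  exact this.symm

/-- Small pencils come from tensors in a box. -/
theorem exists_rtriK {c a b : ℕ} (hc : c ≤ 2) (ha : a ≤ p) (hb : b ≤ q) {T : Ten ![2, p, q]}
    (hT : Blk c a b (rpen T)) : ∃ A : RTri p q c a b, T ∈ rtriK p q c a b A := by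
  classical
  obtain ⟨U, A, N, h0, h1, h2, h3, h4⟩ := hT
  obtain ⟨U', hU, hU'⟩ := exists_enlarge hc U h0
  obtain ⟨A', hA, hA'⟩ := exists_enlarge ha A h1
  obtain ⟨PU, hPU1, hPU2⟩ := exists_proj U
  obtain ⟨C, hC⟩ := Submodule.exists_isCompl N
  have e1 := Submodule.finrank_add_eq_of_isCompl hC
  rw [finrank_pi, Fintype.card_fin] at e1
  -- a basis of the complement, with the coordinate functionals
  let c := Module.finBasis ℝ C
  let π : (Fin q → ℝ) →ₗ[ℝ] C := C.projectionOnto N hC.symm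
  have hπ : ∀ x, x - π x ∈ N := by
    intro x
    have h4 := hC.symm.sup_eq_top
    have hx : x ∈ C ⊔ N := by
      rw [h4]
      exact Submodule.mem_top
    obtain ⟨y, hy, z, hz, rfl⟩ := Submodule.mem_sup.1 hx
    have e3 : π y = ⟨y, hy⟩ := Submodule.projectionOnto_apply_left hC.symm ⟨y, hy⟩
    have e4 : π z = 0 := Submodule.projectionOnto_apply_of_mem_right hC.symm hz
    rw [map_add, e3, e4, add_zero]
    simpa using hz
  let f : Fin (finrank ℝ C) → Fin q → ℝ := fun l i => c.coord l (π (Pi.single i 1))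
  have hf : ∀ l x, c.coord l (π x) = ∑ j, f l j * x j := by
    intro l x
    conv_lhs => rw [single_sum x, map_sum, map_sum]
    refine Finset.sum_congr rfl fun i _ => ?_
    rw [map_smul, map_smul, smul_eq_mul, mul_comm]
  obtain ⟨B, hB, hB'⟩ := exists_enlarge hb (span ℝ (Set.range f)) (by
    refine (finrank_range_le_card f).trans ?_
    rw [Fintype.card_fin]
    omega)
  have hTT : T = ∑ k : Fin 2, ∑ l,
      pureT (rmk (PU (Pi.single k 1)) (rpen T k (c l : Fin q → ℝ)) (f l)) := by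
    apply rpen.injective
    funext k
    refine LinearMap.ext fun x => ?_
    rw [map_sum]
    simp only [map_sum]
    rw [Finset.sum_apply, LinearMap.sum_apply]
    simp only [Finset.sum_apply, LinearMap.sum_apply, rpen_pureT]
    -- the value at `x`
    have e3 : (π x : Fin q → ℝ) = ∑ l, c.coord l (π x) • (c l : Fin q → ℝ) := by
      have := congrArg Subtype.val (c.sum_repr (π x))
      rw [AddSubmonoidClass.coe_finsetSum] at this
      rw [← this]
      rfl
    have e4 : ∀ k', rpen T k' x = ∑ l, (∑ j, f l j * x j) • rpen T k' (c l : Fin q → ℝ) := by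
      intro k'
      have e2 : rpen T k' x = rpen T k' (π x : Fin q → ℝ) := by
        have := (h4 k').2 _ (hπ x)
        rw [map_sub, sub_eq_zero] at this
        exact this
      rw [e2]
      conv_lhs => rw [e3]
      rw [map_sum]
      refine Finset.sum_congr rfl fun l _ => ?_
      rw [map_smul, hf l x]
    have e5 : rpen T k x = ∑ k', PU (Pi.single k' 1) k • rpen T k' x := by
      funext i
      have e6 := hPU2 _ (h3 x i)
      conv_lhs at e6 => rw [single_sum (fun k => rpen T k x i), map_sum]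
      have e7 := congrFun e6 k
      rw [Finset.sum_apply] at e7
      rw [← e7, Finset.sum_apply]
      refine Finset.sum_congr rfl fun k' _ => ?_
      rw [map_smul]
      simp only [Pi.smul_apply, smul_eq_mul]
      ring
    rw [e5]
    refine Finset.sum_congr rfl fun k' _ => ?_
    rw [e4 k', Finset.smul_sum]
    refine Finset.sum_congr rfl fun l _ => ?_
    rw [smul_smul]
    rfl
  refine ⟨⟨rmkS U' A' B, finrank_rmkS hU' hA' hB'⟩, ?_⟩
  rw [hTT]
  refine Submodule.sum_mem _ fun k _ => Submodule.sum_mem _ fun l _ => ?_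
  exact Submodule.subset_span ⟨_, rmk_mem (hU (hPU1 _)) (hA ((h4 k).1 _))
    (hB (Submodule.subset_span ⟨l, rfl⟩)), rfl⟩

/-- **The rank of a tensor in terms of its pencil.** -/
theorem mem_rrankLE_iff {c a b : ℕ} (hc : c ≤ 2) (ha : a ≤ p) (hb : b ≤ q) {s : ℕ}
    {T : Ten ![2, p, q]} : T ∈ RankLE (rtriK p q c a b) s ↔ BP c a b s (rpen T) := by
  classical
  constructor
  · rintro ⟨A, hA⟩
    rw [Submodule.mem_iSup_iff_exists_finsupp] at hA
    obtain ⟨f, hf, hsum⟩ := hA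
    refine ⟨fun j => rpen (f j), fun j => blk_of_mem_rtriK (hf j), ?_⟩
    rw [← map_sum, ← hsum, Finsupp.sum_fintype _ _ fun _ => rfl]
  · rintro ⟨X, hX, hT⟩
    have h1 : ∀ j, ∃ A : RTri p q c a b, rpen.symm (X j) ∈ rtriK p q c a b A := fun j =>
      exists_rtriK hc ha hb (by rw [LinearEquiv.apply_symm_apply]; exact hX j)
    choose A hA using h1
    refine ⟨A, ?_⟩
    have h2 : T = ∑ j, rpen.symm (X j) := by
      rw [← map_sum, ← hT, LinearEquiv.symm_apply_apply]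
    rw [h2]
    exact Submodule.sum_mem _ fun j _ => Submodule.mem_iSup_of_mem j (hA j)

theorem nonempty_rtri {c a b : ℕ} (hc : c ≤ 2) (ha : a ≤ p) (hb : b ≤ q) :
    Nonempty (RTri p q c a b) := by
  obtain ⟨U, -, hU⟩ := exists_enlarge hc (⊥ : Submodule ℝ (Fin 2 → ℝ)) (by
    rw [finrank_bot]
    exact Nat.zero_le c)
  obtain ⟨A, -, hA⟩ := exists_enlarge ha (⊥ : Submodule ℝ (Fin p → ℝ)) (by
    rw [finrank_bot]
    exact Nat.zero_le a)
  obtain ⟨B, -, hB⟩ := exists_enlarge hb (⊥ : Submodule ℝ (Fin q → ℝ)) (by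
    rw [finrank_bot]
    exact Nat.zero_le b)
  exact ⟨⟨rmkS U A B, finrank_rmkS hU hA hB⟩⟩

theorem exists_rtriK_ne_bot {c a b : ℕ} (hc : c ≤ 2) (ha : a ≤ p) (hb : b ≤ q) (hc0 : 1 ≤ c)
    (ha0 : 1 ≤ a) (hb0 : 1 ≤ b) : ∃ A, rtriK p q c a b A ≠ ⊥ := by
  have hp : 0 < p := by omega
  have hq : 0 < q := by omega
  set M : (Fin q → ℝ) →ₗ[ℝ] (Fin p → ℝ) := (LinearMap.proj (⟨0, hq⟩ : Fin q)).smulRight
      (Pi.single (⟨0, hp⟩ : Fin p) (1 : ℝ)) with hM
  -- a rank one pencil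
  have h1 : Blk c a b (fun k => (1 : Fin 2 → ℝ) k • M : RPen p q) := by
    refine Blk.mono (c := 1) (a := 1) (b := 1) ?_ hc0 ha0 hb0
    rw [blk_one_iff]
    refine ⟨1, M, ?_, rfl⟩
    rw [min_self]
    have e1 : LinearMap.range M ≤ span ℝ {Pi.single (⟨0, hp⟩ : Fin p) (1 : ℝ)} := by
      rintro _ ⟨x, rfl⟩
      exact Submodule.smul_mem _ _ (mem_span_singleton_self _)
    exact (Submodule.finrank_mono e1).trans ((finrank_span_le_card _).trans (by simp))
  rw [← LinearEquiv.apply_symm_apply rpen (fun k => _ : RPen p q)] at h1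
  obtain ⟨A, hA⟩ := exists_rtriK hc ha hb h1
  refine ⟨A, fun h0 => ?_⟩
  rw [h0, Submodule.mem_bot, LinearEquiv.symm_apply_eq, map_zero] at hA
  have h2 := congrFun hA 0
  have h3 := LinearMap.congr_fun h2 (Pi.single (⟨0, hq⟩ : Fin q) (1 : ℝ))
  have h4 := congrFun h3 ⟨0, hp⟩
  simp [hM] at h4

/-- **Typical ranks in terms of pencils.** -/
theorem rtypical_iff {c a b : ℕ} (hc : c ≤ 2) (ha : a ≤ p) (hb : b ≤ q) (hc0 : 1 ≤ c)
    (ha0 : 1 ≤ a) (hb0 : 1 ≤ b) (d : ℕ) : IsTypicalRank (SubVar ![2, p, q] ![c, a, b]) d ↔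
      ∃ O : Set (Ten ![2, p, q]), IsOpen O ∧ O.Nonempty ∧
        ∀ T ∈ O, T ≠ 0 ∧ BP c a b d (rpen T) ∧ ∀ s, s < d → ¬ BP c a b s (rpen T) := by
  rw [rsubVar_eq, isTypicalRank_iff _ (exists_rtriK_ne_bot hc ha hb hc0 ha0 hb0)]
  refine exists_congr fun O => and_congr_right fun _ => and_congr_right fun _ => ?_
  refine forall₂_congr fun T _ => and_congr_right fun _ => ?_
  rw [mem_rrankLE_iff hc ha hb]
  refine and_congr_right fun _ => forall₂_congr fun s _ => ?_
  rw [mem_rrankLE_iff hc ha hb]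

end Pool.Agent.SubTyp
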