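import Pool.Agent.SubTyp.RpUp

/-!
# Changing the format of a pencil: restriction, transposition, wide formats
-/

open Module Submodule Set Polynomial
open scoped Topology

namespace Pool.Agent.SubTyp

/-- The pencils of an open dense set decompose. -/
def OD (c a b s p q : ℕ) : Prop :=
  ∃ O : Set (Ten ![2, p, q]), IsOpen O ∧ Dense O ∧ ∀ T ∈ O, BP c a b s (rpen T)

theorem OD.mono {c a b s c' a' b' p q : ℕ} (h : OD c a b s p q) (hc : c ≤ c') (ha : a ≤ a')
    (hb : b ≤ b') : OD c' a' b' s p q := by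
  obtain ⟨O, h1, h2, h3⟩ := h
  exact ⟨O, h1, h2, fun T hT => (h3 T hT).mono hc ha hb⟩

theorem OD.group {c s N p q : ℕ} (h : OD 2 1 1 N p q) (hN : N ≤ s * c) : OD 2 c c s p q := by
  obtain ⟨O, h1, h2, h3⟩ := h
  exact ⟨O, h1, h2, fun T hT => (h3 T hT).group hN⟩

theorem od_blocks {a d s : ℕ} (hds : 0 < d * s) : OD 2 a (a + d) s (a * s) (a * s + d * s) := by
  obtain ⟨h, hh⟩ : ∃ h, d * s = h + 1 := ⟨d * s - 1, by omega⟩
  rw [hh]
  refine ⟨{T | PsiK T ≠ 0}, isOpen_ne.preimage continuous_PsiK, dense_PsiK, fun T hT => ?_⟩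
  have h1 : ∀ (g : ℕ) (hg : d * s = g) (T : RPen (a * s) (a * s + g)), Kron (a * s) g T →
      BP 2 a (a + d) s T := by
    intro g hg T h2
    subst hg
    exact h2.blocks
  exact h1 _ hh _ (kron_of_psiK hT)

theorem od_ones {g : ℕ} (hg : 0 < g) (κ : ℕ) : OD 1 g g (κ + 1) (κ * g) (κ * g + g) := by
  obtain ⟨h, rfl⟩ : ∃ h, g = h + 1 := ⟨g - 1, by omega⟩
  exact ⟨{T | PsiK T ≠ 0}, isOpen_ne.preimage continuous_PsiK, dense_PsiK, fun T hT =>
    (kron_of_psiK hT).ones⟩

/-! ### Restriction -/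

/-- The restriction of a tensor to a smaller format. -/
noncomputable def res (p p' q q' : ℕ) : Ten ![2, p + p', q + q'] →ₗ[ℝ] Ten ![2, p, q] :=
  LinearMap.funLeft ℝ ℝ fun t => rtup (t 0) (Fin.castAdd p' (t 1)) (Fin.castAdd q' (t 2))

theorem res_surjective (p p' q q' : ℕ) : Function.Surjective (res p p' q q') := by
  refine LinearMap.funLeft_surjective_of_injective ℝ ℝ _ fun t t' h => ?_
  have h0 : t 0 = t' 0 := congrFun h 0
  have h1 : Fin.castAdd p' (t 1) = Fin.castAdd p' (t' 1) := congrFun h 1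
  have h2 : Fin.castAdd q' (t 2) = Fin.castAdd q' (t' 2) := congrFun h 2
  rw [← rtup_eta t, ← rtup_eta t', h0, Fin.castAdd_injective _ _ h1, Fin.castAdd_injective _ _ h2]

/-- the restriction of a vector -/
noncomputable def rPr (p p' : ℕ) : (Fin (p + p') → ℝ) →ₗ[ℝ] (Fin p → ℝ) :=
  LinearMap.funLeft ℝ ℝ (Fin.castAdd p')

/-- the extension of a vector by zero -/
noncomputable def rIn (q q' : ℕ) : (Fin q → ℝ) →ₗ[ℝ] (Fin (q + q') → ℝ) where
  toFun x := Fin.append x (0 : Fin q' → ℝ)
  map_add' x y := by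
    funext l
    refine Fin.addCases (fun i => ?_) (fun i => ?_) l
    · rw [Pi.add_apply, Fin.append_left, Fin.append_left, Fin.append_left, Pi.add_apply]
    · rw [Pi.add_apply, Fin.append_right, Fin.append_right, Fin.append_right]
      simp
  map_smul' c x := by
    funext l
    refine Fin.addCases (fun i => ?_) (fun i => ?_) l
    · rw [Pi.smul_apply, Fin.append_left, Fin.append_left, Pi.smul_apply]
      rfl
    · rw [Pi.smul_apply, Fin.append_right, Fin.append_right]
      simp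

theorem rpen_res (p p' q q' : ℕ) (T : Ten ![2, p + p', q + q']) :
    rpen (res p p' q q' T) = fun k => rPr p p' ∘ₗ rpen T k ∘ₗ rIn q q' := by
  funext k
  refine LinearMap.ext fun x => ?_
  funext i
  rw [rpen_apply_apply]
  change _ = rpen T k (Fin.append x (0 : Fin q' → ℝ)) (Fin.castAdd p' i)
  rw [rpen_apply_apply, Fin.sum_univ_add]
  have h1 : ∑ j : Fin q', T (rtup k (Fin.castAdd p' i) (Fin.natAdd q j)) *
      Fin.append x (0 : Fin q' → ℝ) (Fin.natAdd q j) = 0 :=
    Finset.sum_eq_zero fun j _ => by rw [Fin.append_right, Pi.zero_apply, mul_zero]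
  rw [h1, add_zero]
  refine Finset.sum_congr rfl fun j _ => ?_
  rw [Fin.append_left]
  rfl

theorem OD.res {c a b s p q P Q : ℕ} (h : OD c a b s P Q) (hp : p ≤ P) (hq : q ≤ Q) :
    OD c a b s p q := by
  obtain ⟨p', rfl⟩ := Nat.exists_eq_add_of_le hp
  obtain ⟨q', rfl⟩ := Nat.exists_eq_add_of_le hq
  obtain ⟨O, h1, h2, h3⟩ := h
  have hc : Continuous (SubTyp.res p p' q q') := LinearMap.continuous_of_finiteDimensional _
  have hs := res_surjective p p' q q'
  refine ⟨SubTyp.res p p' q q' '' O, ?_, ?_, ?_⟩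
  · exact LinearMap.isOpenMap_of_finiteDimensional _ hs _ h1
  · exact hs.denseRange.dense_image hc h2
  · rintro _ ⟨T, hT, rfl⟩
    rw [rpen_res]
    exact (h3 T hT).comp _ _

/-! ### Transposition -/

/-- The transposed tensor. -/
noncomputable def sw (p q : ℕ) : Ten ![2, p, q] →ₗ[ℝ] Ten ![2, q, p] :=
  LinearMap.funLeft ℝ ℝ fun t => rtup (t 0) (t 2) (t 1)

theorem sw_sw (p q : ℕ) (T : Ten ![2, p, q]) : sw q p (sw p q T) = T := by
  funext t
  exact congrArg T (rtup_eta t)

theorem sw_surjective (p q : ℕ) : Function.Surjective (sw p q) := fun T =>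
  ⟨sw q p T, sw_sw q p T⟩

/-- The transposed pencil. -/
noncomputable def trp {p q : ℕ} (X : RPen p q) : RPen q p := fun k =>
  Matrix.toLin' (LinearMap.toMatrix' (X k)).transpose

theorem trp_pair {p q : ℕ} (X : RPen p q) (k : Fin 2) (x : Fin q → ℝ) (y : Fin p → ℝ) :
    ∑ i, X k x i * y i = ∑ j, x j * trp X k y j := by
  have h1 : ∀ i, X k x i = ∑ j, LinearMap.toMatrix' (X k) i j * x j := by
    intro i
    have := congrFun (LinearMap.toMatrix'_mulVec (X k) x) i
    rw [← this]
    rfl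
  have h2 : ∀ j, trp X k y j = ∑ i, LinearMap.toMatrix' (X k) i j * y i := by
    intro j
    unfold trp
    rw [Matrix.toLin'_apply]
    rfl
  simp only [h1, h2, Finset.sum_mul, Finset.mul_sum]
  rw [Finset.sum_comm]
  refine Finset.sum_congr rfl fun j _ => Finset.sum_congr rfl fun i _ => ?_
  ring

theorem rpen_sw {p q : ℕ} (T : Ten ![2, p, q]) : rpen (sw p q T) = trp (rpen T) := by
  funext k
  unfold trp
  rw [rpen_apply, rpen_apply, LinearMap.toMatrix'_toLin']
  rfl

theorem trp_sum {p q s : ℕ} (X : Fin s → RPen p q) : trp (∑ j, X j) = ∑ j, trp (X j) := by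
  funext k
  rw [Finset.sum_apply]
  unfold trp
  rw [Finset.sum_apply, map_sum, Matrix.transpose_sum, map_sum]

theorem finrank_ann_le {n : ℕ} (B : Submodule ℝ (Fin n → ℝ)) :
    finrank ℝ (ann B) + finrank ℝ B ≤ n := by
  have h1 : ann B ⊓ B = ⊥ := by
    rw [eq_bot_iff]
    rintro x ⟨hx, hx'⟩
    have h2 : ∑ j, x j * x j = 0 := hx x hx'
    rw [Submodule.mem_bot]
    funext j
    have h3 := (Finset.sum_eq_zero_iff_of_nonneg fun j _ => mul_self_nonneg (x j)).1 h2 j
      (Finset.mem_univ j)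
    exact mul_self_eq_zero.1 h3
  have h2 := Submodule.finrank_sup_add_finrank_inf_eq (ann B) B
  rw [h1, finrank_bot, add_zero] at h2
  have h3 := Submodule.finrank_le (ann B ⊔ B)
  rw [finrank_pi, Fintype.card_fin] at h3
  omega

theorem Blk.tr {p q c a b : ℕ} {X : RPen p q} (h : Blk c a b X) : Blk c b a (trp X) := by
  obtain ⟨U, A, N, h0, h1, h2, h3, h4⟩ := h
  have hj : ∀ (k : Fin 2) (y : Fin p → ℝ) (j : Fin q),
      trp X k y j = ∑ i, X k (Pi.single j 1) i * y i := by
    intro k y j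
    rw [trp_pair, Finset.sum_eq_single j]
    · rw [Pi.single_eq_same, one_mul]
    · intro j' _ hne
      rw [Pi.single_eq_of_ne hne, zero_mul]
    · intro h
      exact absurd (Finset.mem_univ j) h
  refine ⟨U, ann N, ann A, h0, ?_, ?_, fun y j => ?_, fun k => ⟨fun y x hx => ?_, fun y hy => ?_⟩⟩
  · have := finrank_ann_le N
    omega
  · have := finrank_ann A
    omega
  · have e1 : (fun k => trp X k y j) = ∑ i, y i • fun k => X k (Pi.single j 1) i := by
      funext k
      rw [hj, Finset.sum_apply]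
      refine Finset.sum_congr rfl fun i _ => ?_
      rw [Pi.smul_apply, smul_eq_mul, mul_comm]
    rw [e1]
    exact Submodule.sum_mem _ fun i _ => U.smul_mem _ (h3 _ i)
  · rw [← trp_pair, (h4 k).2 x hx]
    simp
  · funext j
    rw [hj]
    exact hy _ ((h4 k).1 _)

theorem BP.tr {p q c a b s : ℕ} {T : RPen p q} (h : BP c a b s T) : BP c b a s (trp T) := by
  obtain ⟨X, h1, rfl⟩ := h
  exact ⟨fun j => trp (X j), fun j => (h1 j).tr, trp_sum X⟩

theorem bp_sw_iff {p q c a b s : ℕ} {T : Ten ![2, p, q]} :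
    BP c b a s (rpen (sw p q T)) ↔ BP c a b s (rpen T) := by
  constructor
  · intro h
    have h1 := h.tr
    rwa [← rpen_sw, sw_sw] at h1
  · intro h
    rw [rpen_sw]
    exact h.tr

theorem OD.tr {c a b s p q : ℕ} (h : OD c a b s p q) : OD c b a s q p := by
  obtain ⟨O, h1, h2, h3⟩ := h
  have hc : Continuous (sw p q) := LinearMap.continuous_of_finiteDimensional _
  have hs := sw_surjective p q
  refine ⟨sw p q '' O, ?_, ?_, ?_⟩
  · exact LinearMap.isOpenMap_of_finiteDimensional _ hs _ h1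
  · exact hs.denseRange.dense_image hc h2
  · rintro _ ⟨T, hT, rfl⟩
    exact bp_sw_iff.2 (h3 T hT)

/-- Typical ranks of the transposed format. -/
theorem rtypical_swap {p q c a b : ℕ} (hc : c ≤ 2) (ha : a ≤ p) (hb : b ≤ q) (hc0 : 1 ≤ c)
    (ha0 : 1 ≤ a) (hb0 : 1 ≤ b) (d : ℕ) : IsTypicalRank (SubVar ![2, p, q] ![c, a, b]) d ↔
      IsTypicalRank (SubVar ![2, q, p] ![c, b, a]) d := by
  rw [rtypical_iff hc ha hb hc0 ha0 hb0, rtypical_iff hc hb ha hc0 hb0 ha0]
  constructor
  · rintro ⟨O, h1, h2, h3⟩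
    have hc : Continuous (sw q p) := LinearMap.continuous_of_finiteDimensional _
    refine ⟨sw q p ⁻¹' O, h1.preimage hc, ?_, fun T hT => ?_⟩
    · obtain ⟨T, hT⟩ := h2
      refine ⟨sw p q T, ?_⟩
      rw [mem_preimage, sw_sw]
      exact hT
    · obtain ⟨h4, h5, h6⟩ := h3 _ hT
      refine ⟨fun h0 => h4 (by rw [h0, map_zero]), bp_sw_iff.1 h5, fun s hs hcon => ?_⟩
      exact h6 s hs (bp_sw_iff.2 hcon)
  · rintro ⟨O, h1, h2, h3⟩
    have hc : Continuous (sw p q) := LinearMap.continuous_of_finiteDimensional _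
    refine ⟨sw p q ⁻¹' O, h1.preimage hc, ?_, fun T hT => ?_⟩
    · obtain ⟨T, hT⟩ := h2
      refine ⟨sw q p T, ?_⟩
      rw [mem_preimage, sw_sw]
      exact hT
    · obtain ⟨h4, h5, h6⟩ := h3 _ hT
      refine ⟨fun h0 => h4 (by rw [h0, map_zero]), bp_sw_iff.1 h5, fun s hs hcon => ?_⟩
      exact h6 s hs (bp_sw_iff.2 hcon)

/-! ### The stacked map -/

/-- A minor of the stacked matrix. -/
def stk (p n r : ℕ) (hn : n ≤ 2 * p) (T : Ten ![2, p, n + r]) : Matrix (Fin n) (Fin n) ℝ :=
  Matrix.of fun l j => T (rtup (Fin.castLE hn l).divNat (Fin.castLE hn l).modNat (Fin.castAdd r j))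

theorem dense_stk (p n r : ℕ) (hn : n ≤ 2 * p) :
    IsOpen {T : Ten ![2, p, n + r] | (stk p n r hn T).det ≠ 0} ∧
      Dense {T : Ten ![2, p, n + r] | (stk p n r hn T).det ≠ 0} := by
  constructor
  · refine isOpen_ne.preimage (Continuous.matrix_det (continuous_matrix fun l j => ?_))
    exact continuous_apply _
  · set S : Ten ![2, p, n + r] := fun t =>
      if (t 1).val + p * (t 0).val = (t 2).val then 1 else 0 with hS
    refine dense_ne_zero (fun T => (stk p n r hn T).det) S ?_ fun T => ?_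
    · have : stk p n r hn S = 1 := by
        ext l j
        rw [Matrix.one_apply]
        change (if (Fin.castLE hn l).modNat.val + p * (Fin.castLE hn l).divNat.val =
          (Fin.castAdd r j).val then (1 : ℝ) else 0) = _
        rw [Fin.coe_modNat, Fin.coe_divNat, Nat.mod_add_div, Fin.val_castLE, Fin.val_castAdd]
        simp only [Fin.ext_iff]
      simp only [this, Matrix.det_one]
      exact one_ne_zero
    · let P : Matrix (Fin n) (Fin n) ℝ[X] := Matrix.of fun l j =>
        Polynomial.C (stk p n r hn T l j) +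
          Polynomial.X * Polynomial.C (stk p n r hn S l j - stk p n r hn T l j)
      refine ⟨P.det, fun t => ?_⟩
      rw [← coe_evalRingHom, RingHom.map_det]
      congr 1
      ext l j
      rw [RingHom.mapMatrix_apply, Matrix.map_apply]
      change _ = eval t (Polynomial.C (stk p n r hn T l j) +
          Polynomial.X * Polynomial.C (stk p n r hn S l j - stk p n r hn T l j))
      rw [eval_add, eval_mul, eval_C, eval_X, eval_C]
      rfl

theorem ker_stk {p n r : ℕ} (hn : n ≤ 2 * p) {T : Ten ![2, p, n + r]}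
    (hT : (stk p n r hn T).det ≠ 0) :
    finrank ℝ (LinearMap.ker (rpen T 0) ⊓ LinearMap.ker (rpen T 1) :
      Submodule ℝ (Fin (n + r) → ℝ)) + n ≤ n + r := by
  set K : Submodule ℝ (Fin (n + r) → ℝ) := LinearMap.ker (rpen T 0) ⊓ LinearMap.ker (rpen T 1)
    with hK
  have hinj : Function.Injective (rIn n r) := by
    intro x y hxy
    funext i
    have h1 := congrFun hxy (Fin.castAdd r i)
    change Fin.append x _ _ = Fin.append y _ _ at h1
    rwa [Fin.append_left, Fin.append_left] at h1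
  have h1 : K ⊓ LinearMap.range (rIn n r) = ⊥ := by
    rw [eq_bot_iff]
    rintro _ ⟨hx, y, rfl⟩
    have hk : ∀ k, rpen T k (rIn n r y) = 0 := by
      intro k
      fin_cases k
      · exact hx.1
      · exact hx.2
    have h2 : (stk p n r hn T).mulVec y = 0 := by
      funext l
      have h3 := congrFun (hk (Fin.castLE hn l).divNat) (Fin.castLE hn l).modNat
      rw [rpen_apply_apply, Fin.sum_univ_add] at h3
      have h4 : ∑ j : Fin r, T (rtup (Fin.castLE hn l).divNat (Fin.castLE hn l).modNat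
          (Fin.natAdd n j)) * rIn n r y (Fin.natAdd n j) = 0 := by
        refine Finset.sum_eq_zero fun j _ => ?_
        change _ * Fin.append y (0 : Fin r → ℝ) (Fin.natAdd n j) = 0
        rw [Fin.append_right, Pi.zero_apply, mul_zero]
      rw [h4, add_zero] at h3
      rw [Pi.zero_apply] at h3
      rw [Pi.zero_apply, ← h3]
      change ∑ j, stk p n r hn T l j * y j = _
      refine Finset.sum_congr rfl fun j _ => ?_
      change _ = _ * Fin.append y (0 : Fin r → ℝ) (Fin.castAdd r j)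
      rw [Fin.append_left]
      rfl
    have h3 : y = 0 := Matrix.eq_zero_of_mulVec_eq_zero hT h2
    rw [Submodule.mem_bot, h3, map_zero]
  have h2 := Submodule.finrank_sup_add_finrank_inf_eq K (LinearMap.range (rIn n r))
  rw [h1, finrank_bot, add_zero, LinearMap.finrank_range_of_inj hinj, finrank_pi,
    Fintype.card_fin] at h2
  have h3 := Submodule.finrank_le (K ⊔ LinearMap.range (rIn n r))
  rw [finrank_pi, Fintype.card_fin] at h3
  omega

/-- **Wide formats.** -/
theorem OD.wide {c a b s p : ℕ} (h : OD c a b s p (2 * p)) (q : ℕ) (T : RPen p q) :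
    BP c a b s T := by
  obtain ⟨O, h1, h2, h3⟩ := h
  obtain ⟨T', hT'O, hT'⟩ := dense_iff_inter_open.1 h2 _ (dense_stk p (2 * p) 0 le_rfl).1
    (dense_stk p (2 * p) 0 le_rfl).2.nonempty
  have hk := ker_stk le_rfl hT'O
  have hbp : BP c a b s (rpen T') := h3 _ hT'
  set T'' : RPen p (2 * p) := rpen T' with hT''
  have hK : (LinearMap.ker (T'' 0) ⊓ LinearMap.ker (T'' 1) :
      Submodule ℝ (Fin (2 * p) → ℝ)) = ⊥ := by
    rw [← Submodule.finrank_eq_zero (R := ℝ)]
    have h4 : finrank ℝ (LinearMap.ker (T'' 0) ⊓ LinearMap.ker (T'' 1) :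
      Submodule ℝ (Fin (2 * p) → ℝ)) + 2 * p ≤ 2 * p := hk
    omega
  let S : (Fin (2 * p) → ℝ) →ₗ[ℝ] (Fin 2 → Fin p → ℝ) := LinearMap.pi T''
  have hinj : Function.Injective S := by
    rw [← LinearMap.ker_eq_bot, eq_bot_iff]
    intro x hx
    rw [LinearMap.mem_ker] at hx
    rw [← hK]
    exact ⟨congrFun hx 0, congrFun hx 1⟩
  have hfr : finrank ℝ (Fin (2 * p) → ℝ) = finrank ℝ (Fin 2 → Fin p → ℝ) := by
    rw [finrank_pi, finrank_pi_fintype]
    simp
  let e := LinearEquiv.ofInjectiveOfFinrankEq S hinj hfr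
  have he : ∀ x, e x = S x := fun x => rfl
  have h5 : T = fun k => LinearMap.id ∘ₗ T'' k ∘ₗ (e.symm.toLinearMap ∘ₗ LinearMap.pi T) := by
    funext k
    refine LinearMap.ext fun x => ?_
    change T k x = T'' k (e.symm (LinearMap.pi T x))
    have h6 : S (e.symm (LinearMap.pi T x)) = LinearMap.pi T x := by
      rw [← he, LinearEquiv.apply_symm_apply]
    exact (congrFun h6 k).symm
  rw [h5]
  exact hbp.comp _ _

end Pool.Agent.SubTyp
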