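import Pool.Agent.SubTyp.RpKron

/-!
# Decompositions of pencils equivalent to `(0 | I)`, `(I | 0)`
-/

open Module Submodule Set
open scoped Topology

namespace Pool.Agent.SubTyp

theorem sum_range_block {A : Type*} [AddCommMonoid A] {N b s : ℕ} (hN : N = b * s) (F : ℕ → A) :
    ∑ l ∈ Finset.range N, F l = ∑ j : Fin s, ∑ c : Fin b, F (j + s * c) := by
  subst hN
  rw [Finset.sum_range, ← finProdFinEquiv.sum_comp, Fintype.sum_prod_type, Finset.sum_comm]
  rfl

theorem finrank_ker_pi {q b : ℕ} (f : Fin b → ((Fin q → ℝ) →ₗ[ℝ] ℝ)) :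
    q ≤ finrank ℝ (LinearMap.ker (LinearMap.pi f)) + b := by
  have h1 := LinearMap.finrank_range_add_finrank_ker (LinearMap.pi f)
  have h2 := Submodule.finrank_le (LinearMap.range (LinearMap.pi f))
  rw [finrank_pi, Fintype.card_fin] at h1
  rw [finrank_pi, Fintype.card_fin] at h2
  omega

/-- **Blocks of size `a × b`, `a < b`.** -/
theorem Kron.blocks {a d s : ℕ} {T : RPen (a * s) (a * s + d * s)} (h : Kron (a * s) (d * s) T) :
    BP 2 a (a + d) s T := by
  obtain ⟨w, f, hf, r0, r1, r2, -⟩ := h
  have hrange : a * s + d * s = (a + d) * s := by ring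
  refine ⟨fun j k => ∑ c : Fin (a + d), (f (j + s * c)).smulRight (T k (w (j + s * c))),
    fun j => ?_, ?_⟩
  · rw [blk_two_iff]
    refine ⟨span ℝ (Set.range fun c : Fin a => T 1 (w (j + s * c))),
      LinearMap.ker (LinearMap.pi fun c : Fin (a + d) => f (j + s * c)), ?_, ?_, fun k =>
        ⟨fun x => ?_, fun x hx => ?_⟩⟩
    · refine (finrank_range_le_card _).trans ?_
      rw [Fintype.card_fin]
    · exact finrank_ker_pi _
    · rw [LinearMap.sum_apply]
      refine Submodule.sum_mem _ fun c _ => ?_
      rw [LinearMap.smulRight_apply]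
      refine Submodule.smul_mem _ _ ?_
      have hj := j.2
      have hc := c.2
      have hk : k = 0 ∨ k = 1 := by
        fin_cases k
        · exact Or.inl rfl
        · exact Or.inr rfl
      rcases hk with rfl | rfl
      · by_cases hcd : (c : ℕ) < d
        · have h1 : (j : ℕ) + s * c < d * s := by
            have := Nat.mul_le_mul_left s (Nat.succ_le_of_lt hcd)
            rw [Nat.succ_eq_add_one, Nat.mul_add, Nat.mul_one, Nat.mul_comm s d] at this
            omega
          rw [r0 _ h1]
          exact Submodule.zero_mem _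
        · obtain ⟨c', hc'⟩ : ∃ c', (c : ℕ) = c' + d := ⟨c - d, by omega⟩
          have h1 : (j : ℕ) + s * c = (j + s * c') + d * s := by
            rw [hc']
            ring
          have h2 : c' < a := by omega
          have h3 : (j : ℕ) + s * c' < a * s := by
            have := Nat.mul_le_mul_left s (Nat.succ_le_of_lt h2)
            rw [Nat.succ_eq_add_one, Nat.mul_add, Nat.mul_one, Nat.mul_comm s a] at this
            omega
          rw [h1, r1 _ h3]
          exact Submodule.subset_span ⟨⟨c', h2⟩, rfl⟩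
      · by_cases hca : (c : ℕ) < a
        · exact Submodule.subset_span ⟨⟨c, hca⟩, rfl⟩
        · have h1 : a * s ≤ (j : ℕ) + s * c := by
            have := Nat.mul_le_mul_left s (not_lt.1 hca)
            rw [Nat.mul_comm s a] at this
            omega
          have h2 : (j : ℕ) + s * c < a * s + d * s := by
            have := Nat.mul_le_mul_left s (Nat.succ_le_of_lt hc)
            rw [Nat.succ_eq_add_one, Nat.mul_add, Nat.mul_one, Nat.mul_comm s (a + d)] at this
            rw [hrange]
            omega
          rw [r2 _ h1 h2]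
          exact Submodule.zero_mem _
    · have h1 : ∀ c : Fin (a + d), f (j + s * c) x = 0 := fun c =>
        congrFun (LinearMap.mem_ker.1 hx) c
      rw [LinearMap.sum_apply]
      refine Finset.sum_eq_zero fun c _ => ?_
      rw [LinearMap.smulRight_apply, h1 c, zero_smul]
  · funext k
    refine LinearMap.ext fun x => ?_
    rw [Finset.sum_apply, LinearMap.sum_apply]
    conv_lhs => rw [hf x, map_sum]
    rw [sum_range_block hrange]
    refine Finset.sum_congr rfl fun j _ => ?_
    rw [LinearMap.sum_apply]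
    refine Finset.sum_congr rfl fun c _ => ?_
    rw [map_smul, LinearMap.smulRight_apply]

/-- **Blocks with one-dimensional first space.** -/
theorem Kron.ones {g κ : ℕ} {T : RPen (κ * g) (κ * g + g)} (h : Kron (κ * g) g T) :
    BP 1 g g (κ + 1) T := by
  obtain ⟨w, f, hf, r0, r1, r2, -⟩ := h
  have hrange : κ * g + g = (κ + 1) * g := by ring
  -- the Vandermonde matrix and its inverse
  set V : Matrix (Fin (κ + 1)) (Fin (κ + 1)) ℝ :=
    Matrix.vandermonde fun j : Fin (κ + 1) => ((j : ℕ) : ℝ) with hV
  have hdet : V.det ≠ 0 := by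
    rw [hV, Matrix.det_vandermonde_ne_zero_iff]
    intro i j hij
    simp only [Nat.cast_inj] at hij
    exact Fin.ext hij
  set W := V⁻¹ with hW
  have hWV : W * V = 1 := Matrix.nonsing_inv_mul V (IsUnit.mk0 _ hdet)
  have hWV' : ∀ t t' : Fin (κ + 1), ∑ j, W t j * (((j : ℕ) : ℝ) ^ (t' : ℕ)) =
      if t = t' then 1 else 0 := by
    intro t t'
    have := congrFun (congrFun hWV t) t'
    rw [Matrix.mul_apply, Matrix.one_apply] at this
    exact this
  -- the eigenvectors
  set v : ℕ → ℕ → (Fin (κ * g + g) → ℝ) := fun i j =>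
    ∑ t ∈ Finset.range (κ + 1), ((j : ℝ) ^ t) • w (i + g * t) with hv
  have e1 : ∀ i j, i < g → T 1 (v i j) = ∑ t ∈ Finset.range κ, ((j : ℝ) ^ t) • T 1 (w (i + g * t)) := by
    intro i j hi
    rw [hv]
    simp only
    rw [map_sum, Finset.sum_range_succ]
    have h1 : T 1 (w (i + g * κ)) = 0 := by
      refine r2 _ ?_ ?_
      · rw [Nat.mul_comm κ g]
        omega
      · rw [Nat.mul_comm κ g]
        omega
    rw [map_smul, h1, smul_zero, add_zero]
    refine Finset.sum_congr rfl fun t _ => ?_
    rw [map_smul]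
  have e0 : ∀ i j, i < g → T 0 (v i j) = (j : ℝ) • T 1 (v i j) := by
    intro i j hi
    rw [e1 i j hi, Finset.smul_sum, hv]
    simp only
    rw [map_sum, Finset.sum_range_succ']
    have h1 : T 0 (w (i + g * 0)) = 0 := by
      rw [Nat.mul_zero, add_zero]
      exact r0 _ hi
    rw [map_smul, h1, smul_zero, add_zero]
    refine Finset.sum_congr rfl fun t ht => ?_
    rw [Finset.mem_range] at ht
    have h2 : i + g * (t + 1) = (i + g * t) + g := by ring
    have h3 : i + g * t < κ * g := by
      have := Nat.mul_le_mul_left g (Nat.succ_le_of_lt ht)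
      rw [Nat.succ_eq_add_one, Nat.mul_add, Nat.mul_one, Nat.mul_comm g κ] at this
      omega
    rw [map_smul, h2, r1 _ h3, smul_smul, pow_succ']
  have ew : ∀ (i : ℕ) (t : Fin (κ + 1)), w (i + g * t) = ∑ j : Fin (κ + 1), W t j • v i j := by
    intro i t
    rw [hv]
    simp only
    simp only [Finset.smul_sum, smul_smul, Finset.sum_range]
    rw [Finset.sum_comm]
    simp only [← Finset.sum_smul]
    rw [Finset.sum_eq_single t]
    · rw [hWV', if_pos rfl, one_smul]
    · intro t' _ hne
      rw [hWV', if_neg (Ne.symm hne), zero_smul]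
    · intro h
      exact absurd (Finset.mem_univ t) h
  -- the blocks
  set F : Fin (κ + 1) → Fin g → ((Fin (κ * g + g) → ℝ) →ₗ[ℝ] ℝ) := fun j i =>
    ∑ t : Fin (κ + 1), W t j • f (i + g * t) with hF
  have hx : ∀ x, x = ∑ j : Fin (κ + 1), ∑ i : Fin g, F j i x • v i j := by
    intro x
    conv_lhs => rw [hf x, sum_range_block hrange]
    conv_rhs => rw [Finset.sum_comm]
    refine Finset.sum_congr rfl fun i _ => ?_
    simp only [hF, LinearMap.sum_apply, LinearMap.smul_apply, Finset.sum_smul]
    conv_rhs => rw [Finset.sum_comm]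
    refine Finset.sum_congr rfl fun t _ => ?_
    rw [ew, Finset.smul_sum]
    refine Finset.sum_congr rfl fun j _ => ?_
    rw [smul_smul, smul_eq_mul]
    exact congrArg (fun r : ℝ => r • v i j) (mul_comm _ _)
  set G : Fin (κ + 1) → ((Fin (κ * g + g) → ℝ) →ₗ[ℝ] (Fin (κ * g) → ℝ)) := fun j =>
    ∑ i : Fin g, (F j i).smulRight (T 1 (v i j)) with hG
  refine ⟨fun j => fun k => (![((j : ℕ) : ℝ), 1] : Fin 2 → ℝ) k • G j, fun j => ?_, ?_⟩
  · rw [blk_one_iff]
    refine ⟨![((j : ℕ) : ℝ), 1], G j, ?_, rfl⟩
    rw [min_self, hG]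
    simp only
    have h1 : LinearMap.range (∑ i : Fin g, (F j i).smulRight (T 1 (v i j))) ≤
        span ℝ (Set.range fun i : Fin g => T 1 (v i j)) := by
      rintro _ ⟨x, rfl⟩
      rw [LinearMap.sum_apply]
      refine Submodule.sum_mem _ fun i _ => ?_
      rw [LinearMap.smulRight_apply]
      exact Submodule.smul_mem _ _ (Submodule.subset_span ⟨i, rfl⟩)
    refine (Submodule.finrank_mono h1).trans ((finrank_range_le_card _).trans ?_)
    rw [Fintype.card_fin]
  · funext k
    refine LinearMap.ext fun x => ?_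
    rw [Finset.sum_apply, LinearMap.sum_apply]
    conv_lhs => rw [hx x, map_sum]
    refine Finset.sum_congr rfl fun j _ => ?_
    rw [map_sum, LinearMap.smul_apply, hG]
    simp only
    rw [LinearMap.sum_apply, Finset.smul_sum]
    refine Finset.sum_congr rfl fun i _ => ?_
    rw [map_smul, LinearMap.smulRight_apply]
    have hk : k = 0 ∨ k = 1 := by
      fin_cases k
      · exact Or.inl rfl
      · exact Or.inr rfl
    rcases hk with rfl | rfl
    · rw [e0 _ _ i.2, smul_comm]
      rfl
    · change _ = (1 : ℝ) • _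
      rw [one_smul]

/-- **Combinations of the two maps are onto.** -/
theorem Kron.surjective {p g : ℕ} (hg0 : 0 < g) {T : RPen p (p + g)} (h : Kron p g T) {α β : ℝ}
    (hab : α ≠ 0 ∨ β ≠ 0) : Function.Surjective (α • T 0 + β • T 1) := by
  obtain ⟨w, f, hf, r0, r1, r2, hs⟩ := h
  rw [← LinearMap.range_eq_top, eq_top_iff]
  refine hs.trans (span_le.2 ?_)
  rintro _ ⟨l, rfl⟩
  change T 1 (w l) ∈ LinearMap.range (α • T 0 + β • T 1)
  by_cases hb : β = 0
  · have ha : α ≠ 0 := by
      rcases hab with h | h
      · exact h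
      · exact absurd hb h
    refine ⟨α⁻¹ • w (l + g), ?_⟩
    rw [hb, LinearMap.add_apply, LinearMap.smul_apply, LinearMap.smul_apply, zero_smul, add_zero,
      map_smul, r1 _ l.2, smul_smul, mul_inv_cancel₀ ha, one_smul]
  · have key : ∀ n : ℕ, n < p → T 1 (w n) ∈ LinearMap.range (α • T 0 + β • T 1) := by
      intro n
      induction n using Nat.strong_induction_on with
      | _ n ih =>
        intro hn
        have h1 : (α • T 0 + β • T 1) (β⁻¹ • w n) - (α * β⁻¹) • T 0 (w n) = T 1 (w n) := by
          rw [LinearMap.add_apply, LinearMap.smul_apply, LinearMap.smul_apply, map_smul, map_smul,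
            smul_smul, smul_smul, mul_inv_cancel₀ hb, one_smul]
          abel
        rw [← h1]
        refine Submodule.sub_mem _ ⟨_, rfl⟩ (Submodule.smul_mem _ _ ?_)
        by_cases hg : n < g
        · rw [r0 _ hg]
          exact Submodule.zero_mem _
        · obtain ⟨n', rfl⟩ : ∃ n', n = n' + g := ⟨n - g, by omega⟩
          rw [r1 _ (by omega)]
          exact ih n' (by omega) (by omega)
    exact key l l.2

end Pool.Agent.SubTyp
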