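import Pool.Agent.SubTyp.SymPoly
import Pool.Agent.SubTyp.DimLemma

/-! Small (nowhere dense, closed) sets of symmetric tensors given by families of operators. -/

open MvPolynomial Module Set
open scoped ENNReal Topology

namespace Pool.Agent.SubTyp

section SmallSets

variable {W : Type*} [NormedAddCommGroup W] [NormedSpace ℝ W] [FiniteDimensional ℝ W]

/-- a set of Hausdorff dimension smaller than the dimension of the space. -/
def Small (S : Set W) : Prop := dimH S < finrank ℝ W

omit [FiniteDimensional ℝ W] in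
theorem Small.union {S T : Set W} (hS : Small S) (hT : Small T) : Small (S ∪ T) := by
  unfold Small at *
  rw [dimH_union]
  exact max_lt hS hT

omit [FiniteDimensional ℝ W] in
theorem Small.mono {S T : Set W} (hT : Small T) (h : S ⊆ T) : Small S :=
  lt_of_le_of_lt (dimH_mono h) hT

omit [FiniteDimensional ℝ W] in
theorem Small.iUnion {κ : Type*} [Finite κ] [Nonempty κ] {S : κ → Set W}
    (hS : ∀ i, Small (S i)) : Small (⋃ i, S i) := by
  classical
  unfold Small at *
  have := Fintype.ofFinite κ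
  rw [dimH_iUnion, ← Finset.sup_univ_eq_iSup, Finset.sup_lt_iff]
  · exact fun i _ => hS i
  · obtain ⟨i⟩ := ‹Nonempty κ›
    exact lt_of_le_of_lt bot_le (hS i)

theorem Small.dense_compl {S : Set W} (hS : Small S) : Dense Sᶜ :=
  dense_compl_of_dimH_lt_finrank hS

end SmallSets

variable {m : ℕ}

/-- coefficients of a form of degree `k`. -/
noncomputable def coefMap (m k : ℕ) : MvPolynomial (Fin m) ℝ →ₗ[ℝ] (Sym (Fin m) k → ℝ) where
  toFun p := fun s => coeff (Multiset.toFinsupp (s : Multiset (Fin m))) p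
  map_add' p q := by ext; simp
  map_smul' c p := by ext; simp

theorem degree_toFinsupp {k : ℕ} (s : Sym (Fin m) k) :
    (Multiset.toFinsupp (s : Multiset (Fin m))).degree = k := by
  have := Multiset.toFinsupp_sum_eq (s : Multiset (Fin m))
  rw [Finsupp.degree_eq_sum] at *
  rw [Finsupp.sum_fintype _ _ (by simp)] at this
  simpa using this

theorem coefMap_surj {k : ℕ} (z : Sym (Fin m) k → ℝ) :
    ∃ p : MvPolynomial (Fin m) ℝ, p.IsHomogeneous k ∧ coefMap m k p = z := by
  classical
  refine ⟨∑ s, z s • monomial (Multiset.toFinsupp (s : Multiset (Fin m))) 1, ?_, ?_⟩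
  · refine IsHomogeneous.sum _ _ _ fun s _ => ?_
    refine (homogeneousSubmodule (Fin m) ℝ k).smul_mem _ ?_
    exact isHomogeneous_monomial _ (degree_toFinsupp s)
  · funext s
    simp only [coefMap, LinearMap.coe_mk, AddHom.coe_mk]
    rw [coeff_sum, Finset.sum_eq_single s]
    · simp
    · intro s' _ hs'
      rw [coeff_smul, coeff_monomial, if_neg]
      · simp
      · intro h
        exact hs' (Subtype.ext (Multiset.toFinsupp.injective h))
    · intro h; exact absurd (Finset.mem_univ s) h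

theorem coefMap_injOn {k : ℕ} {p : MvPolynomial (Fin m) ℝ} (hp : p.IsHomogeneous k)
    (h : coefMap m k p = 0) : p = 0 := by
  classical
  ext d
  by_cases hd : d.degree = k
  · have hcard : Multiset.card (Finsupp.toMultiset d) = k := by
      rw [Finsupp.card_toMultiset, ← hd, Finsupp.degree_eq_sum, Finsupp.sum_fintype _ _ (by simp)]
      simp
    have := congrFun h ⟨Finsupp.toMultiset d, hcard⟩
    simp only [coefMap, LinearMap.coe_mk, AddHom.coe_mk, Pi.zero_apply] at this
    have h2 : Multiset.toFinsupp (Finsupp.toMultiset d) = d := Finsupp.toMultiset_toFinsupp d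
    rw [coeff_zero]
    change coeff (Multiset.toFinsupp (Finsupp.toMultiset d)) p = 0 at this
    rwa [h2] at this
  · rw [hp.coeff_eq_zero hd, coeff_zero]

/-- the operator `T ↦ L₁ ⋯ L_s T`, with values in the coefficient space of forms of degree `k`. -/
noncomputable def opF (n k : ℕ) (Ls : List (Fin m → ℝ)) :
    SymT n m →L[ℝ] (Sym (Fin m) k → ℝ) :=
  LinearMap.toContinuousLinearMap (coefMap m k ∘ₗ dl Ls ∘ₗ toPoly ∘ₗ (SymT n m).subtype)

theorem opF_apply (n k : ℕ) (Ls : List (Fin m → ℝ)) (T : SymT n m) :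
    opF n k Ls T = coefMap m k (dl Ls (toPoly (T : Ten fun _ : Fin n => m))) := rfl

theorem opF_eq_zero_iff {n k : ℕ} {Ls : List (Fin m → ℝ)} (hn : n = k + Ls.length) (T : SymT n m) :
    opF n k Ls T = 0 ↔ dl Ls (toPoly (T : Ten fun _ : Fin n => m)) = 0 := by
  rw [opF_apply]
  constructor
  · intro h
    refine coefMap_injOn ?_ h
    have := dl_homog Ls (toPoly_homog (T : Ten fun _ : Fin n => m))
    rwa [show n - Ls.length = k by omega] at this
  · intro h; rw [h, map_zero]

theorem opF_surj {n k : ℕ} {Ls : List (Fin m → ℝ)} (hn : n = k + Ls.length)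
    (hL : ∀ L ∈ Ls, L ≠ 0) : Function.Surjective (opF (m := m) n k Ls) := by
  intro z
  obtain ⟨p, hp, hpz⟩ := coefMap_surj z
  obtain ⟨f, hf, hfp⟩ := exists_dl_primitive Ls hL hp
  rw [← hn] at hf
  obtain ⟨T, hT, hTf⟩ := exists_toPoly_eq hf
  exact ⟨⟨T, hT⟩, by rw [opF_apply]; change coefMap m k (dl Ls (toPoly T)) = z; rw [hTf, hfp, hpz]⟩

section Smooth

variable {X : Type*} [NormedAddCommGroup X] [NormedSpace ℝ X]

theorem contDiff_coeff_dir {L : X → Fin m → ℝ} (hL : ContDiff ℝ 1 L)
    {g : X → MvPolynomial (Fin m) ℝ} (hg : ∀ d, ContDiff ℝ 1 fun x => coeff d (g x))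
    (d : Fin m →₀ ℕ) : ContDiff ℝ 1 fun x => coeff d (dir (L x) (g x)) := by
  have : (fun x => coeff d (dir (L x) (g x))) = fun x =>
      ∑ i, L x i * (coeff (d + Finsupp.single i 1) (g x) * (d i + 1)) := by
    funext x
    rw [dir_eq_sum, coeff_sum]
    refine Finset.sum_congr rfl fun i _ => ?_
    rw [coeff_C_mul, coeff_pderiv]
  rw [this]
  refine ContDiff.sum fun i _ => ?_
  exact ((contDiff_apply ℝ ℝ i).comp hL).mul ((hg _).mul contDiff_const)

theorem contDiff_coeff_dl {s : ℕ} {Λ : X → Fin s → Fin m → ℝ} (hΛ : ContDiff ℝ 1 Λ)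
    (p : MvPolynomial (Fin m) ℝ) (d : Fin m →₀ ℕ) :
    ContDiff ℝ 1 fun x => coeff d (dl (List.ofFn (Λ x)) p) := by
  induction s generalizing d with
  | zero => simpa using contDiff_const
  | succ s ih =>
    simp only [List.ofFn_succ, dl_cons]
    refine contDiff_coeff_dir ?_ (fun d => ?_) d
    · exact (contDiff_apply ℝ (Fin m → ℝ) (0 : Fin (s + 1))).comp hΛ
    · have h2 : ContDiff ℝ 1 fun x => fun j : Fin s => Λ x j.succ :=
        contDiff_pi.2 fun j => (contDiff_apply ℝ (Fin m → ℝ) j.succ).comp hΛ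
      exact ih h2 d

theorem contDiff_opF {s : ℕ} (n k : ℕ) {Λ : X → Fin s → Fin m → ℝ} (hΛ : ContDiff ℝ 1 Λ) :
    ContDiff ℝ 1 fun x => opF (m := m) n k (List.ofFn (Λ x)) := by
  rw [contDiff_clm_apply_iff]
  intro T
  rw [contDiff_pi]
  intro q
  exact contDiff_coeff_dl hΛ _ _

end Smooth

theorem card_le_finrank {n k s : ℕ} (hn : n = k + s) (hm : 0 < m) :
    Fintype.card (Sym (Fin m) k) ≤ finrank ℝ (SymT n m) := by
  have hsurj := opF_surj (m := m) (n := n) (k := k) (Ls := List.replicate s fun _ => (1 : ℝ))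
    (by rw [List.length_replicate]; exact hn) (fun L hL => by
      rw [List.eq_of_mem_replicate hL]
      intro h
      have := congrFun h ⟨0, hm⟩
      simp at this)
  have := LinearMap.finrank_le_finrank_of_surjective (R := ℝ)
    (f := (opF (m := m) n k (List.replicate s fun _ => (1 : ℝ))).toLinearMap) hsurj
  simpa using this

/-- **Bad sets are small.** -/
theorem small_family {X : Type*} [NormedAddCommGroup X] [NormedSpace ℝ X] [FiniteDimensional ℝ X]
    {n k s : ℕ} (hn : n = k + s) (hm : 0 < m) {Λ : X → Fin s → Fin m → ℝ} (hΛ : ContDiff ℝ 1 Λ)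
    (hdim : finrank ℝ X < Fintype.card (Sym (Fin m) k)) :
    Small {T : SymT n m | ∃ x, (∀ j, Λ x j ≠ 0) ∧
      dl (List.ofFn (Λ x)) (toPoly (T : Ten fun _ : Fin n => m)) = 0} := by
  have h := dimH_incidence_le (fun x => opF (m := m) n k (List.ofFn (Λ x))) (contDiff_opF n k hΛ)
  have hsub : {T : SymT n m | ∃ x, (∀ j, Λ x j ≠ 0) ∧
      dl (List.ofFn (Λ x)) (toPoly (T : Ten fun _ : Fin n => m)) = 0} ⊆
      {T : SymT n m | ∃ x, Function.Surjective (opF (m := m) n k (List.ofFn (Λ x))) ∧
        opF (m := m) n k (List.ofFn (Λ x)) T = 0} := by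
    rintro T ⟨x, hx, hT⟩
    refine ⟨x, opF_surj (by rw [List.length_ofFn]; exact hn) ?_,
      (opF_eq_zero_iff (by rw [List.length_ofFn]; exact hn) T).2 hT⟩
    intro L hL
    rw [List.mem_ofFn] at hL
    obtain ⟨j, rfl⟩ := hL
    exact hx j
  refine lt_of_le_of_lt ((dimH_mono hsub).trans h) ?_
  have h1 := card_le_finrank (m := m) hn hm
  have h2 : finrank ℝ (Sym (Fin m) k → ℝ) = Fintype.card (Sym (Fin m) k) :=
    Module.finrank_fintype_fun_eq_card ℝ
  rw [h2]
  exact_mod_cast (by omega : finrank ℝ X + (finrank ℝ (SymT n m) - Fintype.card (Sym (Fin m) k))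
    < finrank ℝ (SymT n m))

end Pool.Agent.SubTyp
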