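import Pool.Agent.SubTyp.Poly

/-! The dictionary between symmetric tensors and homogeneous polynomials. -/

open MvPolynomial Module Finset

namespace Pool.Agent.SubTyp

variable {n m : ℕ}

/-- exponent vector of a multi-index. -/
noncomputable def expo (t : Fin n → Fin m) : Fin m →₀ ℕ := ∑ k, Finsupp.single (t k) 1

theorem expo_apply (t : Fin n → Fin m) (i : Fin m) :
    expo t i = Fintype.card {k // t k = i} := by
  classical
  unfold expo
  rw [Finsupp.finsetSum_apply, Fintype.card_subtype, Finset.card_filter]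
  refine Finset.sum_congr rfl fun k _ => ?_
  rw [Finsupp.single_apply]

theorem expo_comp (t : Fin n → Fin m) (σ : Equiv.Perm (Fin n)) : expo (t ∘ σ) = expo t := by
  unfold expo
  exact Equiv.sum_comp σ (fun k => Finsupp.single (t k) 1)

theorem exists_perm_of_expo_eq {t t' : Fin n → Fin m} (h : expo t = expo t') :
    ∃ σ : Equiv.Perm (Fin n), t' ∘ σ = t := by
  classical
  have hcard : ∀ i, Nonempty ({k // t k = i} ≃ {k // t' k = i}) := by
    intro i
    rw [← Fintype.card_eq]
    rw [← expo_apply, ← expo_apply, h]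
  refine ⟨Equiv.ofFiberEquiv (fun i => (hcard i).some), ?_⟩
  funext k
  exact Equiv.ofFiberEquiv_map (fun i => (hcard i).some) k

theorem degree_expo (t : Fin n → Fin m) : (expo t).degree = n := by
  unfold expo
  rw [map_sum]
  simp

theorem exists_expo_eq {d : Fin m →₀ ℕ} (hd : d.degree = n) : ∃ t : Fin n → Fin m, expo t = d := by
  subst hd
  induction d using Finsupp.induction_linear with
  | zero => exact ⟨fun k => (Fin.elim0 (by simpa using k)), by
      unfold expo
      apply Finset.sum_eq_zero
      intro k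
      exact (Fin.elim0 (by simpa using k))⟩
  | add f g hf hg =>
    obtain ⟨t, ht⟩ := hf
    obtain ⟨t', ht'⟩ := hg
    have hdeg : (f + g).degree = f.degree + g.degree := map_add _ _ _
    refine ⟨fun k => Fin.append t t' (Fin.cast hdeg k), ?_⟩
    unfold expo
    have : ∑ k : Fin (f + g).degree, Finsupp.single (Fin.append t t' (Fin.cast hdeg k)) 1
        = ∑ k : Fin (f.degree + g.degree), Finsupp.single (Fin.append t t' k) 1 :=
      Equiv.sum_comp (finCongr hdeg) (fun k => Finsupp.single (Fin.append t t' k) (1 : ℕ))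
    rw [this, Fin.sum_univ_add]
    simp only [Fin.append_left, Fin.append_right]
    unfold expo at ht ht'
    rw [ht, ht']
  | single i c =>
    refine ⟨fun _ => i, ?_⟩
    unfold expo
    rw [Finset.sum_const, Finset.card_univ, Fintype.card_fin, Finsupp.degree_single,
      Finsupp.smul_single]
    simp

/-- the polynomial of a tensor. -/
noncomputable def toPoly : Ten (fun _ : Fin n => m) →ₗ[ℝ] MvPolynomial (Fin m) ℝ where
  toFun T := ∑ t, T t • monomial (expo t) 1
  map_add' T T' := by simp [add_smul, Finset.sum_add_distrib]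
  map_smul' c T := by simp [Finset.smul_sum, mul_smul]

theorem toPoly_apply (T : Ten (fun _ : Fin n => m)) :
    toPoly T = ∑ t : Fin n → Fin m, T t • monomial (expo t) 1 := rfl

theorem coeff_toPoly (T : Ten (fun _ : Fin n => m)) (d : Fin m →₀ ℕ) :
    coeff d (toPoly T) = ∑ t with expo t = d, T t := by
  classical
  rw [toPoly_apply, coeff_sum, Finset.sum_filter]
  refine Finset.sum_congr rfl fun t _ => ?_
  rw [coeff_smul, coeff_monomial]
  simp

theorem toPoly_homog (T : Ten (fun _ : Fin n => m)) : (toPoly T).IsHomogeneous n := by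
  rw [toPoly_apply]
  refine IsHomogeneous.sum _ _ _ fun t _ => ?_
  refine (homogeneousSubmodule (Fin m) ℝ n).smul_mem _ ?_
  exact isHomogeneous_monomial _ (degree_expo t)

theorem coeff_expo_toPoly {T : Ten (fun _ : Fin n => m)} (hT : T ∈ SymT n m) (t : Fin n → Fin m) :
    coeff (expo t) (toPoly T) = (#{t' : Fin n → Fin m | expo t' = expo t} : ℝ) * T t := by
  classical
  rw [coeff_toPoly]
  have : ∀ t' ∈ ({t' : Fin n → Fin m | expo t' = expo t} : Finset _), T t' = T t := by
    intro t' ht'
    obtain ⟨σ, hσ⟩ := exists_perm_of_expo_eq (Finset.mem_filter.1 ht').2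
    rw [← hσ]
    exact hT σ t
  rw [Finset.sum_congr rfl this, Finset.sum_const, nsmul_eq_mul]

theorem card_expo_pos (t : Fin n → Fin m) :
    (0 : ℝ) < (#{t' : Fin n → Fin m | expo t' = expo t} : ℝ) := by
  classical
  have : 0 < #{t' : Fin n → Fin m | expo t' = expo t} :=
    Finset.card_pos.2 ⟨t, by simp⟩
  exact_mod_cast this

theorem toPoly_injOn {T : Ten (fun _ : Fin n => m)} (hT : T ∈ SymT n m) (h : toPoly T = 0) :
    T = 0 := by
  funext t
  have h1 := coeff_expo_toPoly hT t
  rw [h, coeff_zero] at h1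
  rcases mul_eq_zero.1 h1.symm with h2 | h2
  · exact absurd h2 (card_expo_pos t).ne'
  · exact h2

theorem exists_toPoly_eq {f : MvPolynomial (Fin m) ℝ} (hf : f.IsHomogeneous n) :
    ∃ T ∈ SymT n m, toPoly T = f := by
  classical
  let T : Ten (fun _ : Fin n => m) := fun t =>
    coeff (expo t) f / (#{t' : Fin n → Fin m | expo t' = expo t} : ℝ)
  have hT : T ∈ SymT n m := by
    intro σ t
    simp only [T]
    rw [expo_comp]
  refine ⟨T, hT, ?_⟩
  ext d
  by_cases hd : d.degree = n
  · obtain ⟨t, rfl⟩ := exists_expo_eq hd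
    rw [coeff_expo_toPoly hT]
    simp only [T]
    rw [mul_div_cancel₀ _ (card_expo_pos t).ne']
  · rw [(toPoly_homog T).coeff_eq_zero hd, hf.coeff_eq_zero hd]

theorem monomial_expo (t : Fin n → Fin m) : (monomial (expo t) 1 : MvPolynomial (Fin m) ℝ)
    = ∏ k, X (t k) := by
  unfold expo
  rw [← one_mul (∏ k, X (t k)), ← C_1]
  exact MvPolynomial.monomial_sum_index _ _ _

theorem toPoly_pure (v : Fin n → Fin m → ℝ) :
    toPoly (pureT (m := fun _ : Fin n => m) v) = ∏ k, lin (v k) := by
  classical
  rw [toPoly_apply]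
  unfold lin pureT
  rw [Finset.prod_univ_sum, Fintype.piFinset_univ]
  refine Finset.sum_congr rfl fun t _ => ?_
  rw [Finset.prod_mul_distrib, monomial_expo, ← map_prod, smul_eq_C_mul]

/-- tensors in `A ⊗ ⋯ ⊗ A` are killed by the directions annihilating `A`. -/
theorem dir_toPoly_of_mem_box {A : Submodule ℝ (Fin m → ℝ)} {L : Fin m → ℝ}
    (hL : ∀ v ∈ A, L ⬝ᵥ v = 0) {T : Ten (fun _ : Fin n => m)}
    (hT : T ∈ boxT (fun _ : Fin n => A)) : dir L (toPoly T) = 0 := by
  have : boxT (fun _ : Fin n => A) ≤ LinearMap.ker ((dir L).toLinearMap ∘ₗ toPoly) := by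
    unfold boxT
    rw [Submodule.span_le]
    rintro _ ⟨v, hv, rfl⟩
    change dir L (toPoly _) = 0
    rw [toPoly_pure]
    have h : ∀ s : Finset (Fin n), dir L (∏ k ∈ s, lin (v k)) = 0 := by
      intro s
      induction s using Finset.induction_on with
      | empty => simp
      | insert a s ha ih =>
        rw [Finset.prod_insert ha, Derivation.leibniz, ih, dir_lin, hL _ (hv a)]
        simp
    exact h _
  exact this hT

/-- the subspace annihilated by `L`. -/
def hyp (L : Fin m → ℝ) : Submodule ℝ (Fin m → ℝ) where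
  carrier := {v | L ⬝ᵥ v = 0}
  add_mem' := fun {a b} ha hb => by
    change L ⬝ᵥ (a + b) = 0
    rw [dotProduct_add, show L ⬝ᵥ a = 0 from ha, show L ⬝ᵥ b = 0 from hb, add_zero]
  zero_mem' := dotProduct_zero _
  smul_mem' := fun c v hv => by
    change L ⬝ᵥ (c • v) = 0
    rw [dotProduct_smul, show L ⬝ᵥ v = 0 from hv, smul_zero]

theorem mem_hyp {L v : Fin m → ℝ} : v ∈ hyp L ↔ L ⬝ᵥ v = 0 := Iff.rfl

/-- a symmetric tensor killed by all directions annihilating `A` lies in `A ⊗ ⋯ ⊗ A`. -/
theorem mem_box_of_dir {A : Submodule ℝ (Fin m → ℝ)} {T : Ten (fun _ : Fin n => m)}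
    (hT : T ∈ SymT n m) (h : ∀ L : Fin m → ℝ, (∀ v ∈ A, L ⬝ᵥ v = 0) → dir L (toPoly T) = 0) :
    T ∈ boxT (fun _ : Fin n => A) := by
  classical
  obtain ⟨q, hq⟩ := A.subtype.exists_leftInverse_of_injective A.ker_subtype
  let p : (Fin m → ℝ) →ₗ[ℝ] (Fin m → ℝ) := A.subtype ∘ₗ q
  have hpA : ∀ v, p v ∈ A := fun v => (q v).2
  have hp : ∀ v ∈ A, p v = v := by
    intro v hv
    have := LinearMap.congr_fun hq ⟨v, hv⟩
    simp only [LinearMap.comp_apply, Submodule.subtype_apply, LinearMap.id_apply] at this
    simp only [p, LinearMap.comp_apply, Submodule.subtype_apply]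
    rw [this]
  let e : Fin m → Fin m → ℝ := fun i => Pi.single i 1
  let T' : Ten (fun _ : Fin n => m) := ∑ t : Fin n → Fin m, T t • pureT (fun k => p (e (t k)))
  have hT' : T' ∈ boxT (fun _ : Fin n => A) := by
    refine Submodule.sum_mem _ fun t _ => Submodule.smul_mem _ _ ?_
    exact Submodule.subset_span ⟨_, fun k => hpA _, rfl⟩
  have hsym : T' ∈ SymT n m := by
    intro σ s
    simp only [T', Finset.sum_apply, Pi.smul_apply, smul_eq_mul, pureT]
    have h1 : ∑ t : Fin n → Fin m, T t * ∏ k, p (e (t k)) ((s ∘ σ) k)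
        = ∑ t : Fin n → Fin m, T (t ∘ σ) * ∏ k, p (e ((t ∘ σ) k)) ((s ∘ σ) k) :=
      (Equiv.sum_comp (Equiv.arrowCongr σ (Equiv.refl (Fin m))).symm
        (fun t : Fin n → Fin m => T t * ∏ k, p (e (t k)) ((s ∘ σ) k))).symm
    rw [h1]
    refine Finset.sum_congr rfl fun t _ => ?_
    rw [hT σ t]
    congr 1
    exact Equiv.prod_comp σ (fun k => p (e (t k)) (s k))
  let θ : MvPolynomial (Fin m) ℝ →ₐ[ℝ] MvPolynomial (Fin m) ℝ := aeval fun i => lin (p (e i))
  have hθ : toPoly T' = θ (toPoly T) := by
    simp only [T']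
    rw [map_sum, toPoly_apply T, map_sum]
    refine Finset.sum_congr rfl fun t _ => ?_
    rw [map_smul, toPoly_pure, map_smul, monomial_expo, map_prod]
    simp [θ]
  have hθf : θ (toPoly T) = toPoly T := by
    apply MvPolynomial.funext
    intro x
    have h1 : eval x (θ (toPoly T)) = eval (fun i => x ⬝ᵥ p (e i)) (toPoly T) := by
      have : ∀ f : MvPolynomial (Fin m) ℝ, eval x (θ f) = eval (fun i => x ⬝ᵥ p (e i)) f := by
        intro f
        induction f using MvPolynomial.induction_on with
        | C a => rw [algHom_C]; simp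
        | add f g hf hg => rw [map_add, map_add, hf, hg, map_add]
        | mul_X f i hf =>
          rw [map_mul, map_mul, hf, map_mul]
          congr 1
          simp only [θ, aeval_X, eval_X]
          unfold lin dotProduct
          rw [map_sum]
          refine Finset.sum_congr rfl fun j _ => ?_
          simp [mul_comm]
      exact this _
    rw [h1]
    set y : Fin m → ℝ := fun i => x ⬝ᵥ p (e i) with hy
    have hu : ∀ v ∈ A, (y - x) ⬝ᵥ v = 0 := by
      intro v hv
      have h2 : y ⬝ᵥ v = x ⬝ᵥ p v := by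
        have h3 : v = ∑ i, v i • e i := by
          have := (Pi.basisFun ℝ (Fin m)).sum_repr v
          simp only [Pi.basisFun_repr, Pi.basisFun_apply] at this
          exact this.symm
        conv_rhs => rw [h3, map_sum]
        rw [dotProduct_sum]
        unfold dotProduct
        refine Finset.sum_congr rfl fun i _ => ?_
        rw [hy]
        simp only [map_smul, Pi.smul_apply, smul_eq_mul]
        unfold dotProduct
        rw [Finset.sum_mul]
        refine Finset.sum_congr rfl fun j _ => ?_
        ring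
      rw [sub_dotProduct, h2, hp v hv, sub_self]
    have h4 := eval_add_of_dir_eq_zero (h _ hu) x
    rw [add_sub_cancel] at h4
    exact h4
  have hfin : toPoly (T' - T) = 0 := by rw [map_sub, hθ, hθf, sub_self]
  have h5 := toPoly_injOn ((SymT n m).sub_mem hsym hT) hfin
  have h6 : T' = T := sub_eq_zero.1 h5
  rw [← h6]
  exact hT'

end Pool.Agent.SubTyp
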